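import Mathlib

section

/-! Definitions for the counterexample to the generalised argument shift conjecture.
The Lie algebra is `k ⋉ V*` with `k = IK → R`, `V = V* = IV → R` (pairing: dot product). -/

namespace Pool.Agent.MP_d920b6_mp.Cx

open Matrix

abbrev Mat (R : Type*) := Matrix (Fin 4) (Fin 4) R
abbrev Vec (R : Type*) := Fin 4 → R
/-- coordinates `(g, s, s', u, n)` of `k`; 38 of them -/
abbrev IK := (Fin 4 × Fin 4) ⊕ Unit ⊕ Unit ⊕ (Fin 4 × Fin 4) ⊕ Fin 4
/-- coordinates of the `σ` part -/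
abbrev IS := Fin 2 × Fin 2 × Fin 4 × Fin 4
/-- coordinates `(w, σ, τ)` of `V`; 84 of them -/
abbrev IV := (Fin 4 × Fin 4) ⊕ IS ⊕ Fin 4
/-- all coordinates; 122 of them -/
abbrev II := IK ⊕ IV

section ring
variable {R : Type*}

def gP (X : IK → R) : Mat R := of fun i j => X (.inl (i, j))
def sP (X : IK → R) : R := X (.inr (.inl ()))
def tP (X : IK → R) : R := X (.inr (.inr (.inl ())))
def uP (X : IK → R) : Mat R := of fun i j => X (.inr (.inr (.inr (.inl (i, j)))))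
def nP (X : IK → R) : Vec R := fun i => X (.inr (.inr (.inr (.inr i))))
def mkK (g : Mat R) (s t : R) (u : Mat R) (n : Vec R) : IK → R :=
  Sum.elim (fun p => g p.1 p.2) <| Sum.elim (fun _ => s) <| Sum.elim (fun _ => t) <|
    Sum.elim (fun p => u p.1 p.2) n

def wP (v : IV → R) : Mat R := of fun i j => v (.inl (i, j))
def sgP (v : IV → R) (a b : Fin 2) : Mat R := of fun i j => v (.inr (.inl (a, b, i, j)))
def tauP (v : IV → R) : Vec R := fun i => v (.inr (.inr i))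
def mkV (w : Mat R) (σ : Fin 2 → Fin 2 → Mat R) (τ : Vec R) : IV → R :=
  Sum.elim (fun p => w p.1 p.2) <| Sum.elim (fun p => σ p.1 p.2.1 p.2.2.1 p.2.2.2) τ

def kp (x : II → R) : IK → R := fun i => x (.inl i)
def vp (x : II → R) : IV → R := fun i => x (.inr i)

def lo : Fin 2 → Fin 4 := ![0, 1]
def hi : Fin 2 → Fin 4 := ![2, 3]
/-- the first two coordinates -/
def vlo (y : Vec R) : Fin 2 → R := ![y 0, y 1]
/-- the last two coordinates -/
def vhi (y : Vec R) : Fin 2 → R := ![y 2, y 3]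
/-- drop coordinate `0` -/
def bar (ψ : Vec R) : Fin 3 → R := ![ψ 1, ψ 2, ψ 3]

variable [CommRing R]

/-- projection onto traceless matrices -/
def hat (g : Mat R) : Mat R := g - single 0 0 (trace g)
/-- projection onto skew matrices -/
def sk (σ : Mat R) : Mat R := of fun i j => if i < j then σ i j else if j < i then -σ j i else 0
def wedge (ψ χ : Vec R) : Mat R := vecMulVec ψ χ - vecMulVec χ ψ
def JJ : Mat R := diagonal ![1, 1, -1, -1]
def MM (w u : Mat R) (a b : Fin 2) : Mat R :=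
  wedge (u (lo a)) (w (hi b)) + wedge (u (hi b)) (w (lo a))

/-- the representation `Θ` of `k` on `V` -/
def act (X : IK → R) (v : IV → R) : IV → R :=
  mkV (sP X • (JJ * wP v) - wP v * hat (gP X))
    (fun a b => MM (wP v) (uP X) a b -
      ((hat (gP X))ᵀ * sk (sgP v a b) + sk (sgP v a b) * hat (gP X)))
    (sP X • (JJ *ᵥ tauP v) + tP X • tauP v + wP v *ᵥ nP X)

/-- the bracket of `k` -/
def kbr (X Y : IK → R) : IK → R :=
  mkK (hat (gP X) * hat (gP Y) - hat (gP Y) * hat (gP X)) 0 0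
    (uP X * hat (gP Y) - uP Y * hat (gP X) + sP X • (JJ * uP Y) - sP Y • (JJ * uP X))
    (hat (gP X) *ᵥ nP Y - hat (gP Y) *ᵥ nP X + tP X • nP Y - tP Y • nP X)

/-- the `V` part of the shift vector `a` -/
def aV : IV → R := mkV 1 0 0
/-- the shift vector `a` -/
def aI : II → R := Sum.elim 0 aV

/-- matrix of `X ↦ act X v` -/
def actMat (v : IV → R) : Matrix IV IK R := of fun j i => act (Pi.single i 1) v j
/-- the covector `X ↦ φ ⬝ᵥ act X v` -/
def coad (φ v : IV → R) : IK → R := φ ᵥ* actMat v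
/-- the covector `v ↦ φ ⬝ᵥ act X v` -/
def dact (φ : IV → R) (X : IK → R) : IV → R := fun j => φ ⬝ᵥ act X (Pi.single j 1)
/-- the bracket of `k ⋉ V*` -/
def lbr (Z Z' : II → R) : II → R :=
  Sum.elim (kbr (kp Z) (kp Z')) (dact (vp Z) (kp Z') - dact (vp Z') (kp Z))
/-- the form `x ([Z, Z'])` -/
def PF (x Z Z' : II → R) : R :=
  kp x ⬝ᵥ kbr (kp Z) (kp Z') + vp Z ⬝ᵥ act (kp Z') (vp x) - vp Z' ⬝ᵥ act (kp Z) (vp x)

/-- the stabiliser `k_v` -/
def kst (v : IV → R) : Submodule R (IK → R) := LinearMap.ker (actMat v).mulVecLin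

/-- matrix of `u ↦ MM w u` -/
def MMat (w : Mat R) : Matrix IS (Fin 4 × Fin 4) R :=
  of fun j i => MM w (single i.1 i.2 1) j.1 j.2.1 j.2.2.1 j.2.2.2

/-- the abelian subalgebra attached to `κ` -/
def InA (κ : Vec R) (X : IK → R) : Prop :=
  (∃ φ : Vec R, hat (gP X) = vecMulVec κ φ ∧ φ ⬝ᵥ κ = 0) ∧ sP X = 0 ∧ tP X = 0 ∧
    uP X *ᵥ κ = 0 ∧ ∃ c : R, nP X = c • κ

def tri (α β γ : Fin 3 → R) : R := α ⬝ᵥ (β ⨯₃ γ)
def rowP (p : Fin 2 → R) (w : Mat R) : Vec R := p 0 • w 0 + p 1 • w 1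
def rowM (q : Fin 2 → R) (w : Mat R) : Vec R := q 0 • w 2 + q 1 • w 3
def psi (v : IV → R) (κ : Vec R) (p q : Fin 2 → R) : Vec R :=
  ∑ a, ∑ b, (p a * q b) • (κ ᵥ* sk (sgP v a b))
/-- the biquadratic form whose zero set is the elliptic curve -/
def cc (v : IV → R) (κ : Vec R) (p q : Fin 2 → R) : R :=
  tri (bar (rowP p (wP v))) (bar (rowM q (wP v))) (bar (psi v κ p q))
def Lam (v : IV → R) (κ y φ : Vec R) : R :=
  tri (bar φ) (bar (rowP (vlo y) (wP v))) (bar (psi v κ (vlo y) (vhi y)))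
def pol (Q : (Fin 2 → R) → R) : Fin 3 → R :=
  ![Q ![1, 0], Q ![1, 1] - Q ![1, 0] - Q ![0, 1], Q ![0, 1]]
def cf (v : IV → R) (κ : Vec R) (i j : Fin 3) : R :=
  pol (fun p => pol (fun q => cc v κ p q) j) i
def mon (p : Fin 2 → R) : Fin 3 → R := ![p 0 ^ 2, p 0 * p 1, p 1 ^ 2]
def bq (c : Fin 3 → Fin 3 → R) (p q : Fin 2 → R) : R :=
  ∑ i, ∑ j, c i j * mon p i * mon q j
/-- coefficient of `q₀ ^ (2 - j) * q₁ ^ j` in `bq c ![1, X] q` -/
noncomputable def PP (c : Fin 3 → Fin 3 → R) (j : Fin 3) : Polynomial R :=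
  Polynomial.C (c 0 j) + Polynomial.C (c 1 j) * Polynomial.X +
    Polynomial.C (c 2 j) * Polynomial.X ^ 2
noncomputable def Dsc (c : Fin 3 → Fin 3 → R) : Polynomial R :=
  PP c 1 ^ 2 - 4 * PP c 2 * PP c 0

/-- `V*` element `v ↦ y ⬝ᵥ (w m)` -/
def th (y m : Vec R) : IV → R := mkV (vecMulVec y m) 0 0
/-- `k*` element `X ↦ y ⬝ᵥ (ĝ m - s J m + n)` -/
def dl (y m : Vec R) : IK → R := mkK 0 0 0 0 y - coad (th y m) aV

/-- gauge element -/
def YY (v : IV → R) (κ y y' : Vec R) (u : Mat R) : IK → R :=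
  mkK (vecMulVec κ (y' ᵥ* wP v)) 0 0 u ((y ⬝ᵥ tauP v - y' ⬝ᵥ tauP v) • κ)

/-- the equations for the `V*` part of the gauge transformation -/
def Sol (ξ Y : IK → R) (v' φ₁ φ₂ : IV → R) : Prop :=
  ∀ X : IK → R, φ₁ ⬝ᵥ act X v' + φ₂ ⬝ᵥ act X aV = ξ ⬝ᵥ kbr Y X ∧
    2 * (φ₂ ⬝ᵥ act X v') = -(ξ ⬝ᵥ kbr Y (kbr Y X))

/-- the moved point -/
def pt (ξ : IK → R) (v' φ₁ : IV → R) : II → R := Sum.elim (ξ + coad φ₁ aV) v'

/-- `ζ` starts a chain of length three for the pencil at `x` -/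
def Chain (x ζ : II → R) : Prop :=
  ∃ ζ₂ ζ₃ : II → R, ∀ Z, PF x ζ Z + PF aI ζ₂ Z = 0 ∧ PF x ζ₂ Z + PF aI ζ₃ Z = 0 ∧ PF x ζ₃ Z = 0

/-- conditions on the `w` part, with witnesses in `S` -/
structure GoodW (S : Subring R) (w : Mat R) (κ y : Vec R) : Prop where
  mw : ∀ i j, w i j ∈ S
  mκ : ∀ i, κ i ∈ S
  my : ∀ i, y i ∈ S
  κ0 : κ 0 = 1
  wκ : w *ᵥ κ = 0
  yw : y ᵥ* w = 0
  yκ : y ⬝ᵥ κ = 1
  inv : ∃ W : Mat R, (∀ i j, W i j ∈ S) ∧ W * (w + vecMulVec κ y) = 1
  ylo : ∃ e₀ ∈ S, ∃ e₁ ∈ S, y 0 * e₀ + y 1 * e₁ = 1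
  yhi : ∃ e₂ ∈ S, ∃ e₃ ∈ S, y 2 * e₂ + y 3 * e₃ = 1

/-- conditions on `v`, with witnesses in `S` -/
structure Good (S : Subring R) (v : IV → R) (κ y : Vec R) : Prop where
  gw : GoodW S (wP v) κ y
  mv : ∀ i, v i ∈ S
  xinv : ∃ x ∈ S, x * (y ⬝ᵥ tauP v) = 1
  lam : ∃ φ : Vec R, (∀ i, φ i ∈ S) ∧ φ ⬝ᵥ κ = 0 ∧ Lam v κ y φ = 1

end ring

/-- the gradient of a complex polynomial at a point with coordinates in `K` -/
noncomputable def grad {K : Type*} [CommRing K] [Algebra ℂ K] (g : MvPolynomial II ℂ)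
    (x : II → K) : II → K :=
  fun i => MvPolynomial.aeval x (MvPolynomial.pderiv i g)

/-- `g` on the line through `x` with direction `d` -/
noncomputable def lineP {K : Type*} [CommRing K] [Algebra ℂ K] (g : MvPolynomial II ℂ)
    (x d : II → K) : Polynomial K :=
  MvPolynomial.aeval (fun i => Polynomial.C (x i) + Polynomial.X * Polynomial.C (d i)) g

/-- a complete family in bi-involution, read over all extension fields -/
structure Fam where
  m : ℕ
  f : Fin m → MvPolynomial II ℂ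
  p : MvPolynomial II ℂ
  hm : 176 ≤ 2 * m
  p0 : p ≠ 0
  inv : ∀ (K : Type) [Field K] [Algebra ℂ K] (x : II → K) (i j : Fin m),
    PF x (grad (f i) x) (grad (f j) x) = 0 ∧ PF aI (grad (f i) x) (grad (f j) x) = 0
  li : ∀ (K : Type) [Field K] [Algebra ℂ K] (x : II → K), MvPolynomial.aeval x p ≠ 0 →
    LinearIndependent K fun i => grad (f i) x

/-- the open conditions on the curve data -/
structure CurveOK (c : Fin 3 → Fin 3 → ℂ) (κ y : Vec ℂ) : Prop where
  κ0 : κ 0 = 1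
  yκ : y ⬝ᵥ κ = 1
  y0 : y 0 ≠ 0
  y2 : y 2 ≠ 0
  yκ' : y 2 * κ 2 + y 3 * κ 3 ≠ 0
  cy : bq c (vlo y) (vhi y) = 0
  cA : bq c (vlo y) ![0, 1] ≠ 0
  cκ : bq c ![-κ 1, 1] ![-κ 3, κ 2] ≠ 0
  deg : (Dsc c).natDegree = 4
  sqf : IsCoprime (Dsc c) (Polynomial.derivative (Dsc c))

/-- the base point -/
structure Base (v : IV → ℂ) (κ y : Vec ℂ) : Prop where
  wκ : wP v *ᵥ κ = 0
  yw : y ᵥ* wP v = 0
  inv : ∃ W : Mat ℂ, W * (wP v + vecMulVec κ y) = 1
  x0 : y ⬝ᵥ tauP v ≠ 0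
  ok : CurveOK (cf v κ) κ y

section curve
variable {K : Type} [Field K] [Algebra ℂ K]

def Sm (y v : Vec K) : K := y 0 * v 1 - y 1 * v 0
def Sp (y v : Vec K) : K := y 3 * v 2 - y 2 * v 3

/-- a valuation ring over which the moving point `y` of the curve is regular -/
structure Chart (O : ValuationSubring K) (y v : Vec K) : Prop where
  hC : ∀ c : ℂ, algebraMap ℂ K c ∈ O
  my : ∀ i, y i ∈ O
  ylo : ∃ e₀ ∈ O, ∃ e₁ ∈ O, y 0 * e₀ + y 1 * e₁ = 1
  yhi : ∃ e₂ ∈ O, ∃ e₃ ∈ O, y 2 * e₂ + y 3 * e₃ = 1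
  mSm : Sm y v ∈ O
  mSp : Sp y v ∈ O
  smooth : ∃ μ₁ ∈ O, ∃ μ₂ ∈ O, μ₁ * Sm y v - μ₂ * Sp y v = -1

/-- the generic point `y'` of the cone over the curve, with two derivations -/
structure EC (c : Fin 3 → Fin 3 → ℂ) (κ y : Vec ℂ) (y' : Vec K)
    (D E : Derivation ℂ K K) : Prop where
  yκ : y' ⬝ᵥ (algebraMap ℂ K ∘ κ) = 1
  cy : bq (fun i j => algebraMap ℂ K (c i j)) (vlo y') (vhi y') = 0
  y0 : y' 0 ≠ 0
  y1 : y' 1 ≠ 0
  Dy : ∃ d₁ d₂ : K, d₁ ≠ d₂ ∧ D (y' 0) = d₁ * y' 0 ∧ D (y' 1) = d₁ * y' 1 ∧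
    D (y' 2) = d₂ * y' 2 ∧ D (y' 3) = d₂ * y' 3
  comm : ∀ i, D (E (y' i)) = E (D (y' i))
  E0 : E (y' 0) = 0
  gradp : ∀ p : Fin 2 → K,
    bq (fun i j => algebraMap ℂ K (c i j)) (vlo y' + p) (vhi y') -
      bq (fun i j => algebraMap ℂ K (c i j)) (vlo y' - p) (vhi y') =
      2 * Sp y' (E ∘ y') * (y' 0 * p 1 - y' 1 * p 0)
  gradq : ∀ q : Fin 2 → K,
    bq (fun i j => algebraMap ℂ K (c i j)) (vlo y') (vhi y' + q) -
      bq (fun i j => algebraMap ℂ K (c i j)) (vlo y') (vhi y' - q) =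
      2 * Sm y' (E ∘ y') * (y' 2 * q 1 - y' 3 * q 0)
  base : ∃ O : ValuationSubring K, Chart O y' (E ∘ y') ∧
    ∀ i, O.valuation (y' i - algebraMap ℂ K (y i)) < 1
  const : ∀ (a : K) (r : ℂ), D a = 0 →
    (∀ O : ValuationSubring K, Chart O y' (E ∘ y') → (y' 0)⁻¹ ∈ O → a ∈ O) →
    (∀ O : ValuationSubring K, Chart O y' (E ∘ y') → (y' 1)⁻¹ ∈ O →
      a - algebraMap ℂ K r * (E (y' 1) / y' 1) ∈ O) →
    r = 0 ∧ ∃ a₀ : ℂ, a = algebraMap ℂ K a₀

end curve

end Pool.Agent.MP_d920b6_mp.Cx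

end

section

/-! Elementary API: projections, bilinearity, pairings. -/

namespace Pool.Agent.MP_d920b6_mp.Cx

open Matrix

section proj
variable {R : Type*}

@[simp] theorem gP_mkK (g : Mat R) (s t : R) (u : Mat R) (n : Vec R) : gP (mkK g s t u n) = g := rfl
@[simp] theorem sP_mkK (g : Mat R) (s t : R) (u : Mat R) (n : Vec R) : sP (mkK g s t u n) = s := rfl
@[simp] theorem tP_mkK (g : Mat R) (s t : R) (u : Mat R) (n : Vec R) : tP (mkK g s t u n) = t := rfl
@[simp] theorem uP_mkK (g : Mat R) (s t : R) (u : Mat R) (n : Vec R) : uP (mkK g s t u n) = u := rfl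
@[simp] theorem nP_mkK (g : Mat R) (s t : R) (u : Mat R) (n : Vec R) : nP (mkK g s t u n) = n := rfl
@[simp] theorem wP_mkV (w : Mat R) (σ : Fin 2 → Fin 2 → Mat R) (τ : Vec R) :
    wP (mkV w σ τ) = w := rfl
@[simp] theorem sgP_mkV (w : Mat R) (σ : Fin 2 → Fin 2 → Mat R) (τ : Vec R) :
    sgP (mkV w σ τ) = σ := rfl
@[simp] theorem tauP_mkV (w : Mat R) (σ : Fin 2 → Fin 2 → Mat R) (τ : Vec R) :
    tauP (mkV w σ τ) = τ := rfl
@[simp] theorem kp_elim (ξ : IK → R) (v : IV → R) : kp (Sum.elim ξ v) = ξ := rfl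
@[simp] theorem vp_elim (ξ : IK → R) (v : IV → R) : vp (Sum.elim ξ v) = v := rfl
theorem elim_kp_vp (x : II → R) : Sum.elim (kp x) (vp x) = x := by
  funext i; rcases i with i | i <;> rfl

theorem mkK_eta (X : IK → R) : mkK (gP X) (sP X) (tP X) (uP X) (nP X) = X := by
  funext i; rcases i with i | i | i | i | i <;> rfl
theorem mkV_eta (v : IV → R) : mkV (wP v) (sgP v) (tauP v) = v := by
  funext i; rcases i with i | i | i <;> rfl
theorem extK {X Y : IK → R} (h1 : gP X = gP Y) (h2 : sP X = sP Y) (h3 : tP X = tP Y)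
    (h4 : uP X = uP Y) (h5 : nP X = nP Y) : X = Y := by
  rw [← mkK_eta X, h1, h2, h3, h4, h5, mkK_eta]
theorem extV {v v' : IV → R} (h1 : wP v = wP v') (h2 : ∀ a b, sgP v a b = sgP v' a b)
    (h3 : tauP v = tauP v') : v = v' := by
  rw [← mkV_eta v, h1, show sgP v = sgP v' from funext₂ h2, h3, mkV_eta]
theorem extI {x x' : II → R} (h1 : kp x = kp x') (h2 : vp x = vp x') : x = x' := by
  rw [← elim_kp_vp x, h1, h2, elim_kp_vp]

variable {S : Type*} (f : R → S)
theorem gP_comp (X : IK → R) : gP (f ∘ X) = (gP X).map f := rfl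
theorem sP_comp (X : IK → R) : sP (f ∘ X) = f (sP X) := rfl
theorem tP_comp (X : IK → R) : tP (f ∘ X) = f (tP X) := rfl
theorem uP_comp (X : IK → R) : uP (f ∘ X) = (uP X).map f := rfl
theorem nP_comp (X : IK → R) : nP (f ∘ X) = f ∘ nP X := rfl
theorem wP_comp (v : IV → R) : wP (f ∘ v) = (wP v).map f := rfl
theorem sgP_comp (v : IV → R) (a b : Fin 2) : sgP (f ∘ v) a b = (sgP v a b).map f := rfl
theorem tauP_comp (v : IV → R) : tauP (f ∘ v) = f ∘ tauP v := rfl
theorem kp_comp (x : II → R) : kp (f ∘ x) = f ∘ kp x := rfl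
theorem vp_comp (x : II → R) : vp (f ∘ x) = f ∘ vp x := rfl
theorem comp_mkK (g : Mat R) (s t : R) (u : Mat R) (n : Vec R) :
    f ∘ mkK g s t u n = mkK (g.map f) (f s) (f t) (u.map f) (f ∘ n) := extK rfl rfl rfl rfl rfl
theorem comp_mkV (w : Mat R) (σ : Fin 2 → Fin 2 → Mat R) (τ : Vec R) :
    f ∘ mkV w σ τ = mkV (w.map f) (fun a b => (σ a b).map f) (f ∘ τ) :=
  extV rfl (fun _ _ => rfl) rfl
theorem comp_elim (ξ : IK → R) (v : IV → R) :
    f ∘ Sum.elim ξ v = Sum.elim (f ∘ ξ) (f ∘ v) := extI rfl rfl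

theorem card_IK : Fintype.card IK = 38 := by simp
theorem card_IV : Fintype.card IV = 84 := by simp
theorem card_II : Fintype.card II = 122 := by simp

end proj

variable {R : Type*} [CommRing R]

section lin
variable (X Y : IK → R) (v v' : IV → R) (x x' : II → R) (c : R)
@[simp] theorem gP_add : gP (X + Y) = gP X + gP Y := rfl
@[simp] theorem sP_add : sP (X + Y) = sP X + sP Y := rfl
@[simp] theorem tP_add : tP (X + Y) = tP X + tP Y := rfl
@[simp] theorem uP_add : uP (X + Y) = uP X + uP Y := rfl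
@[simp] theorem nP_add : nP (X + Y) = nP X + nP Y := rfl
@[simp] theorem gP_sub : gP (X - Y) = gP X - gP Y := rfl
@[simp] theorem sP_sub : sP (X - Y) = sP X - sP Y := rfl
@[simp] theorem tP_sub : tP (X - Y) = tP X - tP Y := rfl
@[simp] theorem uP_sub : uP (X - Y) = uP X - uP Y := rfl
@[simp] theorem nP_sub : nP (X - Y) = nP X - nP Y := rfl
@[simp] theorem gP_neg : gP (-X) = -gP X := rfl
@[simp] theorem sP_neg : sP (-X) = -sP X := rfl
@[simp] theorem tP_neg : tP (-X) = -tP X := rfl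
@[simp] theorem uP_neg : uP (-X) = -uP X := rfl
@[simp] theorem nP_neg : nP (-X) = -nP X := rfl
@[simp] theorem gP_smul : gP (c • X) = c • gP X := rfl
@[simp] theorem sP_smul : sP (c • X) = c * sP X := rfl
@[simp] theorem tP_smul : tP (c • X) = c * tP X := rfl
@[simp] theorem uP_smul : uP (c • X) = c • uP X := rfl
@[simp] theorem nP_smul : nP (c • X) = c • nP X := rfl
@[simp] theorem gP_zero : gP (0 : IK → R) = 0 := rfl
@[simp] theorem sP_zero : sP (0 : IK → R) = 0 := rfl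
@[simp] theorem tP_zero : tP (0 : IK → R) = 0 := rfl
@[simp] theorem uP_zero : uP (0 : IK → R) = 0 := rfl
@[simp] theorem nP_zero : nP (0 : IK → R) = 0 := rfl
@[simp] theorem wP_add : wP (v + v') = wP v + wP v' := rfl
@[simp] theorem sgP_add (a b : Fin 2) : sgP (v + v') a b = sgP v a b + sgP v' a b := rfl
@[simp] theorem tauP_add : tauP (v + v') = tauP v + tauP v' := rfl
@[simp] theorem wP_sub : wP (v - v') = wP v - wP v' := rfl
@[simp] theorem sgP_sub (a b : Fin 2) : sgP (v - v') a b = sgP v a b - sgP v' a b := rfl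
@[simp] theorem tauP_sub : tauP (v - v') = tauP v - tauP v' := rfl
@[simp] theorem wP_neg : wP (-v) = -wP v := rfl
@[simp] theorem sgP_neg (a b : Fin 2) : sgP (-v) a b = -sgP v a b := rfl
@[simp] theorem tauP_neg : tauP (-v) = -tauP v := rfl
@[simp] theorem wP_smul : wP (c • v) = c • wP v := rfl
@[simp] theorem sgP_smul (a b : Fin 2) : sgP (c • v) a b = c • sgP v a b := rfl
@[simp] theorem tauP_smul : tauP (c • v) = c • tauP v := rfl
@[simp] theorem wP_zero : wP (0 : IV → R) = 0 := rfl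
@[simp] theorem sgP_zero (a b : Fin 2) : sgP (0 : IV → R) a b = 0 := rfl
@[simp] theorem tauP_zero : tauP (0 : IV → R) = 0 := rfl
@[simp] theorem kp_add : kp (x + x') = kp x + kp x' := rfl
@[simp] theorem vp_add : vp (x + x') = vp x + vp x' := rfl
@[simp] theorem kp_sub : kp (x - x') = kp x - kp x' := rfl
@[simp] theorem vp_sub : vp (x - x') = vp x - vp x' := rfl
@[simp] theorem kp_neg : kp (-x) = -kp x := rfl
@[simp] theorem vp_neg : vp (-x) = -vp x := rfl
@[simp] theorem kp_smul : kp (c • x) = c • kp x := rfl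
@[simp] theorem vp_smul : vp (c • x) = c • vp x := rfl
@[simp] theorem kp_zero : kp (0 : II → R) = 0 := rfl
@[simp] theorem vp_zero : vp (0 : II → R) = 0 := rfl
@[simp] theorem kp_aI : kp (aI : II → R) = 0 := rfl
@[simp] theorem vp_aI : vp (aI : II → R) = aV := rfl
@[simp] theorem wP_aV : wP (aV : IV → R) = 1 := rfl
@[simp] theorem sgP_aV (a b : Fin 2) : sgP (aV : IV → R) a b = 0 := rfl
@[simp] theorem tauP_aV : tauP (aV : IV → R) = 0 := rfl
@[simp] theorem kp_pt (ξ : IK → R) (φ : IV → R) : kp (pt ξ v φ) = ξ + coad φ aV := rfl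
@[simp] theorem vp_pt (ξ : IK → R) (φ : IV → R) : vp (pt ξ v φ) = v := rfl

theorem wP_act : wP (act X v) = sP X • (JJ * wP v) - wP v * hat (gP X) := rfl
theorem sgP_act (a b : Fin 2) : sgP (act X v) a b = MM (wP v) (uP X) a b -
    ((hat (gP X))ᵀ * sk (sgP v a b) + sk (sgP v a b) * hat (gP X)) := rfl
theorem tauP_act : tauP (act X v) =
    sP X • (JJ *ᵥ tauP v) + tP X • tauP v + wP v *ᵥ nP X := rfl
theorem gP_kbr : gP (kbr X Y) = hat (gP X) * hat (gP Y) - hat (gP Y) * hat (gP X) := rfl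
@[simp] theorem sP_kbr : sP (kbr X Y) = 0 := rfl
@[simp] theorem tP_kbr : tP (kbr X Y) = 0 := rfl
theorem uP_kbr : uP (kbr X Y) =
    uP X * hat (gP Y) - uP Y * hat (gP X) + sP X • (JJ * uP Y) - sP Y • (JJ * uP X) := rfl
theorem nP_kbr : nP (kbr X Y) =
    hat (gP X) *ᵥ nP Y - hat (gP Y) *ᵥ nP X + tP X • nP Y - tP Y • nP X := rfl

theorem dotK : X ⬝ᵥ Y = (∑ i, ∑ j, gP X i j * gP Y i j) + sP X * sP Y + tP X * tP Y +
    (∑ i, ∑ j, uP X i j * uP Y i j) + nP X ⬝ᵥ nP Y := by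
  simp only [dotProduct, Fintype.sum_sum_type, Fintype.sum_prod_type, Finset.univ_unique,
    Finset.sum_singleton, gP, sP, tP, uP, nP, of_apply]
  ring
theorem dotV : v ⬝ᵥ v' = (∑ i, ∑ j, wP v i j * wP v' i j) +
    (∑ a, ∑ b, ∑ i, ∑ j, sgP v a b i j * sgP v' a b i j) + tauP v ⬝ᵥ tauP v' := by
  simp only [dotProduct, Fintype.sum_sum_type, Fintype.sum_prod_type, wP, sgP, tauP, of_apply]
  ring
theorem dotI : x ⬝ᵥ x' = kp x ⬝ᵥ kp x' + vp x ⬝ᵥ vp x' := by
  simp only [dotProduct, Fintype.sum_sum_type (α₁ := IK) (α₂ := IV), kp, vp]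
end lin

section hatsk
variable (g g' : Mat R) (c : R)
@[simp] theorem hat_add : hat (g + g') = hat g + hat g' := by
  simp only [hat, trace_add, single_add]; abel
@[simp] theorem hat_smul : hat (c • g) = c • hat g := by
  simp only [hat, trace_smul, smul_sub, smul_single]
@[simp] theorem hat_zero : hat (0 : Mat R) = 0 := by simp [hat]
@[simp] theorem hat_neg : hat (-g) = -hat g := by
  have := hat_smul g (-1); simpa using this
@[simp] theorem hat_sub : hat (g - g') = hat g - hat g' := by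
  rw [sub_eq_add_neg, hat_add, hat_neg, sub_eq_add_neg]
@[simp] theorem trace_hat : trace (hat g) = 0 := by simp [hat]
theorem hat_of_trace (h : trace g = 0) : hat g = g := by simp [hat, h]
@[simp] theorem hat_hat : hat (hat g) = hat g := hat_of_trace _ (trace_hat g)
theorem hat_comm : hat (g * g' - g' * g) = g * g' - g' * g :=
  hat_of_trace _ (by rw [trace_sub, trace_mul_comm, sub_self])
theorem hat_vecMulVec (κ φ : Vec R) (h : φ ⬝ᵥ κ = 0) : hat (vecMulVec κ φ) = vecMulVec κ φ :=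
  hat_of_trace _ (by rw [trace_vecMulVec, dotProduct_comm, h])
@[simp] theorem hat_gP_kbr (X Y : IK → R) :
    hat (gP (kbr X Y)) = hat (gP X) * hat (gP Y) - hat (gP Y) * hat (gP X) := hat_comm _ _
@[simp] theorem sk_add : sk (g + g') = sk g + sk g' := by
  ext i j; simp only [sk, of_apply, Matrix.add_apply]; split_ifs <;> ring
@[simp] theorem sk_smul : sk (c • g) = c • sk g := by
  ext i j; simp only [sk, of_apply, Matrix.smul_apply, smul_eq_mul]; split_ifs <;> ring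
@[simp] theorem sk_zero : sk (0 : Mat R) = 0 := by
  ext i j; simp [sk]
@[simp] theorem sk_neg : sk (-g) = -sk g := by
  have := sk_smul g (-1); simpa using this
@[simp] theorem sk_sub : sk (g - g') = sk g - sk g' := by
  rw [sub_eq_add_neg, sk_add, sk_neg, sub_eq_add_neg]
theorem sk_transpose : (sk g)ᵀ = -sk g := by
  ext i j
  simp only [sk, of_apply, transpose_apply, Matrix.neg_apply]
  rcases lt_trichotomy i j with h | h | h
  · simp [h, h.not_gt]
  · simp [h]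
  · simp [h, h.not_gt]
theorem sk_diag (i : Fin 4) : sk g i i = 0 := by simp [sk]
theorem sk_of_skew (h : gᵀ = -g) (h' : ∀ i, g i i = 0) : sk g = g := by
  ext i j
  simp only [sk, of_apply]
  rcases lt_trichotomy i j with h1 | h1 | h1
  · simp [h1]
  · simp [h1, h']
  · have := congrFun (congrFun h i) j
    simp only [transpose_apply, Matrix.neg_apply] at this
    simp [h1, h1.not_gt, this]
theorem wedge_transpose (ψ χ : Vec R) : (wedge ψ χ)ᵀ = -wedge ψ χ := by
  ext i j; simp [wedge, vecMulVec_apply]; ring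
theorem wedge_diag (ψ χ : Vec R) (i : Fin 4) : wedge ψ χ i i = 0 := by
  simp [wedge, vecMulVec_apply]; ring
theorem JJ_mul_JJ : (JJ : Mat R) * JJ = 1 := by
  ext i j; fin_cases i <;> fin_cases j <;> simp [JJ]
theorem trace_JJ : trace (JJ : Mat R) = 0 := by simp [JJ, Fin.sum_univ_four]
theorem JJ_transpose : (JJ : Mat R)ᵀ = JJ := diagonal_transpose _
theorem MM_add_left (w w' u : Mat R) (a b : Fin 2) :
    MM (w + w') u a b = MM w u a b + MM w' u a b := by
  ext i j; simp [MM, wedge, vecMulVec_apply]; ring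
theorem MM_add_right (w u u' : Mat R) (a b : Fin 2) :
    MM w (u + u') a b = MM w u a b + MM w u' a b := by
  ext i j; simp [MM, wedge, vecMulVec_apply]; ring
theorem MM_smul_left (w u : Mat R) (a b : Fin 2) : MM (c • w) u a b = c • MM w u a b := by
  ext i j; simp [MM, wedge, vecMulVec_apply]; ring
theorem MM_smul_right (w u : Mat R) (a b : Fin 2) : MM w (c • u) a b = c • MM w u a b := by
  ext i j; simp [MM, wedge, vecMulVec_apply]; ring
theorem MM_sub_left (w w' u : Mat R) (a b : Fin 2) :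
    MM (w - w') u a b = MM w u a b - MM w' u a b := by
  ext i j; simp [MM, wedge, vecMulVec_apply]; ring
theorem MM_sub_right (w u u' : Mat R) (a b : Fin 2) :
    MM w (u - u') a b = MM w u a b - MM w u' a b := by
  ext i j; simp [MM, wedge, vecMulVec_apply]; ring
@[simp] theorem MM_zero_right (w : Mat R) (a b : Fin 2) : MM w 0 a b = 0 := by
  ext i j; simp [MM, wedge, vecMulVec_apply]
@[simp] theorem MM_zero_left (u : Mat R) (a b : Fin 2) : MM 0 u a b = 0 := by
  ext i j; simp [MM, wedge, vecMulVec_apply]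
theorem MM_self (w : Mat R) (a b : Fin 2) : MM w w a b = 0 := by
  ext i j; simp [MM, wedge, vecMulVec_apply]
theorem sk_MM (w u : Mat R) (a b : Fin 2) : sk (MM w u a b) = MM w u a b :=
  sk_of_skew _ (by rw [MM, transpose_add, wedge_transpose, wedge_transpose, neg_add])
    fun i => by rw [MM, Matrix.add_apply, wedge_diag, wedge_diag, add_zero]
end hatsk

section bil
variable (X X' Y Y' : IK → R) (v v' φ φ' : IV → R) (c : R)
theorem act_add_left : act (X + X') v = act X v + act X' v := by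
  refine extV ?_ (fun a b => ?_) ?_
  · simp only [wP_act, wP_add, sP_add, gP_add, hat_add, add_smul, Matrix.mul_add]; abel
  · simp only [sgP_act, sgP_add, uP_add, gP_add, hat_add, MM_add_right, transpose_add,
      Matrix.mul_add, Matrix.add_mul]; abel
  · simp only [tauP_act, tauP_add, sP_add, tP_add, nP_add, add_smul, mulVec_add]; abel
theorem act_smul_left : act (c • X) v = c • act X v := by
  refine extV ?_ (fun a b => ?_) ?_
  · simp only [wP_act, wP_smul, sP_smul, gP_smul, hat_smul, mul_smul, Matrix.mul_smul, smul_sub]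
  · simp only [sgP_act, sgP_smul, uP_smul, gP_smul, hat_smul, MM_smul_right, transpose_smul,
      Matrix.mul_smul, Matrix.smul_mul, smul_sub, smul_add]
  · simp only [tauP_act, tauP_smul, sP_smul, tP_smul, nP_smul, mul_smul, mulVec_smul, smul_add]
theorem act_add_right : act X (v + v') = act X v + act X v' := by
  refine extV ?_ (fun a b => ?_) ?_
  · simp only [wP_act, wP_add, smul_add, Matrix.mul_add, Matrix.add_mul]; abel
  · simp only [sgP_act, sgP_add, wP_add, sk_add, MM_add_left, Matrix.mul_add,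
      Matrix.add_mul]; abel
  · simp only [tauP_act, tauP_add, wP_add, smul_add, mulVec_add, add_mulVec]; abel
theorem act_smul_right : act X (c • v) = c • act X v := by
  refine extV ?_ (fun a b => ?_) ?_
  · simp only [wP_act, wP_smul, Matrix.mul_smul, Matrix.smul_mul, smul_sub, smul_comm c]
  · simp only [sgP_act, sgP_smul, wP_smul, sk_smul, MM_smul_left,
      Matrix.mul_smul, Matrix.smul_mul, smul_sub, smul_add]
  · simp only [tauP_act, tauP_smul, wP_smul, mulVec_smul, smul_mulVec, smul_add, smul_comm c]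
theorem kbr_add_left : kbr (X + X') Y = kbr X Y + kbr X' Y := by
  refine extK ?_ (by simp) (by simp) ?_ ?_
  · simp only [gP_kbr, gP_add, hat_add, Matrix.mul_add, Matrix.add_mul]; abel
  · simp only [uP_kbr, uP_add, gP_add, sP_add, hat_add, Matrix.mul_add, Matrix.add_mul,
      add_smul, smul_add]; abel
  · simp only [nP_kbr, nP_add, gP_add, tP_add, hat_add, mulVec_add, add_mulVec,
      add_smul, smul_add]; abel
theorem kbr_smul_left : kbr (c • X) Y = c • kbr X Y := by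
  refine extK ?_ (by simp) (by simp) ?_ ?_
  · simp only [gP_kbr, gP_smul, hat_smul, Matrix.mul_smul, Matrix.smul_mul, smul_sub]
  · simp only [uP_kbr, uP_smul, gP_smul, sP_smul, hat_smul, Matrix.mul_smul, Matrix.smul_mul,
      mul_smul, smul_add, smul_sub, smul_comm c]
  · simp only [nP_kbr, nP_smul, gP_smul, tP_smul, hat_smul, mulVec_smul, smul_mulVec,
      mul_smul, smul_add, smul_sub, smul_comm c]
theorem kbr_skew : kbr X Y = -kbr Y X := by
  refine extK ?_ (by simp) (by simp) ?_ ?_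
  · simp only [gP_kbr, gP_neg]; abel
  · simp only [uP_kbr, uP_neg]; abel
  · simp only [nP_kbr, nP_neg]; abel
theorem kbr_self : kbr X X = 0 := by
  refine extK ?_ (by simp) (by simp) ?_ ?_
  · simp only [gP_kbr, gP_zero]; abel
  · simp only [uP_kbr, uP_zero]; abel
  · simp only [nP_kbr, nP_zero]; abel
theorem kbr_add_right : kbr X (Y + Y') = kbr X Y + kbr X Y' := by
  rw [kbr_skew, kbr_add_left, neg_add, ← kbr_skew, ← kbr_skew]
theorem kbr_smul_right : kbr X (c • Y) = c • kbr X Y := by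
  rw [kbr_skew, kbr_smul_left, ← smul_neg, ← kbr_skew]

/-- `act` as a bilinear map -/
def actL : (IK → R) →ₗ[R] (IV → R) →ₗ[R] (IV → R) :=
  LinearMap.mk₂ R act act_add_left (fun c X v => act_smul_left X v c) act_add_right
    fun c X v => act_smul_right X v c
/-- `kbr` as a bilinear map -/
def kbrL : (IK → R) →ₗ[R] (IK → R) →ₗ[R] (IK → R) :=
  LinearMap.mk₂ R kbr kbr_add_left (fun c X Y => kbr_smul_left X Y c) kbr_add_right
    fun c X Y => kbr_smul_right X Y c
@[simp] theorem actL_apply : actL X v = act X v := rfl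
@[simp] theorem kbrL_apply : kbrL X Y = kbr X Y := rfl

@[simp] theorem act_zero_left : act (0 : IK → R) v = 0 := (actL (R := R)).map_zero₂ v
@[simp] theorem act_zero_right : act X (0 : IV → R) = 0 := (actL X).map_zero
theorem act_neg_left : act (-X) v = -act X v := (actL (R := R)).map_neg₂ X v
theorem act_neg_right : act X (-v) = -act X v := (actL X).map_neg v
theorem act_sub_left : act (X - X') v = act X v - act X' v := (actL (R := R)).map_sub₂ X X' v
theorem act_sub_right : act X (v - v') = act X v - act X v' := (actL X).map_sub v v'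
@[simp] theorem kbr_zero_left : kbr (0 : IK → R) Y = 0 := (kbrL (R := R)).map_zero₂ Y
@[simp] theorem kbr_zero_right : kbr X (0 : IK → R) = 0 := (kbrL X).map_zero
theorem kbr_neg_left : kbr (-X) Y = -kbr X Y := (kbrL (R := R)).map_neg₂ X Y
theorem kbr_neg_right : kbr X (-Y) = -kbr X Y := (kbrL X).map_neg Y
theorem kbr_sub_left : kbr (X - X') Y = kbr X Y - kbr X' Y := (kbrL (R := R)).map_sub₂ X X' Y
theorem kbr_sub_right : kbr X (Y - Y') = kbr X Y - kbr X Y' := (kbrL X).map_sub Y Y'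

theorem actMat_mulVec : actMat v *ᵥ X = act X v := by
  have : X = ∑ i, X i • (Pi.single i 1 : IK → R) := by
    ext j; simp [Finset.sum_apply, Pi.single_apply]
  conv_rhs => rw [this, ← actL_apply, map_sum, LinearMap.sum_apply]
  ext j
  simp only [mulVec, dotProduct, actMat, of_apply, map_smul, LinearMap.smul_apply, actL_apply,
    Finset.sum_apply, Pi.smul_apply, smul_eq_mul, mul_comm]
theorem coad_dot : coad φ v ⬝ᵥ X = φ ⬝ᵥ act X v := by
  rw [coad, ← dotProduct_mulVec, actMat_mulVec]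
theorem dact_dot : dact φ X ⬝ᵥ v = φ ⬝ᵥ act X v := by
  have : v = ∑ i, v i • (Pi.single i 1 : IV → R) := by
    ext j; simp [Finset.sum_apply, Pi.single_apply]
  conv_rhs => rw [this, ← actL_apply, map_sum, dotProduct_sum]
  simp only [map_smul, actL_apply, dotProduct_smul, smul_eq_mul]
  simp only [dotProduct, dact, mul_comm]
theorem mem_kst : X ∈ kst v ↔ act X v = 0 := by
  rw [kst, LinearMap.mem_ker, mulVecLin_apply, actMat_mulVec]
theorem eq_of_dotK {ξ ξ' : IK → R} (h : ∀ X, ξ ⬝ᵥ X = ξ' ⬝ᵥ X) : ξ = ξ' := by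
  ext i; simpa using h (Pi.single i 1)
theorem eq_of_dotV {φ φ' : IV → R} (h : ∀ v, φ ⬝ᵥ v = φ' ⬝ᵥ v) : φ = φ' := by
  ext i; simpa using h (Pi.single i 1)
theorem coad_add_left : coad (φ + φ') v = coad φ v + coad φ' v := add_vecMul _ _ _
theorem coad_sub_left : coad (φ - φ') v = coad φ v - coad φ' v := sub_vecMul _ _ _
theorem coad_smul_left : coad (c • φ) v = c • coad φ v := smul_vecMul _ _ _
@[simp] theorem coad_zero_left : coad (0 : IV → R) v = 0 := zero_vecMul _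
theorem actMat_add : actMat (v + v') = actMat v + actMat v' := by
  ext j i; simp [actMat, act_add_right]
theorem actMat_smul : actMat (c • v) = c • actMat v := by
  ext j i; simp [actMat, act_smul_right]
theorem act_aV : act X aV = mkV (sP X • JJ - hat (gP X)) (MM 1 (uP X)) (nP X) := by
  refine extV ?_ (fun a b => ?_) ?_
  · simp [wP_act]
  · simp [sgP_act]
  · simp [tauP_act]
theorem th_dot (y m : Vec R) : th y m ⬝ᵥ v = y ⬝ᵥ (wP v *ᵥ m) := by
  rw [dotV]
  simp only [th, wP_mkV, sgP_mkV, tauP_mkV, Pi.zero_apply, Matrix.zero_apply, zero_mul,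
    Finset.sum_const_zero, add_zero, vecMulVec_apply, dotProduct, mulVec,
    Finset.mul_sum]
  exact Finset.sum_congr rfl fun i _ => Finset.sum_congr rfl fun j _ => by ring
theorem dl_dot (y m : Vec R) :
    dl y m ⬝ᵥ X = y ⬝ᵥ (hat (gP X) *ᵥ m - sP X • (JJ *ᵥ m) + nP X) := by
  rw [dl, sub_dotProduct, coad_dot, th_dot, act_aV, dotK]
  simp only [gP_mkK, sP_mkK, tP_mkK, uP_mkK, nP_mkK, Matrix.zero_apply, zero_mul, Finset.sum_const_zero,
    zero_add, wP_mkV, sub_mulVec, smul_mulVec, dotProduct_sub, dotProduct_add]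
  ring
theorem MMat_mulVec (w u : Mat R) (j : IS) :
    (MMat w *ᵥ fun i => u i.1 i.2) j = MM w u j.1 j.2.1 j.2.2.1 j.2.2.2 := by
  obtain ⟨a, b, i, j⟩ := j
  simp only [MMat, mulVec, dotProduct, of_apply, Fintype.sum_prod_type, MM, wedge, Matrix.add_apply,
    Matrix.sub_apply, vecMulVec_apply, single_apply, ite_mul, one_mul, zero_mul, mul_ite, mul_one,
    mul_zero, add_mul, sub_mul, Finset.sum_add_distrib, Finset.sum_sub_distrib, ite_and,
    Finset.sum_ite_irrel, Finset.sum_ite_eq', Finset.mem_univ, if_true, Finset.sum_const_zero]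
  ring

variable (x x' Z Z' Z'' : II → R)
theorem PF_skew : PF x Z Z' = -PF x Z' Z := by
  rw [PF, PF, kbr_skew, dotProduct_neg]; ring
theorem PF_self : PF x Z Z = 0 := by simp [PF, kbr_self]
theorem PF_add_left : PF x (Z + Z') Z'' = PF x Z Z'' + PF x Z' Z'' := by
  simp only [PF, kp_add, vp_add, kbr_add_left, act_add_left, dotProduct_add, add_dotProduct]; ring
theorem PF_smul_left : PF x (c • Z) Z' = c * PF x Z Z' := by
  simp only [PF, kp_smul, vp_smul, kbr_smul_left, act_smul_left, dotProduct_smul,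
    smul_dotProduct, smul_eq_mul]; ring
theorem PF_add_right : PF x Z (Z' + Z'') = PF x Z Z' + PF x Z Z'' := by
  rw [PF_skew, PF_add_left, PF_skew x Z', PF_skew x Z'']; ring
theorem PF_smul_right : PF x Z (c • Z') = c * PF x Z Z' := by
  rw [PF_skew, PF_smul_left, PF_skew x Z']; ring
theorem PF_add_pt : PF (x + x') Z Z' = PF x Z Z' + PF x' Z Z' := by
  simp only [PF, kp_add, vp_add, act_add_right, dotProduct_add, add_dotProduct]; ring
theorem PF_smul_pt : PF (c • x) Z Z' = c * PF x Z Z' := by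
  simp only [PF, kp_smul, vp_smul, act_smul_right, dotProduct_smul,
    smul_dotProduct, smul_eq_mul]; ring
theorem PF_eq_lbr : PF x Z Z' = x ⬝ᵥ lbr Z Z' := by
  rw [dotI, lbr, kp_elim, vp_elim, dotProduct_sub, dotProduct_comm (vp x),
    dotProduct_comm (vp x), dact_dot, dact_dot, PF]; ring
theorem PF_aI : PF aI Z Z' = vp Z ⬝ᵥ act (kp Z') aV - vp Z' ⬝ᵥ act (kp Z) aV := by
  simp [PF]

/-- `PF x` as a bilinear form -/
def PFL (x : II → R) : LinearMap.BilinForm R (II → R) :=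
  LinearMap.mk₂ R (PF x) (PF_add_left x) (fun c Z Z' => PF_smul_left c x Z Z') (PF_add_right x)
    fun c Z Z' => PF_smul_right c x Z Z'
@[simp] theorem PFL_apply : PFL x Z Z' = PF x Z Z' := rfl
theorem PF_sub_left : PF x (Z - Z') Z'' = PF x Z Z'' - PF x Z' Z'' := (PFL x).map_sub₂ Z Z' Z''
theorem PF_sub_right : PF x Z (Z' - Z'') = PF x Z Z' - PF x Z Z'' := (PFL x Z).map_sub Z' Z''
@[simp] theorem PF_zero_left : PF x 0 Z = 0 := (PFL x).map_zero₂ Z
@[simp] theorem PF_zero_right : PF x Z 0 = 0 := (PFL x Z).map_zero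
end bil

end Pool.Agent.MP_d920b6_mp.Cx

end

section

/-! Naturality: ring homomorphisms, derivations, subrings, valuation rings. -/

namespace Pool.Agent.MP_d920b6_mp.Cx

open Matrix

section add
variable {R R' F : Type*} [CommRing R] [CommRing R'] [FunLike F R R'] [AddMonoidHomClass F R R']
  (f : F)

theorem xNat_hat (g : Mat R) : (hat g).map f = hat (g.map f) := by
  ext i j
  simp only [hat, map_apply, Matrix.sub_apply, map_sub, single_apply, trace, diag_apply]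
  split_ifs <;> simp [map_sum]
theorem xNat_sk (g : Mat R) : (sk g).map f = sk (g.map f) := by
  ext i j
  simp only [sk, map_apply, of_apply]
  split_ifs <;> simp
theorem xNat_add (g g' : Mat R) : (g + g').map f = g.map f + g'.map f := by
  ext i j; simp
theorem xNat_sub (g g' : Mat R) : (g - g').map f = g.map f - g'.map f := by
  ext i j; simp
theorem xNat_zero : (0 : Mat R).map f = 0 := by
  ext i j; simp
theorem xNat_cadd {ι : Type*} (a b : ι → R) : f ∘ (a + b) = f ∘ a + f ∘ b := by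
  ext i; simp
theorem xNat_csub {ι : Type*} (a b : ι → R) : f ∘ (a - b) = f ∘ a - f ∘ b := by
  ext i; simp
theorem xNat_czero {ι : Type*} : f ∘ (0 : ι → R) = 0 := by
  ext i; simp
end add

section hom
variable {R R' : Type*} [CommRing R] [CommRing R'] (f : R →+* R')

theorem xNat_smul (c : R) (g : Mat R) : (c • g).map f = f c • g.map f := by
  ext i j; simp
theorem xNat_csmul {ι : Type*} (c : R) (a : ι → R) : f ∘ (c • a) = f c • (f ∘ a) := by
  ext i; simp
theorem xNat_mulVec (M : Mat R) (m : Vec R) : f ∘ (M *ᵥ m) = M.map f *ᵥ (f ∘ m) := by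
  ext i; exact RingHom.map_mulVec f M m i
theorem xNat_vecMul {ι κ : Type*} [Fintype ι] (M : Matrix ι κ R) (m : ι → R) :
    f ∘ (m ᵥ* M) = (f ∘ m) ᵥ* M.map f := by
  ext i; exact RingHom.map_vecMul f M m i
theorem xNat_vmv (a b : Vec R) : (vecMulVec a b).map f = vecMulVec (f ∘ a) (f ∘ b) := by
  ext i j; simp [vecMulVec_apply]
theorem xNat_single {ι : Type*} [DecidableEq ι] (i : ι) :
    f ∘ (Pi.single i 1 : ι → R) = Pi.single i 1 := by
  ext j; simp [Pi.single_apply, apply_ite f]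

theorem hat_map (g : Mat R) : (hat g).map f = hat (g.map f) := xNat_hat f g
theorem sk_map (g : Mat R) : (sk g).map f = sk (g.map f) := xNat_sk f g
theorem JJ_map : (JJ : Mat R).map f = JJ := by
  ext i j; fin_cases i <;> fin_cases j <;> simp [JJ]
theorem MM_map (w u : Mat R) (a b : Fin 2) :
    (MM w u a b).map f = MM (w.map f) (u.map f) a b := by
  ext i j; simp [MM, wedge, vecMulVec_apply]
theorem comp_act (X : IK → R) (v : IV → R) : f ∘ act X v = act (f ∘ X) (f ∘ v) := by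
  refine extV ?_ (fun a b => ?_) ?_
  · simp only [wP_comp, wP_act, sP_comp, gP_comp, xNat_sub, xNat_smul, Matrix.map_mul, JJ_map,
      hat_map]
  · simp only [sgP_comp, sgP_act, wP_comp, uP_comp, gP_comp, xNat_sub, xNat_add, Matrix.map_mul,
      MM_map, sk_map, transpose_map, hat_map]
  · simp only [tauP_comp, tauP_act, wP_comp, sP_comp, tP_comp, nP_comp, xNat_cadd, xNat_csmul,
      xNat_mulVec, JJ_map]
theorem comp_kbr (X Y : IK → R) : f ∘ kbr X Y = kbr (f ∘ X) (f ∘ Y) := by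
  refine extK ?_ (by simp [sP_comp]) (by simp [tP_comp]) ?_ ?_
  · simp only [gP_comp, gP_kbr, xNat_sub, Matrix.map_mul, hat_map]
  · simp only [uP_comp, uP_kbr, gP_comp, sP_comp, xNat_sub, xNat_add, xNat_smul, Matrix.map_mul,
      hat_map, JJ_map]
  · simp only [nP_comp, nP_kbr, gP_comp, tP_comp, xNat_csub, xNat_cadd, xNat_csmul, xNat_mulVec,
      hat_map]
theorem comp_aV : f ∘ (aV : IV → R) = aV := by
  refine extV ?_ (fun a b => ?_) ?_
  · rw [wP_comp, wP_aV, wP_aV, Matrix.map_one _ f.map_zero f.map_one]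
  · rw [sgP_comp, sgP_aV, sgP_aV, xNat_zero]
  · rw [tauP_comp, tauP_aV, tauP_aV, xNat_czero]
theorem comp_aI : f ∘ (aI : II → R) = aI := by
  rw [aI, comp_elim, comp_aV, xNat_czero, aI]
theorem actMat_map (v : IV → R) : (actMat v).map f = actMat (f ∘ v) := by
  ext j i
  have := congrFun (comp_act f (Pi.single i 1) v) j
  rw [xNat_single] at this
  exact this
theorem MMat_map (w : Mat R) : (MMat w).map f = MMat (w.map f) := by
  ext j i
  have := congrFun (congrFun (MM_map f w (single i.1 i.2 1) j.1 j.2.1) j.2.2.1) j.2.2.2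
  rw [Matrix.map_single, f.map_one] at this
  exact this
theorem comp_coad (φ v : IV → R) : f ∘ coad φ v = coad (f ∘ φ) (f ∘ v) := by
  rw [coad, xNat_vecMul, actMat_map, coad]
theorem map_PF (x Z Z' : II → R) : f (PF x Z Z') = PF (f ∘ x) (f ∘ Z) (f ∘ Z') := by
  simp only [PF, map_sub, map_add, RingHom.map_dotProduct, comp_act, comp_kbr, kp_comp, vp_comp]
theorem xNat_tri (a b c : Vec R) :
    f (tri (bar a) (bar b) (bar c)) = tri (bar (f ∘ a)) (bar (f ∘ b)) (bar (f ∘ c)) := by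
  simp [tri, bar, dotProduct, Fin.sum_univ_three, cross_apply]
theorem xNat_rowP (p : Fin 2 → R) (w : Mat R) : f ∘ rowP p w = rowP (f ∘ p) (w.map f) := by
  ext i; simp [rowP]
theorem xNat_rowM (p : Fin 2 → R) (w : Mat R) : f ∘ rowM p w = rowM (f ∘ p) (w.map f) := by
  ext i; simp [rowM]
theorem xNat_psi (v : IV → R) (κ : Vec R) (p q : Fin 2 → R) :
    f ∘ psi v κ p q = psi (f ∘ v) (f ∘ κ) (f ∘ p) (f ∘ q) := by
  simp only [psi, Fin.sum_univ_two, xNat_cadd, xNat_csmul, xNat_vecMul, sk_map, sgP_comp, map_mul,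
    Function.comp_apply]
theorem xNat_vec2 (a b : R) : f ∘ ![a, b] = ![f a, f b] := by
  ext i; fin_cases i <;> rfl
theorem map_cc (v : IV → R) (κ : Vec R) (p q : Fin 2 → R) :
    f (cc v κ p q) = cc (f ∘ v) (f ∘ κ) (f ∘ p) (f ∘ q) := by
  rw [cc, xNat_tri, xNat_rowP, xNat_rowM, xNat_psi, cc, wP_comp]
theorem map_Lam (v : IV → R) (κ y φ : Vec R) :
    f (Lam v κ y φ) = Lam (f ∘ v) (f ∘ κ) (f ∘ y) (f ∘ φ) := by
  rw [Lam, xNat_tri, xNat_rowP, xNat_psi, vlo, vhi, xNat_vec2, xNat_vec2]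
  rfl
theorem map_cf (v : IV → R) (κ : Vec R) (i j : Fin 3) :
    f (cf v κ i j) = cf (f ∘ v) (f ∘ κ) i j := by
  fin_cases i <;> fin_cases j <;> simp [cf, pol, map_cc, xNat_vec2]
theorem map_bq (c : Fin 3 → Fin 3 → R) (p q : Fin 2 → R) :
    f (bq c p q) = bq (fun i j => f (c i j)) (f ∘ p) (f ∘ q) := by
  simp [bq, mon, Fin.sum_univ_three]
theorem map_Dsc (c : Fin 3 → Fin 3 → R) :
    (Dsc c).map f = Dsc fun i j => f (c i j) := by
  simp [Dsc, PP]
theorem comp_th (y m : Vec R) : f ∘ th y m = th (f ∘ y) (f ∘ m) := by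
  refine extV ?_ (fun a b => ?_) ?_
  · exact xNat_vmv f y m
  · exact xNat_zero f
  · exact xNat_czero f
theorem comp_dl (y m : Vec R) : f ∘ dl y m = dl (f ∘ y) (f ∘ m) := by
  rw [dl, xNat_csub, comp_coad, comp_th, comp_aV, comp_mkK, xNat_zero, f.map_zero, dl]

theorem xNat_goodW {S : Subring R} {w : Mat R} {κ y : Vec R} (h : GoodW S w κ y) :
    GoodW ⊤ (w.map f) (f ∘ κ) (f ∘ y) := by
  obtain ⟨W, -, hW⟩ := h.inv
  obtain ⟨e₀, -, e₁, -, h1⟩ := h.ylo
  obtain ⟨e₂, -, e₃, -, h2⟩ := h.yhi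
  refine ⟨fun _ _ => trivial, fun _ => trivial, fun _ => trivial, ?_, ?_, ?_, ?_,
    ⟨W.map f, fun _ _ => trivial, ?_⟩, ⟨f e₀, trivial, f e₁, trivial, ?_⟩,
    ⟨f e₂, trivial, f e₃, trivial, ?_⟩⟩
  · simp [h.κ0]
  · rw [← xNat_mulVec, h.wκ, xNat_czero]
  · rw [← xNat_vecMul, h.yw, xNat_czero]
  · rw [← RingHom.map_dotProduct, h.yκ, f.map_one]
  · rw [← xNat_vmv, ← xNat_add, ← Matrix.map_mul, hW, Matrix.map_one _ f.map_zero f.map_one]
  · simpa using congrArg f h1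
  · simpa using congrArg f h2

theorem xNat_good {S : Subring R} {v : IV → R} {κ y : Vec R} (h : Good S v κ y) :
    Good ⊤ (f ∘ v) (f ∘ κ) (f ∘ y) := by
  obtain ⟨x, -, hx⟩ := h.xinv
  obtain ⟨φ, -, h1, h2⟩ := h.lam
  refine ⟨xNat_goodW f h.gw, fun _ => trivial, ⟨f x, trivial, ?_⟩,
    ⟨f ∘ φ, fun _ => trivial, ?_, ?_⟩⟩
  · rw [tauP_comp, ← RingHom.map_dotProduct, ← map_mul, hx, f.map_one]
  · rw [← RingHom.map_dotProduct, h1, f.map_zero]
  · rw [← map_Lam, h2, f.map_one]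

theorem xNat_liftW {S : Subring R} {w : Mat R} {κ y : Vec R} (h : GoodW S w κ y) :
    GoodW (R := S) ⊤ (of fun i j => ⟨w i j, h.mw i j⟩) (fun i => ⟨κ i, h.mκ i⟩)
      fun i => ⟨y i, h.my i⟩ := by
  obtain ⟨W, mW, hW⟩ := h.inv
  obtain ⟨e₀, m₀, e₁, m₁, h1⟩ := h.ylo
  obtain ⟨e₂, m₂, e₃, m₃, h2⟩ := h.yhi
  refine ⟨fun _ _ => trivial, fun _ => trivial, fun _ => trivial, Subtype.ext h.κ0, ?_, ?_, ?_,
    ⟨of fun i j => ⟨W i j, mW i j⟩, fun _ _ => trivial, ?_⟩,
    ⟨⟨e₀, m₀⟩, trivial, ⟨e₁, m₁⟩, trivial, Subtype.ext h1⟩,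
    ⟨⟨e₂, m₂⟩, trivial, ⟨e₃, m₃⟩, trivial, Subtype.ext h2⟩⟩
  · funext i
    apply S.subtype_injective
    rw [RingHom.map_mulVec]
    exact congrFun h.wκ i
  · funext i
    apply S.subtype_injective
    rw [RingHom.map_vecMul]
    exact congrFun h.yw i
  · apply S.subtype_injective
    rw [RingHom.map_dotProduct]
    exact h.yκ
  · apply Matrix.map_injective S.subtype_injective
    simp only
    rw [Matrix.map_mul, xNat_add, xNat_vmv,
      Matrix.map_one _ S.subtype.map_zero S.subtype.map_one]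
    exact hW

theorem xNat_lift {S : Subring R} {v : IV → R} {κ y : Vec R} (h : Good S v κ y) :
    Good (R := S) ⊤ (fun i => ⟨v i, h.mv i⟩) (fun i => ⟨κ i, h.gw.mκ i⟩)
      fun i => ⟨y i, h.gw.my i⟩ := by
  obtain ⟨x, mx, hx⟩ := h.xinv
  obtain ⟨φ, mφ, h1, h2⟩ := h.lam
  refine ⟨xNat_liftW h.gw, fun _ => trivial, ⟨⟨x, mx⟩, trivial, ?_⟩,
    ⟨fun i => ⟨φ i, mφ i⟩, fun _ => trivial, ?_, ?_⟩⟩
  · apply S.subtype_injective
    rw [map_mul, RingHom.map_dotProduct]
    exact hx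
  · apply S.subtype_injective
    rw [RingHom.map_dotProduct]
    exact h1
  · apply S.subtype_injective
    rw [map_Lam]
    exact h2

/-- reduce `GoodW` data along a homomorphism defined on the subring -/
theorem GoodW.res {S : Subring R} {w : Mat R} {κ y : Vec R} (h : GoodW S w κ y) (ρ : S →+* R') :
    GoodW ⊤ (of fun i j => ρ ⟨w i j, h.mw i j⟩) (fun i => ρ ⟨κ i, h.mκ i⟩)
      fun i => ρ ⟨y i, h.my i⟩ := xNat_goodW ρ (xNat_liftW h)
theorem Good.res {S : Subring R} {v : IV → R} {κ y : Vec R} (h : Good S v κ y) (ρ : S →+* R') :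
    Good ⊤ (fun i => ρ ⟨v i, h.mv i⟩) (fun i => ρ ⟨κ i, h.gw.mκ i⟩)
      fun i => ρ ⟨y i, h.gw.my i⟩ := xNat_good ρ (xNat_lift h)
theorem GoodW.top {S : Subring R} {w : Mat R} {κ y : Vec R} (h : GoodW S w κ y) :
    GoodW ⊤ w κ y := xNat_goodW (RingHom.id R) h
theorem Good.top {S : Subring R} {v : IV → R} {κ y : Vec R} (h : Good S v κ y) :
    Good ⊤ v κ y := xNat_good (RingHom.id R) h
end hom

section der
variable {A R : Type*} [CommRing A] [CommRing R] [Algebra A R] (D : Derivation A R R)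

theorem xNat_dmul1 (a b : R) : D (a * b) = D a * b + a * D b := by
  rw [D.leibniz, smul_eq_mul, smul_eq_mul]; ring

theorem der_dot {ι : Type*} [Fintype ι] (a b : ι → R) :
    D (a ⬝ᵥ b) = (D ∘ a) ⬝ᵥ b + a ⬝ᵥ (D ∘ b) := by
  simp only [dotProduct, map_sum, xNat_dmul1, Finset.sum_add_distrib, Function.comp_apply]
theorem xNat_dmul (M N : Mat R) : (M * N).map D = M.map D * N + M * N.map D := by
  ext i j
  simp only [map_apply, mul_apply, Matrix.add_apply, map_sum, xNat_dmul1, Finset.sum_add_distrib]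
theorem xNat_dsmul (c : R) (M : Mat R) : (c • M).map D = D c • M + c • M.map D := by
  ext i j
  simp only [map_apply, Matrix.smul_apply, Matrix.add_apply, smul_eq_mul, xNat_dmul1]
theorem xNat_dcsmul {ι : Type*} (c : R) (a : ι → R) : D ∘ (c • a) = D c • a + c • (D ∘ a) := by
  ext i
  simp only [Function.comp_apply, Pi.smul_apply, Pi.add_apply, smul_eq_mul, xNat_dmul1]
theorem xNat_dJJ : (JJ : Mat R).map D = 0 := by
  ext i j; fin_cases i <;> fin_cases j <;> simp [JJ]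
theorem xNat_dMM (w u : Mat R) (a b : Fin 2) :
    (MM w u a b).map D = MM w (u.map D) a b + MM (w.map D) u a b := by
  ext i j
  simp only [MM, wedge, map_apply, Matrix.add_apply, Matrix.sub_apply, vecMulVec_apply, map_add,
    map_sub, xNat_dmul1]
  ring
theorem xNat_dmulVec (M : Mat R) (m : Vec R) :
    D ∘ (M *ᵥ m) = M.map D *ᵥ m + M *ᵥ (D ∘ m) := by
  ext i; exact der_dot D _ _
theorem xNat_dsingle {ι : Type*} [DecidableEq ι] (i : ι) :
    D ∘ (Pi.single i 1 : ι → R) = 0 := by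
  ext j; simp [Pi.single_apply, apply_ite D]
theorem der_act (X : IK → R) (v : IV → R) :
    D ∘ act X v = act (D ∘ X) v + act X (D ∘ v) := by
  refine extV ?_ (fun a b => ?_) ?_
  · simp only [wP_comp, wP_act, wP_add, sP_comp, gP_comp, xNat_sub, xNat_dsmul, xNat_dmul,
      xNat_dJJ, xNat_hat, Matrix.zero_mul, zero_add]
    abel
  · simp only [sgP_comp, sgP_act, sgP_add, wP_comp, uP_comp, gP_comp, xNat_sub, xNat_add,
      xNat_dmul, xNat_dMM, xNat_sk, transpose_map, xNat_hat]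
    abel
  · simp only [tauP_comp, tauP_act, tauP_add, wP_comp, sP_comp, tP_comp, nP_comp, xNat_cadd,
      xNat_dcsmul, xNat_dmulVec, xNat_dJJ, zero_mulVec, zero_add]
    abel
theorem der_kbr (X Y : IK → R) : D ∘ kbr X Y = kbr (D ∘ X) Y + kbr X (D ∘ Y) := by
  refine extK ?_ (by simp [sP_comp]) (by simp [tP_comp]) ?_ ?_
  · simp only [gP_comp, gP_kbr, gP_add, xNat_sub, xNat_dmul, xNat_hat]
    abel
  · simp only [uP_comp, uP_kbr, uP_add, gP_comp, sP_comp, xNat_sub, xNat_add, xNat_dsmul,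
      xNat_dmul, xNat_hat, xNat_dJJ, Matrix.zero_mul, zero_add]
    abel
  · simp only [nP_comp, nP_kbr, nP_add, gP_comp, tP_comp, xNat_csub, xNat_cadd, xNat_dcsmul,
      xNat_dmulVec, xNat_hat]
    abel
theorem der_aV : D ∘ (aV : IV → R) = 0 := by
  refine extV ?_ (fun a b => ?_) ?_
  · rw [wP_comp, wP_aV, wP_zero]
    ext i j
    simp [one_apply, apply_ite D]
  · rw [sgP_comp, sgP_aV, sgP_zero, xNat_zero]
  · rw [tauP_comp, tauP_aV, tauP_zero, xNat_czero]
theorem der_aI : D ∘ (aI : II → R) = 0 := by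
  rw [aI, comp_elim, der_aV, xNat_czero]
  exact extI rfl rfl
theorem der_coad (φ v : IV → R) : D ∘ coad φ v = coad (D ∘ φ) v + coad φ (D ∘ v) := by
  have e : ∀ (φ v : IV → R) (i : IK), coad φ v i = φ ⬝ᵥ act (Pi.single i 1) v := fun _ _ _ => rfl
  ext i
  rw [Function.comp_apply, Pi.add_apply, e, e, e, der_dot, der_act, xNat_dsingle, act_zero_left,
    zero_add]
theorem der_mulVec (M : Mat R) (m : Vec R) :
    D ∘ (M *ᵥ m) = M.map D *ᵥ m + M *ᵥ (D ∘ m) := xNat_dmulVec D M m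
theorem der_vecMul (M : Mat R) (m : Vec R) :
    D ∘ (m ᵥ* M) = (D ∘ m) ᵥ* M + m ᵥ* M.map D := by
  ext i; exact der_dot D _ _
theorem InA.der {κ : Vec R} (hκ : D ∘ κ = 0) {X : IK → R} (h : InA κ X) : InA κ (D ∘ X) := by
  obtain ⟨⟨φ, h1, h2⟩, h3, h4, h5, c, h6⟩ := h
  have hk : ∀ i, D (κ i) = 0 := congrFun hκ
  refine ⟨⟨D ∘ φ, ?_, ?_⟩, ?_, ?_, ?_, D c, ?_⟩
  · rw [gP_comp, ← xNat_hat, h1]
    ext i j
    simp [vecMulVec_apply, hk]
  · have := der_dot D φ κ
    rw [h2, hκ, map_zero, dotProduct_zero, add_zero] at this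
    exact this.symm
  · rw [sP_comp, h3, map_zero]
  · rw [tP_comp, h4, map_zero]
  · have := der_mulVec D (uP X) κ
    rw [h5, hκ, xNat_czero, mulVec_zero, add_zero] at this
    exact this.symm
  · rw [nP_comp, h6, xNat_dcsmul, hκ, smul_zero, add_zero]
end der

section mem
variable {R : Type*} [CommRing R] {S : Subring R}

theorem dot_mem {ι : Type*} [Fintype ι] {a b : ι → R} (ha : ∀ i, a i ∈ S) (hb : ∀ i, b i ∈ S) :
    a ⬝ᵥ b ∈ S := S.sum_mem fun i _ => S.mul_mem (ha i) (hb i)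
theorem xNat_mem {ι : Type*} {a : ι → R} {b : ι → S} (h : S.subtype ∘ b = a) (i : ι) :
    a i ∈ S := h ▸ (b i).2
theorem act_mem {X : IK → R} {v : IV → R} (hX : ∀ i, X i ∈ S) (hv : ∀ i, v i ∈ S) (i : IV) :
    act X v i ∈ S :=
  xNat_mem (comp_act S.subtype (fun i => ⟨X i, hX i⟩) fun i => ⟨v i, hv i⟩) i
theorem kbr_mem {X Y : IK → R} (hX : ∀ i, X i ∈ S) (hY : ∀ i, Y i ∈ S) (i : IK) :
    kbr X Y i ∈ S :=
  xNat_mem (comp_kbr S.subtype (fun i => ⟨X i, hX i⟩) fun i => ⟨Y i, hY i⟩) i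
theorem aV_mem (i : IV) : (aV : IV → R) i ∈ S := xNat_mem (comp_aV S.subtype) i
theorem aI_mem (i : II) : (aI : II → R) i ∈ S := xNat_mem (comp_aI S.subtype) i
theorem coad_mem {φ v : IV → R} (hφ : ∀ i, φ i ∈ S) (hv : ∀ i, v i ∈ S) (i : IK) :
    coad φ v i ∈ S :=
  xNat_mem (comp_coad S.subtype (fun i => ⟨φ i, hφ i⟩) fun i => ⟨v i, hv i⟩) i
theorem mkK_mem {g u : Mat R} {s t : R} {n : Vec R} (hg : ∀ i j, g i j ∈ S) (hs : s ∈ S)
    (ht : t ∈ S) (hu : ∀ i j, u i j ∈ S) (hn : ∀ i, n i ∈ S) (i : IK) : mkK g s t u n i ∈ S := by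
  rcases i with i | i | i | i | i
  exacts [hg _ _, hs, ht, hu _ _, hn _]
theorem th_mem {y m : Vec R} (hy : ∀ i, y i ∈ S) (hm : ∀ i, m i ∈ S) (i : IV) :
    th y m i ∈ S :=
  xNat_mem (comp_th S.subtype (fun i => ⟨y i, hy i⟩) fun i => ⟨m i, hm i⟩) i
theorem dl_mem {y m : Vec R} (hy : ∀ i, y i ∈ S) (hm : ∀ i, m i ∈ S) (i : IK) :
    dl y m i ∈ S :=
  xNat_mem (comp_dl S.subtype (fun i => ⟨y i, hy i⟩) fun i => ⟨m i, hm i⟩) i
theorem mulVec_mem {M : Mat R} {m : Vec R} (hM : ∀ i j, M i j ∈ S) (hm : ∀ i, m i ∈ S)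
    (i : Fin 4) : (M *ᵥ m) i ∈ S := dot_mem (hM i) hm
theorem vecMul_mem {M : Mat R} {m : Vec R} (hM : ∀ i j, M i j ∈ S) (hm : ∀ i, m i ∈ S)
    (i : Fin 4) : (m ᵥ* M) i ∈ S := dot_mem hm fun j => hM j i
end mem

section val
variable {K : Type*} [Field K] {O : ValuationSubring K}

theorem xNat_mul_val {a b : K} (ha : O.valuation a < 1) (hb : b ∈ O) :
    O.valuation (a * b) < 1 := by
  rw [map_mul]
  exact mul_lt_one_of_lt_of_le ha ((O.valuation_le_one_iff b).mpr hb)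
theorem xNat_single_mem {ι : Type*} [DecidableEq ι] (i j : ι) :
    (Pi.single i 1 : ι → K) j ∈ O.toSubring := xNat_mem (xNat_single O.toSubring.subtype i) j

theorem dot_val {ι : Type*} [Fintype ι] {a b : ι → K} (ha : ∀ i, O.valuation (a i) < 1)
    (hb : ∀ i, b i ∈ O) : O.valuation (a ⬝ᵥ b) < 1 :=
  O.valuation.map_sum_lt one_ne_zero fun i _ => xNat_mul_val (ha i) (hb i)
theorem act_val {X : IK → K} {v : IV → K} (hX : ∀ i, O.valuation (X i) < 1) (hv : ∀ i, v i ∈ O)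
    (i : IV) : O.valuation (act X v i) < 1 := by
  rw [← actMat_mulVec, mulVec, dotProduct_comm]
  exact dot_val hX fun j => act_mem (S := O.toSubring) (xNat_single_mem j) hv i
theorem kbr_val {X Y : IK → K} (hX : ∀ i, O.valuation (X i) < 1) (hY : ∀ i, Y i ∈ O)
    (i : IK) : O.valuation (kbr X Y i) < 1 := by
  have e : kbr X Y i = X ⬝ᵥ fun j => kbr (Pi.single j 1) Y i := by
    have : X = ∑ j, X j • (Pi.single j 1 : IK → K) := by
      ext j; simp [Finset.sum_apply, Pi.single_apply]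
    conv_lhs => rw [this, ← kbrL_apply, map_sum, LinearMap.sum_apply]
    simp only [dotProduct, map_smul, LinearMap.smul_apply, kbrL_apply, Finset.sum_apply,
      Pi.smul_apply, smul_eq_mul]
  rw [e]
  exact dot_val hX fun j => kbr_mem (S := O.toSubring) (xNat_single_mem j) hY i
theorem coad_val {φ v : IV → K} (hφ : ∀ i, O.valuation (φ i) < 1) (hv : ∀ i, v i ∈ O)
    (i : IK) : O.valuation (coad φ v i) < 1 :=
  dot_val hφ fun j => act_mem (S := O.toSubring) (xNat_single_mem i) hv j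
/-- specialisation of a polynomial -/
theorem aeval_ne_zero_of_val [Algebra ℂ K] (hC : ∀ c : ℂ, algebraMap ℂ K c ∈ O)
    {x' : II → K} {x : II → ℂ} (h : ∀ i, O.valuation (x' i - algebraMap ℂ K (x i)) < 1)
    {g : MvPolynomial II ℂ} (hg : MvPolynomial.aeval x g ≠ 0) :
    MvPolynomial.aeval x' g ≠ 0 := by
  have hx : ∀ i, x' i ∈ O := fun i => by
    have := O.add_mem _ _ ((O.valuation_le_one_iff _).mp (h i).le) (hC (x i))
    rwa [sub_add_cancel] at this
  have key : ∀ g : MvPolynomial II ℂ,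
      O.valuation (MvPolynomial.aeval x' g - algebraMap ℂ K (MvPolynomial.aeval x g)) < 1 := by
    intro g
    induction g using MvPolynomial.induction_on with
    | C a => simp
    | add p q hp hq =>
      rw [map_add, map_add, map_add, add_sub_add_comm]
      exact O.valuation.map_add_lt hp hq
    | mul_X p i hp =>
      rw [map_mul, map_mul, map_mul, MvPolynomial.aeval_X, MvPolynomial.aeval_X]
      have e : MvPolynomial.aeval x' p * x' i -
          algebraMap ℂ K (MvPolynomial.aeval x p) * algebraMap ℂ K (x i) =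
          (MvPolynomial.aeval x' p - algebraMap ℂ K (MvPolynomial.aeval x p)) * x' i +
          (x' i - algebraMap ℂ K (x i)) * algebraMap ℂ K (MvPolynomial.aeval x p) := by ring
      rw [e]
      exact O.valuation.map_add_lt (xNat_mul_val hp (hx i)) (xNat_mul_val (h i) (hC _))
  intro h0
  have h1 := key g
  rw [h0, zero_sub, Valuation.map_neg] at h1
  have h2 := xNat_mul_val h1 (hC (MvPolynomial.aeval x g)⁻¹)
  rw [← map_mul, mul_inv_cancel₀ hg, map_one, map_one] at h2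
  exact lt_irrefl _ h2
end val

end Pool.Agent.MP_d920b6_mp.Cx

end

section

/-! Triple product identities. -/

namespace Pool.Agent.MP_d920b6_mp.Cx

open Matrix

variable {R : Type*} [CommRing R]

theorem xtri_tri (a b c : Vec R) : tri (bar a) (bar b) (bar c) =
    a 1 * (b 2 * c 3 - b 3 * c 2) + a 2 * (b 3 * c 1 - b 1 * c 3) +
      a 3 * (b 1 * c 2 - b 2 * c 1) := by
  simp [tri, bar, cross_apply, dotProduct, Fin.sum_univ_three]

theorem xtri_psi (v : IV → R) (κ : Vec R) (p q : Fin 2 → R) (i : Fin 4) : psi v κ p q i =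
    p 0 * q 0 * (κ ᵥ* sk (sgP v 0 0)) i + p 0 * q 1 * (κ ᵥ* sk (sgP v 0 1)) i +
      (p 1 * q 0 * (κ ᵥ* sk (sgP v 1 0)) i + p 1 * q 1 * (κ ᵥ* sk (sgP v 1 1)) i) := by
  simp only [psi, Fin.sum_univ_two, Pi.add_apply, Pi.smul_apply, smul_eq_mul]

theorem xtri_rowP (p : Fin 2 → R) (w : Mat R) (i : Fin 4) :
    rowP p w i = p 0 * w 0 i + p 1 * w 1 i := rfl

theorem xtri_rowM (q : Fin 2 → R) (w : Mat R) (i : Fin 4) :
    rowM q w i = q 0 * w 2 i + q 1 * w 3 i := rfl

theorem xtri_vecMul (z : Vec R) (w : Mat R) : z ᵥ* w = rowP (vlo z) w + rowM (vhi z) w := by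
  ext i
  simp [vecMul, dotProduct, Fin.sum_univ_four, xtri_rowP, xtri_rowM, vlo, vhi, add_assoc]

theorem xtri_neg {y : Vec R} {w : Mat R} (h : y ᵥ* w = 0) :
    rowM (vhi y) w = -rowP (vlo y) w := by
  rw [xtri_vecMul] at h
  exact eq_neg_of_add_eq_zero_right h

theorem xtri_wedge_apply (a b : Vec R) (i j : Fin 4) : wedge a b i j = a i * b j - b i * a j := rfl

theorem xtri_MM (w u : Mat R) (i j : Fin 4) :
    MM w u 0 0 i j = u 0 i * w 2 j - w 2 i * u 0 j + (u 2 i * w 0 j - w 0 i * u 2 j) ∧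
    MM w u 0 1 i j = u 0 i * w 3 j - w 3 i * u 0 j + (u 3 i * w 0 j - w 0 i * u 3 j) ∧
    MM w u 1 0 i j = u 1 i * w 2 j - w 2 i * u 1 j + (u 2 i * w 1 j - w 1 i * u 2 j) ∧
    MM w u 1 1 i j = u 1 i * w 3 j - w 3 i * u 1 j + (u 3 i * w 1 j - w 1 i * u 3 j) :=
  ⟨rfl, rfl, rfl, rfl⟩

theorem xtri_contract {v : IV → R} {κ φ : Vec R} {w u : Mat R}
    (h : ∀ a b, MM w u a b = wedge φ (κ ᵥ* sk (sgP v a b))) (p q : Fin 2 → R) :
    wedge (rowP p u) (rowM q w) + wedge (rowM q u) (rowP p w) = wedge φ (psi v κ p q) := by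
  ext i j
  obtain ⟨h1, h2, h3, h4⟩ := xtri_MM w u i j
  rw [h, xtri_wedge_apply] at h1 h2 h3 h4
  simp only [Matrix.add_apply, xtri_wedge_apply, xtri_psi, xtri_rowP, xtri_rowM]
  linear_combination (-(p 0 * q 0)) * h1 - p 0 * q 1 * h2 - p 1 * q 0 * h3 - p 1 * q 1 * h4

theorem xtri_wedge {a b c d e f : Vec R} (h : wedge a b + wedge c d = wedge e f) (z : Vec R) :
    tri (bar z) (bar a) (bar b) + tri (bar z) (bar c) (bar d) = tri (bar z) (bar e) (bar f) := by
  have h1 := congrFun (congrFun h 2) 3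
  have h2 := congrFun (congrFun h 3) 1
  have h3 := congrFun (congrFun h 1) 2
  simp only [Matrix.add_apply, xtri_wedge_apply] at h1 h2 h3
  simp only [xtri_tri]
  linear_combination z 1 * h1 + z 2 * h2 + z 3 * h3

theorem cc_eq_bq (v : IV → R) (κ : Vec R) (p q : Fin 2 → R) :
    cc v κ p q = bq (cf v κ) p q := by
  simp only [bq, cf, pol, mon, Fin.sum_univ_three, cons_val_zero, cons_val_one, cons_val_two,
    cons_val_fin_one, head_cons, tail_cons, cc, xtri_tri, xtri_psi, xtri_rowP, xtri_rowM]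
  ring

theorem cc_self (v : IV → R) (κ y : Vec R) (h : y ᵥ* wP v = 0) :
    cc v κ (vlo y) (vhi y) = 0 := by
  rw [cc, xtri_neg h, xtri_tri]
  simp only [Pi.neg_apply]
  ring

theorem sk_vecMulVec (σ : Mat R) (κ φ : Vec R) :
    (vecMulVec κ φ)ᵀ * sk σ + sk σ * vecMulVec κ φ = wedge φ (κ ᵥ* sk σ) := by
  rw [transpose_vecMulVec, vecMulVec_mul, mul_vecMulVec, ← vecMul_transpose, sk_transpose,
    vecMul_neg, neg_vecMulVec, wedge, sub_eq_add_neg]

theorem Lam_add (v : IV → R) (κ y φ φ' : Vec R) :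
    Lam v κ y (φ + φ') = Lam v κ y φ + Lam v κ y φ' := by
  simp only [Lam, xtri_tri, Pi.add_apply]
  ring
theorem Lam_smul (v : IV → R) (κ y φ : Vec R) (c : R) :
    Lam v κ y (c • φ) = c * Lam v κ y φ := by
  simp only [Lam, xtri_tri, Pi.smul_apply, smul_eq_mul]
  ring

/-- stabiliser elements are tangent to the curve -/
theorem Lam_eq_zero (v : IV → R) (κ y φ : Vec R) (u : Mat R) (hy : y ᵥ* wP v = 0)
    (h : ∀ a b, MM (wP v) u a b = wedge φ (κ ᵥ* sk (sgP v a b))) : Lam v κ y φ = 0 := by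
  have h1 := xtri_wedge (xtri_contract h (vlo y) (vhi y)) (rowP (vlo y) (wP v))
  rw [xtri_neg hy] at h1
  simp only [Lam, xtri_tri, Pi.neg_apply] at h1 ⊢
  linear_combination h1

/-- `Lam` is the differential of `cc` -/
theorem two_Lam (v : IV → R) (κ y z : Vec R) (hy : y ᵥ* wP v = 0) :
    2 * Lam v κ y (z ᵥ* wP v) =
      -((cc v κ (vlo y + vlo z) (vhi y) - cc v κ (vlo y - vlo z) (vhi y)) +
        (cc v κ (vlo y) (vhi y + vhi z) - cc v κ (vlo y) (vhi y - vhi z))) := by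
  have e1 : ∀ p p' : Fin 2 → R, rowP (p + p') (wP v) = rowP p (wP v) + rowP p' (wP v) ∧
      rowP (p - p') (wP v) = rowP p (wP v) - rowP p' (wP v) ∧
      rowM (p + p') (wP v) = rowM p (wP v) + rowM p' (wP v) ∧
      rowM (p - p') (wP v) = rowM p (wP v) - rowM p' (wP v) := fun p p' => by
    refine ⟨?_, ?_, ?_, ?_⟩ <;> ext i <;>
      simp only [xtri_rowP, xtri_rowM, Pi.add_apply, Pi.sub_apply] <;> ring
  have e2 : ∀ p p' q : Fin 2 → R, psi v κ (p + p') q = psi v κ p q + psi v κ p' q ∧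
      psi v κ (p - p') q = psi v κ p q - psi v κ p' q ∧
      psi v κ q (p + p') = psi v κ q p + psi v κ q p' ∧
      psi v κ q (p - p') = psi v κ q p - psi v κ q p' := fun p p' q => by
    refine ⟨?_, ?_, ?_, ?_⟩ <;> ext i <;>
      simp only [xtri_psi, Pi.add_apply, Pi.sub_apply] <;> ring
  simp only [Lam, cc, e1, e2, xtri_vecMul z, xtri_neg hy, xtri_tri, Pi.add_apply, Pi.sub_apply,
    Pi.neg_apply]
  ring

/-- the curve does not change under the gauge step -/
theorem cc_move (v v' : IV → R) (κ φ : Vec R) (u : Mat R) (hu : u *ᵥ κ = 0)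
    (hw : wP v' = wP v - vecMulVec κ φ)
    (hσ : ∀ a b, sk (sgP v' a b) = sk (sgP v a b) + MM 1 u a b)
    (h : ∀ a b, MM (wP v') u a b = wedge φ (κ ᵥ* sk (sgP v a b))) (p q : Fin 2 → R) :
    cc v' κ p q = cc v κ p q := by
  have h0 : ∀ i, u i ⬝ᵥ κ = 0 := fun i => congrFun hu i
  have h1 : ∀ a b, κ ᵥ* MM 1 u a b = -(κ (hi b) • u (lo a)) - κ (lo a) • u (hi b) := by
    intro a b
    have e : ∀ i, κ ⬝ᵥ (1 : Mat R) i = κ i := fun i => by
      simp [dotProduct, one_apply]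
    simp only [MM, wedge, vecMul_add, vecMul_sub, vecMul_vecMulVec, e, dotProduct_comm κ (u _), h0,
      zero_smul]
    abel
  have h2 : psi v' κ p q = psi v κ p q - (q 0 * κ 2 + q 1 * κ 3) • rowP p u -
      (p 0 * κ 0 + p 1 * κ 1) • rowM q u := by
    ext i
    simp only [xtri_psi, hσ, vecMul_add, h1, Pi.add_apply, Pi.sub_apply, Pi.neg_apply,
      Pi.smul_apply, smul_eq_mul, xtri_rowP, xtri_rowM, lo, hi, cons_val_zero, cons_val_one,
      cons_val_fin_one]
    ring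
  have h3 : rowP p (wP v) = rowP p (wP v') + (p 0 * κ 0 + p 1 * κ 1) • φ := by
    ext i
    simp only [hw, xtri_rowP, Pi.add_apply, Pi.smul_apply, smul_eq_mul, Matrix.sub_apply,
      vecMulVec_apply]
    ring
  have h4 : rowM q (wP v) = rowM q (wP v') + (q 0 * κ 2 + q 1 * κ 3) • φ := by
    ext i
    simp only [hw, xtri_rowM, Pi.add_apply, Pi.smul_apply, smul_eq_mul, Matrix.sub_apply,
      vecMulVec_apply]
    ring
  have h5 := xtri_wedge (xtri_contract h p q) (rowP p (wP v'))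
  have h6 := xtri_wedge (xtri_contract h p q) (rowM q (wP v'))
  simp only [cc, h2, h3, h4, xtri_tri, Pi.add_apply, Pi.sub_apply, Pi.smul_apply,
    smul_eq_mul] at h5 h6 ⊢
  linear_combination (q 0 * κ 2 + q 1 * κ 3) * h5 - (p 0 * κ 0 + p 1 * κ 1) * h6

end Pool.Agent.MP_d920b6_mp.Cx

end

section

/-! Kernel and image of `u ↦ MM w u`. -/

namespace Pool.Agent.MP_d920b6_mp.Cx

open Matrix Module

variable {k : Type*} [Field k] {w : Mat k} {κ y : Vec k}

theorem xKM_inv (h : GoodW ⊤ w κ y) : ∃ W : Mat k, W * (w + vecMulVec κ y) = 1 ∧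
    (w + vecMulVec κ y) * W = 1 ∧ W *ᵥ κ = κ ∧ y ᵥ* W = y := by
  obtain ⟨W, -, hW⟩ := h.inv
  have hW' : (w + vecMulVec κ y) * W = 1 := mul_eq_one_comm.1 hW
  have h1 : (w + vecMulVec κ y) *ᵥ κ = κ := by
    rw [add_mulVec, h.wκ, vecMulVec_mulVec, h.yκ]; simp
  have h2 : y ᵥ* (w + vecMulVec κ y) = y := by
    rw [vecMul_add, h.yw, vecMul_vecMulVec, h.yκ]; simp
  refine ⟨W, hW, hW', ?_, ?_⟩
  · conv_lhs => rw [← h1, mulVec_mulVec, hW, one_mulVec]
  · conv_lhs => rw [← h2, vecMul_vecMul, hW', vecMul_one]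

/-- the left kernel of `w` is spanned by `y` -/
theorem GoodW.left_ker (h : GoodW ⊤ w κ y) {z : Vec k} (hz : z ᵥ* w = 0) :
    z = (z ⬝ᵥ κ) • y := by
  obtain ⟨W, -, h2, -, h4⟩ := xKM_inv h
  have h1 : z ᵥ* (w + vecMulVec κ y) = (z ⬝ᵥ κ) • y := by
    rw [vecMul_add, hz, vecMul_vecMulVec, zero_add]
  calc z = (z ᵥ* (w + vecMulVec κ y)) ᵥ* W := by rw [vecMul_vecMul, h2, vecMul_one]
    _ = (z ⬝ᵥ κ) • y := by rw [h1, smul_vecMul, h4]
/-- the right kernel of `w` is spanned by `κ` -/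
theorem GoodW.right_ker (h : GoodW ⊤ w κ y) {m : Vec k} (hm : w *ᵥ m = 0) :
    m = (y ⬝ᵥ m) • κ := by
  obtain ⟨W, h2, -, h4, -⟩ := xKM_inv h
  have h1 : (w + vecMulVec κ y) *ᵥ m = (y ⬝ᵥ m) • κ := by
    rw [add_mulVec, hm, vecMulVec_mulVec, zero_add]; simp
  calc m = W *ᵥ ((w + vecMulVec κ y) *ᵥ m) := by rw [mulVec_mulVec, h2, one_mulVec]
    _ = (y ⬝ᵥ m) • κ := by rw [h1, mulVec_smul, h4]
theorem GoodW.ne_zero (h : GoodW ⊤ w κ y) : w ≠ 0 := by
  intro h0
  have h1 := h.left_ker (z := Pi.single 0 1) (by rw [h0, vecMul_zero])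
  rw [single_one_dotProduct, h.κ0, one_smul] at h1
  obtain ⟨e₂, -, e₃, -, he⟩ := h.yhi
  rw [← h1] at he
  simp at he

/-- block diagonal matrix -/
def xKM_blk (A B : Matrix (Fin 2) (Fin 2) k) : Mat k :=
  !![A 0 0, A 0 1, 0, 0; A 1 0, A 1 1, 0, 0; 0, 0, B 0 0, B 0 1; 0, 0, B 1 0, B 1 1]

/-- the normal form of `w` -/
def xKM_S : Mat k := !![0, 1, 0, 0; 0, 0, 1, 0; 0, 1, 0, 0; 0, 0, 0, 1]

theorem xKM_blk_mul (A B A' B' : Matrix (Fin 2) (Fin 2) k) :
    xKM_blk A B * xKM_blk A' B' = xKM_blk (A * A') (B * B') := by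
  ext i j
  fin_cases i <;> fin_cases j <;> simp [xKM_blk, mul_apply, Fin.sum_univ_four, Fin.sum_univ_two]

theorem xKM_blk_one : xKM_blk (1 : Matrix (Fin 2) (Fin 2) k) 1 = 1 := by
  ext i j
  fin_cases i <;> fin_cases j <;> simp [xKM_blk]

theorem xKM_blk_lo (A B : Matrix (Fin 2) (Fin 2) k) (u : Mat k) (a : Fin 2) :
    (xKM_blk A B * u) (lo a) = A a 0 • u 0 + A a 1 • u 1 := by
  ext j
  fin_cases a <;> simp [xKM_blk, lo, mul_apply, Fin.sum_univ_four]

theorem xKM_blk_hi (A B : Matrix (Fin 2) (Fin 2) k) (u : Mat k) (b : Fin 2) :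
    (xKM_blk A B * u) (hi b) = B b 0 • u 2 + B b 1 • u 3 := by
  ext j
  fin_cases b <;> simp [xKM_blk, hi, mul_apply, Fin.sum_univ_four]

theorem xKM_MM_left (A B : Matrix (Fin 2) (Fin 2) k) (w u : Mat k) (a b : Fin 2) :
    MM (xKM_blk A B * w) (xKM_blk A B * u) a b =
      ∑ a', ∑ b', (A a a' * B b b') • MM w u a' b' := by
  rw [MM, xKM_blk_lo, xKM_blk_lo, xKM_blk_hi, xKM_blk_hi]
  ext i j
  simp [MM, wedge, vecMulVec_apply, Fin.sum_univ_two, lo, hi]
  ring

theorem xKM_wedge_right (ψ χ : Vec k) (N : Mat k) :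
    wedge (ψ ᵥ* N) (χ ᵥ* N) = Nᵀ * wedge ψ χ * N := by
  simp only [wedge, Matrix.mul_sub, Matrix.sub_mul, mul_vecMulVec, vecMulVec_mul,
    mulVec_transpose]

theorem xKM_MM_right (w u N : Mat k) (a b : Fin 2) :
    MM (w * N) (u * N) a b = Nᵀ * MM w u a b * N := by
  have e : ∀ (M : Mat k) (i : Fin 4), (M * N) i = M i ᵥ* N := fun M i => rfl
  simp only [MM, e, xKM_wedge_right, Matrix.mul_add, Matrix.add_mul]

theorem xKM_std (h : GoodW ⊤ w κ y) : ∃ (A B A' B' : Matrix (Fin 2) (Fin 2) k) (N N' : Mat k),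
    A' * A = 1 ∧ B' * B = 1 ∧ A 0 = vlo y ∧ B 0 = -vhi y ∧ N * N' = 1 ∧ N' * N = 1 ∧
      xKM_blk A B * w = xKM_S * N ∧ N *ᵥ κ = Pi.single 0 1 := by
  obtain ⟨e₀, -, e₁, -, he⟩ := h.ylo
  obtain ⟨e₂, -, e₃, -, he'⟩ := h.yhi
  have hyw : ∀ j, y 0 * w 0 j + y 1 * w 1 j + y 2 * w 2 j + y 3 * w 3 j = 0 := fun j => by
    simpa [vecMul, dotProduct, Fin.sum_univ_four] using congrFun h.yw j
  have hwκ : ∀ i, w i ⬝ᵥ κ = 0 := fun i => congrFun h.wκ i
  let N : Mat k := of ![y, y 0 • w 0 + y 1 • w 1, -e₁ • w 0 + e₀ • w 1, -e₃ • w 2 + e₂ • w 3]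
  have hκ : N *ᵥ κ = Pi.single 0 1 := by
    ext i
    fin_cases i
    · exact h.yκ
    · change (y 0 • w 0 + y 1 • w 1) ⬝ᵥ κ = 0
      simp [hwκ]
    · change (-e₁ • w 0 + e₀ • w 1) ⬝ᵥ κ = 0
      simp [hwκ]
    · change (-e₃ • w 2 + e₂ • w 3) ⬝ᵥ κ = 0
      simp [hwκ]
  have hU : IsUnit N := by
    rw [← vecMul_injective_iff_isUnit]
    refine (injective_iff_map_eq_zero (vecMulLinear N)).2 fun z hz => ?_
    rw [vecMulLinear_apply] at hz
    have z0 : z 0 = 0 := by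
      have := congrArg (· ⬝ᵥ κ) hz
      simpa only [← dotProduct_mulVec, hκ, dotProduct_single_one, zero_dotProduct] using this
    have hc : (![z 1 * y 0 - z 2 * e₁, z 1 * y 1 + z 2 * e₀, -(z 3 * e₃), z 3 * e₂] : Vec k) ᵥ* w
        = 0 := by
      ext j
      have := congrFun hz j
      simp [N, vecMul, dotProduct, Fin.sum_univ_four, z0] at this ⊢
      linear_combination this
    have hl := h.left_ker hc
    generalize _ ⬝ᵥ κ = t at hl
    have c0 := congrFun hl 0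
    have c1 := congrFun hl 1
    have c2 := congrFun hl 2
    have c3 := congrFun hl 3
    simp at c0 c1 c2 c3
    have ht : t = 0 := by linear_combination -t * he' - e₂ * c2 - e₃ * c3
    subst ht
    ext i
    fin_cases i
    · exact z0
    · change z 1 = 0
      linear_combination -z 1 * he + e₀ * c0 + e₁ * c1
    · change z 2 = 0
      linear_combination -z 2 * he - y 1 * c0 + y 0 * c1
    · change z 3 = 0
      linear_combination -z 3 * he' - y 3 * c2 + y 2 * c3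
  obtain ⟨N', hN⟩ := hU.exists_right_inv
  refine ⟨!![y 0, y 1; -e₁, e₀], !![-y 2, -y 3; -e₃, e₂], !![e₀, -y 1; e₁, y 0],
    !![-e₂, -y 3; -e₃, y 2], N, N', ?_, ?_, ?_, ?_, hN, mul_eq_one_comm.1 hN, ?_, hκ⟩
  · ext i j
    fin_cases i <;> fin_cases j <;> simp [mul_apply, Fin.sum_univ_two] <;>
      first | linear_combination he | ring
  · ext i j
    fin_cases i <;> fin_cases j <;> simp [mul_apply, Fin.sum_univ_two] <;>
      first | linear_combination he' | ring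
  · ext i; fin_cases i <;> simp [vlo]
  · ext i; fin_cases i <;> simp [vhi]
  · ext i j
    fin_cases i <;> simp [xKM_blk, xKM_S, N, mul_apply, Fin.sum_univ_four]
    linear_combination -hyw j

theorem xKM_cancel {N N' T : Mat k} (hN : N * N' = 1) (h : Nᵀ * T * N = 0) : T = 0 := by
  have : T = N'ᵀ * (Nᵀ * T * N) * N' := by
    rw [Matrix.mul_assoc, Matrix.mul_assoc, Matrix.mul_assoc, hN, Matrix.mul_one,
      ← Matrix.mul_assoc, ← transpose_mul, hN, transpose_one, Matrix.one_mul]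
  rw [this, h, Matrix.mul_zero, Matrix.zero_mul]

theorem xKM_ker_S {u : Mat k} (hu : ∀ a b, MM xKM_S u a b = 0) : u = u 0 1 • xKM_S := by
  have e := fun a b i j => congrFun (congrFun (hu a b) i) j
  have a1 := e 0 1 0 3
  have a2 := e 0 1 2 3
  have a3 := e 0 1 0 1
  have a4 := e 0 1 2 1
  have a5 := e 0 1 1 3
  have b1 := e 1 0 0 1
  have b2 := e 1 0 3 1
  have b3 := e 1 0 0 2
  have b4 := e 1 0 3 2
  have b5 := e 1 0 2 1
  have c1 := e 1 1 1 3
  have c2 := e 1 1 1 2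
  have c3 := e 1 1 2 3
  have d1 := e 0 0 2 1
  have d2 := e 0 0 3 1
  simp [MM, wedge, vecMulVec_apply, lo, hi, xKM_S] at a1 a2 a3 a4 a5 b1 b2 b3 b4 b5 c1 c2 c3 d1 d2
  ext i j
  fin_cases i <;> fin_cases j <;> simp [xKM_S] <;>
    first
    | assumption
    | linear_combination d1 - a2
    | linear_combination d2 - b4
    | linear_combination -a5
    | linear_combination c3 - a5
    | linear_combination c3 - a5 - b5

theorem GoodW.ker_MM (h : GoodW ⊤ w κ y) {u : Mat k} (hu : ∀ a b, MM w u a b = 0) :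
    ∃ c : k, u = c • w := by
  obtain ⟨A, B, A', B', N, N', hA, hB, -, -, hN, hN', hS, -⟩ := xKM_std h
  have hG : xKM_blk A' B' * xKM_blk A B = 1 := by rw [xKM_blk_mul, hA, hB, xKM_blk_one]
  have e : xKM_blk A B * u = xKM_blk A B * u * N' * N := by
    rw [Matrix.mul_assoc _ N', hN', Matrix.mul_one]
  have h1 : ∀ a b, MM xKM_S (xKM_blk A B * u * N') a b = 0 := fun a b => by
    refine xKM_cancel hN ?_
    rw [← xKM_MM_right, ← hS, ← e, xKM_MM_left]
    simp [hu]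
  have h2 := xKM_ker_S h1
  generalize (xKM_blk A B * u * N') 0 1 = c at h2
  refine ⟨c, ?_⟩
  rw [h2, Matrix.smul_mul, ← hS] at e
  calc u = xKM_blk A' B' * (xKM_blk A B * u) := by rw [← Matrix.mul_assoc, hG, Matrix.one_mul]
    _ = c • w := by rw [e, Matrix.mul_smul, ← Matrix.mul_assoc, hG, Matrix.one_mul]

theorem ker_MM_one {u : Mat k} (hu : ∀ a b, MM 1 u a b = 0) : ∃ c : k, u = c • (1 : Mat k) := by
  have e := fun a b i j => congrFun (congrFun (hu a b) i) j
  have a1 := e 0 0 1 2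
  have a2 := e 0 0 3 2
  have a3 := e 0 0 1 0
  have a4 := e 0 0 3 0
  have a5 := e 0 0 0 2
  have b1 := e 0 1 2 3
  have b2 := e 0 1 1 0
  have b3 := e 0 1 2 0
  have b4 := e 0 1 0 3
  have c1 := e 1 0 0 2
  have c2 := e 1 0 3 2
  have c3 := e 1 0 0 1
  have c4 := e 1 0 1 2
  have d1 := e 1 1 2 3
  have d2 := e 1 1 0 1
  simp [MM, wedge, vecMulVec_apply, lo, hi, one_apply] at a1 a2 a3 a4 a5 b1 b2 b3 b4 c1 c2 c3 c4 d1 d2
  refine ⟨u 0 0, ?_⟩
  ext i j
  fin_cases i <;> fin_cases j <;> simp <;>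
    first
    | assumption
    | linear_combination -a5
    | linear_combination -b4
    | linear_combination c4 - a5

theorem GoodW.mulVec_of_MM (h : GoodW ⊤ w κ y) {u : Mat k}
    (hu : ∀ a b, MM w u a b *ᵥ κ = 0) : u *ᵥ κ = 0 := by
  obtain ⟨A, B, A', B', N, N', hA, hB, -, -, hN, hN', hS, hκ⟩ := xKM_std h
  have hG : xKM_blk A' B' * xKM_blk A B = 1 := by rw [xKM_blk_mul, hA, hB, xKM_blk_one]
  have e : xKM_blk A B * u = xKM_blk A B * u * N' * N := by
    rw [Matrix.mul_assoc _ N', hN', Matrix.mul_one]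
  have h1 : ∀ a b, MM xKM_S (xKM_blk A B * u * N') a b *ᵥ Pi.single 0 1 = 0 := fun a b => by
    have h2 : (Nᵀ * MM xKM_S (xKM_blk A B * u * N') a b * N) *ᵥ κ = 0 := by
      rw [← xKM_MM_right, ← hS, ← e, xKM_MM_left]
      simp [Fin.sum_univ_two, add_mulVec, smul_mulVec, hu]
    rw [← mulVec_mulVec, hκ, ← mulVec_mulVec] at h2
    have h3 := congrArg (N'ᵀ *ᵥ ·) h2
    simpa only [mulVec_mulVec, ← Matrix.mul_assoc, ← transpose_mul, hN, transpose_one,
      Matrix.one_mul, mulVec_zero] using h3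
  have h4 : (xKM_blk A B * u * N') *ᵥ Pi.single 0 1 = 0 := by
    generalize xKM_blk A B * u * N' = u' at h1
    have a1 := congrFun (h1 0 1) 3
    have a2 := congrFun (h1 0 1) 1
    have a3 := congrFun (h1 1 0) 1
    have a4 := congrFun (h1 1 0) 2
    simp [MM, wedge, vecMulVec_apply, lo, hi, xKM_S] at a1 a2 a3 a4
    ext i
    fin_cases i <;> simp <;> assumption
  calc u *ᵥ κ = xKM_blk A' B' *ᵥ ((xKM_blk A B * u) *ᵥ κ) := by
        rw [mulVec_mulVec, ← Matrix.mul_assoc, hG, Matrix.one_mul]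
    _ = 0 := by rw [e, ← mulVec_mulVec, hκ, h4, mulVec_zero]

theorem GoodW.rank_MMat (h : GoodW ⊤ w κ y) : (MMat w).rank = 15 := by
  have hk : LinearMap.ker (MMat w).mulVecLin = k ∙ fun i : Fin 4 × Fin 4 => w i.1 i.2 := by
    ext x
    rw [LinearMap.mem_ker, mulVecLin_apply, Submodule.mem_span_singleton]
    constructor
    · intro hx
      obtain ⟨c, hc⟩ := h.ker_MM (u := of fun i j => x (i, j)) fun a b => by
        ext i j
        have := MMat_mulVec w (of fun i j => x (i, j)) (a, b, i, j)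
        rw [← this]
        exact congrFun hx (a, b, i, j)
      exact ⟨c, funext fun i => (congrFun (congrFun hc i.1) i.2).symm⟩
    · rintro ⟨c, rfl⟩
      rw [mulVec_smul]
      ext j
      rw [Pi.smul_apply, MMat_mulVec, MM_self]
      simp
  have h0 : (fun i : Fin 4 × Fin 4 => w i.1 i.2) ≠ 0 := fun h0 =>
    h.ne_zero (by ext i j; exact congrFun h0 (i, j))
  have := LinearMap.finrank_range_add_finrank_ker (MMat w).mulVecLin
  rw [hk, finrank_span_singleton h0] at this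
  simp only [finrank_fintype_fun_eq_card, Fintype.card_prod, Fintype.card_fin] at this
  rw [rank]
  omega

theorem xKM_exists_S (φ : Vec k) (hφ : φ 0 = 0) (ψ : Fin 2 → Fin 2 → Vec k)
    (hψ : ∀ a b, ψ a b 0 = 0) (hc : φ 2 * ψ 0 0 3 - φ 3 * ψ 0 0 2 = 0) :
    ∃ u : Mat k, u *ᵥ Pi.single 0 1 = 0 ∧ ∀ a b, MM xKM_S u a b = wedge φ (ψ a b) := by
  let T : Fin 2 → Fin 2 → Mat k := fun a b => wedge φ (ψ a b)
  refine ⟨!![0, T 0 1 1 3, T 0 1 2 3, T 1 0 2 3 - T 0 0 1 3;
    0, T 1 1 1 3, T 1 1 2 3, -T 1 0 1 3;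
    0, T 1 0 1 2 + T 1 1 2 3, -T 0 0 1 2 - T 0 1 2 3, -T 1 0 2 3;
    0, T 1 1 1 2, -T 0 1 1 2, 0], ?_, fun a b => ?_⟩
  · ext i
    fin_cases i <;> simp
  · ext i j
    fin_cases a <;> fin_cases b <;> fin_cases i <;> fin_cases j <;>
      simp [T, MM, wedge, vecMulVec_apply, lo, hi, xKM_S, hφ, hψ] <;>
      first | ring1 | linear_combination hc | linear_combination -hc

theorem xKM_tri_ne {N N' : Mat k} (hN : N * N' = 1) (hκ : N *ᵥ κ = Pi.single 0 1) (h0 : κ 0 = 1) :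
    tri (bar (N 1)) (bar (N 2)) (bar (N 3)) ≠ 0 := by
  intro ht
  rw [tri, triple_product_eq_det] at ht
  obtain ⟨z, hz0, hz⟩ := exists_vecMul_eq_zero_iff.2 ht
  have r1 := congrFun hκ 1
  have r2 := congrFun hκ 2
  have r3 := congrFun hκ 3
  have c0 := congrFun hz 0
  have c1 := congrFun hz 1
  have c2 := congrFun hz 2
  simp [mulVec, vecMul, dotProduct, Fin.sum_univ_four, Fin.sum_univ_three, bar, h0]
    at r1 r2 r3 c0 c1 c2
  have h1 : (![0, z 0, z 1, z 2] : Vec k) ᵥ* N = 0 := by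
    ext j
    fin_cases j <;> simp [vecMul, dotProduct, Fin.sum_univ_four]
    · linear_combination z 0 * r1 + z 1 * r2 + z 2 * r3 - κ 1 * c0 - κ 2 * c1 - κ 3 * c2
    · exact c0
    · exact c1
    · exact c2
  have h2 := congrArg (· ᵥ* N') h1
  simp only [vecMul_vecMul, hN, vecMul_one, zero_vecMul] at h2
  apply hz0
  ext i
  fin_cases i
  · exact congrFun h2 1
  · exact congrFun h2 2
  · exact congrFun h2 3

/-- solvability of the `σ` equation -/
theorem GoodW.exists_u (h : GoodW ⊤ w κ y) (φ : Vec k) (hφ : φ ⬝ᵥ κ = 0)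
    (ψ : Fin 2 → Fin 2 → Vec k) (hψ : ∀ a b, ψ a b ⬝ᵥ κ = 0)
    (hc : tri (bar φ) (bar (rowP (vlo y) w))
      (bar (∑ a, ∑ b, (vlo y a * vhi y b) • ψ a b)) = 0) :
    ∃ u : Mat k, u *ᵥ κ = 0 ∧ ∀ a b, MM w u a b = wedge φ (ψ a b) := by
  obtain ⟨A, B, A', B', N, N', hA, hB, hA0, hB0, hN, hN', hS, hκ⟩ := xKM_std h
  have hG : xKM_blk A' B' * xKM_blk A B = 1 := by rw [xKM_blk_mul, hA, hB, xKM_blk_one]
  have back : ∀ z : Vec k, (z ᵥ* N') ᵥ* N = z := fun z => by rw [vecMul_vecMul, hN', vecMul_one]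
  have zero : ∀ z : Vec k, z ⬝ᵥ κ = 0 → (z ᵥ* N') 0 = 0 := fun z hz => by
    rw [← back z, ← dotProduct_mulVec, hκ, dotProduct_single_one] at hz
    exact hz
  let ψ' : Fin 2 → Fin 2 → Vec k := fun a b => ∑ a', ∑ b', (A a a' * B b b') • ψ a' b'
  have hψ' : ∀ a b, ψ' a b ⬝ᵥ κ = 0 := fun a b => by
    simp [ψ', Fin.sum_univ_two, hψ]
  have h00 : ∑ a, ∑ b, (vlo y a * vhi y b) • ψ a b = -ψ' 0 0 := by
    simp only [ψ', hA0, hB0, Fin.sum_univ_two, Pi.neg_apply, mul_neg, neg_smul]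
    abel
  have hrow : rowP (vlo y) w = N 1 := by
    have h1 := xKM_blk_lo A B w 0
    rw [hS, hA0] at h1
    rw [rowP, ← h1]
    ext j
    simp [xKM_S, lo, mul_apply, Fin.sum_univ_four]
  have hcond : (φ ᵥ* N') 2 * (ψ' 0 0 ᵥ* N') 3 - (φ ᵥ* N') 3 * (ψ' 0 0 ᵥ* N') 2 = 0 := by
    have hφ0 := zero φ hφ
    have hψ0 := zero _ (hψ' 0 0)
    rw [h00, hrow, ← back φ, ← back (ψ' 0 0)] at hc
    generalize φ ᵥ* N' = p at hc hφ0
    generalize ψ' 0 0 ᵥ* N' = q at hc hψ0
    refine (mul_eq_zero.1 ?_).resolve_right (xKM_tri_ne hN hκ h.κ0)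
    rw [← hc]
    simp [-mul_eq_zero, tri, bar, cross_apply, vecMul, dotProduct, Fin.sum_univ_four,
      Fin.sum_univ_three, hφ0, hψ0]
    ring
  obtain ⟨u', hu1, hu2⟩ := xKM_exists_S (φ ᵥ* N') (zero φ hφ) (fun a b => ψ' a b ᵥ* N')
    (fun a b => zero _ (hψ' a b)) hcond
  refine ⟨xKM_blk A' B' * (u' * N), ?_, fun a b => ?_⟩
  · rw [← mulVec_mulVec, ← mulVec_mulVec, hκ, hu1, mulVec_zero]
  · have hw : w = xKM_blk A' B' * (xKM_S * N) := by
      rw [← hS, ← Matrix.mul_assoc, hG, Matrix.one_mul]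
    have h1 : ∀ a b, MM (xKM_S * N) (u' * N) a b = wedge φ (ψ' a b) := fun a b => by
      rw [xKM_MM_right, hu2, ← xKM_wedge_right, back, back]
    conv_lhs => rw [hw, xKM_MM_left]
    simp only [h1]
    have hψe : ψ a b = ∑ a', ∑ b', (A' a a' * B' b b') • ψ' a' b' := by
      have : ψ a b = ∑ a', ∑ b', ((A' * A) a a' * (B' * B) b b') • ψ a' b' := by
        rw [hA, hB]
        simp [one_apply]
      rw [this]
      ext i
      simp [ψ', Fin.sum_univ_two, mul_apply]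
      ring
    rw [hψe]
    ext i j
    simp [wedge, vecMulVec_apply, Fin.sum_univ_two]
    ring

end Pool.Agent.MP_d920b6_mp.Cx

end

section

/-! Polynomials with coefficients regular on the complete curve. -/

namespace Pool.Agent.MP_d920b6_mp.Cx

open Polynomial

variable {K : Type} [Field K] [Algebra ℂ K] {c : Fin 3 → Fin 3 → ℂ} {κ y : Vec ℂ} {y' : Vec K}
  {D E : Derivation ℂ K K}

theorem EC.lead (hE : EC c κ y y' D E) (P : K[X]) (b : K)
    (hD : ∀ n, D (P.coeff n) = b * ((n + 1) * P.coeff (n + 1)))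
    (h : ∀ O : ValuationSubring K, Chart O y' (E ∘ y') → (y' 0)⁻¹ ∈ O ∨ (y' 1)⁻¹ ∈ O →
      ∃ T, ∀ n, (taylor T P).coeff n ∈ O) :
    ∃ a : ℂ, P.leadingCoeff = algebraMap ℂ K a := by
  have key : ∀ O : ValuationSubring K, Chart O y' (E ∘ y') → (y' 0)⁻¹ ∈ O ∨ (y' 1)⁻¹ ∈ O →
      P.leadingCoeff ∈ O := fun O hO h' => by
    obtain ⟨T, hT⟩ := h O hO h'
    rw [← coeff_taylor_natDegree T]
    exact hT _
  refine (hE.const P.leadingCoeff 0 ?_ (fun O hO h' => key O hO (Or.inl h'))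
    fun O hO h' => ?_).2
  · rw [leadingCoeff, hD, coeff_eq_zero_of_natDegree_lt (Nat.lt_succ_self _), mul_zero, mul_zero]
  · rw [map_zero, zero_mul, sub_zero]
    exact key O hO (Or.inr h')

omit [Algebra ℂ K] in
theorem xendg_coeff (P : K[X]) {m : ℕ} (hm : P.natDegree = m + 1) (T : K) :
    (taylor T P).coeff m = P.coeff m + (m + 1) * P.leadingCoeff * T := by
  have h : (hasseDeriv m P).natDegree < 2 := by
    have := natDegree_hasseDeriv_le P m
    omega
  rw [taylor_coeff, eval_eq_sum_range' h, Finset.sum_range_succ, Finset.sum_range_one,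
    hasseDeriv_coeff, hasseDeriv_coeff, leadingCoeff, hm, add_comm 1 m]
  simp

theorem xendg_norm (P : K[X]) (b : K)
    (hP : ∀ n, D (P.coeff n) = b * ((n + 1) * P.coeff (n + 1))) (dP : P.natDegree ≠ 0)
    (ha : ∃ a : ℂ, P.leadingCoeff = algebraMap ℂ K a) :
    ∃ t : K, D t = b ∧ ∀ O : ValuationSubring K, (∀ c : ℂ, algebraMap ℂ K c ∈ O) → ∀ T,
      (∀ n, (taylor T P).coeff n ∈ O) → t + T ∈ O := by
  obtain ⟨m, hm⟩ := Nat.exists_eq_succ_of_ne_zero dP
  obtain ⟨a, ha⟩ := ha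
  have h0 : a ≠ 0 := by
    rintro rfl
    rw [map_zero, leadingCoeff_eq_zero] at ha
    exact dP (by rw [ha, natDegree_zero])
  have h1 : algebraMap ℂ K (((m + 1) * a)⁻¹) * ((m + 1) * P.leadingCoeff) = 1 := by
    have h2 : ((m : ℂ) + 1) * a ≠ 0 := mul_ne_zero (Nat.cast_add_one_ne_zero m) h0
    have h3 := congrArg (algebraMap ℂ K) (inv_mul_cancel₀ h2)
    rwa [map_mul, map_mul, map_add, map_natCast, map_one, ← ha] at h3
  refine ⟨algebraMap ℂ K (((m + 1) * a)⁻¹) * P.coeff m, ?_, fun O hC T hT => ?_⟩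
  · rw [← Algebra.smul_def, D.map_smul, Algebra.smul_def, hP, ← Nat.succ_eq_add_one, ← hm,
      coeff_natDegree, mul_left_comm, h1, mul_one]
  · have h2 := O.mul_mem _ _ (hC (((m + 1) * a)⁻¹)) (hT m)
    rwa [xendg_coeff P hm, mul_add, ← mul_assoc _ _ T, h1, one_mul] at h2

theorem EC.two (hE : EC c κ y y' D E) (P Q : K[X]) (b : K) (r : ℂ)
    (hP : ∀ n, D (P.coeff n) = b * ((n + 1) * P.coeff (n + 1)))
    (hQ : ∀ n, D (Q.coeff n) = b * ((n + 1) * Q.coeff (n + 1)))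
    (dP : P.natDegree ≠ 0) (dQ : Q.natDegree ≠ 0)
    (h₀ : ∀ O : ValuationSubring K, Chart O y' (E ∘ y') → (y' 0)⁻¹ ∈ O →
      ∃ T, (∀ n, (taylor T P).coeff n ∈ O) ∧ ∀ n, (taylor T Q).coeff n ∈ O)
    (h₁ : ∀ O : ValuationSubring K, Chart O y' (E ∘ y') → (y' 1)⁻¹ ∈ O →
      ∃ T, (∀ n, (taylor T P).coeff n ∈ O) ∧
        ∀ n, (taylor (T - algebraMap ℂ K r * (E (y' 1) / y' 1)) Q).coeff n ∈ O) :
    r = 0 := by
  obtain ⟨s, hs, hs'⟩ := xendg_norm P b hP dP (hE.lead P b hP fun O hO h => h.elim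
    (fun h => (h₀ O hO h).imp fun _ hT => hT.1) fun h => (h₁ O hO h).imp fun _ hT => hT.1)
  obtain ⟨t, ht, ht'⟩ := xendg_norm Q b hQ dQ (hE.lead Q b hQ fun O hO h => h.elim
    (fun h => (h₀ O hO h).imp fun _ hT => hT.2) fun h => (h₁ O hO h).elim fun _ hT => ⟨_, hT.2⟩)
  refine (hE.const (t - s) r (by rw [map_sub, hs, ht, sub_self]) (fun O hO h => ?_)
    fun O hO h => ?_).1
  · obtain ⟨T, a1, a2⟩ := h₀ O hO h
    have := sub_mem (ht' O hO.hC _ a2) (hs' O hO.hC _ a1)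
    rwa [add_sub_add_right_eq_sub] at this
  · obtain ⟨T, a1, a2⟩ := h₁ O hO h
    have := sub_mem (ht' O hO.hC _ a2) (hs' O hO.hC _ a1)
    convert this using 1
    ring

end Pool.Agent.MP_d920b6_mp.Cx

end

section

/-! Points with a good eigenvalue are dense. -/

namespace Pool.Agent.MP_d920b6_mp.Cx

open Matrix Polynomial

section
variable {R R' : Type*} [CommRing R] [CommRing R']

/-- the test value attached to a matrix and a candidate eigenvalue -/
def xDensA_h (w : Mat R) (t : R) : R :=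
  adjugate (w - t • 1) 0 0 * (adjugate (w - t • 1) * adjugate (w - t • 1) : Mat R) 0 0

theorem xDensA_map_h (f : R →+* R') (w : Mat R) (t : R) :
    f (xDensA_h w t) = xDensA_h (w.map f) (f t) := by
  have e : w.map f - f t • (1 : Mat R') = f.mapMatrix (w - t • 1) := by
    ext i j
    by_cases h : i = j <;> simp [h]
  rw [xDensA_h, xDensA_h, e, ← f.map_adjugate, ← map_mul f.mapMatrix, map_mul f]
  rfl

/-- the test polynomial -/
noncomputable def xDensA_H (w : Mat R) : R[X] := xDensA_h (w.map C) X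

theorem xDensA_eval (w : Mat R) (t : R) : (xDensA_H w).eval t = xDensA_h w t := by
  have e := xDensA_map_h (evalRingHom t) (w.map C) X
  rw [Matrix.map_map] at e
  rw [xDensA_H]
  simpa [Function.comp_def] using e

theorem xDensA_map_H (f : R →+* R') (w : Mat R) : (xDensA_H w).map f = xDensA_H (w.map f) := by
  have e := xDensA_map_h (mapRingHom f) (w.map C) X
  rw [Matrix.map_map] at e
  rw [xDensA_H, xDensA_H, Matrix.map_map]
  simpa [Function.comp_def] using e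

/-- the eliminant -/
noncomputable def xDensA_q (w : Mat R) : R := det (aeval w (xDensA_H w))

theorem xDensA_map_q (f : R →+* R') (w : Mat R) : f (xDensA_q w) = xDensA_q (w.map f) := by
  have e := Polynomial.map_aeval_eq_aeval_map (φ := f)
    (ψ := (f.mapMatrix : Mat R →+* Mat R')) (by
      ext r i j
      by_cases h : i = j <;> simp [h, algebraMap_matrix_apply]) (xDensA_H w) w
  rw [xDensA_q, xDensA_q, f.map_det, ← xDensA_map_H, e]
  rfl

theorem xDensA_aeval (w : Mat R) (t : R) (m : Vec R) (h : w *ᵥ m = t • m) (g : R[X]) :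
    aeval w g *ᵥ m = g.eval t • m := by
  induction g using Polynomial.induction_on with
  | C a => simp [Algebra.algebraMap_eq_smul_one, smul_mulVec]
  | add p q hp hq => rw [map_add, add_mulVec, hp, hq, eval_add, add_smul]
  | monomial n a ih =>
    rw [pow_succ, ← mul_assoc, map_mul, aeval_X, ← mulVec_mulVec, h, mulVec_smul, ih,
      eval_mul (q := X), eval_X, smul_smul, mul_comm]

/-- the cyclic permutation matrix -/
def xDensA_P (R : Type*) [CommRing R] : Mat R := !![0, 1, 0, 0; 0, 0, 1, 0; 0, 0, 0, 1; 1, 0, 0, 0]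

theorem xDensA_hP (t : R) : xDensA_h (xDensA_P R) t = -t ^ 9 - 3 * t ^ 5 := by
  have e : xDensA_P R - t • 1 = !![-t, 1, 0, 0; 0, -t, 1, 0; 0, 0, -t, 1; 1, 0, 0, -t] := by
    ext i j
    fin_cases i <;> fin_cases j <;> simp [xDensA_P]
  rw [xDensA_h, e, Matrix.mul_apply, Fin.sum_univ_four]
  simp only [adjugate_fin_succ_eq_det_submatrix, det_fin_three]
  simp [Fin.succAbove, Fin.lt_def]
  ring

end

theorem xDensA_qP : xDensA_q (xDensA_P ℂ) ≠ 0 := by
  have e₀ : (xDensA_P ℂ).map C = xDensA_P ℂ[X] := by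
    ext1 i j
    fin_cases i <;> fin_cases j <;> simp [xDensA_P]
  have e₁ : xDensA_P ℂ ^ 4 = 1 := by
    rw [pow_succ, pow_three']
    ext i j
    fin_cases i <;> fin_cases j <;> simp [xDensA_P, Matrix.mul_apply, Fin.sum_univ_four]
  rw [xDensA_q, xDensA_H, e₀, xDensA_hP]
  refine det_ne_zero_of_right_inverse (B := (-1 / 4 : ℂ) • xDensA_P ℂ ^ 3) ?_
  have e₂ : aeval (xDensA_P ℂ) (-X ^ 9 - 3 * X ^ 5 : ℂ[X]) = (-4 : ℂ) • xDensA_P ℂ := by
    rw [map_sub, map_neg, map_mul, map_pow, map_pow, aeval_X, map_ofNat,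
      show (9 : ℕ) = 4 + 4 + 1 from rfl, show (5 : ℕ) = 4 + 1 from rfl, pow_succ, pow_succ _ 4,
      pow_add, e₁, one_mul, one_mul, show (3 : Mat ℂ) = ((3 : ℕ) : Mat ℂ) from rfl,
      ← nsmul_eq_mul]
    module
  rw [e₂, smul_mul_smul_comm, ← pow_succ', e₁]
  norm_num

theorem exists_eig (p : MvPolynomial II ℂ) (hp : p ≠ 0) :
    ∃ (ξ : IK → ℂ) (v : IV → ℂ) (κ y : Vec ℂ) (t : ℂ), κ 0 = 1 ∧ y ⬝ᵥ κ = 1 ∧
      wP v *ᵥ κ = 0 ∧ y ᵥ* wP v = 0 ∧ MvPolynomial.aeval (Sum.elim ξ v + t • aI) p ≠ 0 := by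
  let Q : MvPolynomial II ℂ := xDensA_q (wP (vp MvPolynomial.X))
  have hQ : ∀ x : II → ℂ, MvPolynomial.eval x Q = xDensA_q (wP (vp x)) := fun x => by
    rw [xDensA_map_q, ← wP_comp, ← vp_comp]
    congr 3
    funext i
    exact MvPolynomial.eval_X i
  have hQ0 : Q ≠ 0 := fun h => xDensA_qP (by
    have e := hQ (Sum.elim 0 (mkV (xDensA_P ℂ) 0 0))
    rwa [h, map_zero, vp_elim, wP_mkV, eq_comm] at e)
  obtain ⟨x, hx⟩ : ∃ x : II → ℂ, MvPolynomial.eval x (p * Q) ≠ 0 := by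
    by_contra c
    push Not at c
    exact mul_ne_zero hp hQ0 (MvPolynomial.funext fun x => by rw [c x, map_zero])
  rw [map_mul, hQ] at hx
  set w := wP (vp x) with hw
  obtain ⟨t, ht⟩ := IsAlgClosed.exists_root w.charpoly (by
    rw [charpoly_degree_eq_dim]; simp)
  have hd : (w - t • 1).det = 0 := by
    rw [IsRoot.def, eval_charpoly] at ht
    rw [← neg_sub, det_neg, smul_one_eq_diagonal, ← scalar_apply, ht, mul_zero]
  obtain ⟨m, hm0, hm⟩ := exists_mulVec_eq_zero_iff.2 hd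
  rw [sub_mulVec, sub_eq_zero, smul_mulVec, one_mulVec] at hm
  have hh : xDensA_h w t ≠ 0 := fun h => right_ne_zero_of_mul hx
    (exists_mulVec_eq_zero_iff.1 ⟨m, hm0, by rw [xDensA_aeval w t m hm, xDensA_eval, h, zero_smul]⟩)
  have h₁ := left_ne_zero_of_mul hh
  have h₂ := right_ne_zero_of_mul hh
  have e₁ := mul_adjugate (w - t • 1)
  have e₂ := adjugate_mul (w - t • 1)
  rw [hd, zero_smul] at e₁ e₂
  generalize adjugate (w - t • 1) = N at h₁ h₂ e₁ e₂
  have hv : wP (vp x - t • aV) = w - t • 1 := rfl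
  refine ⟨kp x, vp x - t • aV, (N 0 0)⁻¹ • fun i => N i 0, (N 0 0 / (N * N) 0 0) • N 0, t,
    inv_mul_cancel₀ h₁, ?_, ?_, ?_, ?_⟩
  · rw [smul_dotProduct, dotProduct_smul]
    change _ * (_ * (N * N) 0 0) = 1
    field_simp
  · rw [hv, mulVec_smul]
    exact smul_eq_zero_of_right _ (funext fun i => congrFun (congrFun e₁ i) 0)
  · rw [hv, smul_vecMul]
    exact smul_eq_zero_of_right _ (funext fun i => congrFun (congrFun e₂ 0) i)
  · have e : Sum.elim (kp x) (vp x - t • aV) + t • aI = x := extI (by simp) (by simp)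
    rw [e]
    exact left_ne_zero_of_mul hx

end Pool.Agent.MP_d920b6_mp.Cx

end

section

/-! An explicit base point. -/

namespace Pool.Agent.MP_d920b6_mp.Cx

open Matrix Polynomial

/-- the explicit point -/
def xDensB_v : IV → ℂ :=
  mkV !![-1, 0, 1, 0; 0, 1, 0, 0; -2, 0, 2, 0; 0, 0, 0, 1]
    ![![single 0 3 1, single 0 1 1], ![single 0 2 1, single 0 2 1]] ![1, 0, 0, 0]

/-- the coefficients of the curve -/
def xDensB_c : Fin 3 → Fin 3 → ℂ := ![![0, 0, 1], ![2, 0, 0], ![0, -1, -1]]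

theorem xDensB_sk (j : Fin 4) (hj : j ≠ 0) :
    (![1, 0, 1, 0] : Vec ℂ) ᵥ* sk (single 0 j 1) =
      Pi.single j 1 - if j = 2 then Pi.single 0 1 else 0 := by
  funext i
  fin_cases j <;> fin_cases i <;>
    simp [sk, vecMul, dotProduct, Fin.sum_univ_four, single_apply] at hj ⊢

theorem xDensB_cc (p q : Fin 2 → ℂ) : cc xDensB_v ![1, 0, 1, 0] p q =
    p 0 ^ 2 * q 1 ^ 2 + 2 * p 0 * p 1 * q 0 ^ 2 - p 1 ^ 2 * q 0 * q 1 - p 1 ^ 2 * q 1 ^ 2 := by
  simp only [cc, psi, xDensB_v, wP_mkV, sgP_mkV, Fin.sum_univ_two, cons_val_zero, cons_val_one,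
    xDensB_sk 3 (by decide), xDensB_sk 1 (by decide), xDensB_sk 2 (by decide)]
  simp [tri, bar, rowP, rowM, cross_apply, dotProduct, Fin.sum_univ_three]
  ring

theorem xDensB_cf : cf xDensB_v ![1, 0, 1, 0] = xDensB_c := by
  funext i j
  simp only [cf, xDensB_cc]
  fin_cases i <;> fin_cases j <;> simp [pol, xDensB_c] <;> norm_num

theorem xDensB_Dsc : Dsc xDensB_c = X ^ 4 + 8 * X ^ 3 - 8 * X := by
  simp [Dsc, PP, xDensB_c, map_ofNat]
  ring

theorem base_example : ∃ (v : IV → ℂ) (κ y : Vec ℂ), Base v κ y := by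
  refine ⟨xDensB_v, ![1, 0, 1, 0], ![2, 0, -1, 0], ?_, ?_, ⟨1, ?_⟩, ?_, ?_⟩
  · funext i
    fin_cases i <;> simp [xDensB_v, mulVec, dotProduct, Fin.sum_univ_four]
  · funext i
    fin_cases i <;> simp [xDensB_v, vecMul, dotProduct, Fin.sum_univ_four]
  · rw [one_mul]
    ext i j
    fin_cases i <;> fin_cases j <;> simp [xDensB_v, vecMulVec_apply] <;> norm_num
  · simp [xDensB_v, dotProduct, Fin.sum_univ_four]
  rw [xDensB_cf]
  refine ⟨rfl, ?_, by simp, by simp, by simp, ?_, ?_, ?_, ?_, ?_⟩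
  · simp [dotProduct, Fin.sum_univ_four]
    norm_num
  · simp [bq, mon, vlo, vhi, xDensB_c, Fin.sum_univ_three]
  · simp [bq, mon, vlo, xDensB_c, Fin.sum_univ_three]
  · simp [bq, mon, xDensB_c, Fin.sum_univ_three]
  · rw [xDensB_Dsc]
    compute_degree!
  · have e : derivative (X ^ 4 + 8 * X ^ 3 - 8 * X : ℂ[X]) = 4 * X ^ 3 + 24 * X ^ 2 - 8 := by
      simp [map_ofNat]
      ring
    rw [xDensB_Dsc, e]
    refine ⟨C (3664⁻¹) * (16 - 2064 * X - 348 * X ^ 2),
      C (3664⁻¹) * (-458 - 16 * X + 690 * X ^ 2 + 87 * X ^ 3), ?_⟩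
    have h : C (3664⁻¹ : ℂ) * 3664 = 1 := by
      rw [← map_ofNat C 3664, ← map_mul, inv_mul_cancel₀ (by norm_num), map_one]
    linear_combination h

end Pool.Agent.MP_d920b6_mp.Cx

end

section

/-! A base point at which a given nonzero polynomial does not vanish. -/

namespace Pool.Agent.MP_d920b6_mp.Cx

open Matrix

/-- the parameters -/
abbrev xDens_J := II ⊕ Fin 3 ⊕ Fin 3 ⊕ Unit

section
variable {R R' : Type*} [CommRing R] [CommRing R']

/-- the product of the open conditions on a base point -/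
noncomputable def xDens_bs (v : IV → R) (κ y : Vec R) : R :=
  det (wP v + vecMulVec κ y) * (y ⬝ᵥ tauP v) * y 0 * y 2 * (y 2 * κ 2 + y 3 * κ 3) *
    bq (cf v κ) (vlo y) ![0, 1] * bq (cf v κ) ![-κ 1, 1] ![-κ 3, κ 2] * (Dsc (cf v κ)).coeff 4 *
    Polynomial.resultant (Dsc (cf v κ)) (Polynomial.derivative (Dsc (cf v κ))) 4 3

theorem xDens_map_bs (f : R →+* R') (v : IV → R) (κ y : Vec R) :
    f (xDens_bs v κ y) = xDens_bs (f ∘ v) (f ∘ κ) (f ∘ y) := by
  have e₀ : (fun i j => f (cf v κ i j)) = cf (f ∘ v) (f ∘ κ) := by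
    funext i j
    exact map_cf f v κ i j
  have e₁ : f.mapMatrix (wP v + vecMulVec κ y) = wP (f ∘ v) + vecMulVec (f ∘ κ) (f ∘ y) := by
    ext i j
    simp [wP, vecMulVec_apply]
  have e₂ : f ∘ vlo y = vlo (f ∘ y) := by
    funext i
    fin_cases i <;> rfl
  have e₃ : f ∘ ![0, 1] = ![0, 1] := by
    funext i
    fin_cases i <;> simp
  have e₄ : f ∘ ![-κ 1, 1] = ![-(f ∘ κ) 1, 1] := by
    funext i
    fin_cases i <;> simp
  have e₅ : f ∘ ![-κ 3, κ 2] = ![-(f ∘ κ) 3, (f ∘ κ) 2] := by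
    funext i
    fin_cases i <;> simp
  simp only [xDens_bs, map_mul, map_add, f.map_det, e₁, map_bq, e₀, e₂, e₃, e₄, e₅,
    f.map_dotProduct, ← Polynomial.coeff_map, ← Polynomial.resultant_map_map, map_Dsc]
  rw [← Polynomial.derivative_map, map_Dsc, e₀]
  rfl

/-- the kernel vector -/
def xDens_k (P : xDens_J → R) : Vec R :=
  ![1, P (.inr (.inl 0)), P (.inr (.inl 1)), P (.inr (.inl 2))]

/-- the kernel covector -/
def xDens_y (P : xDens_J → R) : Vec R :=
  ![1 - (P (.inr (.inr (.inl 0))) * P (.inr (.inl 0)) +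
      P (.inr (.inr (.inl 1))) * P (.inr (.inl 1)) + P (.inr (.inr (.inl 2))) * P (.inr (.inl 2))),
    P (.inr (.inr (.inl 0))), P (.inr (.inr (.inl 1))), P (.inr (.inr (.inl 2)))]

/-- the point of `V` -/
def xDens_v (P : xDens_J → R) : IV → R :=
  mkV ((1 - vecMulVec (xDens_k P) (xDens_y P)) * wP (vp fun i => P (.inl i)) *
      (1 - vecMulVec (xDens_k P) (xDens_y P)))
    (sgP (vp fun i => P (.inl i))) (tauP (vp fun i => P (.inl i)))

/-- the shifted point -/
def xDens_x (P : xDens_J → R) : II → R :=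
  Sum.elim (kp fun i => P (.inl i)) (xDens_v P) + P (.inr (.inr (.inr ()))) • aI

variable (f : R →+* R') (P : xDens_J → R)

theorem xDens_map_k : f ∘ xDens_k P = xDens_k (f ∘ P) := by
  funext i
  fin_cases i <;> simp [xDens_k]

theorem xDens_map_y : f ∘ xDens_y P = xDens_y (f ∘ P) := by
  funext i
  fin_cases i <;> simp [xDens_y]

theorem xDens_map_v : f ∘ xDens_v P = xDens_v (f ∘ P) := by
  have e : f.mapMatrix (1 - vecMulVec (xDens_k P) (xDens_y P)) =
      1 - vecMulVec (xDens_k (f ∘ P)) (xDens_y (f ∘ P)) := by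
    rw [map_sub, map_one, ← xDens_map_k, ← xDens_map_y]
    congr 1
    ext i j
    simp [vecMulVec_apply]
  refine extV ?_ (fun _ _ => rfl) rfl
  rw [wP_comp, xDens_v, xDens_v, wP_mkV, wP_mkV, ← e, ← RingHom.mapMatrix_apply, map_mul, map_mul]
  rfl

theorem xDens_map_x : f ∘ xDens_x P = xDens_x (f ∘ P) := by
  rw [xDens_x, xDens_x, ← xDens_map_v, ← comp_aI f]
  funext i
  rcases i with i | i <;> simp [kp]

theorem xDens_dot : xDens_y P ⬝ᵥ xDens_k P = 1 := by
  simp [xDens_y, xDens_k, dotProduct, Fin.sum_univ_four]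
  ring

theorem xDens_wk : wP (xDens_v P) *ᵥ xDens_k P = 0 := by
  rw [xDens_v, wP_mkV, ← mulVec_mulVec, sub_mulVec, one_mulVec, vecMulVec_mulVec, xDens_dot]
  simp

theorem xDens_yw : xDens_y P ᵥ* wP (xDens_v P) = 0 := by
  rw [xDens_v, wP_mkV, Matrix.mul_assoc, ← vecMul_vecMul, vecMul_sub, vecMul_one, vecMul_vecMulVec,
    xDens_dot]
  simp

theorem xDens_surj (ξ : IK → R) (v : IV → R) (κ y : Vec R) (t : R) (h₀ : κ 0 = 1)
    (h₁ : y ⬝ᵥ κ = 1) (h₂ : wP v *ᵥ κ = 0) (h₃ : y ᵥ* wP v = 0) :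
    ∃ P : xDens_J → R, xDens_k P = κ ∧ xDens_y P = y ∧ xDens_v P = v ∧
      xDens_x P = Sum.elim ξ v + t • aI := by
  let P : xDens_J → R := Sum.elim (Sum.elim ξ v) (Sum.elim (bar κ) (Sum.elim (bar y) fun _ => t))
  have e₁ : xDens_k P = κ := by
    funext i
    fin_cases i <;> simp [xDens_k, P, bar, h₀]
  have e₂ : xDens_y P = y := by
    simp only [dotProduct, Fin.sum_univ_four, h₀] at h₁
    funext i
    fin_cases i <;> simp [xDens_y, P, bar]
    linear_combination -h₁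
  have e₃ : xDens_v P = v := by
    refine extV ?_ (fun _ _ => rfl) rfl
    rw [xDens_v, wP_mkV, e₁, e₂]
    change _ * wP v * _ = _
    rw [Matrix.sub_mul, Matrix.one_mul, vecMulVec_mul, h₃, vecMulVec_zero, sub_zero,
      Matrix.mul_sub, Matrix.mul_one, mul_vecMulVec, h₂, zero_vecMulVec, sub_zero]
  exact ⟨P, e₁, e₂, e₃, by rw [xDens_x, e₃]; rfl⟩

theorem xDens_deg (c : Fin 3 → Fin 3 → R) : (Dsc c).natDegree ≤ 4 := by
  unfold Dsc PP
  compute_degree

end

theorem xDens_of_base {v : IV → ℂ} {κ y : Vec ℂ} (h : Base v κ y) : xDens_bs v κ y ≠ 0 := by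
  obtain ⟨W, hW⟩ := h.inv
  have d := h.ok.deg
  have h₁ : (Dsc (cf v κ)).coeff 4 ≠ 0 := by
    rw [← d]
    exact Polynomial.leadingCoeff_ne_zero.2 fun c => by simp [c] at d
  have h₂ := Polynomial.resultant_ne_zero _ _ h.ok.sqf
  rw [Polynomial.natDegree_derivative, d] at h₂
  exact mul_ne_zero (mul_ne_zero (mul_ne_zero (mul_ne_zero (mul_ne_zero (mul_ne_zero (mul_ne_zero
    (mul_ne_zero (det_ne_zero_of_left_inverse hW) h.x0) h.ok.y0) h.ok.y2) h.ok.yκ') h.ok.cA)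
    h.ok.cκ) h₁) h₂

theorem xDens_base {v : IV → ℂ} {κ y : Vec ℂ} (h₀ : κ 0 = 1) (h₁ : y ⬝ᵥ κ = 1)
    (h₂ : wP v *ᵥ κ = 0) (h₃ : y ᵥ* wP v = 0) (h : xDens_bs v κ y ≠ 0) : Base v κ y := by
  simp only [xDens_bs, mul_ne_zero_iff] at h
  obtain ⟨⟨⟨⟨⟨⟨⟨⟨a₁, a₂⟩, a₃⟩, a₄⟩, a₅⟩, a₆⟩, a₇⟩, a₈⟩, a₉⟩ := h
  have d := xDens_deg (cf v κ)
  refine ⟨h₂, h₃, ⟨_, nonsing_inv_mul _ (Ne.isUnit a₁)⟩, a₂, h₀, h₁, a₃, a₄, a₅,
    by rw [← cc_eq_bq, cc_self v κ y h₃], a₆, a₇,
    Polynomial.natDegree_eq_of_le_of_coeff_ne_zero d a₈, ?_⟩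
  obtain ⟨p, q, -, -, e⟩ := Polynomial.exists_mul_add_mul_eq_C_resultant (m := 4) (n := 3) _ _ d
    ((Polynomial.natDegree_derivative_le _).trans (Nat.sub_le_sub_right d 1)) (Or.inl (by decide))
  generalize Polynomial.resultant (Dsc (cf v κ)) _ 4 3 = r at a₉ e
  refine ⟨Polynomial.C r⁻¹ * p, Polynomial.C r⁻¹ * q, ?_⟩
  rw [mul_assoc, mul_assoc, ← mul_add, mul_comm p, mul_comm q, e, ← map_mul, inv_mul_cancel₀ a₉,
    map_one]

theorem exists_base (p : MvPolynomial II ℂ) (hp : p ≠ 0) :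
    ∃ (ξ : IK → ℂ) (v : IV → ℂ) (κ y : Vec ℂ) (t : ℂ), Base v κ y ∧
      MvPolynomial.aeval (Sum.elim ξ v + t • aI) p ≠ 0 := by
  let Z : xDens_J → MvPolynomial xDens_J ℂ := MvPolynomial.X
  have hZ : ∀ P : xDens_J → ℂ, MvPolynomial.eval P ∘ Z = P := fun P =>
    funext fun i => MvPolynomial.eval_X i
  let Q₁ := xDens_bs (xDens_v Z) (xDens_k Z) (xDens_y Z)
  let Q₂ := MvPolynomial.aeval (xDens_x Z) p
  have h₁ : ∀ P, MvPolynomial.eval P Q₁ = xDens_bs (xDens_v P) (xDens_k P) (xDens_y P) :=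
    fun P => by rw [xDens_map_bs, xDens_map_v, xDens_map_k, xDens_map_y, hZ]
  have h₂ : ∀ P, MvPolynomial.eval P Q₂ = MvPolynomial.aeval (xDens_x P) p := fun P => by
    have e := xDens_map_x (MvPolynomial.eval P) Z
    rw [hZ] at e
    rw [← e]
    exact MvPolynomial.comp_aeval_apply _ (MvPolynomial.aeval P) p
  have n₁ : Q₁ ≠ 0 := fun c => by
    obtain ⟨v, κ, y, h⟩ := base_example
    obtain ⟨P, e₁, e₂, e₃, -⟩ := xDens_surj 0 v κ y 0 h.ok.κ0 h.ok.yκ h.wκ h.yw
    have e := h₁ P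
    rw [c, map_zero, e₁, e₂, e₃] at e
    exact xDens_of_base h e.symm
  have n₂ : Q₂ ≠ 0 := fun c => by
    obtain ⟨ξ, v, κ, y, t, a₁, a₂, a₃, a₄, a₅⟩ := exists_eig p hp
    obtain ⟨P, -, -, -, e₄⟩ := xDens_surj ξ v κ y t a₁ a₂ a₃ a₄
    have e := h₂ P
    rw [c, map_zero, e₄] at e
    exact a₅ e.symm
  obtain ⟨P, hP⟩ : ∃ P : xDens_J → ℂ, MvPolynomial.eval P (Q₁ * Q₂) ≠ 0 := by
    by_contra c
    push Not at c
    exact mul_ne_zero n₁ n₂ (MvPolynomial.funext fun x => by rw [c x, map_zero])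
  rw [map_mul, h₁, h₂] at hP
  exact ⟨_, xDens_v P, xDens_k P, xDens_y P, _,
    xDens_base rfl (xDens_dot P) (xDens_wk P) (xDens_yw P) (left_ne_zero_of_mul hP),
    right_ne_zero_of_mul hP⟩

end Pool.Agent.MP_d920b6_mp.Cx

end

section

/-! From a family over a subfield of `ℂ` to `Fam`. -/

namespace Pool.Agent.MP_d920b6_mp.Cx

open MvPolynomial

theorem xTrans_rinv {k ι : Type*} [Field k] [Fintype ι] [DecidableEq ι] {m : ℕ}
    (A : Matrix (Fin m) ι k) (h : LinearIndependent k fun i => A i) :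
    ∃ B : Matrix ι (Fin m) k, A * B = 1 := by
  have hinj : Function.Injective A.vecMulLinear := Matrix.vecMul_injective_iff.2 h
  obtain ⟨g, hg⟩ := LinearMap.exists_leftInverse_of_injective A.vecMulLinear
    (LinearMap.ker_eq_bot.2 hinj)
  refine ⟨Matrix.of fun l j => g (Pi.single l 1) j, ?_⟩
  ext i j
  have h1 : g (A i) = Pi.single i 1 := by
    have := LinearMap.congr_fun hg (Pi.single i 1)
    simpa [Matrix.row] using this
  have h2 : A i = ∑ l, A i l • (Pi.single l 1 : ι → k) := by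
    ext l; simp [Finset.sum_apply, Pi.single_apply]
  rw [h2, map_sum] at h1
  have h3 := congrFun h1 j
  simp only [map_smul, Finset.sum_apply, Pi.smul_apply, smul_eq_mul] at h3
  rw [Matrix.mul_apply, Matrix.one_apply]
  simp only [Matrix.of_apply]
  rw [h3, Pi.single_apply]
  simp only [eq_comm]

theorem xTrans_li {K ι : Type*} [Field K] [Fintype ι] {m : ℕ}
    (A : Matrix (Fin m) ι K) (B : Matrix ι (Fin m) K) (h : (A * B).det ≠ 0) :
    LinearIndependent K fun i => A i := by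
  refine Matrix.vecMul_injective_iff.1 ?_
  intro u v huv
  have h1 : Matrix.vecMul (u - v) (A * B) = 0 := by
    have h2 : Matrix.vecMul u A = Matrix.vecMul v A := huv
    rw [← Matrix.vecMul_vecMul, Matrix.sub_vecMul, h2, sub_self, Matrix.zero_vecMul]
  exact sub_eq_zero.1 (Matrix.eq_zero_of_vecMul_eq_zero h h1)

theorem xTrans_det {R S ι : Type*} [CommRing R] [CommRing S] [Fintype ι] {m : ℕ} (φ : R →+* S)
    (A : Matrix (Fin m) ι R) (B : Matrix ι (Fin m) R) :
    φ (A * B).det = (A.map φ * B.map φ).det := by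
  rw [RingHom.map_det, RingHom.mapMatrix_apply, Matrix.map_mul]

/-- evaluate a polynomial over `k` at a point of an extension of `ℂ` -/
noncomputable def xTrans_ev {k : Type*} [Field k] [Algebra k ℂ] {K : Type} [Field K]
    [Algebra ℂ K] (x : II → K) : MvPolynomial II k →+* K :=
  (aeval x : MvPolynomial II ℂ →ₐ[ℂ] K).toRingHom.comp (map (algebraMap k ℂ))

theorem xTrans_ev_apply {k : Type*} [Field k] [Algebra k ℂ] {K : Type} [Field K]
    [Algebra ℂ K] (x : II → K) (g : MvPolynomial II k) :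
    xTrans_ev x g = aeval x (map (algebraMap k ℂ) g) := rfl

theorem xTrans_ev_X {k : Type*} [Field k] [Algebra k ℂ] {K : Type} [Field K]
    [Algebra ℂ K] (x : II → K) :
    (xTrans_ev x : MvPolynomial II k →+* K) ∘ X = x := by
  funext i
  simp [xTrans_ev_apply]

theorem xTrans_ev_grad {k : Type*} [Field k] [Algebra k ℂ] {K : Type} [Field K]
    [Algebra ℂ K] (x : II → K) (g : MvPolynomial II k) :
    (xTrans_ev x : MvPolynomial II k →+* K) ∘ (fun l => pderiv l g) =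
      grad (map (algebraMap k ℂ) g) x := by
  funext l
  simp only [Function.comp, xTrans_ev_apply, grad, pderiv_map]

theorem fam_of {k : Type*} [Field k] [Algebra k ℂ] (m : ℕ) (f : Fin m → MvPolynomial II k)
    (hm : 176 ≤ 2 * m)
    (hinv : ∀ (i j : Fin m) (x : II → k),
      PF x (fun l => eval x (pderiv l (f i))) (fun l => eval x (pderiv l (f j))) = 0 ∧
      PF aI (fun l => eval x (pderiv l (f i))) (fun l => eval x (pderiv l (f j))) = 0)
    (x₀ : II → k) (hli : LinearIndependent k fun i l => eval x₀ (pderiv l (f i))) :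
    Nonempty Fam := by
  have : CharZero k := (algebraMap k ℂ).charZero
  have : Infinite k := Infinite.of_injective (Nat.cast : ℕ → k) Nat.cast_injective
  have h1 : ∀ i j, PF (X : II → MvPolynomial II k) (fun l => pderiv l (f i))
      (fun l => pderiv l (f j)) = 0 := by
    intro i j
    refine MvPolynomial.funext fun x => ?_
    have hx : (eval x : MvPolynomial II k →+* k) ∘ X = x := by
      funext l; simp
    rw [map_PF, hx, map_zero]
    exact (hinv i j x).1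
  have h2 : ∀ i j, PF (aI : II → MvPolynomial II k) (fun l => pderiv l (f i))
      (fun l => pderiv l (f j)) = 0 := by
    intro i j
    refine MvPolynomial.funext fun x => ?_
    rw [map_PF, comp_aI, map_zero]
    exact (hinv i j x).2
  obtain ⟨B, hB⟩ := xTrans_rinv (Matrix.of fun i l => eval x₀ (pderiv l (f i))) hli
  let J : Matrix (Fin m) II (MvPolynomial II k) := Matrix.of fun i l => pderiv l (f i)
  let B' : Matrix II (Fin m) (MvPolynomial II k) := B.map C
  let q : MvPolynomial II k := (J * B').det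
  have hq0 : q ≠ 0 := by
    intro h0
    have h3 : eval x₀ q = (J.map (eval x₀) * B'.map (eval x₀)).det := xTrans_det _ J B'
    have h4 : B'.map (eval x₀ : MvPolynomial II k →+* k) = B := by
      ext l j; simp [B']
    have h5 : J.map (eval x₀ : MvPolynomial II k →+* k) =
        Matrix.of fun i l => eval x₀ (pderiv l (f i)) := rfl
    rw [h4, h5, hB, Matrix.det_one, h0, map_zero] at h3
    exact zero_ne_one h3
  refine ⟨⟨m, fun i => map (algebraMap k ℂ) (f i), map (algebraMap k ℂ) q, hm, ?_, ?_, ?_⟩⟩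
  · intro h0
    exact hq0 (map_injective _ (algebraMap k ℂ).injective (by rw [h0, map_zero]))
  · intro K _ _ x i j
    constructor
    · have := congrArg (xTrans_ev x) (h1 i j)
      rwa [map_PF, xTrans_ev_X, xTrans_ev_grad, xTrans_ev_grad, map_zero] at this
    · have := congrArg (xTrans_ev x) (h2 i j)
      rwa [map_PF, comp_aI, xTrans_ev_grad, xTrans_ev_grad, map_zero] at this
  · intro K _ _ x hx
    rw [← xTrans_ev_apply, xTrans_det (xTrans_ev x) J B'] at hx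
    have h6 := xTrans_li _ _ hx
    have h7 : (fun i => J.map (xTrans_ev x) i) =
        fun i => grad (map (algebraMap k ℂ) (f i)) x := by
      funext i
      exact xTrans_ev_grad x (f i)
    rwa [h7] at h6

end Pool.Agent.MP_d920b6_mp.Cx

end
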