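import Mathlib

section

/-! Extension of derivations along formally etale maps. -/

namespace Pool.Agent.MP_d920b6_mp.Cx

theorem xf0a_extend {R S T : Type} [CommRing R] [CommRing S] [CommRing T] [Algebra R S]
    [Algebra R T] [Algebra S T] [IsScalarTower R S T] [Algebra.FormallyEtale S T]
    (d : Derivation R S T) : ∃ D : Derivation R T T, ∀ s, D (algebraMap S T s) = d s := by
  have h := KaehlerDifferential.isBaseChange_of_formallyEtale R S T
  refine ⟨(h.lift d.liftKaehlerDifferential).compDer (KaehlerDifferential.D R T), fun s => ?_⟩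
  change h.lift d.liftKaehlerDifferential (KaehlerDifferential.D R T (algebraMap S T s)) = _
  rw [← KaehlerDifferential.map_D R R S T, h.lift_eq, Derivation.liftKaehlerDifferential_comp_D]

end Pool.Agent.MP_d920b6_mp.Cx

end

section

/-! The function field of the curve `s ^ 2 = Δ u`. -/

namespace Pool.Agent.MP_d920b6_mp.Cx

open Polynomial

/-- `K` is the function field of `s ^ 2 = Δ u` -/
structure IsFF (Δ : ℂ[X]) {K : Type} [Field K] [Algebra ℂ K] (u s : K) : Prop where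
  sq : s ^ 2 = aeval u Δ
  gen : ∀ a : K, ∃ p q d : ℂ[X], d ≠ 0 ∧ a * aeval u d = aeval u p + aeval u q * s
  indep : ∀ p q : ℂ[X], aeval u p + aeval u q * s = 0 → p = 0 ∧ q = 0

theorem xf0_not_sq (Δ : ℂ[X]) (hd : Δ.natDegree = 4) (hs : IsCoprime Δ (derivative Δ))
    (b : RatFunc ℂ) : b ^ 2 ≠ algebraMap ℂ[X] (RatFunc ℂ) Δ := by
  intro h
  obtain ⟨q, rfl⟩ := IsIntegrallyClosed.exists_algebraMap_eq_of_isIntegral_pow (R := ℂ[X])
    (x := b) two_pos (h ▸ isIntegral_algebraMap)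
  rw [← map_pow] at h
  have h1 : q ^ 2 = Δ := IsFractionRing.injective ℂ[X] (RatFunc ℂ) h
  have h2 : IsUnit q := hs.isUnit_of_dvd' ⟨q, by rw [← h1, sq]⟩
    ⟨2 * derivative q, by rw [← h1, sq, derivative_mul]; ring⟩
  have h3 := natDegree_eq_zero_of_isUnit (h2.pow 2)
  rw [h1, hd] at h3
  exact absurd h3 (by norm_num)

theorem xf0_main (Δ : ℂ[X]) (hd : Δ.natDegree = 4) (hs : IsCoprime Δ (derivative Δ))
    {K : Type} [Field K] [Algebra ℂ K] [Algebra ℂ[X] K] [Algebra (RatFunc ℂ) K]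
    [IsScalarTower ℂ ℂ[X] K] [IsScalarTower ℂ[X] (RatFunc ℂ) K]
    [Algebra.IsSeparable (RatFunc ℂ) K] (s : K) (h1 : s ^ 2 = algebraMap ℂ[X] K Δ)
    (h2 : ∀ a : K, ∃ α β : RatFunc ℂ, a = algebraMap _ K α + algebraMap _ K β * s) :
    ∃ (u : K) (E : Derivation ℂ K K), IsFF Δ u s ∧ E u = s := by
  have := Algebra.FormallyEtale.of_isLocalization (Rₘ := RatFunc ℂ) (nonZeroDivisors ℂ[X])
  have := Algebra.FormallyEtale.of_isSeparable (RatFunc ℂ) K
  have := Algebra.FormallyEtale.comp ℂ[X] (RatFunc ℂ) K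
  obtain ⟨E, hE⟩ := xf0a_extend (mkDerivation ℂ s)
  have hev : ∀ p : ℂ[X], aeval (algebraMap ℂ[X] K X) p =
      algebraMap (RatFunc ℂ) K (algebraMap ℂ[X] (RatFunc ℂ) p) := fun p => by
    rw [aeval_algebraMap_apply, aeval_X_left_apply, ← IsScalarTower.algebraMap_apply]
  refine ⟨algebraMap ℂ[X] K X, E, ⟨?_, fun a => ?_, fun p q h => ?_⟩, by rw [hE, mkDerivation_X]⟩
  · rw [hev, h1, ← IsScalarTower.algebraMap_apply]
  · obtain ⟨α, β, rfl⟩ := h2 a
    refine ⟨α.num * β.denom, β.num * α.denom, α.denom * β.denom,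
      mul_ne_zero α.denom_ne_zero β.denom_ne_zero, ?_⟩
    have e : ∀ γ : RatFunc ℂ, algebraMap ℂ[X] _ γ.num = γ * algebraMap ℂ[X] _ γ.denom :=
      fun γ => (div_eq_iff (RatFunc.algebraMap_ne_zero γ.denom_ne_zero)).1 γ.num_div_denom
    simp only [hev, map_mul, e]
    ring
  · rw [hev, hev] at h
    have hq : q = 0 := by
      by_contra hq
      have hq' := RatFunc.algebraMap_ne_zero hq
      refine xf0_not_sq Δ hd hs (algebraMap ℂ[X] _ p / algebraMap ℂ[X] _ q) ?_
      rw [div_pow, div_eq_iff (pow_ne_zero 2 hq')]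
      apply (algebraMap (RatFunc ℂ) K).injective
      rw [map_mul, map_pow, map_pow, ← IsScalarTower.algebraMap_apply ℂ[X] (RatFunc ℂ) K Δ, ← h1,
        eq_neg_of_add_eq_zero_left h]
      ring
    subst hq
    rw [map_zero, map_zero, zero_mul, add_zero, map_eq_zero] at h
    exact ⟨IsFractionRing.injective ℂ[X] (RatFunc ℂ) (h.trans (map_zero _).symm), rfl⟩

theorem exists_FF (Δ : ℂ[X]) (hd : Δ.natDegree = 4) (hs : IsCoprime Δ (derivative Δ)) :
    ∃ (K : Type) (_ : Field K) (_ : Algebra ℂ K) (u s : K) (E : Derivation ℂ K K),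
      IsFF Δ u s ∧ E u = s := by
  set f : (RatFunc ℂ)[X] := X ^ 2 - C (algebraMap ℂ[X] (RatFunc ℂ) Δ) with hf
  have : Fact (Irreducible f) :=
    ⟨X_pow_sub_C_irreducible_of_prime Nat.prime_two (xf0_not_sq Δ hd hs)⟩
  have hm : f.Monic := monic_X_pow_sub_C _ two_ne_zero
  have : Module.Finite (RatFunc ℂ) (AdjoinRoot f) := (AdjoinRoot.powerBasis hm.ne_zero).finite
  obtain ⟨u, E, h⟩ := xf0_main Δ hd hs (K := AdjoinRoot f) (AdjoinRoot.root f) (by
    have h0 := AdjoinRoot.eval₂_root f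
    rw [hf, eval₂_sub, eval₂_X_pow, eval₂_C, sub_eq_zero] at h0
    exact h0) (fun a => by
    obtain ⟨g, rfl⟩ := AdjoinRoot.mk_surjective a
    have h1 : (g %ₘ f).natDegree ≤ 1 := by
      have h2 := natDegree_modByMonic_lt g hm (fun h => by
        have := congrArg natDegree h
        rw [hf, natDegree_X_pow_sub_C, natDegree_one] at this
        exact absurd this (by norm_num))
      rw [hf, natDegree_X_pow_sub_C] at h2
      exact Nat.lt_succ_iff.1 h2
    obtain ⟨β, α, h3⟩ := exists_eq_X_add_C_of_natDegree_le_one h1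
    refine ⟨α, β, ?_⟩
    rw [← modByMonic_add_div g f, map_add, map_mul, AdjoinRoot.mk_self, zero_mul, add_zero, h3,
      map_add, map_mul, AdjoinRoot.mk_C, AdjoinRoot.mk_C, AdjoinRoot.mk_X, add_comm]
    rfl)
  exact ⟨AdjoinRoot f, inferInstance, inferInstance, u, _, E, h⟩

end Pool.Agent.MP_d920b6_mp.Cx

end

section

/-! Valuation rings of the function field of the curve: completeness and points. -/

namespace Pool.Agent.MP_d920b6_mp.Cx

open Polynomial

variable {Δ : ℂ[X]} {K : Type} [Field K] [Algebra ℂ K] {u s : K}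

omit [Algebra ℂ K] in
theorem xf0v_dom {R : Type} [CommRing R] (Φ : R →+* K) (Ψ : R →+* ℂ)
    (h : ∀ F, Φ F = 0 → Ψ F = 0) :
    ∃ O : ValuationSubring K, (∀ F, Φ F ∈ O) ∧ ∀ F, Ψ F = 0 → O.valuation (Φ F) < 1 := by
  have hI : Ideal.map Φ.rangeRestrict (RingHom.ker Ψ) ≠ ⊤ := by
    intro ht
    have h1 : (1 : Φ.range) ∈ Ideal.map Φ.rangeRestrict (RingHom.ker Ψ) := by
      rw [ht]; exact Submodule.mem_top
    obtain ⟨F, hF, hF1⟩ :=
      (Ideal.mem_map_iff_of_surjective _ Φ.rangeRestrict_surjective).1 h1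
    have h2 : Φ (F - 1) = 0 := by
      have := congrArg Subtype.val hF1
      rw [map_sub, map_one, sub_eq_zero]
      exact this
    have h3 := h _ h2
    rw [map_sub, map_one, RingHom.mem_ker.1 hF] at h3
    norm_num at h3
  obtain ⟨O, h1, h2⟩ := Ideal.image_subset_nonunits_valuationSubring _ hI
  refine ⟨O, fun F => h1 ⟨F, rfl⟩, fun F hF => O.mem_nonunits_iff.1 (h2 ?_)⟩
  exact ⟨Φ.rangeRestrict F, Ideal.mem_map_of_mem _ hF, rfl⟩

theorem xf0v_const {O : ValuationSubring K} (hC : ∀ c : ℂ, algebraMap ℂ K c ∈ O) {c : ℂ}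
    (h : O.valuation (algebraMap ℂ K c) < 1) : c = 0 := by
  rcases O.mem_nonunits_iff_or.1 (O.mem_nonunits_iff.2 h) with h1 | h1
  · exact (map_eq_zero _).1 h1
  · exact (h1 (by rw [← map_inv₀]; exact hC _)).elim

omit [Algebra ℂ K] in
theorem xf0v_mul {O : ValuationSubring K} {x y : K} (hx : x ∈ O) (hy : O.valuation y < 1) :
    O.valuation (x * y) < 1 := by
  rw [map_mul]
  exact (mul_le_of_le_one_left' ((O.valuation_le_one_iff x).2 hx)).trans_lt hy

theorem xf0v_lin (u s : K) (u₀ : ℂ) :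
    aeval u (X - C u₀) + aeval u (0 : ℂ[X]) * s = u - algebraMap ℂ K u₀ := by
  rw [map_sub, aeval_X, aeval_C, map_zero, zero_mul, add_zero]

theorem xf0v_point (hsq : s ^ 2 = aeval u Δ)
    (hi : ∀ p q : ℂ[X], aeval u p + aeval u q * s = 0 → p = 0 ∧ q = 0) (u₀ s₀ : ℂ)
    (h₀ : s₀ ^ 2 = Δ.eval u₀) :
    ∃ O : ValuationSubring K, (∀ p q : ℂ[X], aeval u p + aeval u q * s ∈ O) ∧
      ∀ p q : ℂ[X], O.valuation (aeval u p + aeval u q * s) < 1 ↔
        p.eval u₀ + q.eval u₀ * s₀ = 0 := by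
  let Φ : ℂ[X][X] →+* K := eval₂RingHom (aeval u : ℂ[X] →ₐ[ℂ] K).toRingHom s
  let Ψ : ℂ[X][X] →+* ℂ := eval₂RingHom (evalRingHom u₀) s₀
  have hΦ : ∀ p q : ℂ[X], Φ (C p + C q * X) = aeval u p + aeval u q * s := by
    intro p q; simp [Φ]
  have hΨ : ∀ p q : ℂ[X], Ψ (C p + C q * X) = p.eval u₀ + q.eval u₀ * s₀ := by
    intro p q; simp [Ψ]
  have key : ∀ F : ℂ[X][X], ∃ p q : ℂ[X], Φ F = aeval u p + aeval u q * s ∧
      Ψ F = p.eval u₀ + q.eval u₀ * s₀ := by
    intro F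
    induction F using Polynomial.induction_on with
    | C a => exact ⟨a, 0, by simp [Φ], by simp [Ψ]⟩
    | add F G hF hG =>
      obtain ⟨p, q, h1, h2⟩ := hF
      obtain ⟨p', q', h3, h4⟩ := hG
      refine ⟨p + p', q + q', ?_, ?_⟩
      · rw [map_add, h1, h3, map_add, map_add]; ring
      · rw [map_add, h2, h4, eval_add, eval_add]; ring
    | monomial n a hF =>
      obtain ⟨p, q, h1, h2⟩ := hF
      have e1 : Φ X = s := by simp [Φ]
      have e2 : Ψ X = s₀ := by simp [Ψ]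
      refine ⟨q * Δ, p, ?_, ?_⟩
      · rw [pow_succ, ← mul_assoc, map_mul, h1, e1, map_mul, ← hsq]; ring
      · rw [pow_succ, ← mul_assoc, map_mul, h2, e2, eval_mul, ← h₀]; ring
  obtain ⟨O, h1, h2⟩ := xf0v_dom Φ Ψ fun F hF => by
    obtain ⟨p, q, h3, h4⟩ := key F
    obtain ⟨rfl, rfl⟩ := hi p q (h3 ▸ hF)
    simpa using h4
  have h3 : ∀ p q : ℂ[X], aeval u p + aeval u q * s ∈ O := fun p q => hΦ p q ▸ h1 _
  refine ⟨O, h3, fun p q => ⟨fun h => ?_, fun h => hΦ p q ▸ h2 _ (by rw [hΨ, h])⟩⟩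
  have h4 := h2 (C (p - C (p.eval u₀ + q.eval u₀ * s₀)) + C q * X) (by rw [hΨ]; simp)
  rw [hΦ, map_sub, aeval_C] at h4
  refine xf0v_const (O := O) (fun c => by simpa using h3 (C c) 0) ?_
  have h5 := O.valuation.map_sub_lt h h4
  rwa [show ∀ x y z : K, x + y - (x - z + y) = z from fun x y z => by ring] at h5

/-- no poles at finite places -/
theorem xf0v_fin (h : IsFF Δ u s) (hs : IsCoprime Δ (derivative Δ)) (a : K)
    (h₀ : ∀ O : ValuationSubring K, (∀ c : ℂ, algebraMap ℂ K c ∈ O) → u ∈ O → a ∈ O) :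
    ∃ p q : ℂ[X], a = aeval u p + aeval u q * s := by
  have main : ∀ (n : ℕ) (p q d : ℂ[X]), d ≠ 0 → d.natDegree = n →
      a * aeval u d = aeval u p + aeval u q * s → ∃ p q : ℂ[X], a = aeval u p + aeval u q * s := by
    intro n
    induction n with
    | zero =>
      intro p q d hd hn he
      rw [eq_C_of_natDegree_eq_zero hn] at hd he
      have hc : d.coeff 0 ≠ 0 := fun h0 => hd (by rw [h0, C_0])
      have hc' : algebraMap ℂ K (d.coeff 0) ≠ 0 := (_root_.map_ne_zero _).2 hc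
      refine ⟨C (d.coeff 0)⁻¹ * p, C (d.coeff 0)⁻¹ * q, ?_⟩
      rw [aeval_C] at he
      rw [map_mul, map_mul, aeval_C, map_inv₀]
      field_simp
      linear_combination he
    | succ n ih =>
      intro p q d hd hn he
      obtain ⟨u₀, hu₀⟩ := IsAlgClosed.exists_root d (by
        rw [degree_eq_natDegree hd, hn]; exact_mod_cast Nat.succ_ne_zero n)
      obtain ⟨s₀, hs₀⟩ := IsAlgClosed.exists_pow_nat_eq (Δ.eval u₀) two_pos
      have hne : u - algebraMap ℂ K u₀ ≠ 0 := fun h0 =>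
        X_sub_C_ne_zero u₀ (h.indep (X - C u₀) 0 (by simpa using h0)).1
      have hpt : ∀ s₁ : ℂ, s₁ ^ 2 = Δ.eval u₀ → ∃ O : ValuationSubring K, a ∈ O ∧
          (∀ p : ℂ[X], aeval u p ∈ O) ∧
          ∀ p q : ℂ[X], O.valuation (aeval u p + aeval u q * s) < 1 ↔
            p.eval u₀ + q.eval u₀ * s₁ = 0 := by
        intro s₁ hs₁
        obtain ⟨O, h1, h2⟩ := xf0v_point h.sq h.indep u₀ s₁ hs₁
        exact ⟨O, h₀ O (fun c => by simpa using h1 (C c) 0) (by simpa using h1 X 0),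
          fun p => by simpa using h1 p 0, h2⟩
      have hz : ∀ s₁ : ℂ, s₁ ^ 2 = Δ.eval u₀ → p.eval u₀ + q.eval u₀ * s₁ = 0 := by
        intro s₁ hs₁
        obtain ⟨O, h1, -, h2⟩ := hpt s₁ hs₁
        rw [← h2, ← he]
        exact xf0v_mul h1 (by simpa using (h2 d 0).2 (by simpa using hu₀))
      have z1 := hz s₀ hs₀
      have z2 := hz (-s₀) (by rw [neg_sq, hs₀])
      have hp : p.IsRoot u₀ := by
        rw [IsRoot.def]; linear_combination (z1 + z2) / 2
      obtain ⟨p₁, rfl⟩ := dvd_iff_isRoot.2 hp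
      obtain ⟨d₁, rfl⟩ := dvd_iff_isRoot.2 hu₀
      have hd₁ : d₁ ≠ 0 := right_ne_zero_of_mul hd
      simp only [map_mul, map_sub, aeval_X, aeval_C] at he
      have hq : q.IsRoot u₀ := by
        by_contra hq
        have hs0 : s₀ = 0 := by
          have : q.eval u₀ * s₀ = 0 := by linear_combination (z1 - z2) / 2
          exact (mul_eq_zero.1 this).resolve_left hq
        have hΔ : Δ.IsRoot u₀ := by rw [IsRoot.def, ← hs₀, hs0]; ring
        obtain ⟨Δ₁, hΔ₁⟩ := dvd_iff_isRoot.2 hΔ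
        have hΔ' : Δ₁.eval u₀ ≠ 0 := by
          intro h0
          obtain ⟨e, f, hef⟩ := hs
          have := congrArg (eval u₀) hef
          rw [hΔ₁] at this
          simp [h0] at this
        obtain ⟨O, h1, h2, h3⟩ := hpt s₀ hs₀
        have hsq := h.sq
        rw [hΔ₁, map_mul, map_sub, aeval_X, aeval_C] at hsq
        have e1 : aeval u (q ^ 2 * Δ₁) + aeval u (0 : ℂ[X]) * s =
            (a * aeval u d₁ - aeval u p₁) ^ 2 * (u - algebraMap ℂ K u₀) := by
          apply mul_left_cancel₀ hne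
          rw [map_zero, zero_mul, add_zero, map_mul, map_pow]
          linear_combination (-(aeval u q) ^ 2) * hsq -
            (aeval u q * s + (a * aeval u d₁ - aeval u p₁) * (u - algebraMap ℂ K u₀)) * he
        have e2 := (h3 (q ^ 2 * Δ₁) 0).1 (by
          rw [e1]
          exact xf0v_mul (pow_mem (sub_mem (mul_mem h1 (h2 _)) (h2 _)) 2)
            (xf0v_lin u s u₀ ▸ (h3 (X - C u₀) 0).2 (by simp)))
        simp only [eval_mul, eval_pow, eval_zero, zero_mul, add_zero] at e2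
        exact mul_ne_zero (pow_ne_zero 2 hq) hΔ' e2
      obtain ⟨q₁, rfl⟩ := dvd_iff_isRoot.2 hq
      refine ih p₁ q₁ d₁ hd₁ ?_ ?_
      · rw [natDegree_mul (X_sub_C_ne_zero u₀) hd₁, natDegree_X_sub_C] at hn
        omega
      · apply mul_left_cancel₀ hne
        simp only [map_mul, map_sub, aeval_X, aeval_C] at he
        linear_combination he
  obtain ⟨p, q, d, hd, he⟩ := h.gen a
  exact main _ p q d hd rfl he

theorem xf0v_refl {w : K} (hw : w ≠ 0) {N : ℕ} {p : ℂ[X]} (hp : p.natDegree ≤ N) :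
    aeval w⁻¹ (reflect N p) * w ^ N = aeval w p := by
  let _ := invertibleOfNonzero hw
  have := eval₂_reflect_mul_pow (algebraMap ℂ K) w N p hp
  rwa [invOf_eq_inv] at this

/-- no poles at infinite places -/
theorem xf0v_inf (h : IsFF Δ u s) (hd : Δ.natDegree = 4) (p Q : ℂ[X])
    (h₁ : ∀ O : ValuationSubring K, (∀ c : ℂ, algebraMap ℂ K c ∈ O) → u ∉ O →
      aeval u p + aeval u Q * (s / u ^ 2) ∈ O) : p.natDegree = 0 ∧ Q.natDegree = 0 := by
  have hu : u ≠ 0 := fun h0 => X_ne_zero (h.indep X 0 (by simpa using h0)).1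
  have hsq : (s / u ^ 2) ^ 2 = aeval u⁻¹ (reflect 4 Δ) := by
    rw [div_pow, h.sq, ← xf0v_refl hu hd.le]
    field_simp
  have hi : ∀ p q : ℂ[X], aeval u⁻¹ p + aeval u⁻¹ q * (s / u ^ 2) = 0 → p = 0 ∧ q = 0 := by
    intro p q he
    rw [← xf0v_refl (inv_ne_zero hu) (le_max_left p.natDegree q.natDegree),
      ← xf0v_refl (inv_ne_zero hu) (le_max_right p.natDegree q.natDegree), inv_inv] at he
    have hN : u⁻¹ ^ max p.natDegree q.natDegree ≠ 0 := pow_ne_zero _ (inv_ne_zero hu)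
    obtain ⟨h1, h2⟩ := h.indep (reflect (max p.natDegree q.natDegree) p * X ^ 2)
      (reflect (max p.natDegree q.natDegree) q) (by
        apply mul_left_cancel₀ hN
        rw [map_mul, map_pow, aeval_X]
        have h2 : s = s / u ^ 2 * u ^ 2 := by field_simp
        rw [h2]
        generalize s / u ^ 2 = σ at he ⊢
        linear_combination u ^ 2 * he)
    exact ⟨reflect_eq_zero_iff.1 ((mul_eq_zero.1 h1).resolve_right (pow_ne_zero 2 X_ne_zero)),
      reflect_eq_zero_iff.1 h2⟩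
  have hev : ∀ (N : ℕ) (f : ℂ[X]), (reflect N f).eval 0 = f.coeff N := by
    intro N f
    rw [← coeff_zero_eq_eval_zero, coeff_reflect, revAt_le (Nat.zero_le N), Nat.sub_zero]
  obtain ⟨l, hl⟩ := IsAlgClosed.exists_pow_nat_eq (Δ.coeff 4) two_pos
  have hl0 : l ≠ 0 := by
    rintro rfl
    have h0 : Δ ≠ 0 := by rintro rfl; simp at hd
    apply leadingCoeff_ne_zero.2 h0
    rw [leadingCoeff, hd, ← hl]; ring
  by_contra hne
  set N := max p.natDegree Q.natDegree with hN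
  have hN0 : N ≠ 0 := by omega
  have hz : ∀ l₁ : ℂ, l₁ ^ 2 = Δ.coeff 4 → p.coeff N + Q.coeff N * l₁ = 0 := by
    intro l₁ hl₁
    obtain ⟨O, h1, h2⟩ := xf0v_point hsq hi 0 l₁ (by rw [hev, hl₁])
    have hw : O.valuation u⁻¹ < 1 := by simpa using (h2 X 0).2 (by simp)
    have hnu : u ∉ O := (O.inv_mem_nonunits_iff.1 (O.mem_nonunits_iff.2 hw)).resolve_left hu
    have h3 := h₁ O (fun c => by simpa using h1 (C c) 0) hnu
    rw [← hev, ← hev, ← h2]
    have e : aeval u⁻¹ (reflect N p) + aeval u⁻¹ (reflect N Q) * (s / u ^ 2) =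
        (aeval u p + aeval u Q * (s / u ^ 2)) * u⁻¹ ^ N := by
      rw [← xf0v_refl hu (le_max_left p.natDegree Q.natDegree),
        ← xf0v_refl hu (le_max_right p.natDegree Q.natDegree), ← hN, inv_pow]
      generalize s / u ^ 2 = σ
      field_simp
    rw [e]
    refine xf0v_mul h3 ?_
    rw [map_pow]
    exact pow_lt_one₀ zero_le hw hN0
  have z1 := hz l hl
  have z2 := hz (-l) (by rw [neg_sq, hl])
  have hp : p.coeff N = 0 := by linear_combination (z1 + z2) / 2
  have hQ : Q.coeff N = 0 := by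
    have : Q.coeff N * l = 0 := by linear_combination (z1 - z2) / 2
    exact (mul_eq_zero.1 this).resolve_right hl0
  rcases max_choice p.natDegree Q.natDegree with h1 | h1
  · rw [hN, h1] at hp
    rw [hN, h1, leadingCoeff_eq_zero.1 hp] at hN0
    exact hN0 natDegree_zero
  · rw [hN, h1] at hQ
    rw [hN, h1, leadingCoeff_eq_zero.1 hQ] at hN0
    exact hN0 natDegree_zero

theorem IsFF.const (h : IsFF Δ u s) (hd : Δ.natDegree = 4) (hs : IsCoprime Δ (derivative Δ))
    (a : K) (r : ℂ)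
    (h₀ : ∀ O : ValuationSubring K, (∀ c : ℂ, algebraMap ℂ K c ∈ O) → u ∈ O → a ∈ O)
    (h₁ : ∀ O : ValuationSubring K, (∀ c : ℂ, algebraMap ℂ K c ∈ O) → u ∉ O →
      a - algebraMap ℂ K r * (s / u) ∈ O) :
    r = 0 ∧ ∃ a₀ : ℂ, a = algebraMap ℂ K a₀ := by
  obtain ⟨p, q, rfl⟩ := xf0v_fin h hs a h₀
  have hu : u ≠ 0 := fun h0 => X_ne_zero (h.indep X 0 (by simpa using h0)).1
  obtain ⟨h1, h2⟩ := xf0v_inf h hd p (X * (X * q - C r)) fun O hC hO => by
    convert h₁ O hC hO using 1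
    simp only [map_mul, map_sub, aeval_X, aeval_C]
    field_simp
    ring
  have h3 : X * (X * q - C r) = 0 := by
    rw [eq_C_of_natDegree_eq_zero h2, mul_coeff_zero, coeff_X_zero, zero_mul, C_0]
  have h4 : X * q - C r = 0 := (mul_eq_zero.1 h3).resolve_left X_ne_zero
  have h5 : r = 0 := by simpa using congrArg (eval 0) h4
  rw [h5, C_0, sub_zero] at h4
  refine ⟨h5, p.coeff 0, ?_⟩
  rw [(mul_eq_zero.1 h4).resolve_left X_ne_zero, map_zero, zero_mul, add_zero]
  conv_lhs => rw [eq_C_of_natDegree_eq_zero h1, aeval_C]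

theorem IsFF.point (h : IsFF Δ u s) (u₀ s₀ : ℂ) (h₀ : s₀ ^ 2 = Δ.eval u₀) :
    ∃ O : ValuationSubring K, (∀ c : ℂ, algebraMap ℂ K c ∈ O) ∧
      O.valuation (u - algebraMap ℂ K u₀) < 1 ∧ O.valuation (s - algebraMap ℂ K s₀) < 1 := by
  obtain ⟨O, h1, h2⟩ := xf0v_point h.sq h.indep u₀ s₀ h₀
  refine ⟨O, fun c => by simpa using h1 (C c) 0, ?_, ?_⟩
  · exact xf0v_lin u s u₀ ▸ (h2 (X - C u₀) 0).2 (by simp)
  · have := (h2 (-C s₀) 1).2 (by simp)
    rwa [map_neg, aeval_C, map_one, one_mul, neg_add_eq_sub] at this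

end Pool.Agent.MP_d920b6_mp.Cx

end

section

/-! Adjoining a transcendental element: derivations and places. -/

namespace Pool.Agent.MP_d920b6_mp.Cx

variable {K₀ : Type} [Field K₀]

open Polynomial in
theorem xf1_const [CharZero K₀] {p q : K₀[X]} (h : IsCoprime p q) (hq : q ≠ 0)
    (e : derivative p * q = p * derivative q) : ∃ a c, p = C a ∧ q = C c := by
  have h1 : q ∣ derivative q := h.symm.dvd_of_dvd_mul_left ⟨derivative p, by rw [← e, mul_comm]⟩
  have h2 := eq_zero_of_dvd_of_degree_lt h1 (degree_derivative_lt hq)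
  rw [h2, mul_zero] at e
  exact ⟨_, _, eq_C_of_derivative_eq_zero ((mul_eq_zero.1 e).resolve_right hq),
    eq_C_of_derivative_eq_zero h2⟩

open Polynomial in
theorem ratFunc_der [Algebra ℂ K₀] (E₀ : Derivation ℂ K₀ K₀) :
    ∃ D E : Derivation ℂ (RatFunc K₀) (RatFunc K₀),
      (∀ a : K₀, D (algebraMap K₀ _ a) = 0) ∧ D RatFunc.X = 1 ∧
      (∀ a : K₀, E (algebraMap K₀ _ a) = algebraMap K₀ _ (E₀ a)) ∧ E RatFunc.X = 0 ∧
      ∀ b, D b = 0 → ∃ a : K₀, b = algebraMap K₀ _ a := by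
  have : CharZero K₀ := charZero_of_injective_algebraMap (algebraMap ℂ K₀).injective
  have := Algebra.FormallyEtale.of_isLocalization (Rₘ := RatFunc K₀) (nonZeroDivisors K₀[X])
  have hC : ∀ a : K₀, algebraMap K₀ (RatFunc K₀) a = algebraMap K₀[X] _ (C a) := fun a =>
    IsScalarTower.algebraMap_apply K₀ K₀[X] _ a
  obtain ⟨D, hD⟩ := xf0a_extend ((Algebra.linearMap K₀[X] (RatFunc K₀)).compDer
    (derivative'.restrictScalars ℂ))
  obtain ⟨E, hE⟩ := xf0a_extend ((Algebra.linearMap K₀[X] (RatFunc K₀)).compDer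
    (PolynomialModule.equivPolynomialSelf.compDer E₀.mapCoeffs))
  have hD' : ∀ p : K₀[X], D (algebraMap _ _ p) = algebraMap _ _ (derivative p) := hD
  have hE' : ∀ p : K₀[X], E (algebraMap _ _ p) =
    algebraMap K₀[X] _ (PolynomialModule.equivPolynomialSelf (E₀.mapCoeffs p)) := hE
  refine ⟨D, E, fun a => ?_, ?_, fun a => ?_, ?_, fun b hb => ?_⟩
  · rw [hC, hD', derivative_C, map_zero]
  · rw [← RatFunc.algebraMap_X, hD', derivative_X, map_one]
  · rw [hC, hC, hE', Derivation.mapCoeffs_C]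
    congr 1
  · rw [← RatFunc.algebraMap_X, hE', Derivation.mapCoeffs_X, map_zero, map_zero]
  · have h0 := RatFunc.algebraMap_ne_zero b.denom_ne_zero
    have e : algebraMap K₀[X] _ b.num = b * algebraMap K₀[X] _ b.denom :=
      (div_eq_iff h0).1 b.num_div_denom
    have e2 := congrArg D e
    rw [D.leibniz, hb, smul_zero, add_zero, hD', hD', smul_eq_mul] at e2
    obtain ⟨a, c, ha, hc⟩ := xf1_const b.isCoprime_num_denom b.denom_ne_zero
      (IsFractionRing.injective K₀[X] (RatFunc K₀) (by rw [map_mul, map_mul, e2, e]; ring))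
    refine ⟨a / c, ?_⟩
    rw [map_div₀, hC, hC, ← ha, ← hc, b.num_div_denom]

open Polynomial in
theorem ratFunc_place (O₀ : ValuationSubring K₀) (z₀ : K₀) :
    ∃ O : ValuationSubring (RatFunc K₀), (∀ a : K₀, algebraMap K₀ _ a ∈ O ↔ a ∈ O₀) ∧
      ∀ a : K₀, O.valuation (algebraMap K₀ _ a * (RatFunc.X - algebraMap K₀ _ z₀)) < 1 := by
  have hC : ∀ a : K₀, algebraMap K₀ (RatFunc K₀) a = algebraMap K₀[X] _ (C a) := fun a =>
    IsScalarTower.algebraMap_apply K₀ K₀[X] _ a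
  let A : Subring K₀[X] := O₀.toSubring.comap (evalRingHom z₀)
  let e := A.equivMapOfInjective (algebraMap K₀[X] (RatFunc K₀)) (IsFractionRing.injective _ _)
  let φ : A →+* O₀ := (evalRingHom z₀).restrict A O₀ fun _ h => h
  obtain ⟨O, h1, h2⟩ := Ideal.image_subset_nonunits_valuationSubring
    ((IsLocalRing.maximalIdeal O₀).comap (φ.comp e.symm.toRingHom))
    (Ideal.comap_ne_top _ (IsLocalRing.maximalIdeal.isMaximal O₀).ne_top)
  have key : ∀ p : K₀[X], p.eval z₀ ∈ O₀.nonunits → algebraMap K₀[X] _ p ∈ O.nonunits := by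
    intro p hp
    refine h2 ⟨e ⟨p, O₀.nonunits_subset hp⟩, ?_, rfl⟩
    change φ (e.symm (e _)) ∈ IsLocalRing.maximalIdeal O₀
    rw [e.symm_apply_apply, ← O₀.coe_mem_nonunits_iff]
    exact hp
  refine ⟨O, fun a => ⟨fun h => ?_, fun h => ?_⟩, fun a => ?_⟩
  · by_contra ha
    have h3 := key (C a⁻¹) (by rw [eval_C]; exact O₀.inv_mem_nonunits_iff.2 (Or.inr ha))
    rw [← hC, map_inv₀, O.inv_mem_nonunits_iff, map_eq_zero] at h3
    rcases h3 with rfl | h3
    · exact ha O₀.zero_mem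
    · exact h3 h
  · exact h1 ⟨C a, by simpa [A] using h, (hC a).symm⟩
  · have h3 := key (C a * (X - C z₀)) (by simp)
    rwa [map_mul, map_sub, ← hC, ← hC, RatFunc.algebraMap_X] at h3

end Pool.Agent.MP_d920b6_mp.Cx

end
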