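import Pool.Agent.Mg.Fd920b6.G55990c
import Mathlib
import Pool.Agent.Mg.Fd920b6.Gd04aeb

section

/-! `act` is a representation, Jacobi identities, the abelian subalgebra `InA κ`. -/

namespace Pool.Agent.MP_d920b6_mp.Cx

open Matrix

variable {R : Type*} [CommRing R]

theorem xRep_wedge_mul (g : Mat R) (ψ χ : Vec R) :
    gᵀ * wedge ψ χ + wedge ψ χ * g = wedge (ψ ᵥ* g) χ + wedge ψ (χ ᵥ* g) := by
  simp only [wedge, Matrix.mul_sub, Matrix.sub_mul, mul_vecMulVec, vecMulVec_mul,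
    mulVec_transpose]
  abel

theorem xRep_row_mul (w g : Mat R) (i : Fin 4) : (w * g) i = w i ᵥ* g := by
  ext j; simp [Matrix.mul_apply, vecMul, dotProduct]

theorem xRep_MM_mul (g w u : Mat R) (a b : Fin 2) :
    gᵀ * MM w u a b + MM w u a b * g = MM w (u * g) a b + MM (w * g) u a b := by
  have h1 := xRep_wedge_mul g (u (lo a)) (w (hi b))
  have h2 := xRep_wedge_mul g (u (hi b)) (w (lo a))
  simp only [MM, xRep_row_mul, Matrix.mul_add, Matrix.add_mul]
  rw [eq_sub_of_add_eq h1, eq_sub_of_add_eq h2]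
  abel

theorem xRep_JJ_lo (w : Mat R) (a : Fin 2) : (JJ * w : Mat R) (lo a) = w (lo a) := by
  ext j; fin_cases a <;> simp [JJ, lo, diagonal_mul]

theorem xRep_JJ_hi (w : Mat R) (a : Fin 2) : (JJ * w : Mat R) (hi a) = -w (hi a) := by
  ext j; fin_cases a <;> simp [JJ, hi, diagonal_mul]

theorem xRep_MM_JJ (w u : Mat R) (a b : Fin 2) :
    MM (JJ * w) u a b = -MM w (JJ * u) a b := by
  simp only [MM, xRep_JJ_lo, xRep_JJ_hi]
  ext i j; simp [wedge, vecMulVec_apply]; ring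

theorem xRep_sk_conj (g σ : Mat R) : sk (gᵀ * sk σ + sk σ * g) = gᵀ * sk σ + sk σ * g := by
  refine sk_of_skew _ ?_ fun i => ?_
  · rw [transpose_add, transpose_mul, transpose_mul, transpose_transpose, sk_transpose,
      Matrix.neg_mul, Matrix.mul_neg]
    abel
  · have h : (sk σ * g) i i = -(gᵀ * sk σ) i i := by
      rw [← transpose_apply (sk σ * g), transpose_mul, sk_transpose, Matrix.mul_neg,
        Matrix.neg_apply]
    rw [Matrix.add_apply, h, add_neg_cancel]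

theorem xRep_sk_act (X : IK → R) (v : IV → R) (a b : Fin 2) :
    sk (sgP (act X v) a b) = sgP (act X v) a b := by
  rw [sgP_act, sk_sub, sk_MM, xRep_sk_conj]

theorem act_kbr (X Y : IK → R) (v : IV → R) :
    act (kbr X Y) v = act X (act Y v) - act Y (act X v) := by
  refine extV ?_ (fun a b => ?_) ?_
  · simp only [wP_act, wP_sub, sP_kbr, hat_gP_kbr, zero_smul, Matrix.mul_sub, Matrix.sub_mul,
      Matrix.mul_smul, Matrix.smul_mul, smul_sub, Matrix.mul_assoc, smul_comm (sP X) (sP Y)]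
    abel
  · have h1 := xRep_MM_mul (hat (gP X)) (wP v) (uP Y) a b
    have h2 := xRep_MM_mul (hat (gP Y)) (wP v) (uP X) a b
    rw [sgP_sub, sgP_act X (act Y v), sgP_act Y (act X v), xRep_sk_act, xRep_sk_act]
    simp only [sgP_act, wP_act, uP_kbr, hat_gP_kbr, MM_sub_left, MM_sub_right, MM_add_right,
      MM_smul_left, MM_smul_right, xRep_MM_JJ, transpose_sub, transpose_mul, Matrix.mul_sub,
      Matrix.sub_mul, Matrix.mul_add, Matrix.add_mul, Matrix.mul_assoc, smul_neg]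
    rw [eq_sub_of_add_eq h1, eq_sub_of_add_eq h2]
    abel
  · simp only [tauP_act, tauP_sub, wP_act, sP_kbr, tP_kbr, nP_kbr, zero_smul, mulVec_add,
      mulVec_sub, mulVec_smul, sub_mulVec, smul_mulVec, smul_add, ← mulVec_mulVec,
      smul_comm (sP X) (sP Y), smul_comm (tP X) (tP Y), smul_comm (sP X) (tP Y),
      smul_comm (tP X) (sP Y)]
    abel

theorem kbr_leibniz (X Y Z : IK → R) :
    kbr X (kbr Y Z) = kbr (kbr X Y) Z + kbr Y (kbr X Z) := by
  refine extK ?_ (by simp) (by simp) ?_ ?_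
  · simp only [gP_add, gP_kbr X (kbr Y Z), gP_kbr (kbr X Y), gP_kbr Y (kbr X Z), hat_gP_kbr]
    noncomm_ring
  · simp only [uP_add, uP_kbr, hat_gP_kbr, sP_kbr, zero_smul, Matrix.mul_sub, Matrix.sub_mul,
      Matrix.mul_add, Matrix.add_mul, Matrix.mul_smul, Matrix.smul_mul, smul_sub, smul_add,
      Matrix.mul_assoc, smul_comm (sP X) (sP Y), smul_comm (sP X) (sP Z), smul_comm (sP Y) (sP Z)]
    abel
  · simp only [nP_add, nP_kbr, hat_gP_kbr, tP_kbr, zero_smul, mulVec_add, mulVec_sub,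
      mulVec_smul, sub_mulVec, smul_add, smul_sub, ← mulVec_mulVec,
      smul_comm (tP X) (tP Y), smul_comm (tP X) (tP Z), smul_comm (tP Y) (tP Z)]
    abel

theorem xRep_kp_lbr (X Y : II → R) : kp (lbr X Y) = kbr (kp X) (kp Y) := rfl
theorem xRep_vp_lbr (X Y : II → R) :
    vp (lbr X Y) = dact (vp X) (kp Y) - dact (vp Y) (kp X) := rfl
theorem xRep_vp_lbr_dot (X Y : II → R) (v : IV → R) :
    vp (lbr X Y) ⬝ᵥ v = vp X ⬝ᵥ act (kp Y) v - vp Y ⬝ᵥ act (kp X) v := by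
  rw [xRep_vp_lbr, sub_dotProduct, dact_dot, dact_dot]

theorem lbr_add_left (X Y Z : II → R) : lbr (X + Y) Z = lbr X Z + lbr Y Z := by
  refine extI ?_ (eq_of_dotV fun v => ?_)
  · simp only [kp_add, xRep_kp_lbr, kbr_add_left]
  · simp only [vp_add, kp_add, add_dotProduct, xRep_vp_lbr_dot, act_add_left, dotProduct_add]
    ring
theorem lbr_add_right (X Y Z : II → R) : lbr X (Y + Z) = lbr X Y + lbr X Z := by
  refine extI ?_ (eq_of_dotV fun v => ?_)
  · simp only [kp_add, xRep_kp_lbr, kbr_add_right]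
  · simp only [vp_add, kp_add, add_dotProduct, xRep_vp_lbr_dot, act_add_left, dotProduct_add]
    ring
theorem lbr_smul_right (c : R) (X Y : II → R) : lbr X (c • Y) = c • lbr X Y := by
  refine extI ?_ (eq_of_dotV fun v => ?_)
  · simp only [kp_smul, xRep_kp_lbr, kbr_smul_right]
  · simp only [vp_smul, kp_smul, smul_dotProduct, xRep_vp_lbr_dot, act_smul_left,
      dotProduct_smul, smul_eq_mul]
    ring
theorem lbr_self (X : II → R) : lbr X X = 0 := by
  refine extI ?_ ?_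
  · rw [xRep_kp_lbr, kbr_self, kp_zero]
  · rw [xRep_vp_lbr, sub_self, vp_zero]
theorem lbr_leibniz (X Y Z : II → R) :
    lbr X (lbr Y Z) = lbr (lbr X Y) Z + lbr Y (lbr X Z) := by
  refine extI ?_ (eq_of_dotV fun v => ?_)
  · simp only [kp_add, xRep_kp_lbr, kbr_leibniz (kp X)]
  · simp only [vp_add, add_dotProduct, xRep_vp_lbr_dot, xRep_kp_lbr, act_kbr, dotProduct_sub]
    ring

variable {κ : Vec R} {X Y Z : IK → R}

theorem InA.add (hX : InA κ X) (hY : InA κ Y) : InA κ (X + Y) := by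
  obtain ⟨⟨φ, h1, h1'⟩, h2, h3, h4, c, h5⟩ := hX
  obtain ⟨⟨φ', k1, k1'⟩, k2, k3, k4, c', k5⟩ := hY
  refine ⟨⟨φ + φ', ?_, ?_⟩, ?_, ?_, ?_, c + c', ?_⟩
  · rw [gP_add, hat_add, h1, k1, vecMulVec_add]
  · rw [add_dotProduct, h1', k1', add_zero]
  · rw [sP_add, h2, k2, add_zero]
  · rw [tP_add, h3, k3, add_zero]
  · rw [uP_add, add_mulVec, h4, k4, add_zero]
  · rw [nP_add, h5, k5, add_smul]
theorem InA.smul (c : R) (hX : InA κ X) : InA κ (c • X) := by
  obtain ⟨⟨φ, h1, h1'⟩, h2, h3, h4, c', h5⟩ := hX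
  refine ⟨⟨c • φ, ?_, ?_⟩, ?_, ?_, ?_, c * c', ?_⟩
  · rw [gP_smul, hat_smul, h1, vecMulVec_smul]
  · rw [smul_dotProduct, h1', smul_zero]
  · rw [sP_smul, h2, mul_zero]
  · rw [tP_smul, h3, mul_zero]
  · rw [uP_smul, smul_mulVec, h4, smul_zero]
  · rw [nP_smul, h5, mul_smul]

theorem xRep_GG (φ φ' : Vec R) (h : φ ⬝ᵥ κ = 0) : vecMulVec κ φ * vecMulVec κ φ' = 0 := by
  rw [vecMulVec_mul_vecMulVec, h]; simp
theorem xRep_uG (u : Mat R) (φ : Vec R) (h : u *ᵥ κ = 0) : u * vecMulVec κ φ = 0 := by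
  rw [mul_vecMulVec, h]; simp
theorem xRep_Gv (φ m : Vec R) : vecMulVec κ φ *ᵥ m = (φ ⬝ᵥ m) • κ := by
  ext i; simp [mulVec, dotProduct, vecMulVec_apply, Finset.sum_mul]
  exact Finset.sum_congr rfl fun _ _ => by ring

theorem InA.kbr_eq_zero (hX : InA κ X) (hY : InA κ Y) : kbr X Y = 0 := by
  obtain ⟨⟨φ, h1, h1'⟩, h2, h3, h4, c, h5⟩ := hX
  obtain ⟨⟨φ', k1, k1'⟩, k2, k3, k4, c', k5⟩ := hY
  refine extK ?_ (by simp) (by simp) ?_ ?_
  · rw [gP_kbr, h1, k1, xRep_GG _ _ h1', xRep_GG _ _ k1', sub_self, gP_zero]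
  · rw [uP_kbr, h1, k1, xRep_uG _ _ h4, xRep_uG _ _ k4, h2, k2]; simp
  · rw [nP_kbr, h1, k1, h5, k5, h3, k3, xRep_Gv, xRep_Gv, dotProduct_smul, dotProduct_smul,
      h1', k1']; simp

/-- the normaliser condition: the bracket with an element fixing the line of `κ` stays in `A` -/
theorem xRep_kbr_mem (hY : InA κ Y) (W : IK → R) (c : R) (hW : hat (gP W) *ᵥ κ = c • κ) :
    InA κ (kbr Y W) := by
  obtain ⟨⟨φ, h1, h1'⟩, h2, h3, h4, c', h5⟩ := hY
  refine ⟨⟨φ ᵥ* hat (gP W) - c • φ, ?_, ?_⟩, rfl, rfl, ?_, φ ⬝ᵥ nP W - c' * c - tP W * c', ?_⟩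
  · rw [hat_gP_kbr, h1, vecMulVec_mul, mul_vecMulVec, hW, vecMulVec_sub, vecMulVec_smul,
      smul_vecMulVec]
  · rw [sub_dotProduct, ← dotProduct_mulVec, hW, dotProduct_smul, smul_dotProduct, h1', sub_self]
  · rw [uP_kbr, h1, h2]
    simp only [sub_mulVec, smul_mulVec, ← mulVec_mulVec, hW, mulVec_smul, h4,
      xRep_Gv, h1', smul_zero, zero_smul, mulVec_zero, sub_zero, add_zero]
  · rw [nP_kbr, h1, h3, h5, xRep_Gv, mulVec_smul, hW]
    simp only [sub_smul, mul_smul, zero_smul, add_zero]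

theorem InA.kbr₃ (hX : InA κ X) (hY : InA κ Y) (hZ : InA κ Z) (W : IK → R) :
    kbr X (kbr Y (kbr Z W)) = 0 := by
  obtain ⟨⟨φ, h1, h1'⟩, -⟩ := hZ
  refine hX.kbr_eq_zero (xRep_kbr_mem hY _ (φ ⬝ᵥ (hat (gP W) *ᵥ κ)) ?_)
  rw [hat_gP_kbr, h1, sub_mulVec, ← mulVec_mulVec, ← mulVec_mulVec, xRep_Gv, xRep_Gv, h1',
    zero_smul, mulVec_zero, sub_zero]
theorem InA.kbr₂ (hY : InA κ Y) (W : IK → R) (c : R) (hW : hat (gP W) *ᵥ κ = c • κ) :
    kbr Y (kbr Y W) = 0 := hY.kbr_eq_zero (xRep_kbr_mem hY W c hW)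

end Pool.Agent.MP_d920b6_mp.Cx

end

section

/-! Explicit computations for the gauge step, the fibre direction `th` and the twist `dl`. -/

namespace Pool.Agent.MP_d920b6_mp.Cx

open Matrix

section ring
variable {R : Type*} [CommRing R] {v : IV → R} {κ y y' : Vec R} {u : Mat R}

theorem xdelta_vm (a b c : Vec R) : vecMulVec a b *ᵥ c = (b ⬝ᵥ c) • a := by
  ext i
  simp only [mulVec, dotProduct, vecMulVec_apply, Pi.smul_apply, smul_eq_mul, Finset.sum_mul]
  exact Finset.sum_congr rfl fun j _ => by ring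

theorem xdelta_phi (hw : wP v *ᵥ κ = 0) (z : Vec R) : (z ᵥ* wP v) ⬝ᵥ κ = 0 := by
  rw [← dotProduct_mulVec, hw, dotProduct_zero]

theorem xdelta_hatY (hw : wP v *ᵥ κ = 0) :
    hat (gP (YY v κ y y' u)) = vecMulVec κ (y' ᵥ* wP v) :=
  hat_vecMulVec _ _ (xdelta_phi hw y')

theorem xdelta_sY : sP (YY v κ y y' u) = 0 := rfl
theorem xdelta_tY : tP (YY v κ y y' u) = 0 := rfl
theorem xdelta_uY : uP (YY v κ y y' u) = u := rfl
theorem xdelta_nY : nP (YY v κ y y' u) = (y ⬝ᵥ tauP v - y' ⬝ᵥ tauP v) • κ := rfl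

theorem xdelta_wedge_mul (G : Mat R) (ψ χ : Vec R) :
    Gᵀ * wedge ψ χ + wedge ψ χ * G = wedge (ψ ᵥ* G) χ + wedge ψ (χ ᵥ* G) := by
  simp only [wedge, Matrix.mul_sub, Matrix.sub_mul, mul_vecMulVec, vecMulVec_mul,
    mulVec_transpose]
  abel

theorem xdelta_MM_mul (G w u : Mat R) (a b : Fin 2) :
    Gᵀ * MM w u a b + MM w u a b * G = MM w (u * G) a b + MM (w * G) u a b := by
  have h1 := xdelta_wedge_mul G (u (lo a)) (w (hi b))
  have h2 := xdelta_wedge_mul G (u (hi b)) (w (lo a))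
  have e : ∀ (A : Mat R) (i : Fin 4), (A * G) i = A i ᵥ* G := fun A i => rfl
  simp only [MM, Matrix.mul_add, Matrix.add_mul, e]
  rw [add_add_add_comm, h1, h2]
  abel

theorem xdelta_mkV_dot (z : Vec R) (x : IV → R) : mkV 0 0 z ⬝ᵥ x = z ⬝ᵥ tauP x := by
  rw [dotV]
  simp only [wP_mkV, sgP_mkV, tauP_mkV, Pi.zero_apply, Matrix.zero_apply, zero_mul,
    Finset.sum_const_zero, zero_add]

theorem xdelta_J (a b : Vec R) :
    a ⬝ᵥ (JJ *ᵥ b) = a 0 * b 0 + a 1 * b 1 - a 2 * b 2 - a 3 * b 3 := by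
  simp only [JJ, dotProduct, mulVec_diagonal, Fin.sum_univ_four, cons_val_zero, cons_val_one,
    cons_val]
  ring

theorem xdelta_dot (a b : Vec R) :
    a ⬝ᵥ b = a 0 * b 0 + a 1 * b 1 + a 2 * b 2 + a 3 * b 3 := by
  simp only [dotProduct, Fin.sum_univ_four]

/-- pairing of `dl y m` with a bracket whose left entry has the gauge shape -/
theorem xdelta_dl_kbr {Y : IK → R} {φ : Vec R} {t : R} (m : Vec R) (hy : y ⬝ᵥ κ = 1)
    (hg : hat (gP Y) = vecMulVec κ φ) (ht : tP Y = 0) (hn : nP Y = t • κ) (X : IK → R) :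
    dl y m ⬝ᵥ kbr Y X = φ ⬝ᵥ (hat (gP X) *ᵥ m) - (φ ⬝ᵥ m + t) * (y ⬝ᵥ (hat (gP X) *ᵥ κ)) -
      tP X * t + φ ⬝ᵥ nP X := by
  rw [dl_dot, hat_gP_kbr, sP_kbr, nP_kbr, hg, ht, hn]
  simp only [sub_mulVec, ← mulVec_mulVec, xdelta_vm, mulVec_smul, zero_smul, sub_zero, add_zero,
    dotProduct_add, dotProduct_sub, dotProduct_smul, smul_eq_mul, hy]
  ring

theorem wP_move (hw : wP v *ᵥ κ = 0) :
    wP (v + act (YY v κ y y' u) aV) = wP v - vecMulVec κ (y' ᵥ* wP v) := by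
  rw [wP_add, act_aV, wP_mkV, xdelta_hatY hw, xdelta_sY, zero_smul, zero_sub, sub_eq_add_neg]
theorem sgP_move (a b : Fin 2) :
    sk (sgP (v + act (YY v κ y y' u) aV) a b) = sk (sgP v a b) + MM 1 u a b := by
  rw [sgP_add, act_aV, sgP_mkV, sk_add, sk_MM, xdelta_uY]
theorem tauP_move : tauP (v + act (YY v κ y y' u) aV) =
    tauP v + (y ⬝ᵥ tauP v - y' ⬝ᵥ tauP v) • κ := by
  rw [tauP_add, act_aV, tauP_mkV, xdelta_nY]
theorem inA_YY (hw : wP v *ᵥ κ = 0) (hu : u *ᵥ κ = 0) : InA κ (YY v κ y y' u) :=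
  ⟨⟨_, xdelta_hatY hw, xdelta_phi hw y'⟩, rfl, rfl, hu, _, rfl⟩
theorem step_eq (hw : wP v *ᵥ κ = 0) (hu : u *ᵥ κ = 0)
    (h : ∀ a b, MM (wP v - vecMulVec κ (y' ᵥ* wP v)) u a b =
      wedge (y' ᵥ* wP v) (κ ᵥ* sk (sgP v a b))) :
    (2 : R) • act (YY v κ y y' u) v + act (YY v κ y y' u) (act (YY v κ y y' u) aV) = 0 := by
  have hφ := xdelta_phi hw y'
  refine extV ?_ (fun a b => ?_) ?_
  · rw [wP_add, wP_smul, wP_act, wP_act (v := act _ aV), act_aV, wP_mkV, xdelta_hatY hw,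
      xdelta_sY, wP_zero]
    simp only [zero_smul, zero_sub, neg_mulVec, mul_vecMulVec, hw, xdelta_vm, hφ,
      zero_vecMulVec, neg_zero, smul_zero, add_zero]
  · rw [sgP_add, sgP_smul, sgP_act, sgP_act (v := act _ aV), act_aV, wP_mkV, sgP_mkV,
      xdelta_hatY hw, xdelta_sY, xdelta_uY, sgP_zero, sk_MM, xdelta_MM_mul, zero_smul,
      MM_sub_left, MM_zero_left, mul_vecMulVec u, hu, zero_vecMulVec, MM_zero_right,
      Matrix.one_mul]
    have h1 := h a b
    rw [MM_sub_left] at h1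
    have h2 : (vecMulVec κ (y' ᵥ* wP v))ᵀ * sk (sgP v a b) +
        sk (sgP v a b) * vecMulVec κ (y' ᵥ* wP v) =
        wedge (y' ᵥ* wP v) (κ ᵥ* sk (sgP v a b)) := by
      have h3 : sk (sgP v a b) *ᵥ κ = -(κ ᵥ* sk (sgP v a b)) := by
        rw [← vecMul_transpose, sk_transpose, vecMul_neg]
      rw [transpose_vecMulVec, vecMulVec_mul, mul_vecMulVec, h3, neg_vecMulVec, wedge,
        sub_eq_add_neg]
    rw [h2, ← h1, two_smul]
    abel
  · rw [tauP_add, tauP_smul, tauP_act, tauP_act (v := act _ aV), act_aV, wP_mkV,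
      xdelta_hatY hw, xdelta_sY, xdelta_tY, xdelta_nY, tauP_zero]
    simp only [zero_smul, zero_sub, zero_add, mulVec_smul, hw, neg_mulVec, xdelta_vm, hφ,
      neg_zero, smul_zero]

/-- the explicit solution for the twist direction -/
theorem sol_dl (hw : wP v *ᵥ κ = 0) (hyw : y ᵥ* wP v = 0) (hy : y ⬝ᵥ κ = 1) (hy' : y' ⬝ᵥ κ = 1)
    {v' : IV → R} (hv' : v' = v + act (YY v κ y y' u) aV) {m m' e e' : Vec R}
    (hm : wP v *ᵥ m = tauP v - e) (hm' : wP v' *ᵥ m' = tauP v' - e')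
    (he : y ⬝ᵥ (JJ *ᵥ e) = y' ⬝ᵥ (JJ *ᵥ e')) :
    ∃ ψ₁ ψ₂, Sol (dl y m) (YY v κ y y' u) v' ψ₁ ψ₂ ∧ dl y m + coad ψ₁ aV = dl y' m' := by
  have hφ := xdelta_phi hw y'
  have hw' : wP v' = wP v - vecMulVec κ (y' ᵥ* wP v) := by rw [hv', wP_move hw]
  have hτ' : tauP v' = tauP v + (y ⬝ᵥ tauP v - y' ⬝ᵥ tauP v) • κ := by rw [hv', tauP_move]
  have a1 : ∀ x : Vec R, y ⬝ᵥ (wP v' *ᵥ x) = -((y' ᵥ* wP v) ⬝ᵥ x) := fun x => by
    rw [hw', sub_mulVec, xdelta_vm, dotProduct_sub, dotProduct_mulVec, hyw, zero_dotProduct,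
      dotProduct_smul, hy, smul_eq_mul]
    ring
  have a2 : ∀ x : Vec R, y' ⬝ᵥ (wP v' *ᵥ x) = 0 := fun x => by
    rw [hw', sub_mulVec, xdelta_vm, dotProduct_sub, dotProduct_mulVec,
      dotProduct_smul, hy', smul_eq_mul]
    ring
  have a3 : wP v' *ᵥ κ = 0 := by
    rw [hw', sub_mulVec, xdelta_vm, hw, hφ, zero_smul, sub_zero]
  have a4 : wP v' *ᵥ m = tauP v - e - ((y' ᵥ* wP v) ⬝ᵥ m) • κ := by
    rw [hw', sub_mulVec, xdelta_vm, hm]
  refine ⟨th y m - th y' m' + mkV 0 0 (y' - y),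
    ((y' ᵥ* wP v) ⬝ᵥ m + (y ⬝ᵥ tauP v - y' ⬝ᵥ tauP v)) • th y κ, fun X => ⟨?_, ?_⟩, ?_⟩
  · rw [xdelta_dl_kbr m hy (xdelta_hatY hw) xdelta_tY xdelta_nY, add_dotProduct, sub_dotProduct,
      smul_dotProduct, th_dot, th_dot, th_dot, xdelta_mkV_dot, act_aV, wP_mkV, wP_act, tauP_act]
    simp only [sub_mulVec, smul_mulVec, ← mulVec_mulVec, a4, hm', dotProduct_add,
      dotProduct_sub, sub_dotProduct, dotProduct_smul, smul_eq_mul, a1, a2, mulVec_sub,
      mulVec_smul]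
    have b1 : y ⬝ᵥ (JJ *ᵥ tauP v') = y ⬝ᵥ (JJ *ᵥ tauP v) +
        (y ⬝ᵥ tauP v - y' ⬝ᵥ tauP v) * (y ⬝ᵥ (JJ *ᵥ κ)) := by
      rw [hτ', mulVec_add, mulVec_smul, dotProduct_add, dotProduct_smul, smul_eq_mul]
    have b2 : y ⬝ᵥ tauP v' = y ⬝ᵥ tauP v + (y ⬝ᵥ tauP v - y' ⬝ᵥ tauP v) := by
      rw [hτ', dotProduct_add, dotProduct_smul, hy, smul_eq_mul, mul_one]
    have b3 : y' ⬝ᵥ tauP v' = y ⬝ᵥ tauP v := by
      rw [hτ', dotProduct_add, dotProduct_smul, hy', smul_eq_mul]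
      ring
    rw [b1, b2, b3, he]
    ring
  · rw [xdelta_dl_kbr m hy (xdelta_hatY hw) xdelta_tY xdelta_nY, smul_dotProduct, th_dot, wP_act,
      hat_gP_kbr, tP_kbr, nP_kbr, xdelta_hatY hw, xdelta_tY, xdelta_nY]
    simp only [sub_mulVec, smul_mulVec, ← mulVec_mulVec, a3, xdelta_vm, hφ, hy, dotProduct_add,
      dotProduct_sub, dotProduct_smul, smul_eq_mul, a1, mulVec_smul, mulVec_zero,
      dotProduct_zero, zero_smul]
    ring
  · refine eq_of_dotK fun X => ?_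
    rw [add_dotProduct, coad_dot, add_dotProduct, sub_dotProduct, th_dot, th_dot, xdelta_mkV_dot,
      dl_dot, dl_dot, act_aV, wP_mkV, tauP_mkV]
    simp only [sub_mulVec, smul_mulVec, dotProduct_add, dotProduct_sub, sub_dotProduct]
    ring

theorem coad_th {v' : IV → R} {m : Vec R} (hy : y' ᵥ* wP v' = 0)
    (h₁ : y' 0 * (wP v' *ᵥ m) 0 + y' 1 * (wP v' *ᵥ m) 1 = 0) : coad (th y' m) v' = 0 := by
  refine eq_of_dotK fun X => ?_
  have h0 : ∀ x : Vec R, y' ⬝ᵥ (wP v' *ᵥ x) = 0 := fun x => by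
    rw [dotProduct_mulVec, hy, zero_dotProduct]
  have h2 := h0 m
  rw [xdelta_dot] at h2
  rw [coad_dot, th_dot, wP_act, zero_dotProduct, sub_mulVec, smul_mulVec, ← mulVec_mulVec,
    ← mulVec_mulVec, dotProduct_sub, dotProduct_smul, h0, xdelta_J, smul_eq_mul]
  linear_combination sP X * (2 * h₁ - h2)

theorem th_act {ν : IK → R} {m z : Vec R} (hy' : y' ⬝ᵥ κ = 1) (hs : sP ν = 0)
    (hg : hat (gP ν) = vecMulVec κ z) : th y' m ⬝ᵥ act ν aV = -(z ⬝ᵥ m) := by
  rw [th_dot, act_aV, wP_mkV, hs, hg, zero_smul, zero_sub, neg_mulVec, xdelta_vm, dotProduct_neg,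
    dotProduct_smul, hy', smul_eq_mul, mul_one]

theorem dl_nu {v' : IV → R} {ν : IK → R} {m' e' z : Vec R} (hy' : y' ⬝ᵥ κ = 1) (hs : sP ν = 0)
    (hg : hat (gP ν) = vecMulVec κ (z ᵥ* wP v')) (hn : nP ν = -(z ⬝ᵥ tauP v') • κ)
    (hm' : wP v' *ᵥ m' = tauP v' - e') : dl y' m' ⬝ᵥ ν = -(z ⬝ᵥ e') := by
  rw [dl_dot, hs, hg, hn, zero_smul, sub_zero, xdelta_vm, ← dotProduct_mulVec, hm',
    dotProduct_add, dotProduct_smul, dotProduct_smul, hy', dotProduct_sub, smul_eq_mul,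
    smul_eq_mul]
  ring
end ring

section der
variable {K : Type} [Field K] [Algebra ℂ K] (D : Derivation ℂ K K) {v v' : IV → K}
  {κ y y' : Vec K} {u : Mat K}

theorem xdelta_hat_der (g : Mat K) : hat (g.map D) = (hat g).map D := by
  ext i j
  simp only [hat, Matrix.sub_apply, map_apply, map_sub, single_apply, trace, diag_apply]
  split_ifs
  · rw [map_sum]
  · rw [map_zero]

theorem xdelta_der_vv (hκ : D ∘ κ = 0) (φ : Vec K) :
    (vecMulVec κ φ).map D = vecMulVec κ (D ∘ φ) := by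
  ext i j
  have h : D (κ i) = 0 := congrFun hκ i
  simp only [map_apply, vecMulVec_apply, Derivation.leibniz, h, smul_eq_mul, mul_zero, add_zero,
    Function.comp_apply]

theorem xdelta_der_sm (hκ : D ∘ κ = 0) (t : K) : D ∘ (t • κ) = D t • κ := by
  ext i
  have h : D (κ i) = 0 := congrFun hκ i
  simp only [Function.comp_apply, Pi.smul_apply, smul_eq_mul, Derivation.leibniz, h, mul_zero,
    zero_add, mul_comm]

theorem xdelta_der_y (hκ : D ∘ κ = 0) (hy' : y' ⬝ᵥ κ = 1) : (D ∘ y') ⬝ᵥ κ = 0 := by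
  have h := der_dot D y' κ
  rw [hy', hκ, dotProduct_zero, add_zero, Derivation.map_one_eq_zero] at h
  exact h.symm

/-- the shape of the derivative of the gauge element -/
theorem der_YY (hv : D ∘ v = 0) (hκ : D ∘ κ = 0) (hy : D ∘ y = 0) (hw : wP v *ᵥ κ = 0)
    (hy' : y' ⬝ᵥ κ = 1) (hv' : v' = v + act (YY v κ y y' u) aV) :
    hat (gP (D ∘ YY v κ y y' u)) = vecMulVec κ ((D ∘ y') ᵥ* wP v') ∧
      sP (D ∘ YY v κ y y' u) = 0 ∧ tP (D ∘ YY v κ y y' u) = 0 ∧
      nP (D ∘ YY v κ y y' u) = -((D ∘ y') ⬝ᵥ tauP v') • κ := by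
  have hz := xdelta_der_y D hκ hy'
  have hDw : (wP v).map D = 0 := by rw [← wP_comp, hv, wP_zero]
  have hDτ : D ∘ tauP v = 0 := by rw [← tauP_comp, hv, tauP_zero]
  refine ⟨?_, ?_, ?_, ?_⟩
  · rw [gP_comp, xdelta_hat_der, xdelta_hatY hw, xdelta_der_vv D hκ, der_vecMul, hDw, vecMul_zero,
      add_zero, hv', wP_move hw, vecMul_sub, vecMul_vecMulVec, hz, zero_smul, sub_zero]
  · rw [sP_comp, xdelta_sY, map_zero]
  · rw [tP_comp, xdelta_tY, map_zero]
  · rw [nP_comp, xdelta_nY, xdelta_der_sm D hκ, map_sub, der_dot, der_dot, hy, hDτ, hv', tauP_move,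
      dotProduct_add, dotProduct_smul, hz]
    simp only [zero_dotProduct, dotProduct_zero, add_zero, zero_sub, smul_zero]

/-- the twist direction does not contribute to the drift -/
theorem dl_drift (hκ : D ∘ κ = 0) (hy' : y' ⬝ᵥ κ = 1) {X ν : IK → K} {m' z : Vec K} {c : K}
    (hX : act X v' = D ∘ v') (hs : sP ν = 0) (ht : tP ν = 0)
    (hg : hat (gP ν) = vecMulVec κ (z ᵥ* wP v')) (hn : nP ν = -(z ⬝ᵥ tauP v') • κ)
    (hm' : wP v' *ᵥ m' = tauP v' - Pi.single 0 c) (hz : z 0 = 0) :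
    dl y' m' ⬝ᵥ (kbr X ν - D ∘ ν) = 0 := by
  have hDw : (wP v').map D = sP X • (JJ * wP v') - wP v' * hat (gP X) := by
    rw [← wP_comp, ← hX, wP_act]
  have hDτ : D ∘ tauP v' = sP X • (JJ *ᵥ tauP v') + tP X • tauP v' + wP v' *ᵥ nP X := by
    rw [← tauP_comp, ← hX, tauP_act]
  have e1 : z ⬝ᵥ Pi.single 0 c = 0 := by rw [dotProduct_single, hz, zero_mul]
  have e2 : (D ∘ z) ⬝ᵥ Pi.single 0 c = 0 := by
    rw [dotProduct_single, Function.comp_apply, hz, map_zero, zero_mul]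
  have e3 : z ⬝ᵥ (JJ *ᵥ Pi.single 0 c) = 0 := by
    rw [xdelta_J, hz]
    simp
  rw [dotProduct_sub, kbr_skew, dotProduct_neg, xdelta_dl_kbr m' hy' hg ht hn, dl_dot, gP_comp,
    xdelta_hat_der, hg, xdelta_der_vv D hκ, sP_comp, hs, map_zero, nP_comp, hn,
    xdelta_der_sm D hκ, map_neg, der_dot, der_vecMul, hDw, hDτ, xdelta_vm]
  simp only [zero_smul, sub_zero, add_dotProduct, dotProduct_add, dotProduct_sub,
    dotProduct_smul, smul_eq_mul, hy', ← dotProduct_mulVec, sub_mulVec, smul_mulVec,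
    ← mulVec_mulVec, hm', mulVec_sub, e1, e2, e3]
  ring

/-- the fibre direction does not contribute to the drift -/
theorem th_drift (hκ : D ∘ κ = 0) (hG : GoodW ⊤ (wP v') κ y') {X ν : IK → K} {m z ω : Vec K}
    {d₁ d₂ e₁ e₂ : K} (hX : act X v' = D ∘ v') (hDw : (wP v').map D = vecMulVec κ ω)
    (hs : sP ν = 0) (hg : hat (gP ν) = vecMulVec κ (z ᵥ* wP v'))
    (h₀ : D (y' 0) = d₁ * y' 0) (h₁ : D (y' 1) = d₁ * y' 1) (h₂ : D (y' 2) = d₂ * y' 2)
    (h₃ : D (y' 3) = d₂ * y' 3) (z₀ : D (z 0) = d₁ * z 0 + e₁ * y' 0)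
    (z₁ : D (z 1) = d₁ * z 1 + e₁ * y' 1) (z₂ : D (z 2) = d₂ * z 2 + e₂ * y' 2)
    (z₃ : D (z 3) = d₂ * z 3 + e₂ * y' 3)
    (hm : y' 0 * (wP v' *ᵥ m) 0 + y' 1 * (wP v' *ᵥ m) 1 = 0) (hz : z ⬝ᵥ (wP v' *ᵥ m) = -1) :
    coad (th y' m) aV ⬝ᵥ (kbr X ν - D ∘ ν) = 0 := by
  have hw : (wP v').map D = sP X • (JJ * wP v') - wP v' * hat (gP X) := by
    rw [← wP_comp, ← hX, wP_act]
  have hyw : ∀ x : Vec K, y' ⬝ᵥ (wP v' *ᵥ x) = 0 := fun x => by
    rw [dotProduct_mulVec, hG.yw, zero_dotProduct]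
  have hω : ω ⬝ᵥ κ = 0 := by
    have h := der_mulVec D (wP v') κ
    rw [hG.wκ, hκ, mulVec_zero, add_zero, hDw, xdelta_vm] at h
    have h' := congrFun h 0
    simp only [Function.comp_apply, Pi.zero_apply, map_zero, Pi.smul_apply, hG.κ0, smul_eq_mul,
      mul_one] at h'
    exact h'.symm
  have hgc : y' ⬝ᵥ (hat (gP X) *ᵥ κ) = sP X * (y' ⬝ᵥ (JJ *ᵥ κ)) := by
    obtain ⟨W, -, hW⟩ := hG.inv
    have hW' : (wP v' + vecMulVec κ y') * W = 1 := mul_eq_one_comm.1 hW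
    have k1 : W *ᵥ κ = κ := by
      have h := congrArg (· *ᵥ κ) hW
      simp only [← mulVec_mulVec, add_mulVec, hG.wκ, xdelta_vm, hG.yκ, one_smul, zero_add,
        one_mulVec] at h
      exact h
    have k2 : y' ᵥ* W = y' := by
      have h := congrArg (y' ᵥ* ·) hW'
      simp only [← vecMul_vecMul, vecMul_add, hG.yw, vecMul_vecMulVec, hG.yκ, one_smul, zero_add,
        vecMul_one] at h
      exact h
    have k3 : W * wP v' = 1 - vecMulVec κ y' := by
      rw [← hW, Matrix.mul_add, mul_vecMulVec, k1, add_sub_cancel_right]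
    have k4 : wP v' * W = 1 - vecMulVec κ y' := by
      rw [← hW', Matrix.add_mul, vecMulVec_mul, k2, add_sub_cancel_right]
    have k5 : trace (W * (wP v').map D) = 0 := by
      rw [hDw, mul_vecMulVec, k1, trace_vecMulVec, dotProduct_comm, hω]
    rw [hw, Matrix.mul_sub, Matrix.mul_smul, trace_sub, trace_smul, trace_mul_comm,
      Matrix.mul_assoc, k4, ← Matrix.mul_assoc, k3, Matrix.mul_sub, Matrix.sub_mul,
      Matrix.mul_one, Matrix.one_mul, trace_sub, trace_sub, trace_JJ, trace_hat, mul_vecMulVec,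
      vecMulVec_mul, trace_vecMulVec, trace_vecMulVec, dotProduct_comm _ y', dotProduct_comm κ,
      ← dotProduct_mulVec, smul_eq_mul] at k5
    linear_combination k5
  have hr : (D ∘ y' + sP X • (y' ᵥ* JJ)) ᵥ* wP v' = 0 := by
    have h := der_vecMul D (wP v') y'
    rw [hG.yw, hw, vecMul_sub, vecMul_smul, ← vecMul_vecMul, ← vecMul_vecMul, hG.yw, zero_vecMul,
      sub_zero] at h
    rw [add_vecMul, smul_vecMul, ← h]
    ext i
    simp
  have hl := hG.left_ker hr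
  rw [add_dotProduct, xdelta_der_y D hκ hG.yκ, smul_dotProduct, ← dotProduct_mulVec, zero_add,
    smul_eq_mul, ← hgc] at hl
  have l0 := congrFun hl 0
  have l1 := congrFun hl 1
  have l2 := congrFun hl 2
  have l3 := congrFun hl 3
  simp only [JJ, Pi.add_apply, Pi.smul_apply, Function.comp_apply, vecMul_diagonal, smul_eq_mul,
    cons_val_zero, cons_val_one, cons_val, h₀, h₁, h₂, h₃] at l0 l1 l2 l3
  obtain ⟨a₀, -, a₁, -, ha⟩ := hG.ylo
  obtain ⟨a₂, -, a₃, -, hb⟩ := hG.yhi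
  have c1 : d₁ + sP X = y' ⬝ᵥ (hat (gP X) *ᵥ κ) := by
    linear_combination a₀ * l0 + a₁ * l1 - (d₁ + sP X - y' ⬝ᵥ (hat (gP X) *ᵥ κ)) * ha
  have c2 : d₂ - sP X = y' ⬝ᵥ (hat (gP X) *ᵥ κ) := by
    linear_combination a₂ * l2 + a₃ * l3 - (d₂ - sP X - y' ⬝ᵥ (hat (gP X) *ᵥ κ)) * hb
  have hy0 := hyw m
  have hz' := hz
  rw [xdelta_dot] at hy0 hz'
  rw [coad_dot, th_dot, act_aV, wP_mkV, sP_sub, sP_kbr, sP_comp, hs, map_zero, sub_zero, zero_smul,
    zero_sub, gP_sub, hat_sub, hat_gP_kbr, gP_comp, xdelta_hat_der, hg, xdelta_der_vv D hκ,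
    der_vecMul, hw]
  simp only [neg_mulVec, sub_mulVec, ← mulVec_mulVec, xdelta_vm, mulVec_smul, dotProduct_neg,
    dotProduct_sub, dotProduct_smul, smul_eq_mul, hG.yκ, add_dotProduct, ← dotProduct_mulVec,
    smul_mulVec, hz]
  rw [xdelta_dot (D ∘ z), xdelta_J z]
  simp only [Function.comp_apply, z₀, z₁, z₂, z₃]
  linear_combination (z 0 * (wP v' *ᵥ m) 0 + z 1 * (wP v' *ᵥ m) 1) * c1 +
    (z 2 * (wP v' *ᵥ m) 2 + z 3 * (wP v' *ᵥ m) 3) * c2 + (y' ⬝ᵥ (hat (gP X) *ᵥ κ)) * hz' +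
    (e₁ - e₂) * hm + e₂ * hy0
end der

end Pool.Agent.MP_d920b6_mp.Cx

end

section

/-! The stabilisers `k_v`. -/

namespace Pool.Agent.MP_d920b6_mp.Cx

open Matrix Module

variable {k : Type*} [Field k] {v : IV → k} {κ y : Vec k}

theorem xkv_skew (σ : Mat k) (κ : Vec k) : (κ ᵥ* sk σ) ⬝ᵥ κ = 0 := by
  simp [sk, vecMul, dotProduct, Fin.sum_univ_four]
  ring

theorem xkv_eqs {X : IK → k} (hX : act X v = 0) :
    sP X • (JJ * wP v) - wP v * hat (gP X) = 0 ∧
    (∀ a b, MM (wP v) (uP X) a b =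
      (hat (gP X))ᵀ * sk (sgP v a b) + sk (sgP v a b) * hat (gP X)) ∧
    sP X • (JJ *ᵥ tauP v) + tP X • tauP v + wP v *ᵥ nP X = 0 :=
  ⟨congrArg wP hX, fun a b => sub_eq_zero.1 (congrArg (fun z => sgP z a b) hX),
    congrArg tauP hX⟩

theorem Good.inA (h2 : (2 : k) ≠ 0) (h : Good ⊤ v κ y) {X : IK → k} (hX : act X v = 0) :
    InA κ X := by
  obtain ⟨e1, e2, e3⟩ := xkv_eqs hX
  have hs : sP X = 0 := by
    have a1 : (sP X • (y ᵥ* JJ)) ᵥ* wP v = 0 := by
      have := congrArg (y ᵥ* ·) e1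
      simpa only [vecMul_sub, vecMul_smul, ← vecMul_vecMul, h.gw.yw, zero_vecMul, sub_zero,
        vecMul_zero, ← smul_vecMul] using this
    have a2 := h.gw.left_ker a1
    generalize (sP X • (y ᵥ* JJ)) ⬝ᵥ κ = c at a2
    have b0 := congrFun a2 0
    have b1 := congrFun a2 1
    have b2 := congrFun a2 2
    have b3 := congrFun a2 3
    simp only [JJ, Pi.smul_apply, vecMul_diagonal, smul_eq_mul, cons_val_zero, cons_val_one,
      cons_val_two, cons_val_three, head_cons, tail_cons] at b0 b1 b2 b3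
    obtain ⟨c0, -, c1, -, hc⟩ := h.gw.ylo
    obtain ⟨c2, -, c3, -, hc'⟩ := h.gw.yhi
    refine (mul_eq_zero.1 ?_).resolve_left h2
    linear_combination c0 * b0 + c1 * b1 - c2 * b2 - c3 * b3 - (sP X - c) * hc - (sP X + c) * hc'
  rw [hs, zero_smul, zero_sub, neg_eq_zero] at e1
  rw [hs, zero_smul, zero_add] at e3
  have hg : hat (gP X) = vecMulVec κ (y ᵥ* hat (gP X)) := by
    ext i j
    have a1 : wP v *ᵥ (fun l => hat (gP X) l j) = 0 := funext fun l => congrFun (congrFun e1 l) j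
    rw [vecMulVec_apply, mul_comm]
    exact congrFun (h.gw.right_ker a1) i
  have hφ : (y ᵥ* hat (gP X)) ⬝ᵥ κ = 0 := by
    rw [dotProduct_comm, ← trace_vecMulVec, ← hg, trace_hat]
  have ht : tP X = 0 := by
    have a1 := congrArg (y ⬝ᵥ ·) e3
    simp only [dotProduct_add, dotProduct_smul, dotProduct_mulVec, h.gw.yw, zero_dotProduct,
      add_zero, dotProduct_zero, smul_eq_mul] at a1
    obtain ⟨x, -, hx⟩ := h.xinv
    linear_combination x * a1 - tP X * hx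
  rw [ht, zero_smul, zero_add] at e3
  refine ⟨⟨_, hg, hφ⟩, hs, ht, h.gw.mulVec_of_MM fun a b => ?_, _, h.gw.right_ker e3⟩
  rw [e2, hg, sk_vecMulVec, wedge, sub_mulVec, vecMulVec_mulVec, vecMulVec_mulVec, xkv_skew, hφ]
  simp

theorem Good.finrank_kst (h2 : (2 : k) ≠ 0) (h : Good ⊤ v κ y) : finrank k (kst v) ≤ 5 := by
  obtain ⟨φ₀, -, hφ₀, hL⟩ := h.lam
  obtain ⟨i, j, hij⟩ : ∃ i j, wP v i j ≠ 0 := by
    by_contra hn
    push Not at hn
    exact h.gw.ne_zero (Matrix.ext hn)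
  let F : (kst v × k × k) →ₗ[k] (k × k × Vec k × k) :=
    { toFun := fun z => (trace (gP z.1.1), y ⬝ᵥ nP z.1.1,
        y ᵥ* hat (gP z.1.1) + z.2.1 • y + z.2.2 • φ₀, uP z.1.1 i j)
      map_add' := fun z z' => by
        simp only [Prod.fst_add, Prod.snd_add, Submodule.coe_add, gP_add, nP_add, uP_add,
          trace_add, dotProduct_add, hat_add, vecMul_add, Matrix.add_apply, Prod.mk_add_mk,
          add_smul]
        congr 3
        abel
      map_smul' := fun c z => by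
        simp only [Prod.smul_fst, Prod.smul_snd, Submodule.coe_smul, gP_smul, nP_smul, uP_smul,
          trace_smul, dotProduct_smul, hat_smul, vecMul_smul, Matrix.smul_apply, Prod.smul_mk,
          smul_add, smul_assoc, RingHom.id_apply] }
  have hF : Function.Injective F := by
    refine (injective_iff_map_eq_zero F).2 ?_
    rintro ⟨⟨X, hX⟩, a, b⟩ hz
    have hX' := (mem_kst _ _).1 hX
    obtain ⟨⟨φ, hg, hφ⟩, hs, ht, -, c, hn⟩ := h.inA h2 hX'
    have e2 := (xkv_eqs hX').2.1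
    simp only [F, LinearMap.coe_mk, AddHom.coe_mk, Prod.mk_eq_zero] at hz
    obtain ⟨z1, z2, z3, z4⟩ := hz
    rw [hg, vecMul_vecMulVec, h.gw.yκ, one_smul] at z3
    have ha : a = 0 := by
      have := congrArg (· ⬝ᵥ κ) z3
      simpa [add_dotProduct, hφ, hφ₀, h.gw.yκ] using this
    have hl : Lam v κ y φ = 0 :=
      Lam_eq_zero v κ y φ (uP X) h.gw.yw fun a b => by rw [e2, hg, sk_vecMulVec]
    rw [ha, zero_smul, add_zero] at z3
    have hb : b = 0 := by
      have a1 := congrArg (Lam v κ y) z3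
      have a2 := Lam_smul v κ y 0 0
      rw [zero_smul, zero_mul] at a2
      rwa [Lam_add, Lam_smul, hl, hL, a2, zero_add, mul_one] at a1
    rw [hb, zero_smul, add_zero] at z3
    rw [z3, vecMulVec_zero] at hg
    obtain ⟨d, hd⟩ := h.gw.ker_MM (u := uP X) fun a b => by simp [e2, hg]
    rw [hd, Matrix.smul_apply, smul_eq_mul, mul_eq_zero, or_iff_left hij] at z4
    rw [hn, dotProduct_smul, h.gw.yκ, smul_eq_mul, mul_one] at z2
    rw [hat_of_trace _ z1] at hg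
    have : X = 0 := extK hg hs ht (by simp [hd, z4]) (by simp [hn, z2])
    simp [this, ha, hb]
  have := LinearMap.finrank_le_finrank_of_injective hF
  simp only [finrank_prod, finrank_self, finrank_fin_fun] at this
  omega

theorem finrank_kst_aV (h2 : (2 : k) ≠ 0) : finrank k (kst (aV : IV → k)) ≤ 4 := by
  let F : kst (aV : IV → k) →ₗ[k] (k × k × k × k) :=
    { toFun := fun z => (trace (gP z.1), sP z.1, tP z.1, uP z.1 0 0)
      map_add' := fun z z' => by simp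
      map_smul' := fun c z => by simp }
  have hF : Function.Injective F := by
    refine (injective_iff_map_eq_zero F).2 ?_
    rintro ⟨X, hX⟩ hz
    obtain ⟨e1, e2, e3⟩ := xkv_eqs ((mem_kst _ _).1 hX)
    simp only [F, LinearMap.coe_mk, AddHom.coe_mk, Prod.mk_eq_zero] at hz
    obtain ⟨z1, z2, z3, z4⟩ := hz
    obtain ⟨d, hd⟩ := ker_MM_one (u := uP X) fun a b => by simpa using e2 a b
    rw [hat_of_trace _ z1] at e1
    refine Subtype.ext (extK (by simpa [z2] using e1) z2 z3 ?_ (by simpa using e3))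
    have : d = 0 := by simpa [hd] using z4
    simp [hd, this]
  simpa using LinearMap.finrank_le_finrank_of_injective hF

theorem xkv_MM_mul (w u : Mat k) (a b : Fin 2) : MM w (u * w) a b = wᵀ * MM 1 u a b * w := by
  have e : ∀ x z : Vec k, wᵀ * wedge x z * w = wedge (x ᵥ* w) (z ᵥ* w) := fun x z => by
    simp only [wedge, Matrix.mul_sub, Matrix.sub_mul, mul_vecMulVec, vecMulVec_mul,
      mulVec_transpose]
  have e1 : ∀ i, (1 : Mat k) i ᵥ* w = w i := fun i => congrFun (Matrix.one_mul w) i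
  simp only [MM, Matrix.mul_add, Matrix.add_mul, e, e1]
  rfl

theorem xkv_ut (S : Fin 2 → Fin 2 → Mat k) (hS : ∀ a b, (S a b)ᵀ = -S a b)
    (hd : ∀ a b i, S a b i i = 0) : ∃ u : Mat k, ∀ a b, MM 1 u a b = JJ * S a b + S a b * JJ := by
  refine ⟨!![0, 0, -2 * S 0 1 2 3, 2 * S 0 0 2 3; 0, 0, -2 * S 1 1 2 3, 2 * S 1 0 2 3;
    2 * S 1 0 0 1, -2 * S 0 0 0 1, 0, 0; 2 * S 1 1 0 1, -2 * S 0 1 0 1, 0, 0], fun a b => ?_⟩
  have h1 : ∀ a b, S a b 1 0 = -S a b 0 1 := fun a b => congrFun (congrFun (hS a b) 0) 1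
  have h3 : ∀ a b, S a b 3 2 = -S a b 2 3 := fun a b => congrFun (congrFun (hS a b) 2) 3
  ext i j
  simp only [JJ, Matrix.add_apply, diagonal_mul, mul_diagonal, MM, xtri_wedge_apply]
  fin_cases a <;> fin_cases b <;> fin_cases i <;> fin_cases j <;>
    simp [lo, hi, one_apply, hd, h1, h3] <;> ring

theorem xkv_conj (W σ : Mat k) : (Wᵀ * sk σ * W)ᵀ = -(Wᵀ * sk σ * W) ∧
    ∀ i, (Wᵀ * sk σ * W) i i = 0 := by
  refine ⟨by simp [transpose_mul, sk_transpose, Matrix.mul_assoc], fun i => ?_⟩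
  exact xkv_skew σ (Wᵀ i)

theorem xkv_ab (v : IV → k) (hw : wP v ≠ 0) (g U : Mat k) (n : Vec k) (h0 : trace g = 0)
    (h1 : wP v * g = JJ * wP v)
    (h2 : ∀ a b, MM (wP v) U a b = gᵀ * sk (sgP v a b) + sk (sgP v a b) * g)
    (h3 : wP v *ᵥ n = -tauP v) :
    ∃ S : Submodule k (IK → k), S ≤ kst v ∧ 4 ≤ finrank k S ∧
      ∀ X ∈ S, ∀ Y ∈ S, kbr X Y = 0 := by
  let G : (k × k × k × k) →ₗ[k] (IK → k) :=
    { toFun := fun z => mkK (z.1 • single 0 0 1 + z.2.2.2 • g) z.2.2.2 z.2.2.1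
        (z.2.1 • wP v + z.2.2.2 • U) (z.2.2.1 • n + z.2.2.2 • g *ᵥ n)
      map_add' := fun z z' => by
        refine extK ?_ rfl rfl ?_ ?_ <;>
          simp only [gP_mkK, uP_mkK, nP_mkK, gP_add, uP_add, nP_add, Prod.fst_add,
            Prod.snd_add] <;> module
      map_smul' := fun c z => by
        refine extK ?_ rfl rfl ?_ ?_ <;>
          simp only [gP_mkK, uP_mkK, nP_mkK, gP_smul, uP_smul, nP_smul, Prod.smul_fst,
            Prod.smul_snd, RingHom.id_apply, smul_eq_mul] <;> module }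
  have hG : ∀ a b c d, G (a, b, c, d) = mkK (a • single 0 0 1 + d • g) d c
    (b • wP v + d • U) (c • n + d • g *ᵥ n) := fun _ _ _ _ => rfl
  have hh : ∀ a d : k, hat (a • single 0 0 1 + d • g) = d • g := fun a d => by
    rw [hat_add, hat_smul, hat_smul, hat_of_trace g h0]
    simp [hat]
  refine ⟨G.range, ?_, ?_, ?_⟩
  · rintro _ ⟨⟨a, b, c, d⟩, rfl⟩
    rw [mem_kst, hG]
    refine extV ?_ (fun a b => ?_) ?_
    · rw [wP_act, gP_mkK, hh]
      simp [h1]
    · rw [sgP_act, gP_mkK, hh]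
      simp [MM_add_right, MM_smul_right, MM_self, h2]
    · simp only [tauP_act, sP_mkK, tP_mkK, nP_mkK, mulVec_add, mulVec_smul, mulVec_mulVec, h1,
        tauP_zero]
      rw [← mulVec_mulVec, h3, mulVec_neg]
      module
  · rw [LinearMap.finrank_range_of_inj]
    · simp
    · refine (injective_iff_map_eq_zero G).2 ?_
      rintro ⟨a, b, c, d⟩ hz
      rw [hG] at hz
      obtain rfl : d = 0 := congrArg sP hz
      obtain rfl : c = 0 := congrArg tP hz
      have a1 := congrFun (congrFun (congrArg gP hz) 0) 0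
      have a2 := congrArg uP hz
      simp [hw] at a1 a2
      simp [a1, a2]
  · rintro _ ⟨⟨a, b, c, d⟩, rfl⟩ _ ⟨⟨a', b', c', d'⟩, rfl⟩
    rw [hG, hG]
    refine extK ?_ rfl rfl ?_ ?_
    · simp only [gP_kbr, gP_mkK, hh, Matrix.mul_smul, Matrix.smul_mul, gP_zero]
      module
    · simp only [uP_kbr, gP_mkK, uP_mkK, sP_mkK, hh, Matrix.mul_smul, Matrix.smul_mul,
        Matrix.add_mul, Matrix.mul_add, h1, uP_zero]
      module
    · simp only [nP_kbr, gP_mkK, nP_mkK, tP_mkK, hh, mulVec_add, mulVec_smul, smul_mulVec, nP_zero]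
      module

/-- at invertible `w` the stabiliser contains a four-dimensional abelian subalgebra -/
theorem exists_ab (v : IV → k) (hw : (wP v).det ≠ 0) :
    ∃ S : Submodule k (IK → k), S ≤ kst v ∧ 4 ≤ finrank k S ∧
      ∀ X ∈ S, ∀ Y ∈ S, kbr X Y = 0 := by
  have i1 := mul_nonsing_inv _ hw.isUnit
  have i2 := nonsing_inv_mul _ hw.isUnit
  generalize (wP v)⁻¹ = W at i1 i2
  obtain ⟨u, hu⟩ := xkv_ut (fun a b => Wᵀ * sk (sgP v a b) * W) (fun a b => (xkv_conj _ _).1)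
    fun a b => (xkv_conj _ _).2
  refine xkv_ab v (fun h => hw (by rw [h]; simp)) (W * JJ * wP v) (u * wP v) (-(W *ᵥ tauP v))
    ?_ ?_ (fun a b => ?_) ?_
  · rw [trace_mul_comm, ← Matrix.mul_assoc, i1, Matrix.one_mul, trace_JJ]
  · rw [← Matrix.mul_assoc, ← Matrix.mul_assoc, i1, Matrix.one_mul]
  · have i3 : (wP v)ᵀ * Wᵀ = 1 := by rw [← transpose_mul, i2, transpose_one]
    rw [xkv_MM_mul, hu]
    simp only [transpose_mul, JJ_transpose, Matrix.mul_add, Matrix.add_mul, Matrix.mul_assoc, i2,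
      Matrix.mul_one]
    rw [← Matrix.mul_assoc (wP v)ᵀ Wᵀ, i3, Matrix.one_mul]
  · rw [mulVec_neg, mulVec_mulVec, i1, one_mulVec]

end Pool.Agent.MP_d920b6_mp.Cx

end

section

/-! Abstract linear algebra of pencils of skew forms. -/

namespace Pool.Agent.MP_d920b6_mp.Cx

open Module

variable {K W : Type*} [Field K] [AddCommGroup W] [Module K W] [FiniteDimensional K W]

omit [FiniteDimensional K W] in
theorem xlina_skew (B : LinearMap.BilinForm K W) (hB : ∀ x, B x x = 0) (x y : W) :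
    B x y = -B y x := by
  have := hB (x + y)
  simp only [map_add, LinearMap.add_apply, hB] at this
  linear_combination this

theorem xlina_dim (B : LinearMap.BilinForm K W) (hB : ∀ x, B x x = 0) (L : Submodule K W) :
    finrank K L + finrank K (B.orthogonal L) =
      finrank K W + finrank K (L ⊓ LinearMap.ker B : Submodule K W) := by
  have hr : B.IsRefl := fun x y h => by rw [xlina_skew B hB, h, neg_zero]
  rw [LinearMap.BilinForm.finrank_add_finrank_orthogonal hr,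
    LinearMap.BilinForm.orthogonal_top_eq_ker hr]

omit [FiniteDimensional K W] in
theorem xlina_mem (B : LinearMap.BilinForm K W) (hB : ∀ x, B x x = 0) (L : Submodule K W) {ζ : W}
    (hζ : ∀ y ∈ L, B ζ y = 0) : ζ ∈ B.orthogonal L := fun y hy => by
  change B y ζ = 0
  rw [xlina_skew B hB, hζ y hy, neg_zero]

/-- an isotropic subspace bounds the corank from below -/
theorem iso_le (B : LinearMap.BilinForm K W) (hB : ∀ x, B x x = 0) (L : Submodule K W)
    (hL : ∀ x ∈ L, ∀ y ∈ L, B x y = 0) :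
    2 * finrank K L ≤ finrank K W + finrank K (LinearMap.ker B) := by
  have h1 := xlina_dim B hB L
  have h2 := Submodule.finrank_mono (fun x hx => xlina_mem B hB L (hL x hx) : L ≤ B.orthogonal L)
  have h3 := Submodule.finrank_mono (inf_le_right : L ⊓ LinearMap.ker B ≤ LinearMap.ker B)
  omega

/-- a maximal isotropic subspace is its own orthogonal -/
theorem mem_of_orth (B : LinearMap.BilinForm K W) (hB : ∀ x, B x x = 0) (L : Submodule K W)
    (hL : ∀ x ∈ L, ∀ y ∈ L, B x y = 0)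
    (hd : finrank K W + finrank K (LinearMap.ker B) ≤ 2 * finrank K L)
    {ζ : W} (hζ : ∀ y ∈ L, B ζ y = 0) : ζ ∈ L := by
  have h1 := xlina_dim B hB L
  have h3 := Submodule.finrank_mono (inf_le_right : L ⊓ LinearMap.ker B ≤ LinearMap.ker B)
  have h4 : L = B.orthogonal L :=
    Submodule.eq_of_le_of_finrank_le (fun x hx => xlina_mem B hB L (hL x hx)) (by omega)
  rw [h4]
  exact xlina_mem B hB L hζ

/-- chains orthogonal to the unique Jordan block lie in every bi-Lagrangian subspace -/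
theorem chain_mem (A B : LinearMap.BilinForm K W) (hA : ∀ x, A x x = 0) (hB : ∀ x, B x x = 0)
    (L : Submodule K W) (hLA : ∀ x ∈ L, ∀ y ∈ L, A x y = 0) (hLB : ∀ x ∈ L, ∀ y ∈ L, B x y = 0)
    (hd : finrank K W + finrank K (LinearMap.ker B) ≤ 2 * finrank K L)
    (hk : finrank K (LinearMap.ker A) ≤ finrank K (LinearMap.ker B) + 2)
    {θ n : W} (hθ : A θ = 0) (hn : A n = 0) (hθn : B θ n ≠ 0)
    {ζ₁ ζ₂ ζ₃ : W} (h₁ : A ζ₁ + B ζ₂ = 0) (h₂ : A ζ₂ + B ζ₃ = 0) (h₃ : A ζ₃ = 0)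
    (e₁ : B ζ₁ θ = 0) (e₂ : B ζ₁ n = 0) : ζ₁ ∈ L := by
  have h1 := xlina_dim A hA L
  have h2 : L ⊓ LinearMap.ker A < LinearMap.ker A := lt_of_le_of_ne inf_le_right fun e => by
    have h : LinearMap.ker A ≤ L := inf_eq_right.1 e
    exact hθn (hLB _ (h hθ) _ (h hn))
  have h3 := Submodule.finrank_lt_finrank_of_lt h2
  have hker : ∀ {x : W}, A x = 0 → x ∈ A.orthogonal L := fun hx =>
    xlina_mem A hA L fun y _ => by rw [hx, LinearMap.zero_apply]
  have key : ∀ ζ, (∀ y ∈ L, A ζ y = 0) → B ζ θ = 0 → B ζ n = 0 → ζ ∈ L := by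
    intro ζ hζ a b
    by_contra hne
    have hlt : L < L ⊔ Submodule.span K {ζ} := lt_of_le_of_ne le_sup_left fun e =>
      hne (e ▸ Submodule.mem_sup_right (Submodule.mem_span_singleton_self ζ))
    have h4 := Submodule.finrank_lt_finrank_of_lt hlt
    have h5 : L ⊔ Submodule.span K {ζ} = A.orthogonal L :=
      Submodule.eq_of_le_of_finrank_le (sup_le (fun x hx => xlina_mem A hA L (hLA x hx))
        ((Submodule.span_singleton_le_iff_mem _ _).2 (xlina_mem A hA L hζ))) (by omega)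
    obtain ⟨l₁, m₁, _, t₁, rfl⟩ := Submodule.mem_sup.1 (h5 ▸ hker hθ)
    obtain ⟨l₂, m₂, _, t₂, rfl⟩ := Submodule.mem_sup.1 (h5 ▸ hker hn)
    obtain ⟨c₁, rfl⟩ := Submodule.mem_span_singleton.1 t₁
    obtain ⟨c₂, rfl⟩ := Submodule.mem_span_singleton.1 t₂
    simp only [map_add, map_smul, hB, smul_zero, add_zero] at a b
    refine hθn ?_
    simp [hB, hLB _ m₁ _ m₂, b, xlina_skew B hB l₁ ζ, a]
  have step : ∀ {ζ ζ' : W}, A ζ + B ζ' = 0 → ∀ y, B ζ' y = -A ζ y := fun h y => by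
    have := LinearMap.congr_fun h y
    simp only [LinearMap.add_apply, LinearMap.zero_apply] at this
    linear_combination this
  have z : ∀ {x : W}, A x = 0 → ∀ ζ, -A ζ x = 0 := fun hx ζ => by
    rw [← xlina_skew A hA, hx, LinearMap.zero_apply]
  have m₃ : ζ₃ ∈ L := key _ (fun y _ => by rw [h₃, LinearMap.zero_apply])
    ((step h₂ θ).trans (z hθ _)) ((step h₂ n).trans (z hn _))
  have m₂ : ζ₂ ∈ L := key _ (fun y hy => neg_eq_zero.1 ((step h₂ y).symm.trans (hLB _ m₃ _ hy)))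
    ((step h₁ θ).trans (z hθ _)) ((step h₁ n).trans (z hn _))
  exact key _ (fun y hy => neg_eq_zero.1 ((step h₁ y).symm.trans (hLB _ m₂ _ hy))) e₁ e₂

end Pool.Agent.MP_d920b6_mp.Cx

end

section

/-! Semicontinuity of rank along lines; generalised inverses over local rings. -/

namespace Pool.Agent.MP_d920b6_mp.Cx

open Module Matrix

section field
variable {K U W : Type*} [Field K] [AddCommGroup U] [Module K U]
  [FiniteDimensional K U] [AddCommGroup W] [Module K W] [FiniteDimensional K W]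

theorem li_cofinite {ι : Type*} [Fintype ι] (a b : ι → W) (h : LinearIndependent K a) :
    {t : K | ¬LinearIndependent K fun i => a i + t • b i}.Finite := by
  classical
  obtain ⟨f, hf⟩ := (Fintype.linearCombination K a).exists_leftInverse_of_injective
    (LinearMap.ker_eq_bot.2 (linearIndependent_iff_injective_fintypeLinearCombination.1 h))
  have hfa : ∀ i, f (a i) = Pi.single i 1 := fun i => by
    have := LinearMap.congr_fun hf (Pi.single i 1)
    simpa using this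
  let M : Matrix ι ι K := of fun i j => f (b i) j
  let p : Polynomial K := (1 + (Polynomial.X : Polynomial K) • M.map Polynomial.C).det
  have hp : ∀ t, p.eval t = (1 + t • M).det := fun t => by
    have := (Polynomial.evalRingHom t).map_det (1 + (Polynomial.X : Polynomial K) • M.map Polynomial.C)
    rw [Polynomial.coe_evalRingHom] at this
    rw [this]
    congr 1
    ext i j
    simp only [RingHom.mapMatrix_apply, map_apply, Matrix.add_apply, Matrix.smul_apply, one_apply,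
      smul_eq_mul, Polynomial.coe_evalRingHom, Polynomial.eval_add, Polynomial.eval_mul,
      Polynomial.eval_X, Polynomial.eval_C]
    split_ifs <;> simp
  have hp0 : p ≠ 0 := fun h0 => by
    have := hp 0
    simp [h0] at this
  refine (Polynomial.finite_setOfPred_isRoot hp0).subset fun t ht => ?_
  by_contra hc
  refine ht (LinearIndependent.of_comp f ?_)
  have h1 : IsUnit (1 + t • M) := by
    rw [isUnit_iff_isUnit_det, isUnit_iff_ne_zero, ← hp]
    exact hc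
  have e : (f ∘ fun i => a i + t • b i) = (1 + t • M).row := by
    ext i j
    simp [hfa, M, one_apply, Pi.single_apply, eq_comm]
  rw [e]
  exact linearIndependent_rows_iff_isUnit.2 h1

theorem xLinB_rank {ι : Type*} [Fintype ι] (T : K → U →ₗ[K] W) (a b : ι → W)
    (h : LinearIndependent K a) (hm : ∀ t, t ≠ 0 → ∀ i, a i + t • b i ∈ LinearMap.range (T t)) :
    {t : K | finrank K U < Fintype.card ι + finrank K (LinearMap.ker (T t))}.Finite := by
  refine ((li_cofinite a b h).insert 0).subset fun t ht => ?_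
  by_contra hc
  simp only [Set.mem_insert_iff, Set.mem_ofPred_eq, not_or, not_not] at hc
  have h1 : LinearIndependent K fun i => (⟨_, hm t hc.1 i⟩ : LinearMap.range (T t)) :=
    LinearIndependent.of_comp (LinearMap.range (T t)).subtype hc.2
  have h2 := h1.fintype_card_le_finrank
  have h3 := (T t).finrank_range_add_finrank_ker
  simp only [Set.mem_ofPred_eq] at ht
  omega

omit [FiniteDimensional K U] in
theorem xLinB_basis (T₀ : U →ₗ[K] W) : ∃ X : Fin (finrank K (LinearMap.range T₀)) → U,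
    LinearIndependent K fun i => T₀ (X i) := by
  let B := Module.finBasis K (LinearMap.range T₀)
  choose X hX using fun i => (B i).2
  refine ⟨X, ?_⟩
  simp only [hX]
  exact B.linearIndependent.map' (LinearMap.range T₀).subtype (Submodule.ker_subtype _)

omit [FiniteDimensional K U] [FiniteDimensional K W] in
theorem xLinB_mem (T₀ T₁ : U →ₗ[K] W) {ν : U} (hν : T₀ ν = 0) {t : K} (ht : t ≠ 0) :
    T₁ ν + t • (0 : W) ∈ LinearMap.range (T₀ + t • T₁) :=
  ⟨t⁻¹ • ν, by simp [hν, smul_smul, ht]⟩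

omit [FiniteDimensional K W] in
theorem xLinB_theta {ι : Type*} (a : ι → W) (θ : W →ₗ[K] K) (h : ∀ i, θ (a i) = 0) {w : W}
    (hw : θ w ≠ 0) : w ∉ Submodule.span K (Set.range a) := fun hm =>
  hw ((Submodule.span_le (p := LinearMap.ker θ)).2 (by rintro _ ⟨i, rfl⟩; exact h i) hm)

theorem ker_cofinite (T₀ T₁ : U →ₗ[K] W) :
    {t : K | finrank K (LinearMap.ker T₀) < finrank K (LinearMap.ker (T₀ + t • T₁))}.Finite := by
  obtain ⟨X, hX⟩ := xLinB_basis T₀
  refine (xLinB_rank (fun t => T₀ + t • T₁) _ (fun i => T₁ (X i)) hX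
    fun t _ i => ⟨X i, by simp⟩).subset fun t ht => ?_
  have h3 := T₀.finrank_range_add_finrank_ker
  simp only [Set.mem_ofPred_eq, Fintype.card_fin] at ht ⊢
  omega

/-- a first-order jump forces a larger kernel -/
theorem ker_jump (T₀ T₁ : U →ₗ[K] W) (r : ℕ)
    (hr : {t : K | r ≤ finrank K (LinearMap.ker (T₀ + t • T₁))}.Infinite)
    {ν : U} (hν : T₀ ν = 0) (θ : W →ₗ[K] K) (hθ : ∀ X, θ (T₀ X) = 0) (hθν : θ (T₁ ν) ≠ 0) :
    r + 1 ≤ finrank K (LinearMap.ker T₀) := by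
  obtain ⟨X, hX⟩ := xLinB_basis T₀
  have hli : LinearIndependent K fun o : Option _ => o.elim (T₁ ν) fun i => T₀ (X i) :=
    linearIndependent_option.2 ⟨hX, xLinB_theta _ θ (fun i => hθ _) hθν⟩
  obtain ⟨t, h1, h2⟩ := hr.exists_notMem_finite (xLinB_rank (fun t => T₀ + t • T₁) _
    (fun o => o.elim 0 fun i => T₁ (X i)) hli (by
      rintro t ht (_ | i)
      · exact xLinB_mem T₀ T₁ hν ht
      · exact ⟨X i, by simp⟩))
  have h3 := T₀.finrank_range_add_finrank_ker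
  simp only [Set.mem_ofPred_eq, Fintype.card_option, Fintype.card_fin] at h1 h2
  omega

/-- kernel vectors orthogonal to the jump extend to first order -/
theorem exists_partner (T₀ T₁ : U →ₗ[K] W) (r : ℕ)
    (hr : {t : K | r ≤ finrank K (LinearMap.ker (T₀ + t • T₁))}.Infinite)
    (hk : finrank K (LinearMap.ker T₀) ≤ r + 1)
    {ν : U} (hν : T₀ ν = 0) (θ : W →ₗ[K] K) (hθ : ∀ X, θ (T₀ X) = 0) (hθν : θ (T₁ ν) ≠ 0)
    {Z : U} (hZ : T₀ Z = 0) (hθZ : θ (T₁ Z) = 0) : ∃ X, T₁ Z = T₀ X := by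
  by_contra hc
  obtain ⟨X, hX⟩ := xLinB_basis T₀
  have hli₀ : LinearIndependent K fun o : Option _ => o.elim (T₁ Z) fun i => T₀ (X i) := by
    refine linearIndependent_option.2 ⟨hX, fun hm => hc ?_⟩
    obtain ⟨Y, hY⟩ : T₁ Z ∈ LinearMap.range T₀ :=
      (Submodule.span_le (p := LinearMap.range T₀)).2 (by rintro _ ⟨i, rfl⟩; exact ⟨_, rfl⟩) hm
    exact ⟨Y, hY.symm⟩
  have hli : LinearIndependent K fun o : Option (Option _) =>
      o.elim (T₁ ν) fun o' => o'.elim (T₁ Z) fun i => T₀ (X i) :=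
    linearIndependent_option.2 ⟨hli₀, xLinB_theta _ θ (by
      rintro (_ | i)
      exacts [hθZ, hθ _]) hθν⟩
  obtain ⟨t, h1, h2⟩ := hr.exists_notMem_finite (xLinB_rank (fun t => T₀ + t • T₁) _
    (fun o => o.elim 0 fun o' => o'.elim 0 fun i => T₁ (X i)) hli (by
      rintro t ht (_ | _ | i)
      · exact xLinB_mem T₀ T₁ hν ht
      · exact xLinB_mem T₀ T₁ hZ ht
      · exact ⟨X i, by simp⟩))
  have h3 := T₀.finrank_range_add_finrank_ker
  simp only [Set.mem_ofPred_eq, Fintype.card_option, Fintype.card_fin] at h1 h2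
  omega

end field

/-- generalised inverse over a local domain when the rank does not drop -/
theorem exists_ginv {O K m n : Type*} [CommRing O] [IsLocalRing O] [Field K] [Fintype m]
    [Fintype n] [DecidableEq m] [DecidableEq n] (ι : O →+* K) (hι : Function.Injective ι)
    (M : Matrix m n O) (h : (M.map ι).rank ≤ (M.map (IsLocalRing.residue O)).rank) :
    ∃ N : Matrix n m O, M * N * M = M := by
  classical
  obtain ⟨κ, a, ha, hsp, hli⟩ :=
    exists_linearIndependent' (IsLocalRing.ResidueField O) (M.map (IsLocalRing.residue O)).col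
  have : Finite κ := Finite.of_injective a ha
  have : Fintype κ := Fintype.ofFinite κ
  let M' : Matrix m κ O := M.submatrix id a
  have hli' : LinearIndependent (IsLocalRing.ResidueField O)
      (M'.map (IsLocalRing.residue O)).col := hli
  obtain ⟨f, hf⟩ := (M'.map (IsLocalRing.residue O)).mulVecLin.exists_leftInverse_of_injective
    (LinearMap.ker_eq_bot.2 (mulVec_injective_iff.2 hli'))
  have hf' : LinearMap.toMatrix' f * M'.map (IsLocalRing.residue O) = 1 := by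
    have := congrArg LinearMap.toMatrix' hf
    rwa [LinearMap.toMatrix'_comp, ← toLin'_apply', LinearMap.toMatrix'_toLin',
      LinearMap.toMatrix'_id] at this
  choose N₀ hN₀ using fun i j => IsLocalRing.residue_surjective (LinearMap.toMatrix' f i j)
  have hG : IsUnit ((of N₀ : Matrix κ m O) * M').det := by
    rw [← IsLocalRing.residue_ne_zero_iff_isUnit, RingHom.map_det, RingHom.mapMatrix_apply,
      Matrix.map_mul, show (of N₀ : Matrix κ m O).map (IsLocalRing.residue O) =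
        LinearMap.toMatrix' f from Matrix.ext hN₀, hf', det_one]
    exact one_ne_zero
  obtain ⟨N₁, hN₁⟩ : ∃ N₁ : Matrix κ m O, N₁ * M' = 1 :=
    ⟨((of N₀ : Matrix κ m O) * M')⁻¹ * of N₀, by rw [Matrix.mul_assoc, nonsing_inv_mul _ hG]⟩
  have hK : N₁.map ι * M'.map ι = 1 := by
    rw [← Matrix.map_mul, hN₁, Matrix.map_one _ (map_zero ι) (map_one ι)]
  have hliK : LinearIndependent K (M'.map ι).col := by
    refine mulVec_injective_iff.1 fun x y hxy => ?_
    have := congrArg (fun z => N₁.map ι *ᵥ z) hxy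
    simpa only [mulVec_mulVec, hK, one_mulVec] using this
  have hle : Submodule.span K (Set.range (M'.map ι).col) ≤
      Submodule.span K (Set.range (M.map ι).col) :=
    Submodule.span_mono (by rintro _ ⟨i, rfl⟩; exact ⟨a i, rfl⟩)
  have heq : Submodule.span K (Set.range (M'.map ι).col) =
      Submodule.span K (Set.range (M.map ι).col) := by
    refine Submodule.eq_of_le_of_finrank_le hle ?_
    rw [finrank_span_eq_card hliK, ← rank_eq_finrank_span_cols, ← finrank_span_eq_card hli, hsp,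
      ← rank_eq_finrank_span_cols]
    exact h
  refine ⟨(1 : Matrix n n O).submatrix id a * N₁, ?_⟩
  have hC : M * (1 : Matrix n n O).submatrix id a = M' := by
    ext i j
    simp [M', mul_apply, one_apply]
  rw [← Matrix.mul_assoc, hC]
  refine Matrix.map_injective hι ?_
  show (M' * N₁ * M).map ι = M.map ι
  rw [Matrix.map_mul, Matrix.map_mul]
  refine Matrix.ext_col fun j => ?_
  have hj : (M.map ι).col j ∈ LinearMap.range (M'.map ι).mulVecLin := by
    rw [range_mulVecLin, heq]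
    exact Submodule.subset_span ⟨j, rfl⟩
  obtain ⟨c, hc⟩ := hj
  rw [mulVecLin_apply] at hc
  have e : (M'.map ι * N₁.map ι * M.map ι).col j = (M'.map ι * N₁.map ι) *ᵥ (M.map ι).col j := rfl
  rw [e, ← hc, mulVec_mulVec, Matrix.mul_assoc, hK, Matrix.mul_one]

end Pool.Agent.MP_d920b6_mp.Cx

end

section

/-! Coranks of the forms `PF x`; first-order partners. -/

namespace Pool.Agent.MP_d920b6_mp.Cx

open Matrix Module

variable {k : Type*} [Field k]

theorem cork_le (x : II → k) :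
    finrank k (LinearMap.ker (PFL x)) ≤ 46 + 2 * finrank k (kst (vp x)) := by
  let f := (LinearMap.funLeft k k (Sum.inl : IK → II)).domRestrict (LinearMap.ker (PFL x))
  have h₁ : finrank k (LinearMap.range f) + finrank k (LinearMap.ker f) =
      finrank k (LinearMap.ker (PFL x)) := f.finrank_range_add_finrank_ker
  have h₂ : finrank k (LinearMap.range f) ≤ finrank k (kst (vp x)) := Submodule.finrank_mono (by
    rintro _ ⟨⟨Z, hZ⟩, rfl⟩
    refine (mem_kst _ _).2 (eq_of_dotV fun φ => ?_)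
    have := LinearMap.congr_fun hZ (Sum.elim 0 φ)
    simp only [PFL_apply, PF, kp_elim, vp_elim, kbr_zero_right, act_zero_left, dotProduct_zero,
      LinearMap.zero_apply, zero_add, zero_sub, neg_eq_zero] at this
    rw [dotProduct_comm, zero_dotProduct]
    exact this)
  have h₃ : finrank k (LinearMap.ker f) ≤
      finrank k (LinearMap.ker (actMat (vp x))ᵀ.mulVecLin) := by
    refine LinearMap.finrank_le_finrank_of_injective (f := LinearMap.codRestrict _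
      ((LinearMap.funLeft k k (Sum.inr : IV → II)) ∘ₗ (LinearMap.ker (PFL x)).subtype ∘ₗ
        (LinearMap.ker f).subtype) ?_) ?_
    · rintro ⟨⟨Z, hZ⟩, h0⟩
      have h0 : kp Z = 0 := h0
      show (actMat (vp x))ᵀ *ᵥ vp Z = 0
      rw [mulVec_transpose]
      refine eq_of_dotK fun X => ?_
      have := LinearMap.congr_fun hZ (Sum.elim X 0)
      simp only [PFL_apply, PF, kp_elim, vp_elim, h0, kbr_zero_left, dotProduct_zero,
        zero_dotProduct, LinearMap.zero_apply, zero_add, sub_zero] at this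
      rw [zero_dotProduct]
      exact (coad_dot _ _ _).trans this
    · rintro ⟨⟨Z, hZ⟩, h0⟩ ⟨⟨Z', hZ'⟩, h0'⟩ e
      have h0 : kp Z = 0 := h0
      have h0' : kp Z' = 0 := h0'
      exact Subtype.ext (Subtype.ext (extI (h0.trans h0'.symm) (congrArg Subtype.val e)))
  have h₄ := (actMat (vp x))ᵀ.mulVecLin.finrank_range_add_finrank_ker
  have h₅ := (actMat (vp x)).mulVecLin.finrank_range_add_finrank_ker
  have h₆ : finrank k (LinearMap.range (actMat (vp x))ᵀ.mulVecLin) =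
      finrank k (LinearMap.range (actMat (vp x)).mulVecLin) := rank_transpose _
  rw [finrank_fintype_fun_eq_card, card_IV] at h₄
  rw [finrank_fintype_fun_eq_card, card_IK] at h₅
  unfold kst at *
  omega

theorem xcork_det (x : II → k) (hw : (wP (vp x)).det ≠ 0) :
    54 ≤ finrank k (LinearMap.ker (PFL x)) := by
  obtain ⟨S, h₁, h₂, h₃⟩ := exists_ab (vp x) hw
  let F : (S × (IV → k)) →ₗ[k] (II → k) :=
    (LinearEquiv.sumArrowLequivProdArrow IK IV k k).symm.toLinearMap ∘ₗ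
      S.subtype.prodMap LinearMap.id
  have hF : ∀ z, F z = Sum.elim z.1.1 z.2 := fun z => extI rfl rfl
  have inj : Function.Injective F := fun z z' e => by
    rw [hF, hF] at e
    exact Prod.ext (Subtype.ext (congrArg kp e)) (congrArg vp e)
  have := iso_le (PFL x) (PF_self x) (LinearMap.range F) (by
    rintro _ ⟨z, rfl⟩ _ ⟨z', rfl⟩
    simp only [hF, PFL_apply, PF, kp_elim, vp_elim, h₃ _ z.1.2 _ z'.1.2,
      (mem_kst _ _).1 (h₁ z.1.2), (mem_kst _ _).1 (h₁ z'.1.2), dotProduct_zero, add_zero,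
      sub_zero])
  rw [LinearMap.finrank_range_of_inj inj, finrank_prod, finrank_fintype_fun_eq_card,
    finrank_fintype_fun_eq_card, card_IV, card_II] at this
  omega

theorem xcork_fin (w : Mat k) : {t : k | (w + t • (1 : Mat k)).det = 0}.Finite := by
  refine (Polynomial.finite_setOfPred_isRoot (-w).charpoly_monic.ne_zero).subset fun t ht => ?_
  have e : scalar (Fin 4) t - -w = w + t • (1 : Mat k) := by
    rw [sub_neg_eq_add, add_comm, scalar_apply, smul_one_eq_diagonal]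
  show (-w).charpoly.eval t = 0
  rw [eval_charpoly, e]
  exact ht

theorem cork_ge [CharZero k] (x : II → k) : 54 ≤ finrank k (LinearMap.ker (PFL x)) := by
  obtain ⟨t, ht⟩ := ((ker_cofinite (PFL x) (PFL aI)).union (xcork_fin (wP (vp x)))).exists_notMem
  rw [Set.mem_union, not_or] at ht
  have e : PFL x + t • PFL aI = PFL (x + t • aI) := LinearMap.ext₂ fun Z Z' => by
    simp only [LinearMap.add_apply, LinearMap.smul_apply, PFL_apply, PF_add_pt, PF_smul_pt,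
      smul_eq_mul]
  refine (xcork_det (x + t • aI) ?_).trans (e ▸ not_lt.1 ht.1)
  rw [vp_add, vp_smul, vp_aI, wP_add, wP_smul, wP_aV]
  exact ht.2

theorem cork_aI [CharZero k] : finrank k (LinearMap.ker (PFL (aI : II → k))) = 54 := by
  have h₁ := cork_le (aI : II → k)
  have h₂ := finrank_kst_aV (k := k) two_ne_zero
  have h₃ := cork_ge (aI : II → k)
  rw [vp_aI] at h₁
  omega

theorem xcork_coad (v : IV → k) (f : Dual k (IK → k)) (h : ∀ X, act X v = 0 → f X = 0) :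
    ∃ φ, ∀ X, φ ⬝ᵥ act X v = f X := by
  have : f ∈ LinearMap.range (actMat v).mulVecLin.dualMap := by
    rw [LinearMap.range_dualMap_eq_dualAnnihilator_ker, Submodule.mem_dualAnnihilator]
    exact fun X hX => h X ((mem_kst _ _).1 hX)
  obtain ⟨g, rfl⟩ := this
  obtain ⟨φ, rfl⟩ := (dotProductEquiv k IV).surjective g
  exact ⟨φ, fun X => by rw [← actMat_mulVec]; rfl⟩

/-- a covector on `k` vanishing on `k_v` comes from `V*` -/
theorem exists_coad (v : IV → k) (ξ : IK → k) (h : ∀ X, act X v = 0 → ξ ⬝ᵥ X = 0) :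
    ∃ φ, coad φ v = ξ :=
  (xcork_coad v (dotProductEquiv k IK ξ) h).imp fun _ hφ =>
    eq_of_dotK fun X => (coad_dot _ _ _).trans (hφ X)

theorem exists_ker_lift (x : II → k) (ν : IK → k) (hν : act ν (vp x) = 0)
    (h : ∀ X, act X (vp x) = 0 → kbr ν X = 0) : ∃ φ, PFL x (Sum.elim ν φ) = 0 := by
  obtain ⟨φ, hφ⟩ := xcork_coad (vp x) (-(dotProductEquiv k IK (kp x) ∘ₗ kbrL ν)) fun X hX => by
    show -(kp x ⬝ᵥ kbr ν X) = 0
    rw [h X hX, dotProduct_zero, neg_zero]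
  refine ⟨φ, LinearMap.ext fun Z => ?_⟩
  have e : φ ⬝ᵥ act (kp Z) (vp x) = -(kp x ⬝ᵥ kbr ν (kp Z)) := hφ _
  simp only [PFL_apply, PF, kp_elim, vp_elim, hν, e, dotProduct_zero, add_neg_cancel, sub_zero,
    LinearMap.zero_apply]

variable [CharZero k] {v θ : IV → k} {κ y : Vec k} {ν : IK → k}

theorem xcork_inf (v : IV → k) : {t : k | 4 ≤ finrank k (LinearMap.ker
    ((actMat v).mulVecLin + t • (actMat (aV : IV → k)).mulVecLin))}.Infinite := by
  refine (xcork_fin (wP v)).infinite_compl.mono fun t ht => ?_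
  obtain ⟨S, h₁, h₂, -⟩ := exists_ab (v + t • aV) (by rw [wP_add, wP_smul, wP_aV]; exact ht)
  refine h₂.trans (Submodule.finrank_mono fun X hX => ?_)
  have := (mem_kst _ _).1 (h₁ hX)
  rw [act_add_right, act_smul_right, ← actMat_mulVec, ← actMat_mulVec] at this
  exact this

theorem five_le_kst (hθ : coad θ v = 0) (hν : act ν v = 0) (hθν : θ ⬝ᵥ act ν aV ≠ 0) :
    5 ≤ finrank k (kst v) :=
  ker_jump _ _ 4 (xcork_inf v) ((actMat_mulVec ν v).trans hν) (dotProductEquiv k IV θ)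
    (fun X => (dotProduct_mulVec θ _ X).trans (by rw [← coad, hθ, zero_dotProduct]))
    (by rwa [← actMat_mulVec] at hθν)

theorem Good.partner (h : Good ⊤ v κ y) (hθ : coad θ v = 0) (hν : act ν v = 0)
    (hθν : θ ⬝ᵥ act ν aV ≠ 0) {Z : IK → k} (hZ : act Z v = 0) (hθZ : θ ⬝ᵥ act Z aV = 0) :
    ∃ X, act Z aV = act X v := by
  obtain ⟨X, hX⟩ := exists_partner _ _ 4 (xcork_inf v) (h.finrank_kst two_ne_zero)
    ((actMat_mulVec ν v).trans hν) (dotProductEquiv k IV θ)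
    (fun X => (dotProduct_mulVec θ _ X).trans (by rw [← coad, hθ, zero_dotProduct]))
    (by rwa [← actMat_mulVec] at hθν) ((actMat_mulVec Z v).trans hZ)
    (by rwa [← actMat_mulVec] at hθZ)
  exact ⟨X, by rw [← actMat_mulVec, ← actMat_mulVec]; exact hX⟩

end Pool.Agent.MP_d920b6_mp.Cx

end

section

/-! Integral solutions over a valuation ring. -/

namespace Pool.Agent.MP_d920b6_mp.Cx

open Matrix Module

variable {K : Type*} [Field K] {O : ValuationSubring K}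

theorem xExist_ginv {m n : Type*} [Fintype m] [Fintype n] [DecidableEq m] [DecidableEq n]
    (M₀ : Matrix m n O) (M : Matrix m n K) (hM : M₀.map O.subtype = M)
    (h : M.rank ≤ (M₀.map (IsLocalRing.residue O)).rank) :
    ∃ N : Matrix n m K, (∀ i j, N i j ∈ O) ∧ M * N * M = M := by
  subst hM
  obtain ⟨N, hN⟩ := exists_ginv O.subtype Subtype.val_injective M₀ h
  refine ⟨N.map O.subtype, fun i j => (N i j).2, ?_⟩
  rw [← Matrix.map_mul, ← Matrix.map_mul, hN]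

theorem xExist_mul_val {a b : K} (ha : O.valuation a < 1) (hb : b ∈ O) :
    O.valuation (a * b) < 1 := by
  rw [map_mul]
  calc O.valuation a * O.valuation b ≤ O.valuation a * 1 :=
        mul_le_mul_right ((O.valuation_le_one_iff b).2 hb) _
    _ < 1 := by rwa [mul_one]

theorem xExist_sub_val {a b : K} (ha : O.valuation a < 1) (hb : O.valuation b < 1) :
    O.valuation (a - b) < 1 := O.valuation.map_sub_lt ha hb

theorem xExist_dot_mem {ι : Type*} [Fintype ι] {a b : ι → K} (ha : ∀ i, a i ∈ O)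
    (hb : ∀ i, b i ∈ O) : a ⬝ᵥ b ∈ O := dot_mem (S := O.toSubring) ha hb

theorem GoodW.exists_int {w : Mat K} {κ y : Vec K} (h : GoodW O.toSubring w κ y) (u : Mat K)
    (hu : ∀ a b i j, MM w u a b i j ∈ O) :
    ∃ c : K, (∀ i j, (u - c • w) i j ∈ O) ∧
      ((∀ a b i j, O.valuation (MM w u a b i j) < 1) →
        ∀ i j, O.valuation ((u - c • w) i j) < 1) := by
  let w₀ : Mat O := of fun i j => ⟨w i j, h.mw i j⟩
  have e1 : (MMat w₀).map O.subtype = MMat w := by rw [MMat_map]; rfl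
  have r1 : (MMat w).rank = 15 := h.top.rank_MMat
  have r2 : ((MMat w₀).map (IsLocalRing.residue O)).rank = 15 := by
    rw [MMat_map]
    exact (h.res (IsLocalRing.residue O)).rank_MMat
  obtain ⟨N, hN, hM⟩ := xExist_ginv (MMat w₀) (MMat w) e1 (by rw [r1, r2])
  let U : Fin 4 × Fin 4 → K := fun i => u i.1 i.2
  let r : Mat K := of fun i j => (U - N *ᵥ (MMat w *ᵥ U)) (i, j)
  have hr : MMat w *ᵥ (fun i : Fin 4 × Fin 4 => r i.1 i.2) = 0 := by
    have : (fun i : Fin 4 × Fin 4 => r i.1 i.2) = U - N *ᵥ (MMat w *ᵥ U) := rfl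
    rw [this, mulVec_sub, mulVec_mulVec, mulVec_mulVec, hM, sub_self]
  obtain ⟨c, hc⟩ := h.top.ker_MM (u := r) fun a b => by
    ext i j
    have := MMat_mulVec w r (a, b, i, j)
    rw [hr] at this
    exact this.symm
  have key : ∀ i j, (u - c • w) i j = (MMat w *ᵥ U) ⬝ᵥ N (i, j) := by
    intro i j
    rw [← hc, dotProduct_comm]
    change u i j - (u i j - (N *ᵥ (MMat w *ᵥ U)) (i, j)) = _
    rw [sub_sub_cancel]
    rfl
  have hU : ∀ j, (MMat w *ᵥ U) j = MM w u j.1 j.2.1 j.2.2.1 j.2.2.2 := MMat_mulVec w u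
  refine ⟨c, fun i j => ?_, fun hs i j => ?_⟩
  · rw [key]
    exact xExist_dot_mem (fun l => by rw [hU]; exact hu _ _ _ _) (hN _)
  · rw [key]
    exact dot_val (fun l => by rw [hU]; exact hs _ _ _ _) (hN _)

/-- the covector `X ↦ ξ ⬝ᵥ [Y, X]` -/
def xExist_co (ξ Y : IK → K) : IK → K := fun i => ξ ⬝ᵥ kbr Y (Pi.single i 1)

theorem xExist_co_dot (ξ Y X : IK → K) : xExist_co ξ Y ⬝ᵥ X = ξ ⬝ᵥ kbr Y X := by
  have : X = ∑ i, X i • (Pi.single i 1 : IK → K) := by
    ext j; simp [Finset.sum_apply, Pi.single_apply]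
  conv_rhs => rw [this, ← kbrL_apply, map_sum, dotProduct_sum]
  simp only [map_smul, kbrL_apply, dotProduct_smul, smul_eq_mul]
  simp only [dotProduct, xExist_co, mul_comm]

theorem xExist_single_mem (i j : IK) : (Pi.single i 1 : IK → K) j ∈ O := by
  rw [Pi.single_apply]
  split_ifs
  · exact O.one_mem
  · exact O.zero_mem

theorem xExist_co_mem {ξ Y : IK → K} (mξ : ∀ i, ξ i ∈ O) (mY : ∀ i, Y i ∈ O) (i : IK) :
    xExist_co ξ Y i ∈ O :=
  xExist_dot_mem mξ (kbr_mem (S := O.toSubring) mY (xExist_single_mem i))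

theorem xExist_co_val {ξ Y : IK → K} (mξ : ∀ i, ξ i ∈ O) (sY : ∀ i, O.valuation (Y i) < 1)
    (i : IK) : O.valuation (xExist_co ξ Y i) < 1 := by
  rw [xExist_co, dotProduct_comm]
  exact dot_val (kbr_val sY (xExist_single_mem i)) mξ

theorem xExist_rank {k : Type*} [Field k] (v : IV → k) :
    (actMat v).rank + finrank k (kst v) = 38 := by
  have := LinearMap.finrank_range_add_finrank_ker (actMat v).mulVecLin
  rw [finrank_fintype_fun_eq_card, card_IK] at this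
  exact this

theorem xExist_two [CharZero K] (h2 : (2 : K)⁻¹ ∈ O) : (2 : IsLocalRing.ResidueField O) ≠ 0 := by
  have e : (2 : O) * ⟨2⁻¹, h2⟩ = 1 := by
    apply Subtype.ext
    change (2 : K) * 2⁻¹ = 1
    exact mul_inv_cancel₀ two_ne_zero
  have e' := congrArg (IsLocalRing.residue O) e
  rw [map_mul, map_one, map_ofNat] at e'
  exact left_ne_zero_of_mul_eq_one e'

theorem xExist_N [CharZero K] (h2 : (2 : K)⁻¹ ∈ O) {v' : IV → K} {κ y : Vec K}
    (hG : Good O.toSubring v' κ y) (h5 : 5 ≤ finrank K (kst v')) :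
    ∃ N : Matrix IK IV K, (∀ i j, N i j ∈ O) ∧
      ∀ b : IK → K, (∀ X, act X v' = 0 → b ⬝ᵥ X = 0) → coad (b ᵥ* N) v' = b := by
  let v₀ : IV → O := fun i => ⟨v' i, hG.mv i⟩
  have e1 : (actMat v₀).map O.subtype = actMat v' := by rw [actMat_map]; rfl
  have r1 := xExist_rank v'
  have r2 := xExist_rank (IsLocalRing.residue O ∘ v₀)
  have r3 : finrank (IsLocalRing.ResidueField O) (kst (IsLocalRing.residue O ∘ v₀)) ≤ 5 :=
    (hG.res (IsLocalRing.residue O)).finrank_kst (xExist_two h2)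
  obtain ⟨N, hN, hM⟩ := xExist_ginv (actMat v₀) (actMat v') e1 (by rw [actMat_map]; omega)
  refine ⟨N, hN, fun b hb => ?_⟩
  obtain ⟨φ, rfl⟩ := exists_coad v' b hb
  rw [coad, coad, vecMul_vecMul, vecMul_vecMul, ← Matrix.mul_assoc, hM]

theorem xExist_kbr2 [CharZero K] {v' : IV → K} {κ y : Vec K} {Y Z X : IK → K}
    (hG : Good ⊤ v' κ y) (hY : InA κ Y) (hZ : act Z v' = 0) (hX : act Z aV = act X v') :
    kbr Y (kbr Y X) = 0 := by
  obtain ⟨⟨φ, hφ, hφκ⟩, hs, -⟩ := hG.inA two_ne_zero hZ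
  have e := congrArg (fun v => wP v *ᵥ κ) hX
  simp only [wP_act, wP_aV, hs, zero_smul, zero_sub, Matrix.one_mul, hφ, sub_mulVec, neg_mulVec,
    smul_mulVec, ← mulVec_mulVec, hG.gw.wκ, mulVec_zero, smul_zero, vecMulVec_mulVec, hφκ,
    MulOpposite.op_zero, neg_zero] at e
  exact hY.kbr₂ X _ (hG.gw.right_ker (neg_eq_zero.1 e.symm))

theorem Good.exists_sol [CharZero K] (h2 : (2 : K)⁻¹ ∈ O) {v' θ : IV → K} {κ y : Vec K}
    {ξ Y ν : IK → K} (hG : Good O.toSubring v' κ y) (mξ : ∀ i, ξ i ∈ O) (mY : ∀ i, Y i ∈ O)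
    (mθ : ∀ i, θ i ∈ O) (mν : ∀ i, ν i ∈ O) (hY : InA κ Y) (hθ : coad θ v' = 0)
    (hν : act ν v' = 0) (hθν : θ ⬝ᵥ act ν aV = 1) :
    ∃ φ₁ φ₂, Sol ξ Y v' φ₁ φ₂ ∧ (∀ i, φ₁ i ∈ O) ∧
      ((∀ i, O.valuation (Y i) < 1) → ∀ i, O.valuation (φ₁ i) < 1) := by
  have hθν' : θ ⬝ᵥ act ν aV ≠ 0 := by rw [hθν]; exact one_ne_zero
  obtain ⟨N, hN, hM⟩ := xExist_N h2 hG (five_le_kst hθ hν hθν')
  have hk : ∀ X, act X v' = 0 → kbr Y X = 0 := fun X hX =>
    hY.kbr_eq_zero (hG.top.inA two_ne_zero hX)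
  have ma : ∀ i, (aV : IV → K) i ∈ O := aV_mem (S := O.toSubring)
  have mνa : ∀ i, act ν aV i ∈ O := act_mem (S := O.toSubring) mν ma
  obtain ⟨b₃, hb₃⟩ : ∃ b₃ : IK → K, b₃ = (-(2 : K)⁻¹) • xExist_co (xExist_co ξ Y) Y := ⟨_, rfl⟩
  have d₃ : ∀ X, b₃ ⬝ᵥ X = -(2 : K)⁻¹ * (ξ ⬝ᵥ kbr Y (kbr Y X)) := fun X => by
    rw [hb₃, smul_dotProduct, xExist_co_dot, xExist_co_dot, smul_eq_mul]
  obtain ⟨φ₂, hφ₂⟩ : ∃ φ₂ : IV → K, φ₂ = b₃ ᵥ* N - ((b₃ ᵥ* N) ⬝ᵥ act ν aV) • θ := ⟨_, rfl⟩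
  have c₂ : coad φ₂ v' = b₃ := by
    rw [hφ₂, coad_sub_left, coad_smul_left, hθ, smul_zero, sub_zero]
    exact hM _ fun X hX => by rw [d₃, hk X hX, kbr_zero_right, dotProduct_zero, mul_zero]
  have n₂ : φ₂ ⬝ᵥ act ν aV = 0 := by
    rw [hφ₂, sub_dotProduct, smul_dotProduct, hθν, smul_eq_mul, mul_one, sub_self]
  obtain ⟨b₂, hb₂⟩ : ∃ b₂ : IK → K, b₂ = xExist_co ξ Y - coad φ₂ aV := ⟨_, rfl⟩
  have d₂ : ∀ X, b₂ ⬝ᵥ X = ξ ⬝ᵥ kbr Y X - φ₂ ⬝ᵥ act X aV := fun X => by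
    rw [hb₂, sub_dotProduct, xExist_co_dot, coad_dot]
  have c₁ : coad (b₂ ᵥ* N) v' = b₂ := hM _ fun Z hZ => by
    have z1 : act (Z - (θ ⬝ᵥ act Z aV) • ν) v' = 0 := by
      rw [act_sub_left, act_smul_left, hZ, hν, smul_zero, sub_zero]
    have z2 : θ ⬝ᵥ act (Z - (θ ⬝ᵥ act Z aV) • ν) aV = 0 := by
      rw [act_sub_left, act_smul_left, dotProduct_sub, dotProduct_smul, hθν, smul_eq_mul, mul_one,
        sub_self]
    obtain ⟨X, hX⟩ := hG.top.partner hθ hν hθν' z1 z2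
    have z3 : φ₂ ⬝ᵥ act (Z - (θ ⬝ᵥ act Z aV) • ν) aV = 0 := by
      rw [hX, ← coad_dot, c₂, d₃, xExist_kbr2 hG.top hY z1 hX, dotProduct_zero, mul_zero]
    rw [act_sub_left, act_smul_left, dotProduct_sub, dotProduct_smul, n₂, smul_zero,
      sub_zero] at z3
    rw [d₂, hk Z hZ, z3, dotProduct_zero, sub_zero]
  have m2 : -(2 : K)⁻¹ ∈ O := O.neg_mem _ h2
  refine ⟨b₂ ᵥ* N, φ₂, fun X => ⟨?_, ?_⟩, fun i => ?_, fun sY i => ?_⟩
  · rw [← coad_dot, c₁, d₂, sub_add_cancel]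
  · rw [← coad_dot, c₂, d₃, ← mul_assoc, mul_neg, mul_inv_cancel₀ two_ne_zero, neg_one_mul]
  · have m₃ : ∀ i, b₃ i ∈ O := fun i => by
      rw [hb₃]
      exact O.mul_mem _ _ m2 (xExist_co_mem (xExist_co_mem mξ mY) mY i)
    have m₃' : ∀ i, (b₃ ᵥ* N) i ∈ O := fun i => xExist_dot_mem m₃ fun j => hN j i
    have mφ : ∀ i, φ₂ i ∈ O := fun i => by
      rw [hφ₂]
      exact O.toSubring.sub_mem (m₃' i) (O.mul_mem _ _ (xExist_dot_mem m₃' mνa) (mθ i))
    have m₂ : ∀ i, b₂ i ∈ O := fun i => by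
      rw [hb₂]
      exact O.toSubring.sub_mem (xExist_co_mem mξ mY i) (coad_mem (S := O.toSubring) mφ ma i)
    exact xExist_dot_mem m₂ fun j => hN j i
  · have m₃ : ∀ i, O.valuation (b₃ i) < 1 := fun i => by
      rw [hb₃, Pi.smul_apply, smul_eq_mul, mul_comm]
      exact xExist_mul_val (xExist_co_val (xExist_co_mem mξ mY) sY i) m2
    have m₃' : ∀ i, O.valuation ((b₃ ᵥ* N) i) < 1 := fun i => dot_val m₃ fun j => hN j i
    have mφ : ∀ i, O.valuation (φ₂ i) < 1 := fun i => by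
      rw [hφ₂]
      exact xExist_sub_val (m₃' i) (xExist_mul_val (dot_val m₃' mνa) (mθ i))
    have m₂ : ∀ i, O.valuation (b₂ i) < 1 := fun i => by
      rw [hb₂]
      exact xExist_sub_val (xExist_co_val mξ sY i) (coad_val mφ ma i)
    exact dot_val m₂ fun j => hN j i

end Pool.Agent.MP_d920b6_mp.Cx

end

section

/-! Chains produced by derivations and by differences of solutions; invariance of a family. -/

namespace Pool.Agent.MP_d920b6_mp.Cx

open Matrix Module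

variable {K : Type} [Field K] [Algebra ℂ K] {ξ δ Y : IK → K} {v v' φ₁ φ₂ ψ₁ ψ₂ θ : IV → K}
  {κ y : Vec K}

theorem xstep_two (K : Type) [Field K] [Algebra ℂ K] : (2 : K) ≠ 0 :=
  have : CharZero K := Algebra.charZero_of_charZero ℂ K
  two_ne_zero

omit [Algebra ℂ K] in
theorem xstep_PF_zero (x Z : II → K) (φ : IV → K) :
    PF x (Sum.elim 0 φ) Z = φ ⬝ᵥ act (kp Z) (vp x) := by
  simp [PF]

theorem xstep_add {ι : Type} (D : Derivation ℂ K K) (a b : ι → K) :
    D ∘ (a + b) = D ∘ a + D ∘ b := funext fun i => map_add D (a i) (b i)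

theorem xstep_act (D : Derivation ℂ K K) (hv : D ∘ v = 0) (hκ : D ∘ κ = 0)
    (hY : InA κ Y) (hS : (2 : K) • act Y v + act Y (act Y aV) = 0) (hv' : v' = v + act Y aV) :
    act (D ∘ Y) v' = 0 ∧ D ∘ v' = act (D ∘ Y) aV := by
  have e0 : D ∘ act Y aV = act (D ∘ Y) aV := by rw [der_act, der_aV, act_zero_right, add_zero]
  have e1 := congrArg (D ∘ ·) hS
  have e2 := act_kbr Y (D ∘ Y) aV
  rw [hY.kbr_eq_zero (hY.der D hκ), act_zero_left, eq_comm, sub_eq_zero] at e2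
  have e3 : D ∘ (0 : IV → K) = 0 := funext fun _ => map_zero D
  simp only [two_smul, xstep_add, e3, hv, der_aV, der_act, act_zero_right,
    add_zero, e2] at e1
  refine ⟨smul_right_injective _ (xstep_two K) ?_, by rw [hv', xstep_add, hv, zero_add, e0]⟩
  simp only [hv', act_add_right, two_smul, add_zero]
  rw [← e1]
  abel

omit [Algebra ℂ K] in
theorem xstep_orth {W ι : Type} [AddCommGroup W] [Module K W] {B : LinearMap.BilinForm K W}
    {g : ι → W} {ζ : W} (h : ∀ i, B ζ (g i) = 0) :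
    ∀ z ∈ Submodule.span K (Set.range g), B ζ z = 0 :=
  fun _ hz => (Submodule.span_le.2 (Set.range_subset_iff.2 h) : _ ≤ LinearMap.ker (B ζ)) hz

omit [Algebra ℂ K] in
theorem xstep_iso {W ι : Type} [AddCommGroup W] [Module K W] {B : LinearMap.BilinForm K W}
    {g : ι → W} (h : ∀ i j, B (g i) (g j) = 0) :
    ∀ x ∈ Submodule.span K (Set.range g), ∀ z ∈ Submodule.span K (Set.range g), B x z = 0 :=
  fun x hx => xstep_orth fun j => xstep_orth (B := B.flip) (fun i => h i j) x hx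

theorem xstep_dim (F : Fam) (x : II → K) (hp : MvPolynomial.aeval x F.p ≠ 0) :
    finrank K (II → K) + finrank K (LinearMap.ker (PFL (aI : II → K))) ≤
      2 * finrank K (Submodule.span K (Set.range fun i => grad (F.f i) x)) := by
  have : CharZero K := Algebra.charZero_of_charZero ℂ K
  rw [cork_aI, finrank_span_eq_card (F.li K x hp), Fintype.card_fin,
    finrank_fintype_fun_eq_card, card_II]
  exact F.hm

omit [Algebra ℂ K] in
theorem Sol.add_smul (h : Sol ξ Y v' φ₁ φ₂) (h' : Sol δ Y v' ψ₁ ψ₂) (r : K) :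
    Sol (ξ + r • δ) Y v' (φ₁ + r • ψ₁) (φ₂ + r • ψ₂) := fun X => by
  have a := h X
  have b := h' X
  simp only [add_dotProduct, smul_dotProduct, smul_eq_mul]
  exact ⟨by linear_combination a.1 + r * b.1, by linear_combination a.2 + r * b.2⟩

omit [Algebra ℂ K] in
theorem Sol.add_theta (h : Sol ξ Y v' φ₁ φ₂) (hθ : coad θ v' = 0) (r : K) :
    Sol ξ Y v' (φ₁ + r • θ) φ₂ := fun X => by
  have a := h X
  have b : θ ⬝ᵥ act X v' = 0 := by rw [← coad_dot, hθ, zero_dotProduct]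
  simp only [add_dotProduct, smul_dotProduct, smul_eq_mul, b, mul_zero, add_zero]
  exact a

theorem Sol.chain_sub (h : Sol ξ Y v' φ₁ φ₂) (h' : Sol ξ Y v' ψ₁ ψ₂) (x : II → K)
    (hx : vp x = v') : Chain x (Sum.elim 0 (ψ₁ - φ₁)) := by
  refine ⟨Sum.elim 0 (ψ₂ - φ₂), 0, fun Z => ?_⟩
  have a := h (kp Z)
  have b := h' (kp Z)
  simp only [xstep_PF_zero, hx, vp_aI, sub_dotProduct, PF_zero_left, add_zero, and_true]
  refine ⟨by linear_combination b.1 - a.1, mul_left_cancel₀ (xstep_two K) ?_⟩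
  linear_combination b.2 - a.2

theorem step (D : Derivation ℂ K K) (hξ : D ∘ ξ = 0) (hv : D ∘ v = 0) (hκ : D ∘ κ = 0)
    (hY : InA κ Y) (hS : (2 : K) • act Y v + act Y (act Y aV) = 0) (hv' : v' = v + act Y aV)
    (h : Sol ξ Y v' φ₁ φ₂) :
    Chain (pt ξ v' φ₁) (Sum.elim (-(D ∘ Y)) (D ∘ φ₁)) ∧
      ∀ Z, PF aI (Sum.elim (-(D ∘ Y)) (D ∘ φ₁)) Z = (D ∘ pt ξ v' φ₁) ⬝ᵥ Z := by
  obtain ⟨a1, a2⟩ := xstep_act D hv hκ hY hS hv'
  have hD := hY.der D hκ
  have c0 : kbr (D ∘ Y) Y = 0 := hD.kbr_eq_zero hY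
  refine ⟨⟨Sum.elim 0 (D ∘ φ₂ + dact φ₁ (D ∘ Y)), Sum.elim 0 (dact φ₂ (D ∘ Y)), fun Z => ?_⟩,
    fun Z => ?_⟩
  · have s0 := h (D ∘ kp Z)
    have s1 := congrArg D (h (kp Z)).1
    have s2 := congrArg D (h (kp Z)).2
    have s3 := h (kbr (D ∘ Y) (kp Z))
    rw [two_mul] at s2
    simp only [map_add, map_neg, der_dot, der_act, der_kbr, der_aV, hξ, a2, zero_dotProduct,
      act_zero_right, add_zero, zero_add, dotProduct_add, kbr_add_right] at s1 s2
    rw [kbr_leibniz (D ∘ Y) Y, c0, kbr_zero_left, zero_add] at s2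
    rw [hY.kbr₃ hY hD, act_kbr, act_kbr, a1, act_zero_right, sub_zero, dotProduct_sub,
      dotProduct_zero, neg_zero] at s3
    simp only [xstep_PF_zero, vp_aI, vp_pt, add_dotProduct, dact_dot]
    refine ⟨?_, mul_left_cancel₀ (xstep_two K) ?_, mul_left_cancel₀ (xstep_two K) ?_⟩
    · simp only [PF, kp_elim, vp_elim, kp_pt, vp_pt, kbr_neg_left, act_neg_left, a1, neg_zero,
        dotProduct_zero, dotProduct_neg, add_dotProduct, coad_dot, act_kbr, dotProduct_sub]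
      linear_combination s1 - s0.1
    · linear_combination s2 - s0.2 + 2 * s3.1
    · linear_combination s3.2
  · have e : D ∘ (ξ + coad φ₁ aV) = coad (D ∘ φ₁) aV := by
      rw [xstep_add, hξ, zero_add, der_coad, der_aV]
      exact eq_of_dotK fun X => by
        rw [add_dotProduct, coad_dot (φ := φ₁), act_zero_right, dotProduct_zero, add_zero]
    rw [PF_aI, dotI, kp_comp, vp_comp, kp_pt, vp_pt, e, a2, coad_dot, kp_elim, vp_elim,
      act_neg_left, dotProduct_neg, sub_neg_eq_add, dotProduct_comm (vp Z)]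

theorem step_act (D : Derivation ℂ K K) (hv : D ∘ v = 0) (hκ : D ∘ κ = 0)
    (hY : InA κ Y) (hS : (2 : K) • act Y v + act Y (act Y aV) = 0) (hv' : v' = v + act Y aV) :
    act (D ∘ Y) v' = 0 ∧ D ∘ v' = act (D ∘ Y) aV := xstep_act D hv hκ hY hS hv'

/-- the derivative of a member of the family along a chain velocity -/
theorem Fam.inv_chain (F : Fam) (x : II → K) (hG : Good ⊤ (vp x) κ y) {ν : IK → K}
    (hθ : coad θ (vp x) = 0) (hν : act ν (vp x) = 0) (hθν : θ ⬝ᵥ act ν aV = 1) (t : K)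
    (hp : MvPolynomial.aeval (x + t • aI) F.p ≠ 0) {ζ d : II → K} (hc : Chain x ζ)
    (hd : ∀ Z, PF aI ζ Z = d ⬝ᵥ Z) (hdθ : θ ⬝ᵥ vp d = 0) {X : IK → K}
    (hX : act X (vp x) = vp d) (i : Fin F.m) :
    d ⬝ᵥ grad (F.f i) (x + t • aI) = (kp d ⬝ᵥ ν + kp x ⬝ᵥ kbr X ν) *
      (Sum.elim (coad θ aV) 0 ⬝ᵥ grad (F.f i) (x + t • aI)) := by
  have : CharZero K := Algebra.charZero_of_charZero ℂ K
  have h2 := xstep_two K
  obtain ⟨φ, hn⟩ := exists_ker_lift x ν hν fun X hX =>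
    (hG.inA h2 hν).kbr_eq_zero (hG.inA h2 hX)
  obtain ⟨ζ₂, ζ₃, hc⟩ := hc
  have hB : ∀ i j, PFL aI (grad (F.f i) (x + t • aI)) (grad (F.f j) (x + t • aI)) = 0 :=
    fun i j => (F.inv K _ i j).2
  have hA : ∀ i j, PFL x (grad (F.f i) (x + t • aI)) (grad (F.f j) (x + t • aI)) = 0 :=
    fun i j => by
      have e := (F.inv K (x + t • aI) i j).1
      rwa [PF_add_pt, PF_smul_pt, (F.inv K _ i j).2, mul_zero, add_zero] at e
  have t0 : ∀ Z, PF x (Sum.elim 0 θ) Z = 0 := fun Z => by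
    rw [xstep_PF_zero, ← coad_dot, hθ, zero_dotProduct]
  have t1 : PF aI (Sum.elim 0 θ) (Sum.elim ν φ) = 1 := by rw [xstep_PF_zero]; exact hθν
  have t2 : vp d ⬝ᵥ φ = kp x ⬝ᵥ kbr X ν := by
    have e : PF x (Sum.elim ν φ) (Sum.elim X 0) = 0 := LinearMap.congr_fun hn _
    simp only [PF, kp_elim, vp_elim, zero_dotProduct, sub_zero, hX] at e
    rw [kbr_skew, dotProduct_neg, dotProduct_comm φ] at e
    linear_combination e
  have k1 := cork_le x
  have k2 := hG.finrank_kst h2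
  have hm := chain_mem (PFL x) (PFL aI) (PF_self x) (PF_self aI) _ (xstep_iso hA) (xstep_iso hB)
    (xstep_dim F _ hp) (by rw [cork_aI]; omega) (θ := Sum.elim 0 θ) (LinearMap.ext t0) hn
    (by rw [PFL_apply, t1]; exact one_ne_zero)
    (ζ₁ := ζ - (kp d ⬝ᵥ ν + kp x ⬝ᵥ kbr X ν) • (Sum.elim 0 θ : II → K)) (ζ₂ := ζ₂) (ζ₃ := ζ₃)
    (LinearMap.ext fun Z => by
      rw [LinearMap.add_apply, PFL_apply, PFL_apply, PF_sub_left, PF_smul_left, t0, mul_zero,
        sub_zero]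
      exact (hc Z).1)
    (LinearMap.ext fun Z => (hc Z).2.1) (LinearMap.ext fun Z => (hc Z).2.2)
    (by rw [PFL_apply, PF_sub_left, PF_smul_left, PF_self, hd, dotI, kp_elim, vp_elim,
      dotProduct_zero, dotProduct_comm, hdθ, mul_zero, add_zero, sub_zero])
    (by rw [PFL_apply, PF_sub_left, PF_smul_left, t1, hd, dotI, kp_elim, vp_elim, t2, mul_one,
      sub_self])
  have e := xstep_iso hB _ hm _ (Submodule.subset_span ⟨i, rfl⟩)
  rw [PFL_apply, PF_sub_left, PF_smul_left, hd, xstep_PF_zero, vp_aI, ← coad_dot,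
    sub_eq_zero] at e
  rw [e, dotI, kp_elim, vp_elim, zero_dotProduct, add_zero]

theorem Fam.orth (F : Fam) (x : II → K) (hp : MvPolynomial.aeval x F.p ≠ 0) {ζ ζ' : II → K}
    (h : ∀ i, PF aI ζ (grad (F.f i) x) = 0) (h' : ∀ i, PF aI ζ' (grad (F.f i) x) = 0) :
    PF aI ζ ζ' = 0 := by
  have hB : ∀ i j, PFL aI (grad (F.f i) x) (grad (F.f j) x) = 0 := fun i j => (F.inv K x i j).2
  have k : ∀ i, PFL aI ζ (grad (F.f i) x) = 0 := h
  have k' : ∀ i, PFL aI ζ' (grad (F.f i) x) = 0 := h'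
  have hm := mem_of_orth (PFL (aI : II → K)) (PF_self aI) _ (xstep_iso hB) (xstep_dim F x hp)
    (xstep_orth k)
  rw [PF_skew, neg_eq_zero]
  exact xstep_orth k' _ hm

end Pool.Agent.MP_d920b6_mp.Cx

end

section

/-! The moved point over the function field and its regularity in every chart. -/

namespace Pool.Agent.MP_d920b6_mp.Cx

open Matrix

section aux
variable {R : Type*} [CommRing R]

theorem xmove_inv {w W : Mat R} {κ y y' : Vec R} (hw : w *ᵥ κ = 0) (hy : y ⬝ᵥ κ = 1)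
    (hy' : y' ⬝ᵥ κ = 1) (hW : W * (w + vecMulVec κ y) = 1) :
    (W * (1 + vecMulVec κ (y' - y' ᵥ* W))) *
      (w - vecMulVec κ (y' ᵥ* w) + vecMulVec κ y') = 1 := by
  have hA : (w + vecMulVec κ y) *ᵥ κ = κ := by
    rw [add_mulVec, hw, vecMulVec_mulVec, hy]; simp
  have hWκ : W *ᵥ κ = κ := by
    conv_lhs => rw [← hA]
    rw [mulVec_mulVec, hW, one_mulVec]
  have hχ : (y' - y' ᵥ* W) ⬝ᵥ κ = 0 := by
    rw [sub_dotProduct, ← dotProduct_mulVec, hWκ, sub_self]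
  have h1 : (y' - y' ᵥ* W) ᵥ* (w + vecMulVec κ y) = y' ᵥ* w + y - y' := by
    rw [sub_vecMul, vecMul_vecMul, hW, vecMul_one, vecMul_add, vecMul_vecMulVec, hy', one_smul]
  have h2 : (y' - y' ᵥ* W) ᵥ* w = y' ᵥ* w + y - y' := by
    rw [← h1, vecMul_add, vecMul_vecMulVec, hχ, zero_smul, add_zero]
  have h3 : (y' - y' ᵥ* W) ᵥ* (w - vecMulVec κ (y' ᵥ* w) + vecMulVec κ y') =
      y' ᵥ* w + y - y' := by
    rw [vecMul_add, vecMul_sub, vecMul_vecMulVec, vecMul_vecMulVec, hχ, zero_smul, zero_smul,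
      sub_zero, add_zero, h2]
  rw [Matrix.mul_assoc, Matrix.add_mul, Matrix.one_mul, vecMulVec_mul, h3, ← hW]
  congr 1
  ext i j
  simp only [Matrix.add_apply, Matrix.sub_apply, vecMulVec_apply, Pi.add_apply, Pi.sub_apply]
  ring

theorem xmove_sk_dot (σ : Mat R) (κ : Vec R) : (κ ᵥ* sk σ) ⬝ᵥ κ = 0 := by
  simp [sk, vecMul, dotProduct, Fin.sum_univ_four]
  ring

theorem xmove_tri (w : Mat R) (κ y Ψ : Vec R) :
    tri (bar (y ᵥ* w)) (bar (rowP (vlo y) (w - vecMulVec κ (y ᵥ* w)))) (bar Ψ) =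
      -tri (bar (rowP (vlo y) w)) (bar (rowM (vhi y) w)) (bar Ψ) := by
  simp [tri, bar, rowP, rowM, vlo, vhi, cross_apply, vecMul, dotProduct, Fin.sum_univ_four,
    Fin.sum_univ_three, vecMulVec_apply]
  ring

variable {S : Subring R}

theorem xmove_sk_mem {σ : Mat R} (h : ∀ i j, σ i j ∈ S) (i j : Fin 4) : sk σ i j ∈ S := by
  simp only [sk, of_apply]
  split_ifs
  · exact h i j
  · exact S.neg_mem (h j i)
  · exact S.zero_mem

theorem xmove_vmv_mem {a b : Vec R} (ha : ∀ i, a i ∈ S) (hb : ∀ i, b i ∈ S) (i j : Fin 4) :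
    vecMulVec a b i j ∈ S := S.mul_mem (ha i) (hb j)

theorem xmove_wedge_mem {a b : Vec R} (ha : ∀ i, a i ∈ S) (hb : ∀ i, b i ∈ S) (i j : Fin 4) :
    wedge a b i j ∈ S := S.sub_mem (xmove_vmv_mem ha hb i j) (xmove_vmv_mem hb ha i j)

theorem xmove_mul_mem {A B : Mat R} (hA : ∀ i j, A i j ∈ S) (hB : ∀ i j, B i j ∈ S)
    (i j : Fin 4) : (A * B) i j ∈ S := by
  rw [Matrix.mul_apply]
  exact S.sum_mem fun k _ => S.mul_mem (hA i k) (hB k j)

end aux

section val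
variable {K : Type*} [Field K] {O : ValuationSubring K}

theorem xmove_val_mul {a b : K} (ha : O.valuation a < 1) (hb : b ∈ O) :
    O.valuation (a * b) < 1 := by
  rw [map_mul]
  exact mul_lt_one_of_lt_of_le ha ((O.valuation_le_one_iff b).2 hb)

theorem xmove_val_mul' {a b : K} (ha : a ∈ O) (hb : O.valuation b < 1) :
    O.valuation (a * b) < 1 := by
  rw [mul_comm]; exact xmove_val_mul hb ha

theorem xmove_val_sub {a b : K} (ha : O.valuation a < 1) (hb : O.valuation b < 1) :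
    O.valuation (a - b) < 1 := O.valuation.map_sub_lt ha hb

theorem xmove_val_add {a b : K} (ha : O.valuation a < 1) (hb : O.valuation b < 1) :
    O.valuation (a + b) < 1 := O.valuation.map_add_lt ha hb

theorem xmove_wedge_val {a b : Vec K} (ha : ∀ i, O.valuation (a i) < 1) (hb : ∀ i, b i ∈ O)
    (i j : Fin 4) : O.valuation (wedge a b i j) < 1 :=
  xmove_val_sub (xmove_val_mul (ha i) (hb j)) (xmove_val_mul' (hb i) (ha j))

end val

variable {K : Type} [Field K] [Algebra ℂ K] {v : IV → ℂ} {κ y : Vec ℂ} {y' : Vec K}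
  {D E : Derivation ℂ K K}

/-- constants -/
abbrev cst (K : Type) [Field K] [Algebra ℂ K] {ι : Type} (a : ι → ℂ) : ι → K := algebraMap ℂ K ∘ a

/-- the gauge element over `K` -/
abbrev YK (v : IV → ℂ) (κ y : Vec ℂ) (y' : Vec K) (u : Mat K) : IK → K :=
  YY (cst K v) (cst K κ) (cst K y) y' u

/-- the moved point of `V` -/
abbrev vK (v : IV → ℂ) (κ y : Vec ℂ) (y' : Vec K) (u : Mat K) : IV → K :=
  cst K v + act (YK v κ y y' u) aV

/-- the properties of the `u` part of the gauge element -/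
structure UOK (v : IV → ℂ) (κ y : Vec ℂ) (y' z : Vec K) (u : Mat K) : Prop where
  uκ : u *ᵥ cst K κ = 0
  eq : ∀ a b, MM (wP (cst K v) - vecMulVec (cst K κ) (y' ᵥ* wP (cst K v))) u a b =
    wedge (y' ᵥ* wP (cst K v)) (cst K κ ᵥ* sk (sgP (cst K v) a b))
  mem : ∀ O : ValuationSubring K, Chart O y' z → ∀ i j, u i j ∈ O
  small : ∀ O : ValuationSubring K, Chart O y' z →
    (∀ i, O.valuation (y' i - cst K y i) < 1) → ∀ i j, O.valuation (u i j) < 1

theorem xmove_wκ (hB : Base v κ y) : wP (cst K v) *ᵥ cst K κ = 0 := by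
  ext i
  have := RingHom.map_mulVec (algebraMap ℂ K) (wP v) κ i
  rw [hB.wκ, Pi.zero_apply, map_zero] at this
  exact this.symm

theorem xmove_yw (hB : Base v κ y) : cst K y ᵥ* wP (cst K v) = 0 := by
  ext i
  have := RingHom.map_vecMul (algebraMap ℂ K) (wP v) y i
  rw [hB.yw, Pi.zero_apply, map_zero] at this
  exact this.symm

theorem xmove_dot (a b : Vec ℂ) : cst K a ⬝ᵥ cst K b = algebraMap ℂ K (a ⬝ᵥ b) :=
  (RingHom.map_dotProduct (algebraMap ℂ K) a b).symm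

theorem xmove_yκ (hB : Base v κ y) : cst K y ⬝ᵥ cst K κ = 1 := by
  rw [xmove_dot, hB.ok.yκ, map_one]

theorem xmove_κ0 (hB : Base v κ y) : cst K κ 0 = 1 := by
  simp [cst, hB.ok.κ0]

theorem xmove_W (hB : Base v κ y) : ∃ W : Mat ℂ, W.map (algebraMap ℂ K) *
    (wP (cst K v) + vecMulVec (cst K κ) (cst K y)) = 1 := by
  obtain ⟨W, hW⟩ := hB.inv
  refine ⟨W, ?_⟩
  have h := congrArg (fun M : Mat ℂ => M.map (algebraMap ℂ K)) hW
  simp only [Matrix.map_mul] at h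
  rw [Matrix.map_one _ (map_zero _) (map_one _)] at h
  rw [← h]
  congr 1
  ext i j
  simp [wP, vecMulVec_apply]

theorem xmove_φκ (hB : Base v κ y) (z : Vec K) : (z ᵥ* wP (cst K v)) ⬝ᵥ cst K κ = 0 := by
  rw [← dotProduct_mulVec, xmove_wκ hB, dotProduct_zero]

theorem xmove_φ_val (hB : Base v κ y) {z : Vec K} {O : ValuationSubring K} (hO : Chart O y' z)
    (h : ∀ i, O.valuation (y' i - cst K y i) < 1) (j : Fin 4) :
    O.valuation ((y' ᵥ* wP (cst K v)) j) < 1 := by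
  have e : y' ᵥ* wP (cst K v) = (y' - cst K y) ᵥ* wP (cst K v) := by
    rw [sub_vecMul, xmove_yw hB, sub_zero]
  rw [e]
  exact dot_val (a := y' - cst K y) h fun i => hO.hC _

theorem Base.goodW (hB : Base v κ y) (hy : y' ⬝ᵥ cst K κ = 1) {z : Vec K} {O : ValuationSubring K}
    (hO : Chart O y' z) :
    GoodW O.toSubring (wP (cst K v) - vecMulVec (cst K κ) (y' ᵥ* wP (cst K v))) (cst K κ) y' := by
  have mκ : ∀ i, cst K κ i ∈ O.toSubring := fun i => hO.hC _
  have mw : ∀ i j, wP (cst K v) i j ∈ O.toSubring := fun i j => hO.hC _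
  have my : ∀ i, y' i ∈ O.toSubring := hO.my
  obtain ⟨W, hW⟩ := xmove_W (K := K) hB
  have mW : ∀ i j, W.map (algebraMap ℂ K) i j ∈ O.toSubring := fun i j => hO.hC _
  refine ⟨fun i j => ?_, mκ, my, xmove_κ0 hB, ?_, ?_, hy, ⟨_, ?_, xmove_inv (xmove_wκ hB)
    (xmove_yκ hB) hy hW⟩, hO.ylo, hO.yhi⟩
  · exact O.toSubring.sub_mem (mw i j) (xmove_vmv_mem mκ (vecMul_mem mw my) i j)
  · rw [sub_mulVec, xmove_wκ hB, vecMulVec_mulVec, xmove_φκ hB]; simp
  · rw [vecMul_sub, vecMul_vecMulVec, hy, one_smul, sub_self]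
  · refine xmove_mul_mem mW fun i j => O.toSubring.add_mem ?_ (xmove_vmv_mem mκ
      (fun k => O.toSubring.sub_mem (my k) (vecMul_mem mW my k)) i j)
    rw [Matrix.one_apply]
    split_ifs
    · exact O.toSubring.one_mem
    · exact O.toSubring.zero_mem

theorem xmove_cc (p q : Fin 2 → K) :
    cc (cst K v) (cst K κ) p q = bq (fun i j => algebraMap ℂ K (cf v κ i j)) p q := by
  rw [cc_eq_bq]
  congr 1
  funext i j
  exact (map_cf (algebraMap ℂ K) v κ i j).symm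

theorem Base.exists_u (hB : Base v κ y) (hE : EC (cf v κ) κ y y' D E) :
    ∃ u, UOK v κ y y' (E ∘ y') u := by
  obtain ⟨O₀, hO₀, -⟩ := hE.base
  have hy : y' ⬝ᵥ cst K κ = 1 := hE.yκ
  obtain ⟨u₀, hu₀, he₀⟩ := (hB.goodW hy hO₀).top.exists_u (y' ᵥ* wP (cst K v)) (xmove_φκ hB y')
    (fun a b => cst K κ ᵥ* sk (sgP (cst K v) a b)) (fun a b => xmove_sk_dot _ _) (by
      rw [xmove_tri, neg_eq_zero]
      have := xmove_cc (K := K) (v := v) (κ := κ) (vlo y') (vhi y')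
      rw [hE.cy] at this
      exact this)
  obtain ⟨W, hW⟩ := xmove_W (K := K) hB
  set w' := wP (cst K v) - vecMulVec (cst K κ) (y' ᵥ* wP (cst K v)) with hw'
  have hW' := mul_eq_one_comm.1 hW
  let f : Vec K := fun j => algebraMap ℂ K (W j 1)
  let l : Mat K → K := fun u => u 1 ⬝ᵥ f - cst K κ 1 * (u 0 ⬝ᵥ f)
  have hl : ∀ (u : Mat K) (c : K), l (u - c • w') = l u - c := by
    intro u c
    have h1 := congrFun (congrFun hW' 1) 1
    have h0 := congrFun (congrFun hW' 0) 1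
    have hκ0 := xmove_κ0 (K := K) hB
    simp only [Matrix.mul_apply, Matrix.add_apply, vecMulVec_apply, Matrix.map_apply,
      Fin.sum_univ_four, hκ0, Matrix.one_apply] at h1 h0
    simp only [l, f, hw', dotProduct, Matrix.sub_apply, Matrix.smul_apply, vecMulVec_apply,
      Fin.sum_univ_four, hκ0, smul_eq_mul]
    simp only [if_true, show ((0 : Fin 4) = 1) = False from by decide, if_false] at h1 h0
    linear_combination (-c) * h1 + c * cst K κ 1 * h0
  have hwκ := (hB.goodW hy hO₀).wκ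
  have he : ∀ a b, MM w' (u₀ - l u₀ • w') a b =
      wedge (y' ᵥ* wP (cst K v)) (cst K κ ᵥ* sk (sgP (cst K v) a b)) := by
    intro a b
    rw [MM_sub_right, MM_smul_right, MM_self, smul_zero, sub_zero, he₀]
  have hl0 : l (u₀ - l u₀ • w') = 0 := by rw [hl, sub_self]
  have key : ∀ O : ValuationSubring K, Chart O y' (E ∘ y') →
      (∀ i j, (u₀ - l u₀ • w') i j ∈ O) ∧ ((∀ i, O.valuation (y' i - cst K y i) < 1) →
        ∀ i j, O.valuation ((u₀ - l u₀ • w') i j) < 1) := by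
    intro O hO
    have hG := hB.goodW hy hO
    have mψ : ∀ a b i, (cst K κ ᵥ* sk (sgP (cst K v) a b)) i ∈ O.toSubring := fun a b =>
      vecMul_mem (xmove_sk_mem fun i j => hO.hC _) hG.mκ
    have mφ : ∀ i, (y' ᵥ* wP (cst K v)) i ∈ O.toSubring :=
      vecMul_mem (fun i j => hO.hC _) hG.my
    have mf : ∀ i, f i ∈ O.toSubring := fun i => hO.hC _
    obtain ⟨c, hc, hc'⟩ := hG.exists_int (u₀ - l u₀ • w') fun a b i j => by
      rw [he]; exact xmove_wedge_mem mφ (mψ a b) i j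
    have hlc : l (u₀ - l u₀ • w' - c • w') = -c := by rw [hl, hl0, zero_sub]
    have e : ∀ i j, (u₀ - l u₀ • w') i j = (u₀ - l u₀ • w' - c • w') i j - (-c) * w' i j := by
      intro i j
      simp only [Matrix.sub_apply, Matrix.smul_apply, smul_eq_mul]; ring
    constructor
    · intro i j
      have : -c ∈ O.toSubring := by
        rw [← hlc]
        exact O.toSubring.sub_mem (dot_mem (hc 1) mf)
          (O.toSubring.mul_mem (hG.mκ 1) (dot_mem (hc 0) mf))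
      rw [e]
      exact O.toSubring.sub_mem (hc i j) (O.toSubring.mul_mem this (hG.mw i j))
    · intro h i j
      have hs := hc' fun a b i j => by
        rw [he]; exact xmove_wedge_val (xmove_φ_val hB hO h) (mψ a b) i j
      have : O.valuation (-c) < 1 := by
        rw [← hlc]
        exact xmove_val_sub (dot_val (hs 1) mf) (xmove_val_mul' (hG.mκ 1) (dot_val (hs 0) mf))
      rw [e]
      exact xmove_val_sub (hs i j) (xmove_val_mul this (hG.mw i j))
  refine ⟨u₀ - l u₀ • w', ?_, he, fun O hO => (key O hO).1, fun O hO => (key O hO).2⟩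
  rw [sub_mulVec, smul_mulVec, hu₀, hwκ, smul_zero, sub_zero]

variable {u : Mat K}

theorem xmove_YK_mem (hu : UOK v κ y y' (E ∘ y') u) {O : ValuationSubring K}
    (hO : Chart O y' (E ∘ y')) (i : IK) : YK v κ y y' u i ∈ O.toSubring := by
  have mκ : ∀ i, cst K κ i ∈ O.toSubring := fun i => hO.hC _
  have mτ : ∀ i, tauP (cst K v) i ∈ O.toSubring := fun i => hO.hC _
  refine mkK_mem (xmove_vmv_mem mκ (vecMul_mem (fun i j => hO.hC _) hO.my)) O.toSubring.zero_mem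
    O.toSubring.zero_mem (hu.mem O hO) (fun k => ?_) i
  exact O.toSubring.mul_mem (O.toSubring.sub_mem (dot_mem (fun i => hO.hC _) mτ)
    (dot_mem hO.my mτ)) (mκ k)

theorem Base.good (hB : Base v κ y) (hE : EC (cf v κ) κ y y' D E) (hu : UOK v κ y y' (E ∘ y') u)
    {O : ValuationSubring K} (hO : Chart O y' (E ∘ y')) :
    Good O.toSubring (vK v κ y y' u) (cst K κ) y' := by
  have hy : y' ⬝ᵥ cst K κ = 1 := hE.yκ
  have hw : wP (vK v κ y y' u) = wP (cst K v) - vecMulVec (cst K κ) (y' ᵥ* wP (cst K v)) :=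
    wP_move (xmove_wκ hB)
  have hG : GoodW O.toSubring (wP (vK v κ y y' u)) (cst K κ) y' := by
    rw [hw]; exact hB.goodW hy hO
  refine ⟨hG, fun i => O.toSubring.add_mem (hO.hC _) (act_mem (xmove_YK_mem hu hO) aV_mem i),
    ⟨algebraMap ℂ K (y ⬝ᵥ tauP v)⁻¹, hO.hC _, ?_⟩, ?_⟩
  · have e : y' ⬝ᵥ tauP (vK v κ y y' u) = algebraMap ℂ K (y ⬝ᵥ tauP v) := by
      rw [tauP_move, dotProduct_add, dotProduct_smul, hy, ← xmove_dot, smul_eq_mul, mul_one,
        add_sub_cancel]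
      rfl
    rw [e, ← map_mul, inv_mul_cancel₀ hB.x0, map_one]
  · obtain ⟨e₀, me₀, e₁, me₁, hlo⟩ := hO.ylo
    obtain ⟨e₂, me₂, e₃, me₃, hhi⟩ := hO.yhi
    obtain ⟨μ₁, m₁, μ₂, m₂, hμ⟩ := hO.smooth
    let z : Vec K := ![μ₂ * e₁, -(μ₂ * e₀), -(μ₁ * e₃), μ₁ * e₂]
    have mz : ∀ i, z i ∈ O.toSubring := by
      intro i
      fin_cases i
      · exact O.mul_mem _ _ m₂ me₁
      · exact O.neg_mem _ (O.mul_mem _ _ m₂ me₀)
      · exact O.neg_mem _ (O.mul_mem _ _ m₁ me₃)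
      · exact O.mul_mem _ _ m₁ me₂
    refine ⟨z ᵥ* wP (vK v κ y y' u), vecMul_mem hG.mw mz, ?_, ?_⟩
    · rw [← dotProduct_mulVec, hG.wκ, dotProduct_zero]
    · have hcc : ∀ p q, cc (vK v κ y y' u) (cst K κ) p q =
          bq (fun i j => algebraMap ℂ K (cf v κ i j)) p q := fun p q => by
        rw [← xmove_cc]
        exact cc_move (cst K v) _ _ _ u hu.uκ hw sgP_move (by rw [hw]; exact hu.eq) p q
      have h2 := two_Lam (vK v κ y y' u) (cst K κ) y' z hG.yw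
      simp only [hcc] at h2
      rw [hE.gradp, hE.gradq] at h2
      have : CharZero K := charZero_of_injective_algebraMap (algebraMap ℂ K).injective
      have : (2 : K) ≠ 0 := two_ne_zero
      apply mul_left_cancel₀ this
      rw [h2]
      simp only [z, vlo, vhi, Matrix.cons_val_zero, Matrix.cons_val_one, Matrix.cons_val]
      linear_combination (2 * μ₂ * Sp y' (E ∘ y')) * hlo - (2 * μ₁ * Sm y' (E ∘ y')) * hhi -
        2 * hμ

theorem Base.YK_mem (hu : UOK v κ y y' (E ∘ y') u) {O : ValuationSubring K}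
    (hO : Chart O y' (E ∘ y')) (i : IK) : YK v κ y y' u i ∈ O := xmove_YK_mem hu hO i

theorem Base.YK_small (hB : Base v κ y) (hu : UOK v κ y y' (E ∘ y') u) {O : ValuationSubring K}
    (hO : Chart O y' (E ∘ y')) (h : ∀ i, O.valuation (y' i - cst K y i) < 1) (i : IK) :
    O.valuation (YK v κ y y' u i) < 1 := by
  rcases i with ⟨i, j⟩ | i | i | ⟨i, j⟩ | i
  · exact xmove_val_mul' (hO.hC _) (xmove_φ_val hB hO h j)
  · change O.valuation 0 < 1
    simp
  · change O.valuation 0 < 1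
    simp
  · exact hu.small O hO h i j
  · change O.valuation ((cst K y ⬝ᵥ tauP (cst K v) - y' ⬝ᵥ tauP (cst K v)) * cst K κ i) < 1
    refine xmove_val_mul ?_ (hO.hC _)
    rw [← neg_sub, Valuation.map_neg, ← sub_dotProduct]
    exact dot_val (a := y' - cst K y) h fun i => hO.hC _

theorem xmove_der_cst (D : Derivation ℂ K K) {ι : Type} (a : ι → ℂ) : D ∘ cst K a = 0 := by
  ext i
  exact D.map_algebraMap (a i)

/-- an integral element of the stabiliser in the direction of `E y'` -/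
theorem xmove_nu (hB : Base v κ y) (hE : EC (cf v κ) κ y y' D E)
    (hu : UOK v κ y y' (E ∘ y') u) {O : ValuationSubring K} (hO : Chart O y' (E ∘ y')) :
    ∃ (ν : IK → K) (z : Vec K) (c₁ c₂ : K), (∀ i, ν i ∈ O) ∧ act ν (vK v κ y y' u) = 0 ∧
      sP ν = 0 ∧ hat (gP ν) = vecMulVec (cst K κ) (z ᵥ* wP (vK v κ y y' u)) ∧
      z = E ∘ y' - ![c₁ * y' 0, c₁ * y' 1, c₂ * y' 2, c₂ * y' 3] := by
  have hy : y' ⬝ᵥ cst K κ = 1 := hE.yκ
  have hG := hB.good hE hu hO
  obtain ⟨e₀, me₀, e₁, me₁, hlo⟩ := hO.ylo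
  obtain ⟨e₂, me₂, e₃, me₃, hhi⟩ := hO.yhi
  obtain ⟨d₁, d₂, hd, h₀, h₁, h₂, h₃⟩ := hE.Dy
  have hd' : d₁ - d₂ ≠ 0 := sub_ne_zero.2 hd
  obtain ⟨c₁, hc₁⟩ : ∃ c, c = E (y' 0) * e₀ + E (y' 1) * e₁ := ⟨_, rfl⟩
  obtain ⟨c₂, hc₂⟩ : ∃ c, c = E (y' 2) * e₂ + E (y' 3) * e₃ := ⟨_, rfl⟩
  obtain ⟨cD, hcD⟩ : ∃ c, c * (d₁ - d₂) = c₂ - c₁ := ⟨(c₂ - c₁) / (d₁ - d₂), by field_simp⟩
  obtain ⟨z, hz⟩ : ∃ z : Vec K, z = E ∘ y' - ![c₁ * y' 0, c₁ * y' 1, c₂ * y' 2, c₂ * y' 3] :=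
    ⟨_, rfl⟩
  have mz : ∀ i, z i ∈ O.toSubring := by
    intro i
    have mS := hO.mSm
    have mS' := hO.mSp
    fin_cases i
    · have : z 0 = -(Sm y' (E ∘ y') * e₁) := by
        simp only [hz, Sm, hc₁, Pi.sub_apply, Function.comp_apply, Matrix.cons_val_zero]
        linear_combination (-E (y' 0)) * hlo
      change z 0 ∈ O
      rw [this]; exact O.neg_mem _ (O.mul_mem _ _ mS me₁)
    · have : z 1 = Sm y' (E ∘ y') * e₀ := by
        simp only [hz, Sm, hc₁, Pi.sub_apply, Function.comp_apply, Matrix.cons_val_one,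
          Matrix.cons_val_zero]
        linear_combination (-E (y' 1)) * hlo
      change z 1 ∈ O
      rw [this]; exact O.mul_mem _ _ mS me₀
    · have : z 2 = Sp y' (E ∘ y') * e₃ := by
        simp only [hz, Sp, hc₂, Pi.sub_apply, Function.comp_apply, Matrix.cons_val]
        linear_combination (-E (y' 2)) * hhi
      change z 2 ∈ O
      rw [this]; exact O.mul_mem _ _ mS' me₃
    · have : z 3 = -(Sp y' (E ∘ y') * e₂) := by
        simp only [hz, Sp, hc₂, Pi.sub_apply, Function.comp_apply, Matrix.cons_val]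
        linear_combination (-E (y' 3)) * hhi
      change z 3 ∈ O
      rw [this]; exact O.neg_mem _ (O.mul_mem _ _ mS' me₂)
  have hzc : E ∘ y' + cD • (D ∘ y') = z + (c₁ + cD * d₁) • y' := by
    ext i
    fin_cases i
    · simp [hz, h₀, vecHead]; ring
    · simp [hz, h₁, vecHead, vecTail]; ring
    · simp [hz, h₂, vecHead, vecTail]; linear_combination (-y' 2) * hcD
    · simp [hz, h₃, vecHead, vecTail]; linear_combination (-y' 3) * hcD
  have hA := inA_YY (y := cst K y) (y' := y') (xmove_wκ hB) hu.uκ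
  have hS := step_eq (y := cst K y) (xmove_wκ hB) hu.uκ hu.eq
  have aE := (step_act E (xmove_der_cst E v) (xmove_der_cst E κ) hA hS rfl).1
  have aD := (step_act D (xmove_der_cst D v) (xmove_der_cst D κ) hA hS rfl).1
  obtain ⟨gE, -⟩ := der_YY E (u := u) (xmove_der_cst E v) (xmove_der_cst E κ)
    (xmove_der_cst E y) (xmove_wκ hB) hy rfl
  obtain ⟨gD, -⟩ := der_YY D (u := u) (xmove_der_cst D v) (xmove_der_cst D κ)
    (xmove_der_cst D y) (xmove_wκ hB) hy rfl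
  obtain ⟨Z, hZ⟩ : ∃ Z, Z = E ∘ YK v κ y y' u + cD • (D ∘ YK v κ y y' u) := ⟨_, rfl⟩
  have aZ : act Z (vK v κ y y' u) = 0 := by
    rw [hZ, act_add_left, act_smul_left, aE, aD, smul_zero, add_zero]
  have gZ : hat (gP Z) = vecMulVec (cst K κ) (z ᵥ* wP (vK v κ y y' u)) := by
    have e : z ᵥ* wP (vK v κ y y' u) = (E ∘ y') ᵥ* wP (vK v κ y y' u) +
        cD • ((D ∘ y') ᵥ* wP (vK v κ y y' u)) := by
      rw [← smul_vecMul, ← add_vecMul, hzc, add_vecMul, smul_vecMul, hG.gw.yw, smul_zero, add_zero]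
    rw [hZ, gP_add, gP_smul, hat_add, hat_smul, gE, gD, e, vecMulVec_add, vecMulVec_smul]
  have hσ : ∀ a b, MM (wP (vK v κ y y' u)) (uP Z) a b =
      wedge (z ᵥ* wP (vK v κ y y' u)) (cst K κ ᵥ* sk (sgP (vK v κ y y' u) a b)) := by
    intro a b
    have := sgP_act Z (vK v κ y y' u) a b
    rw [aZ, gZ, sk_vecMulVec] at this
    exact sub_eq_zero.1 this.symm
  have mzw : ∀ i, (z ᵥ* wP (vK v κ y y' u)) i ∈ O.toSubring := vecMul_mem hG.gw.mw mz
  obtain ⟨c, hc, -⟩ := hG.gw.exists_int (uP Z) fun a b i j => by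
    rw [hσ]
    exact xmove_wedge_mem mzw (vecMul_mem (xmove_sk_mem fun i j => hG.mv _) hG.gw.mκ) i j
  have hh : hat (vecMulVec (cst K κ) (z ᵥ* wP (vK v κ y y' u))) =
      vecMulVec (cst K κ) (z ᵥ* wP (vK v κ y y' u)) :=
    hat_vecMulVec _ _ (by rw [← dotProduct_mulVec, hG.gw.wκ, dotProduct_zero])
  refine ⟨mkK (vecMulVec (cst K κ) (z ᵥ* wP (vK v κ y y' u))) 0 0
    (uP Z - c • wP (vK v κ y y' u)) 0, z, c₁, c₂,
    mkK_mem (S := O.toSubring) (xmove_vmv_mem hG.gw.mκ mzw) O.zero_mem O.zero_mem hc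
      (fun _ => O.zero_mem), ?_, rfl, hh, hz⟩
  refine extV ?_ (fun a b => ?_) ?_
  · rw [wP_act, gP_mkK, sP_mkK, hh, mul_vecMulVec, hG.gw.wκ]; simp
  · rw [sgP_act, gP_mkK, uP_mkK, hh, sk_vecMulVec, MM_sub_right, MM_smul_right, MM_self, hσ]
    simp
  · rw [tauP_act]; simp

/-- an integral fibre direction and an integral solution in every chart -/
theorem Base.chart_sol (hB : Base v κ y) (hE : EC (cf v κ) κ y y' D E)
    (hu : UOK v κ y y' (E ∘ y') u) (ξ : IK → ℂ) {O : ValuationSubring K}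
    (hO : Chart O y' (E ∘ y')) :
    ∃ (m : Vec K) (φ₁ φ₂ : IV → K), (∀ i, m i ∈ O) ∧
      y' 0 * (wP (vK v κ y y' u) *ᵥ m) 0 + y' 1 * (wP (vK v κ y y' u) *ᵥ m) 1 = 0 ∧
      (E ∘ y') ⬝ᵥ (wP (vK v κ y y' u) *ᵥ m) = -1 ∧
      Sol (cst K ξ) (YK v κ y y' u) (vK v κ y y' u) φ₁ φ₂ ∧ (∀ i, φ₁ i ∈ O) ∧
      ((∀ i, O.valuation (y' i - cst K y i) < 1) → ∀ i, O.valuation (φ₁ i) < 1) := by
  have hy : y' ⬝ᵥ cst K κ = 1 := hE.yκ
  have hG := hB.good hE hu hO
  obtain ⟨ν, z, c₁, c₂, mν, aν, sν, gν, hz⟩ := xmove_nu hB hE hu hO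
  obtain ⟨μ₁, m₁, μ₂, m₂, hμ⟩ := hO.smooth
  obtain ⟨W, mW, hW⟩ := hG.gw.inv
  obtain ⟨ω, hω⟩ : ∃ ω : Vec K,
      ω = ![-(μ₁ * y' 1), μ₁ * y' 0, -(μ₂ * y' 3), μ₂ * y' 2] := ⟨_, rfl⟩
  have mω : ∀ i, ω i ∈ O.toSubring := by
    intro i
    rw [hω]
    fin_cases i
    · exact O.neg_mem _ (O.mul_mem _ _ m₁ (hO.my 1))
    · exact O.mul_mem _ _ m₁ (hO.my 0)
    · exact O.neg_mem _ (O.mul_mem _ _ m₂ (hO.my 3))
    · exact O.mul_mem _ _ m₂ (hO.my 2)
  have yω : y' ⬝ᵥ ω = 0 := by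
    simp [hω, dotProduct, Fin.sum_univ_four]; ring
  have hm : wP (vK v κ y y' u) *ᵥ (W *ᵥ ω) = ω := by
    have h1 : (wP (vK v κ y y' u) + vecMulVec (cst K κ) y') *ᵥ (W *ᵥ ω) = ω := by
      rw [mulVec_mulVec, mul_eq_one_comm.1 hW, one_mulVec]
    have h2 : y' ⬝ᵥ (W *ᵥ ω) = 0 := by
      have := congrArg (y' ⬝ᵥ ·) h1
      simp only [dotProduct_mulVec y' (wP (vK v κ y y' u) + _)] at this
      rwa [vecMul_add, hG.gw.yw, vecMul_vecMulVec, hy, one_smul, zero_add, yω] at this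
    rw [add_mulVec, vecMulVec_mulVec, h2] at h1
    simpa using h1
  have hlo : y' 0 * (wP (vK v κ y y' u) *ᵥ (W *ᵥ ω)) 0 +
      y' 1 * (wP (vK v κ y y' u) *ᵥ (W *ᵥ ω)) 1 = 0 := by
    rw [hm]; simp [hω]; ring
  have hE1 : (E ∘ y') ⬝ᵥ ω = -1 := by
    simp only [Sm, Sp] at hμ
    simp only [hω, dotProduct, Fin.sum_univ_four, Matrix.cons_val_zero, Matrix.cons_val_one,
      Matrix.cons_val]
    linear_combination hμ
  have hθν : th y' (W *ᵥ ω) ⬝ᵥ act ν aV = 1 := by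
    rw [th_act hy sν gν, ← dotProduct_mulVec, hm, hz, sub_dotProduct, hE1]
    simp [hω, dotProduct, Fin.sum_univ_four]; ring
  have : CharZero K := charZero_of_injective_algebraMap (algebraMap ℂ K).injective
  have h2 : (2 : K)⁻¹ ∈ O := by
    have := hO.hC 2⁻¹
    rwa [map_inv₀, map_ofNat] at this
  obtain ⟨φ₁, φ₂, hs, mφ, hφ⟩ := hG.exists_sol h2 (ξ := cst K ξ) (fun i => hO.hC _)
    (Base.YK_mem hu hO) (th_mem (S := O.toSubring) hO.my (mulVec_mem mW mω)) mν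
    (inA_YY (xmove_wκ hB) hu.uκ) (coad_th hG.gw.yw hlo) aν hθν
  exact ⟨W *ᵥ ω, φ₁, φ₂, mulVec_mem (S := O.toSubring) mW mω, hlo, by rw [hm, hE1], hs, mφ,
    fun h => hφ (hB.YK_small hu hO h)⟩

end Pool.Agent.MP_d920b6_mp.Cx

end

section

/-! The restriction of a member of the family to the solutions is a polynomial in one variable. -/

namespace Pool.Agent.MP_d920b6_mp.Cx

open Matrix Module Polynomial

variable {K : Type} [Field K] [Algebra ℂ K]

theorem xFF_lineP_C (c : ℂ) (x d : II → K) :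
    lineP (MvPolynomial.C c) x d = C (algebraMap ℂ K c) := by
  simp [lineP]

theorem xFF_lineP_add (g g' : MvPolynomial II ℂ) (x d : II → K) :
    lineP (g + g') x d = lineP g x d + lineP g' x d := by
  simp [lineP]

theorem xFF_lineP_mul (g : MvPolynomial II ℂ) (i : II) (x d : II → K) :
    lineP (g * MvPolynomial.X i) x d = lineP g x d * (C (x i) + X * C (d i)) := by
  simp [lineP]

theorem xFF_grad_C (c : ℂ) (z : II → K) : grad (MvPolynomial.C c) z = 0 := by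
  funext j; simp [grad]

theorem xFF_grad_add (g g' : MvPolynomial II ℂ) (z : II → K) :
    grad (g + g') z = grad g z + grad g' z := by
  funext j; simp [grad]

theorem xFF_grad_mul (g : MvPolynomial II ℂ) (i : II) (z : II → K) :
    grad (g * MvPolynomial.X i) z =
      z i • grad g z + MvPolynomial.aeval z g • (Pi.single i 1 : II → K) := by
  funext j
  simp only [grad, Derivation.leibniz, MvPolynomial.pderiv_X, smul_eq_mul, map_add, map_mul,
    MvPolynomial.aeval_X, Pi.add_apply, Pi.smul_apply]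
  by_cases hij : i = j
  · subst hij; simp [add_comm]
  · simp [hij, Ne.symm hij]

theorem xFF_inf : Infinite K := Infinite.of_injective _ (algebraMap ℂ K).injective

theorem xFF_char : CharZero K := charZero_of_injective_algebraMap (algebraMap ℂ K).injective

theorem eval_lineP (g : MvPolynomial II ℂ) (x d : II → K) (s : K) :
    (lineP g x d).eval s = MvPolynomial.aeval (x + s • d) g := by
  induction g using MvPolynomial.induction_on with
  | C c => simp [xFF_lineP_C]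
  | add g g' h h' => rw [xFF_lineP_add, eval_add, h, h', map_add]
  | mul_X g i h => rw [xFF_lineP_mul, eval_mul, h, map_mul]; simp [mul_comm s]

theorem eval_derivative_lineP (g : MvPolynomial II ℂ) (x d : II → K) (s : K) :
    (derivative (lineP g x d)).eval s = d ⬝ᵥ grad g (x + s • d) := by
  induction g using MvPolynomial.induction_on with
  | C c => simp [xFF_lineP_C, xFF_grad_C]
  | add g g' h h' =>
    rw [xFF_lineP_add, derivative_add, eval_add, h, h', xFF_grad_add, dotProduct_add]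
  | mul_X g i h =>
    rw [xFF_lineP_mul, derivative_mul, eval_add, eval_mul, eval_mul, h, eval_lineP, xFF_grad_mul,
      dotProduct_add, dotProduct_smul, dotProduct_smul, dotProduct_single]
    simp only [derivative_add, derivative_C, derivative_mul, derivative_X, eval_add, eval_mul,
      eval_C, eval_X, eval_zero, eval_one, Pi.add_apply, Pi.smul_apply, smul_eq_mul]
    ring

theorem coeff_lineP_mem {S : Subring K} (hC : ∀ c : ℂ, algebraMap ℂ K c ∈ S)
    (g : MvPolynomial II ℂ) {x d : II → K} (hx : ∀ i, x i ∈ S) (hd : ∀ i, d i ∈ S) (n : ℕ) :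
    (lineP g x d).coeff n ∈ S := by
  induction g using MvPolynomial.induction_on generalizing n with
  | C c =>
    rw [xFF_lineP_C, coeff_C]
    split_ifs
    · exact hC c
    · exact S.zero_mem
  | add g g' h h' => rw [xFF_lineP_add, coeff_add]; exact S.add_mem (h n) (h' n)
  | mul_X g i h =>
    rw [xFF_lineP_mul, mul_add, coeff_add, coeff_mul_C, ← mul_assoc, coeff_mul_C]
    refine S.add_mem (S.mul_mem (h n) (hx i)) (S.mul_mem ?_ (hd i))
    cases n with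
    | zero => rw [mul_coeff_zero, coeff_X_zero, mul_zero]; exact S.zero_mem
    | succ n => rw [coeff_mul_X]; exact h n

theorem der_aeval (D : Derivation ℂ K K) (g : MvPolynomial II ℂ) (x : II → K) :
    D (MvPolynomial.aeval x g) = (D ∘ x) ⬝ᵥ grad g x := by
  induction g using MvPolynomial.induction_on with
  | C c => simp [xFF_grad_C]
  | add g g' h h' => rw [map_add, map_add, h, h', xFF_grad_add, dotProduct_add]
  | mul_X g i h =>
    rw [map_mul, Derivation.leibniz, h, xFF_grad_mul, dotProduct_add, dotProduct_smul,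
      dotProduct_smul, dotProduct_single]
    simp [add_comm]

theorem line_finite (g : MvPolynomial II ℂ) (x d : II → K) (h : MvPolynomial.aeval x g ≠ 0) :
    {s : K | MvPolynomial.aeval (x + s • d) g = 0}.Finite := by
  have h0 : lineP g x d ≠ 0 := by
    intro h0
    have := eval_lineP g x d 0
    rw [h0, zero_smul, add_zero, eval_zero] at this
    exact h this.symm
  refine (finite_setOfPred_isRoot h0).subset fun s hs => ?_
  simp only [Set.mem_ofPred_eq, IsRoot.def, eval_lineP] at hs ⊢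
  exact hs

/-- a polynomial vanishing off a finite set is zero -/
theorem xFF_zero_of_cof (Q : K[X]) {B : Set K} (hB : B.Finite) (h : ∀ s ∉ B, Q.eval s = 0) :
    Q = 0 := by
  have := xFF_inf (K := K)
  exact eq_zero_of_infinite_isRoot Q (hB.infinite_compl.mono fun s hs => h s hs)

/-- the coefficientwise derivative -/
theorem xFF_exists_cw (D : Derivation ℂ K K) (P : K[X]) :
    ∃ Q : K[X], (∀ n, Q.coeff n = D (P.coeff n)) ∧
      ∀ z, D (P.eval z) = Q.eval z + (derivative P).eval z * D z := by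
  induction P using Polynomial.induction_on' with
  | add P P' h h' =>
    obtain ⟨Q, h1, h2⟩ := h
    obtain ⟨Q', h1', h2'⟩ := h'
    refine ⟨Q + Q', fun n => by rw [coeff_add, coeff_add, map_add, h1, h1'], fun z => ?_⟩
    rw [eval_add, map_add, h2, h2', derivative_add, eval_add, eval_add]; ring
  | monomial n a =>
    refine ⟨monomial n (D a), fun m => ?_, fun z => ?_⟩
    · rw [coeff_monomial, coeff_monomial]
      split_ifs
      · rfl
      · rw [map_zero]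
    · rw [eval_monomial, eval_monomial, derivative_monomial, eval_monomial, Derivation.leibniz,
        Derivation.leibniz_pow]
      simp only [smul_eq_mul, nsmul_eq_mul]
      ring

variable {ξ Y ν : IK → K} {v v' φ₁ φ₂ θ : IV → K} {κ y : Vec K}

omit [Algebra ℂ K] in
theorem xFF_pt_add (s τ : K) :
    pt ξ v' (φ₁ + s • θ) + τ • aI =
      (pt ξ v' φ₁ + τ • aI) + s • (Sum.elim (coad θ aV) 0 : II → K) := by
  refine extI ?_ ?_
  · simp only [kp_add, kp_pt, kp_smul, kp_elim, coad_add_left, coad_smul_left]; abel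
  · simp only [vp_add, vp_pt, vp_smul, vp_elim, smul_zero, add_zero]

omit [Algebra ℂ K] in
theorem xFF_val_add (hθν : θ ⬝ᵥ act ν aV = 1) (s : K) :
    (ξ + coad (φ₁ + s • θ) aV) ⬝ᵥ ν = (ξ + coad φ₁ aV) ⬝ᵥ ν + s := by
  rw [coad_add_left, coad_smul_left, ← add_assoc, add_dotProduct _ (s • _), smul_dotProduct,
    coad_dot ν aV θ, hθν, smul_eq_mul, mul_one]

/-- two solutions with the same value give the same value of a member of the family -/
theorem xFF_same (F : Fam) (hG : Good ⊤ v' κ y) (hθ : coad θ v' = 0) (hν : act ν v' = 0)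
    (hθν : θ ⬝ᵥ act ν aV = 1) (h : Sol ξ Y v' φ₁ φ₂) {ψ₁ ψ₂ : IV → K} (h' : Sol ξ Y v' ψ₁ ψ₂)
    (hT : (ξ + coad ψ₁ aV) ⬝ᵥ ν = (ξ + coad φ₁ aV) ⬝ᵥ ν) (τ : K)
    (hp : MvPolynomial.aeval (pt ξ v' φ₁ + τ • aI) F.p ≠ 0) (i : Fin F.m) :
    MvPolynomial.aeval (pt ξ v' ψ₁ + τ • aI) (F.f i) =
      MvPolynomial.aeval (pt ξ v' φ₁ + τ • aI) (F.f i) := by
  have := xFF_char (K := K)
  set d : II → K := Sum.elim (coad (ψ₁ - φ₁) aV) 0 with hd
  have hdν : kp d ⬝ᵥ ν = 0 := by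
    rw [add_dotProduct, add_dotProduct, add_right_inj] at hT
    rw [hd, kp_elim, coad_sub_left, sub_dotProduct, hT, sub_self]
  have hder : derivative (lineP (F.f i) (pt ξ v' φ₁ + τ • aI) d) = 0 := by
    refine xFF_zero_of_cof _ (line_finite F.p _ d hp) fun u hu => ?_
    have e : pt ξ v' φ₁ + τ • aI + u • d = (pt ξ v' φ₁ + u • d) + τ • aI := by abel
    have hvp : vp (pt ξ v' φ₁ + u • d) = v' := by
      rw [vp_add, vp_smul, hd, vp_elim, vp_pt, smul_zero, add_zero]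
    simp only [Set.mem_ofPred_eq] at hu
    rw [eval_derivative_lineP]
    rw [e] at hu ⊢
    have key := F.inv_chain (κ := κ) (y := y) (θ := θ) (pt ξ v' φ₁ + u • d) (by rwa [hvp])
      (ν := ν) (by rwa [hvp]) (by rwa [hvp]) hθν τ hu (h.chain_sub h' _ hvp) (d := d)
      (fun Z => by
        rw [PF_aI, dotI, hd]
        simp only [kp_elim, vp_elim, act_zero_left, dotProduct_zero, sub_zero, zero_dotProduct,
          add_zero, coad_dot])
      (by rw [hd, vp_elim, dotProduct_zero]) (X := 0) (by rw [act_zero_left, hd, vp_elim]) i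
    rw [key, hdν, kbr_zero_left, dotProduct_zero, add_zero, zero_mul]
  have hC := eq_C_of_derivative_eq_zero hder
  have e1 := eval_lineP (F.f i) (pt ξ v' φ₁ + τ • aI) d 1
  have e0 := eval_lineP (F.f i) (pt ξ v' φ₁ + τ • aI) d 0
  rw [hC, eval_C] at e1 e0
  rw [zero_smul, add_zero] at e0
  have e : pt ξ v' φ₁ + τ • aI + (1 : K) • d = pt ξ v' ψ₁ + τ • aI := by
    refine extI ?_ ?_
    · simp only [hd, kp_add, kp_pt, kp_smul, kp_elim, coad_sub_left, one_smul]; abel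
    · simp only [hd, vp_add, vp_pt, vp_smul, vp_elim, smul_zero, add_zero]
  rw [e] at e1
  rw [← e1, ← e0]

theorem Fam.exists_poly (F : Fam) (D : Derivation ℂ K K) (hξ : D ∘ ξ = 0) (hv : D ∘ v = 0)
    (hκ : D ∘ κ = 0) (hY : InA κ Y) (hS : (2 : K) • act Y v + act Y (act Y aV) = 0)
    (hv' : v' = v + act Y aV) (hG : Good ⊤ v' κ y) (hθ : coad θ v' = 0) (hν : act ν v' = 0)
    (hθν : θ ⬝ᵥ act ν aV = 1) {X : IK → K} (hX : act X v' = D ∘ v')
    (he : coad θ aV ⬝ᵥ (kbr X ν - D ∘ ν) = 0) (h : Sol ξ Y v' φ₁ φ₂) (t : ℂ)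
    (hp : MvPolynomial.aeval (pt ξ v' φ₁ + algebraMap ℂ K t • aI) F.p ≠ 0) (i : Fin F.m) :
    ∃ P : K[X],
      (∀ ψ₁ ψ₂, Sol ξ Y v' ψ₁ ψ₂ →
        MvPolynomial.aeval (pt ξ v' ψ₁ + algebraMap ℂ K t • aI) (F.f i) =
          P.eval ((ξ + coad ψ₁ aV) ⬝ᵥ ν)) ∧
      (∀ n, D (P.coeff n) =
        ((ξ + coad φ₁ aV) ⬝ᵥ (kbr X ν - D ∘ ν)) * ((n + 1) * P.coeff (n + 1))) ∧
      Sum.elim (coad θ aV) 0 ⬝ᵥ grad (F.f i) (pt ξ v' φ₁ + algebraMap ℂ K t • aI) =
        (derivative P).eval ((ξ + coad φ₁ aV) ⬝ᵥ ν) := by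
  set τ : K := algebraMap ℂ K t with hτ
  set th0 : II → K := Sum.elim (coad θ aV) 0 with hth0
  set T0 : K := (ξ + coad φ₁ aV) ⬝ᵥ ν with hT0
  set L : K[X] := lineP (F.f i) (pt ξ v' φ₁ + τ • aI) th0 with hL
  set P : K[X] := L.comp (Polynomial.X - C T0) with hP
  have hPe : ∀ s, P.eval (T0 + s) = L.eval s := fun s => by
    rw [hP, eval_comp]; simp
  have hPd : ∀ s, (derivative P).eval (T0 + s) = (derivative L).eval s := fun s => by
    rw [hP, derivative_comp]; simp [eval_comp]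
  have hfin := line_finite F.p (pt ξ v' φ₁ + τ • aI) th0 hp
  refine ⟨P, fun ψ₁ ψ₂ h' => ?_, fun n => ?_, ?_⟩
  · set T : K := (ξ + coad ψ₁ aV) ⬝ᵥ ν with hT
    have hz : lineP (F.f i) (pt ξ v' ψ₁ + τ • aI) th0 - P.comp (Polynomial.X + C T) = 0 := by
      refine xFF_zero_of_cof _ (hfin.preimage (f := fun r => T + r - T0)
        (fun a _ b _ hab => by simpa using hab)) fun r hr => ?_
      simp only [Set.mem_preimage, Set.mem_ofPred_eq] at hr
      rw [hth0, ← xFF_pt_add] at hr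
      have key := xFF_same F hG hθ hν hθν (h.add_theta hθ (T + r - T0)) (h'.add_theta hθ r)
        (by rw [xFF_val_add hθν, xFF_val_add hθν, ← hT, ← hT0]; ring) τ hr i
      rw [xFF_pt_add, xFF_pt_add, ← hth0, ← eval_lineP, ← eval_lineP, ← hL, ← hPe] at key
      rw [eval_sub, key, eval_comp (p := P), eval_add, eval_X, eval_C,
        show T0 + (T + r - T0) = r + T by ring, sub_self]
    have := congrArg (eval 0) hz
    rw [eval_sub, eval_lineP, zero_smul, add_zero, eval_comp, eval_zero, sub_eq_zero] at this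
    rw [this]; simp
  · obtain ⟨Q, hQ1, hQ2⟩ := xFF_exists_cw D P
    set b : K := (ξ + coad φ₁ aV) ⬝ᵥ (kbr X ν - D ∘ ν) with hb
    have hz : Q - C b * derivative P = 0 := by
      apply eq_zero_of_infinite_isRoot
      have hfin' : {c : ℂ | MvPolynomial.aeval
          (pt ξ v' φ₁ + τ • aI + algebraMap ℂ K c • th0) F.p = 0}.Finite :=
        hfin.preimage (f := algebraMap ℂ K) (algebraMap ℂ K).injective.injOn
      refine (hfin'.infinite_compl.image (f := fun c => T0 + algebraMap ℂ K c)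
        (fun a _ b _ hab => (algebraMap ℂ K).injective (by simpa using hab))).mono ?_
      rintro _ ⟨c, hc, rfl⟩
      simp only [Set.mem_compl_iff, Set.mem_ofPred_eq] at hc
      set s : K := algebraMap ℂ K c with hs
      have hDs : D s = 0 := by rw [hs, Derivation.map_algebraMap]
      rw [hth0, ← xFF_pt_add] at hc
      have h' := h.add_theta hθ s
      obtain ⟨hch, hPF⟩ := step D hξ hv hκ hY hS hv' h'
      have key := F.inv_chain (κ := κ) (y := y) (θ := θ) (pt ξ v' (φ₁ + s • θ)) hG (ν := ν) hθ hν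
        hθν τ hc hch hPF (by
          show θ ⬝ᵥ (D ∘ v') = 0
          rw [← hX, ← coad_dot, hθ, zero_dotProduct]) (X := X) hX i
      have hDx : D ∘ (pt ξ v' (φ₁ + s • θ) + τ • aI) = D ∘ pt ξ v' (φ₁ + s • θ) := by
        funext j
        have := congrFun (der_aI (R := K) D) j
        simp only [Function.comp_apply, Pi.zero_apply] at this
        simp only [Function.comp_apply, Pi.add_apply, Pi.smul_apply, smul_eq_mul, map_add,
          Derivation.leibniz, this, hτ, Derivation.map_algebraMap, mul_zero, add_zero]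
      have hcoef : kp (D ∘ pt ξ v' (φ₁ + s • θ)) ⬝ᵥ ν + kp (pt ξ v' (φ₁ + s • θ)) ⬝ᵥ kbr X ν =
          D T0 + b := by
        have e1 := der_dot D (ξ + coad (φ₁ + s • θ) aV) ν
        rw [xFF_val_add hθν, ← hT0, map_add, hDs, add_zero] at e1
        have e2 : (ξ + coad (φ₁ + s • θ) aV) ⬝ᵥ (kbr X ν - D ∘ ν) = b := by
          rw [coad_add_left, coad_smul_left, ← add_assoc, add_dotProduct _ (s • _),
            smul_dotProduct, he, smul_zero, add_zero]
        rw [dotProduct_sub] at e2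
        change (D ∘ (ξ + coad (φ₁ + s • θ) aV)) ⬝ᵥ ν + (ξ + coad (φ₁ + s • θ) aV) ⬝ᵥ kbr X ν = _
        rw [e1, ← e2]; ring
      rw [hcoef, ← hDx, ← der_aeval, xFF_pt_add, ← hth0, ← eval_derivative_lineP, ← eval_lineP,
        ← hL, ← hPe, ← hPd, hQ2, map_add, hDs, add_zero] at key
      simp only [Set.mem_ofPred_eq, IsRoot.def, eval_sub, eval_mul, eval_C]
      linear_combination key
    have := congrArg (fun R => R.coeff n) hz
    simp only [coeff_sub, coeff_C_mul, coeff_derivative, coeff_zero, hQ1] at this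
    linear_combination this
  · have := hPd 0
    rw [add_zero, hL, eval_derivative_lineP, zero_smul, add_zero] at this
    exact this.symm

theorem taylor_mem {S : Subring K} (hC : ∀ c : ℂ, algebraMap ℂ K c ∈ S) (g : MvPolynomial II ℂ)
    (t : ℂ) (P : K[X])
    (hP : ∀ ψ₁ ψ₂, Sol ξ Y v' ψ₁ ψ₂ →
      MvPolynomial.aeval (pt ξ v' ψ₁ + algebraMap ℂ K t • aI) g = P.eval ((ξ + coad ψ₁ aV) ⬝ᵥ ν))
    (h : Sol ξ Y v' φ₁ φ₂) (hθ : coad θ v' = 0) (hθν : θ ⬝ᵥ act ν aV = 1)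
    (m₁ : ∀ i, (ξ + coad φ₁ aV) i ∈ S) (m₂ : ∀ i, v' i ∈ S) (m₃ : ∀ i, θ i ∈ S) (n : ℕ) :
    (taylor ((ξ + coad φ₁ aV) ⬝ᵥ ν) P).coeff n ∈ S := by
  have := xFF_inf (K := K)
  have e : taylor ((ξ + coad φ₁ aV) ⬝ᵥ ν) P =
      lineP g (pt ξ v' φ₁ + algebraMap ℂ K t • aI) (Sum.elim (coad θ aV) 0) := by
    refine Polynomial.funext fun r => ?_
    rw [taylor_eval, eval_lineP, ← xFF_pt_add, hP _ _ (h.add_theta hθ r), xFF_val_add hθν,
      add_comm]
  rw [e]
  refine coeff_lineP_mem hC g (fun i => ?_) (fun i => ?_) n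
  · refine S.add_mem ?_ (S.mul_mem (hC t) (aI_mem i))
    rcases i with i | i
    · exact m₁ i
    · exact m₂ i
  · rcases i with i | i
    · exact coad_mem m₃ aV_mem i
    · exact S.zero_mem

end Pool.Agent.MP_d920b6_mp.Cx

end

section

/-! The twist direction in every chart. -/

namespace Pool.Agent.MP_d920b6_mp.Cx

open Matrix Polynomial

variable {K : Type} [Field K] [Algebra ℂ K] {v : IV → ℂ} {κ y : Vec ℂ} {y' : Vec K}
  {D E : Derivation ℂ K K} {u : Mat K}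

theorem der_cst (D : Derivation ℂ K K) {ι : Type} (a : ι → ℂ) : D ∘ cst K a = 0 := by
  funext i; simp

theorem cst_dot {ι : Type} [Fintype ι] (a b : ι → ℂ) :
    cst K a ⬝ᵥ cst K b = algebraMap ℂ K (a ⬝ᵥ b) := by
  simp [dotProduct]

theorem cst_mulVec (w : Mat ℂ) (m : Vec ℂ) :
    w.map (algebraMap ℂ K) *ᵥ cst K m = cst K (w *ᵥ m) := by
  funext i; simp [mulVec, dotProduct]

theorem cst_vecMul (w : Mat ℂ) (m : Vec ℂ) :
    cst K m ᵥ* w.map (algebraMap ℂ K) = cst K (m ᵥ* w) := by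
  funext i; simp [vecMul, dotProduct]

theorem Base.wκK (hB : Base v κ y) : wP (cst K v) *ᵥ cst K κ = 0 := by
  rw [wP_comp, cst_mulVec, hB.wκ]; funext i; simp

theorem Base.ywK (hB : Base v κ y) : cst K y ᵥ* wP (cst K v) = 0 := by
  rw [wP_comp, cst_vecMul, hB.yw]; funext i; simp

theorem Base.yκK (hB : Base v κ y) : cst K y ⬝ᵥ cst K κ = 1 := by
  rw [cst_dot, hB.ok.yκ, map_one]

theorem solve_w {R : Type*} [CommRing R] {w W : Mat R} {κ y b : Vec R}
    (hW : W * (w + vecMulVec κ y) = 1) (hy : y ᵥ* w = 0) (hκ : y ⬝ᵥ κ = 1) (hb : y ⬝ᵥ b = 0) :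
    w *ᵥ (W *ᵥ b) = b := by
  have h1 : (w + vecMulVec κ y) *ᵥ (W *ᵥ b) = b := by
    rw [mulVec_mulVec, mul_eq_one_comm.1 hW, one_mulVec]
  rw [add_mulVec, vecMulVec_mulVec] at h1
  have h2 := congrArg (y ⬝ᵥ ·) h1
  simp only [dotProduct_add, dotProduct_mulVec y w, hy, zero_dotProduct, zero_add, hb,
    op_smul_eq_smul, dotProduct_smul, hκ, smul_eq_mul, mul_one] at h2
  rw [h2] at h1
  simpa using h1

/-- the twist data at the base point -/
theorem Base.exists_m (hB : Base v κ y) :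
    ∃ m : Vec ℂ, (wP v + vecMulVec κ y) *ᵥ m = tauP v - Pi.single 0 (y ⬝ᵥ tauP v / y 0) ∧
      wP v *ᵥ m = tauP v - Pi.single 0 (y ⬝ᵥ tauP v / y 0) := by
  obtain ⟨W, hW⟩ := hB.inv
  refine ⟨W *ᵥ (tauP v - Pi.single 0 (y ⬝ᵥ tauP v / y 0)), ?_, solve_w hW hB.yw hB.ok.yκ ?_⟩
  · rw [mulVec_mulVec, mul_eq_one_comm.1 hW, one_mulVec]
  · rw [dotProduct_sub, dotProduct_single, mul_div_cancel₀ _ hB.ok.y0, sub_self]

theorem y_tau (hy : y' ⬝ᵥ cst K κ = 1) :
    y' ⬝ᵥ tauP (vK v κ y y' u) = algebraMap ℂ K (y ⬝ᵥ tauP v) := by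
  rw [tauP_move, dotProduct_add, dotProduct_smul, hy, tauP_comp, ← cst_dot]
  simp

theorem Base.twist (hB : Base v κ y) (hE : EC (cf v κ) κ y y' D E)
    (hu : UOK v κ y y' (E ∘ y') u) {m₀ : Vec ℂ}
    (hm₀ : wP v *ᵥ m₀ = tauP v - Pi.single 0 (y ⬝ᵥ tauP v / y 0))
    {O : ValuationSubring K} (hO : Chart O y' (E ∘ y')) (j : Fin 4) (hj : j = 0 ∨ j = 1)
    (h0 : y' j ≠ 0) (hi : (y' j)⁻¹ ∈ O) :
    ∃ (W : Mat K) (m' : Vec K) (ψ₁ ψ₂ : IV → K), (∀ i j, W i j ∈ O) ∧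
      W * (wP (vK v κ y y' u) + vecMulVec (cst K κ) y') = 1 ∧
      m' = W *ᵥ (tauP (vK v κ y y' u) - Pi.single j (algebraMap ℂ K (y ⬝ᵥ tauP v) / y' j)) ∧
      (∀ i, m' i ∈ O) ∧
      wP (vK v κ y y' u) *ᵥ m' =
        tauP (vK v κ y y' u) - Pi.single j (algebraMap ℂ K (y ⬝ᵥ tauP v) / y' j) ∧
      Sol (cst K (dl y m₀)) (YK v κ y y' u) (vK v κ y y' u) ψ₁ ψ₂ ∧
      cst K (dl y m₀) + coad ψ₁ aV = dl y' m' := by
  have hG := hB.good hE hu hO
  obtain ⟨W, mW, hW⟩ := hG.gw.inv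
  have hm' := solve_w hW hG.gw.yw hG.gw.yκ
    (b := tauP (vK v κ y y' u) - Pi.single j (algebraMap ℂ K (y ⬝ᵥ tauP v) / y' j)) (by
      rw [dotProduct_sub, dotProduct_single, mul_div_cancel₀ _ h0, y_tau hE.yκ, sub_self])
  have hm : wP (cst K v) *ᵥ cst K m₀ =
      tauP (cst K v) - cst K (Pi.single 0 (y ⬝ᵥ tauP v / y 0)) := by
    rw [wP_comp, cst_mulVec, hm₀, tauP_comp]; funext i; simp
  obtain ⟨ψ₁, ψ₂, h1, h2⟩ := sol_dl (u := u) hB.wκK hB.ywK hB.yκK hE.yκ rfl hm hm' (by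
    have e1 : cst K y ⬝ᵥ (JJ *ᵥ cst K (Pi.single 0 (y ⬝ᵥ tauP v / y 0))) =
        algebraMap ℂ K (y ⬝ᵥ tauP v) := by
      rw [← JJ_map (algebraMap ℂ K), cst_mulVec, cst_dot]
      congr 1
      rw [mulVec_single, op_smul_eq_smul, dotProduct_smul, smul_eq_mul]
      have : y ⬝ᵥ (JJ : Mat ℂ).col 0 = y 0 := by simp [JJ, dotProduct, Fin.sum_univ_four]
      rw [this, div_mul_cancel₀ _ hB.ok.y0]
    rw [e1, mulVec_single, op_smul_eq_smul, dotProduct_smul, smul_eq_mul]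
    have : y' ⬝ᵥ (JJ : Mat K).col j = y' j := by
      rcases hj with rfl | rfl <;> simp [JJ, dotProduct, Fin.sum_univ_four]
    rw [this, div_mul_cancel₀ _ h0])
  rw [← comp_dl] at h1 h2
  refine ⟨W, _, ψ₁, ψ₂, mW, hW, rfl, fun i => ?_, hm', h1, h2⟩
  refine mulVec_mem (S := O.toSubring) mW (fun l => ?_) i
  refine sub_mem (hG.mv _) ?_
  rw [Pi.single_apply]
  split_ifs
  · rw [div_eq_mul_inv]; exact mul_mem (hO.hC _) hi
  · exact zero_mem _

omit [Algebra ℂ K] in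
theorem pt_twist {ξ δ δ' : IK → K} {φ₁ ψ₁ : IV → K} (h : δ + coad ψ₁ aV = δ') (r : K) :
    ξ + r • δ + coad (φ₁ + r • ψ₁) aV = ξ + coad φ₁ aV + r • δ' := by
  rw [coad_add_left, coad_smul_left, ← h, smul_add]; abel

/-- integrality of the restricted polynomials in a chart -/
theorem Base.chart_taylor (hB : Base v κ y) (hE : EC (cf v κ) κ y y' D E)
    (hu : UOK v κ y y' (E ∘ y') u) {m₀ : Vec ℂ}
    (hm₀ : wP v *ᵥ m₀ = tauP v - Pi.single 0 (y ⬝ᵥ tauP v / y 0)) (ξ : IK → ℂ) (t : ℂ)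
    {O : ValuationSubring K} (hO : Chart O y' (E ∘ y')) (j : Fin 4) (hj : j = 0 ∨ j = 1)
    (h0 : y' j ≠ 0) (hi : (y' j)⁻¹ ∈ O) :
    ∃ T : K, ∀ (r : ℂ) (g : MvPolynomial II ℂ) (P : K[X]),
      (∀ ψ₁ ψ₂, Sol (cst K ξ + algebraMap ℂ K r • cst K (dl y m₀)) (YK v κ y y' u)
          (vK v κ y y' u) ψ₁ ψ₂ →
        MvPolynomial.aeval (pt (cst K ξ + algebraMap ℂ K r • cst K (dl y m₀)) (vK v κ y y' u) ψ₁ +
          algebraMap ℂ K t • aI) g =
        P.eval ((cst K ξ + algebraMap ℂ K r • cst K (dl y m₀) + coad ψ₁ aV) ⬝ᵥ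
          (E ∘ YK v κ y y' u))) →
      ∀ n, (taylor (T - algebraMap ℂ K (r * (y ⬝ᵥ tauP v)) * (E (y' j) / y' j)) P).coeff n ∈ O := by
  have hG := hB.good hE hu hO
  obtain ⟨m, φ₁, φ₂, mm, hm1, hm2, hsol, mφ, -⟩ := hB.chart_sol hE hu ξ hO
  obtain ⟨W, m', ψ₁, ψ₂, -, -, -, mm', hm', hδ, hδ'⟩ := hB.twist hE hu hm₀ hO j hj h0 hi
  obtain ⟨s1, s2, s3, s4⟩ := der_YY (u := u) E (der_cst E v) (der_cst E κ) (der_cst E y) hB.wκK
    hE.yκ rfl
  refine ⟨(cst K ξ + coad φ₁ aV) ⬝ᵥ (E ∘ YK v κ y y' u), fun r g P hP n => ?_⟩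
  have key := taylor_mem (S := O.toSubring) hO.hC g t P hP
    (hsol.add_smul hδ (algebraMap ℂ K r)) (θ := th y' m) (coad_th hG.gw.yw hm1)
    (by rw [th_act hE.yκ s2 s1, ← dotProduct_mulVec, hm2, neg_neg])
    (fun i => by
      rw [pt_twist hδ']
      exact add_mem (add_mem (hO.hC _) (coad_mem mφ aV_mem i))
        (mul_mem (hO.hC _) (dl_mem hO.my mm' i)))
    hG.mv (th_mem hO.my mm) n
  rw [pt_twist hδ', add_dotProduct, smul_dotProduct, dl_nu hE.yκ s2 s1 s4 hm',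
    dotProduct_single] at key
  have e : ∀ T : K, T - algebraMap ℂ K (r * (y ⬝ᵥ tauP v)) * (E (y' j) / y' j) =
      T + algebraMap ℂ K r • -((E ∘ y') j * (algebraMap ℂ K (y ⬝ᵥ tauP v) / y' j)) := fun T => by
    simp only [map_mul, smul_eq_mul, Function.comp_apply]
    ring
  rw [e]
  exact key

omit [Algebra ℂ K] in
theorem val_mul_lt {O : ValuationSubring K} {a b : K} (ha : O.valuation a < 1) (hb : b ∈ O) :
    O.valuation (a * b) < 1 := by
  rw [map_mul]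
  exact lt_of_le_of_lt (mul_le_of_le_one_right' ((O.valuation_le_one_iff b).2 hb)) ha

theorem inv_mem_of_val {O : ValuationSubring K} (hC : ∀ c : ℂ, algebraMap ℂ K c ∈ O) {a : K}
    {c : ℂ} (hc : c ≠ 0) (h : O.valuation (a - algebraMap ℂ K c) < 1) : a⁻¹ ∈ O := by
  have h1 : O.valuation (algebraMap ℂ K c) = 1 := by
    have e1 := (O.valuation_le_one_iff _).2 (hC c)
    have e2 := (O.valuation_le_one_iff _).2 (hC c⁻¹)
    have e3 : O.valuation (algebraMap ℂ K c) * O.valuation (algebraMap ℂ K c⁻¹) = 1 := by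
      rw [← map_mul, ← map_mul, mul_inv_cancel₀ hc, map_one, map_one]
    refine le_antisymm e1 ?_
    rw [← e3]
    exact mul_le_of_le_one_right' e2
  have h2 : O.valuation a = 1 := by
    have := O.valuation.map_add_eq_of_lt_right (x := a - algebraMap ℂ K c)
      (y := algebraMap ℂ K c) (by rw [h1]; exact h)
    rw [sub_add_cancel, h1] at this
    exact this
  rw [← O.valuation_le_one_iff, map_inv₀, h2, inv_one]

/-- the twisted solutions specialise to the twisted base points -/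
theorem Base.twist_small (hB : Base v κ y) (hu : UOK v κ y y' (E ∘ y') u) {m₀ : Vec ℂ}
    (hm₀ : (wP v + vecMulVec κ y) *ᵥ m₀ = tauP v - Pi.single 0 (y ⬝ᵥ tauP v / y 0))
    {O : ValuationSubring K} (hO : Chart O y' (E ∘ y'))
    (hs : ∀ i, O.valuation (y' i - cst K y i) < 1) {W : Mat K} (mW : ∀ i j, W i j ∈ O)
    (hW : W * (wP (vK v κ y y' u) + vecMulVec (cst K κ) y') = 1) (i : IK) :
    O.valuation ((dl y' (W *ᵥ (tauP (vK v κ y y' u) -
      Pi.single 0 (algebraMap ℂ K (y ⬝ᵥ tauP v) / y' 0))) - cst K (dl y m₀)) i) < 1 := by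
  have hy0 : (y' 0)⁻¹ ∈ O := inv_mem_of_val hO.hC hB.ok.y0 (hs 0)
  have hne : y' 0 ≠ 0 := by
    intro h0
    have h1 := hs 0
    rw [h0, zero_sub, Valuation.map_neg] at h1
    have h2 := val_mul_lt h1 (hO.hC (y 0)⁻¹)
    rw [cst, Function.comp_apply, ← map_mul, mul_inv_cancel₀ hB.ok.y0, map_one, map_one] at h2
    exact lt_irrefl _ h2
  have hA : ∀ j, O.valuation (act (YK v κ y y' u) aV j) < 1 :=
    act_val (hB.YK_small hu hO hs) (aV_mem (S := O.toSubring))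
  set m' := W *ᵥ (tauP (vK v κ y y' u) - Pi.single 0 (algebraMap ℂ K (y ⬝ᵥ tauP v) / y' 0))
    with hm'
  have hm0 : (wP (cst K v) + vecMulVec (cst K κ) (cst K y)) *ᵥ cst K m₀ =
      tauP (cst K v) - Pi.single 0 (algebraMap ℂ K (y ⬝ᵥ tauP v / y 0)) := by
    have : wP (cst K v) + vecMulVec (cst K κ) (cst K y) =
        (wP v + vecMulVec κ y).map (algebraMap ℂ K) := by
      ext i j; simp [wP_comp, vecMulVec_apply]
    rw [this, cst_mulVec, hm₀, tauP_comp]
    funext i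
    simp only [cst, Function.comp_apply, Pi.sub_apply, map_sub, Pi.single_apply]
    split_ifs <;> simp
  have hd : m' - cst K m₀ = W *ᵥ (tauP (act (YK v κ y y' u) aV) -
      (wP (act (YK v κ y y' u) aV) + vecMulVec (cst K κ) (y' - cst K y)) *ᵥ cst K m₀ -
      Pi.single 0 (algebraMap ℂ K (y ⬝ᵥ tauP v) / y' 0 - algebraMap ℂ K (y ⬝ᵥ tauP v / y 0))) := by
    have e1 : cst K m₀ = W *ᵥ ((wP (vK v κ y y' u) + vecMulVec (cst K κ) y') *ᵥ cst K m₀) := by
      rw [mulVec_mulVec, hW, one_mulVec]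
    have e2 : wP (vK v κ y y' u) + vecMulVec (cst K κ) y' =
        (wP (cst K v) + vecMulVec (cst K κ) (cst K y)) +
          (wP (act (YK v κ y y' u) aV) + vecMulVec (cst K κ) (y' - cst K y)) := by
      rw [wP_add, vecMulVec_sub]; abel
    conv_lhs => rw [e1, hm', ← mulVec_sub, e2, add_mulVec, hm0, tauP_add]
    congr 1
    rw [Pi.single_sub]; abel
  have hsm : ∀ l, O.valuation ((m' - cst K m₀) l) < 1 := fun l => by
    rw [hd, mulVec, dotProduct_comm]
    refine dot_val (fun j => ?_) (mW l)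
    refine O.valuation.map_sub_lt (O.valuation.map_sub_lt (hA _) ?_) ?_
    · refine dot_val (fun l => O.valuation.map_add_lt (hA (.inl (j, l))) ?_) fun l => hO.hC _
      rw [vecMulVec_apply, mul_comm]
      exact val_mul_lt (hs l) (hO.hC _)
    · rw [Pi.single_apply]
      split_ifs
      · have : algebraMap ℂ K (y ⬝ᵥ tauP v) / y' 0 - algebraMap ℂ K (y ⬝ᵥ tauP v / y 0) =
            (y' 0 - cst K y 0) * (algebraMap ℂ K (-(y ⬝ᵥ tauP v / y 0)) * (y' 0)⁻¹) := by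
          have : algebraMap ℂ K (y 0) ≠ 0 := (_root_.map_ne_zero _).2 hB.ok.y0
          simp only [cst, Function.comp_apply, map_div₀, map_neg]
          field_simp
          ring
        rw [this]
        exact val_mul_lt (hs 0) (mul_mem (hO.hC _) hy0)
      · simp
  have mm' : ∀ l, m' l ∈ O := fun l => by
    have := add_mem ((O.valuation_le_one_iff _).1 (hsm l).le) (hO.hC (m₀ l))
    simpa using this
  have e : dl y' m' - cst K (dl y m₀) =
      mkK 0 0 0 0 (y' - cst K y) - coad (th y' m' - th (cst K y) (cst K m₀)) aV := by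
    rw [show cst K (dl y m₀) = dl (cst K y) (cst K m₀) from comp_dl _ _ _, dl, dl, coad_sub_left]
    have : (mkK 0 0 0 0 (y' - cst K y) : IK → K) = mkK 0 0 0 0 y' - mkK 0 0 0 0 (cst K y) :=
      extK (by simp) (by simp) (by simp) (by simp) (by simp)
    rw [this]; abel
  rw [e]
  refine O.valuation.map_sub_lt ?_ (coad_val (fun j => ?_) (aV_mem (S := O.toSubring)) i)
  · rcases i with i | i | i | i | i
    · simp [mkK]
    · simp [mkK]
    · simp [mkK]
    · simp [mkK]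
    · exact hs i
  · rcases j with j | j | j
    · have : (th y' m' - th (cst K y) (cst K m₀)) (.inl j) =
          (y' j.1 - cst K y j.1) * m' j.2 + (m' - cst K m₀) j.2 * cst K y j.1 := by
        simp only [th, mkV, Pi.sub_apply, Sum.elim_inl, vecMulVec_apply]; ring
      rw [this]
      exact O.valuation.map_add_lt (val_mul_lt (hs _) (mm' _)) (val_mul_lt (hsm _) (hO.hC _))
    · simp [th, mkV]
    · simp [th, mkV]

end Pool.Agent.MP_d920b6_mp.Cx

end

section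

/-! Smoothness of the curve at every place and the choice of a representative. -/

namespace Pool.Agent.MP_d920b6_mp.Cx

open Polynomial

variable {K : Type} [Field K] [Algebra ℂ K] {c : Fin 3 → Fin 3 → ℂ} {u s t : K}
  {O : ValuationSubring K}

/-- the derivative in `u` of the affine equation of the curve -/
noncomputable def cu (c : Fin 3 → Fin 3 → ℂ) (u t : K) : K :=
  aeval u (derivative (PP c 2)) * t ^ 2 + aeval u (derivative (PP c 1)) * t +
    aeval u (derivative (PP c 0))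

theorem bq_affine (c : Fin 3 → Fin 3 → ℂ) (u t : K) :
    bq (fun i j => algebraMap ℂ K (c i j)) ![1, u] ![1, t] =
      aeval u (PP c 2) * t ^ 2 + aeval u (PP c 1) * t + aeval u (PP c 0) := by
  simp [bq, mon, PP, Fin.sum_univ_three]
  ring

omit [Algebra ℂ K] in
theorem xpc_mul {x y : K} (hx : x ∈ O) (hy : O.valuation y < 1) : O.valuation (x * y) < 1 := by
  rw [map_mul]
  exact (mul_le_of_le_one_left' ((O.valuation_le_one_iff x).2 hx)).trans_lt hy

omit [Algebra ℂ K] in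
theorem xpc_inv {x : K} (hx : ¬ O.valuation x < 1) : x ≠ 0 ∧ x⁻¹ ∈ O := by
  rw [← O.mem_nonunits_iff, O.mem_nonunits_iff_or, not_or, not_not] at hx
  exact hx

omit [Algebra ℂ K] in
theorem xpc_prim {x y e f : K} (he : e ∈ O) (hf : f ∈ O) (h : x * e + y * f = 1)
    (hx : O.valuation x < 1) (hy : O.valuation y < 1) : False := by
  have := O.valuation.map_add_lt (xpc_mul he hx) (xpc_mul hf hy)
  rw [mul_comm e, mul_comm f, h, map_one] at this
  exact lt_irrefl _ this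

omit [Algebra ℂ K] in
theorem xpc_sq {x : K} (h : O.valuation (x ^ 2) < 1) : O.valuation x < 1 := by
  rw [map_pow] at h
  exact (pow_lt_one_iff two_ne_zero).1 h

theorem xpc_aeval (hC : ∀ a : ℂ, algebraMap ℂ K a ∈ O) (hu : u ∈ O) (p : ℂ[X]) :
    aeval u p ∈ O := by
  rw [aeval_eq_sum_range]
  exact sum_mem fun i _ => by rw [Algebra.smul_def]; exact mul_mem (hC _) (pow_mem hu _)

theorem xpc_PP (c : Fin 3 → Fin 3 → ℂ) (u : K) (j : Fin 3) : aeval u (PP c j) =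
    algebraMap ℂ K (c 0 j) + algebraMap ℂ K (c 1 j) * u + algebraMap ℂ K (c 2 j) * u ^ 2 := by
  simp [PP]

theorem xpc_dPP (c : Fin 3 → Fin 3 → ℂ) (u : K) (j : Fin 3) : aeval u (derivative (PP c j)) =
    algebraMap ℂ K (c 1 j) + 2 * algebraMap ℂ K (c 2 j) * u := by
  simp [PP]
  ring

omit [Algebra ℂ K] in
theorem xpc_quad {a b e x y : K} (ha : a ∈ O) (hb : b ∈ O) (he : e ∈ O) (hx : x ∈ O)
    (hy : y ∈ O) : a * x ^ 2 + b * (x * y) + e * y ^ 2 ∈ O :=
  add_mem (add_mem (mul_mem ha (pow_mem hx 2)) (mul_mem hb (mul_mem hx hy)))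
    (mul_mem he (pow_mem hy 2))

theorem xpc_alg {k : Type*} [Field k] (c : Fin 3 → Fin 3 → k) {κ₁ κ₂ κ₃ p₀ p₁ q₀ q₁ : k}
    (h : bq c ![p₀, p₁] ![q₀, q₁] = 0) (ha : p₀ + p₁ * κ₁ = 0) (hb : q₀ * κ₂ + q₁ * κ₃ = 0)
    (hp : p₀ ≠ 0 ∨ p₁ ≠ 0) (hq : q₀ ≠ 0 ∨ q₁ ≠ 0) : bq c ![-κ₁, 1] ![-κ₃, κ₂] = 0 := by
  have hom : ∀ (l m x₀ x₁ y₀ y₁ : k), bq c ![l * x₀, l * x₁] ![m * y₀, m * y₁] =
      l ^ 2 * m ^ 2 * bq c ![x₀, x₁] ![y₀, y₁] := by
    intro l m x₀ x₁ y₀ y₁
    simp [bq, mon, Fin.sum_univ_three]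
    ring
  have hp₁ : p₁ ≠ 0 := by
    rintro rfl
    rw [zero_mul, add_zero] at ha
    simp [ha] at hp
  have e0 : -κ₁ = p₁⁻¹ * p₀ := by field_simp; linear_combination -ha
  have e1 : (1 : k) = p₁⁻¹ * p₁ := (inv_mul_cancel₀ hp₁).symm
  rcases hq with hq | hq
  · have e2 : -κ₃ = -κ₃ / q₀ * q₀ := by field_simp
    have e3 : κ₂ = -κ₃ / q₀ * q₁ := by field_simp; linear_combination hb
    rw [e0, e1, e2, e3, hom, h, mul_zero]
  · have e2 : -κ₃ = κ₂ / q₁ * q₀ := by field_simp; linear_combination -hb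
    have e3 : κ₂ = κ₂ / q₁ * q₁ := by field_simp
    have := hom p₁⁻¹ (κ₂ / q₁) p₀ p₁ q₀ q₁
    rw [← e0, ← e1, ← e2, ← e3, h, mul_zero] at this
    exact this

theorem xpc_map {R S : Type*} [CommRing R] [CommRing S] (f : R →+* S) (c : Fin 3 → Fin 3 → R)
    (p₀ p₁ q₀ q₁ : R) :
    f (bq c ![p₀, p₁] ![q₀, q₁]) = bq (fun i j => f (c i j)) ![f p₀, f p₁] ![f q₀, f q₁] := by
  simp [bq, mon, Fin.sum_univ_three]

/-- the two linear forms do not both vanish at the centre of the valuation -/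
theorem xpc_both {κ : Vec ℂ} (hκ : bq c ![-κ 1, 1] ![-κ 3, κ 2] ≠ 0)
    (hC : ∀ a : ℂ, algebraMap ℂ K a ∈ O) {p₀ p₁ q₀ q₁ : K} (m₀ : p₀ ∈ O) (m₁ : p₁ ∈ O)
    (m₂ : q₀ ∈ O) (m₃ : q₁ ∈ O) (hp : p₀ = 1 ∨ p₁ = 1) (hq : q₀ = 1 ∨ q₁ = 1)
    (h : bq (fun i j => algebraMap ℂ K (c i j)) ![p₀, p₁] ![q₀, q₁] = 0)
    (ha : O.valuation (p₀ + p₁ * algebraMap ℂ K (κ 1)) < 1)
    (hb : O.valuation (q₀ * algebraMap ℂ K (κ 2) + q₁ * algebraMap ℂ K (κ 3)) < 1) : False := by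
  let γ : ℂ →+* O := (algebraMap ℂ K).codRestrict O hC
  let ρ := IsLocalRing.residue O
  lift p₀ to O using m₀
  lift p₁ to O using m₁
  lift q₀ to O using m₂
  lift q₁ to O using m₃
  have h1 : bq (fun i j => γ (c i j)) ![p₀, p₁] ![q₀, q₁] = 0 := by
    apply O.subtype_injective
    rw [xpc_map, map_zero]
    exact h
  have h2 := congrArg ρ h1
  rw [xpc_map, map_zero] at h2
  have h3 : ρ p₀ + ρ p₁ * ρ (γ (κ 1)) = 0 := by
    rw [← map_mul, ← map_add, IsLocalRing.residue_eq_zero_iff, O.valuation_lt_one_iff]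
    exact ha
  have h4 : ρ q₀ * ρ (γ (κ 2)) + ρ q₁ * ρ (γ (κ 3)) = 0 := by
    rw [← map_mul, ← map_mul, ← map_add, IsLocalRing.residue_eq_zero_iff, O.valuation_lt_one_iff]
    exact hb
  have h5 : ∀ x : O, (x : K) = 1 → ρ x ≠ 0 := fun x hx => by
    rw [show x = 1 from Subtype.ext hx, map_one]; exact one_ne_zero
  have h6 := xpc_alg _ h2 h3 h4 (hp.imp (h5 _) (h5 _)) (hq.imp (h5 _) (h5 _))
  apply hκ
  apply (ρ.comp γ).injective
  rw [xpc_map, map_zero]
  simpa using h6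

omit [Algebra ℂ K] in
/-- a primitive multiple of `(1, u)` -/
theorem xpc_scale (O : ValuationSubring K) (u : K) : ∃ z : K, z ≠ 0 ∧ z ∈ O ∧ z * u ∈ O ∧
    (u ∈ O → z = 1) ∧ (u ∉ O → z * u = 1) := by
  by_cases hu : u ∈ O
  · exact ⟨1, one_ne_zero, one_mem _, by rwa [one_mul], fun _ => rfl, fun h => (h hu).elim⟩
  · have h0 : u ≠ 0 := by rintro rfl; exact hu (zero_mem _)
    refine ⟨u⁻¹, inv_ne_zero h0, (O.mem_or_inv_mem u).resolve_left hu, ?_, fun h => (hu h).elim,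
      fun _ => inv_mul_cancel₀ h0⟩
    rw [inv_mul_cancel₀ h0]; exact one_mem _

omit [Algebra ℂ K] in
/-- a unit combination -/
theorem xpc_comb {a b : K} (ha : a ∈ O) (hb : b ∈ O) (t2 : (2 : K) ≠ 0 ∧ (2 : K)⁻¹ ∈ O)
    (h : O.valuation a < 1 → O.valuation b < 1 → False) :
    ∃ x y : K, x * a + y * b = 1 ∧ x ∈ O ∧ y ∈ O ∧ x ≠ 0 ∧ x⁻¹ ∈ O ∧ y ≠ 0 ∧ y⁻¹ ∈ O := by
  have key : ∀ {a b : K}, a ∈ O → b ∈ O → ¬ O.valuation b < 1 → ∀ x : K, x ∈ O →
      ¬ O.valuation (1 - x * a) < 1 → ∃ y : K, x * a + y * b = 1 ∧ y ∈ O ∧ y ≠ 0 ∧ y⁻¹ ∈ O := by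
    intro a b ha hb h1 x hx h2
    obtain ⟨h3, h4⟩ := xpc_inv h1
    obtain ⟨h5, h6⟩ := xpc_inv h2
    refine ⟨(1 - x * a) * b⁻¹, by field_simp; ring,
      mul_mem (sub_mem (one_mem _) (mul_mem hx ha)) h4, mul_ne_zero h5 (inv_ne_zero h3), ?_⟩
    rw [mul_inv, inv_inv]
    exact mul_mem h6 hb
  have one : ∀ {a : K}, O.valuation a < 1 → ¬ O.valuation (1 - 1 * a) < 1 := by
    intro a h1 h2
    have := O.valuation.map_add_lt h1 h2
    rw [one_mul, add_sub_cancel, map_one] at this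
    exact lt_irrefl _ this
  by_cases h1 : O.valuation b < 1
  · obtain ⟨y, h2, h3, h4, h5⟩ := key hb ha (fun h' => h h' h1) 1 (one_mem _) (one h1)
    exact ⟨y, 1, by rw [add_comm, h2], h3, one_mem _, h4, h5, one_ne_zero,
      by rw [inv_one]; exact one_mem _⟩
  by_cases h2 : O.valuation (1 - 1 * a) < 1
  · have m2 : (2 : K) ∈ O := ofNat_mem O 2
    obtain ⟨y, h3, h4, h5, h6⟩ := key ha hb h1 2 m2 fun h' => by
      have := O.valuation.map_sub_lt (xpc_mul m2 h2) h'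
      rw [show 2 * (1 - 1 * a) - (1 - 2 * a) = 1 by ring, map_one] at this
      exact lt_irrefl _ this
    exact ⟨2, y, h3, m2, h4, t2.1, t2.2, h5, h6⟩
  · obtain ⟨y, h3, h4, h5, h6⟩ := key ha hb h1 1 (one_mem _) h2
    exact ⟨1, y, h3, one_mem _, h4, one_ne_zero, by rw [inv_one]; exact one_mem _, h5, h6⟩

theorem chart_of (hd : (Dsc c).natDegree = 4) (hs : IsCoprime (Dsc c) (derivative (Dsc c)))
    (hC : ∀ a : ℂ, algebraMap ℂ K a ∈ O)
    (ht : aeval u (PP c 2) * t ^ 2 + aeval u (PP c 1) * t + aeval u (PP c 0) = 0)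
    (hst : s = 2 * aeval u (PP c 2) * t + aeval u (PP c 1)) {z β : K}
    (m₀ : z ∈ O) (m₁ : z * u ∈ O) (m₂ : β ∈ O) (m₃ : β * t ∈ O)
    (hz : ∃ e₀ ∈ O, ∃ e₁ ∈ O, z * e₀ + z * u * e₁ = 1)
    (hβ : ∃ e₂ ∈ O, ∃ e₃ ∈ O, β * e₂ + β * t * e₃ = 1) :
    z ^ 2 * s ∈ O ∧ β ^ 2 * cu c u t ∈ O ∧
      ∃ μ₁ ∈ O, ∃ μ₂ ∈ O, μ₁ * (z ^ 2 * s) - μ₂ * (β ^ 2 * cu c u t) = -1 := by
  have m2 : (2 : K) ∈ O := ofNat_mem O 2
  have m4 : (4 : K) ∈ O := ofNat_mem O 4
  obtain ⟨e₀, he₀, e₁, he₁, hz⟩ := hz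
  obtain ⟨e₂, he₂, e₃, he₃, hβ⟩ := hβ
  have hP : ∀ j, z ^ 2 * aeval u (PP c j) ∈ O := fun j => by
    convert xpc_quad (hC (c 0 j)) (hC (c 1 j)) (hC (c 2 j)) m₀ m₁ using 1
    rw [xpc_PP]; ring
  have hR : ∀ i, algebraMap ℂ K (c i 0) * β ^ 2 + algebraMap ℂ K (c i 1) * (β * (β * t)) +
      algebraMap ℂ K (c i 2) * (β * t) ^ 2 ∈ O := fun i =>
    xpc_quad (hC (c i 0)) (hC (c i 1)) (hC (c i 2)) m₂ m₃
  have hS : z ^ 2 * s ∈ O := by
    convert sub_mem
      (mul_mem he₂ (add_mem (mul_mem m2 (mul_mem (hP 2) m₃)) (mul_mem (hP 1) m₂)))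
      (mul_mem he₃ (add_mem (mul_mem (hP 1) m₃) (mul_mem m2 (mul_mem (hP 0) m₂)))) using 1
    rw [hst]
    linear_combination (-(z ^ 2 * (2 * aeval u (PP c 2) * t + aeval u (PP c 1)))) * hβ +
      (2 * z ^ 2 * β * e₃) * ht
  have hT : β ^ 2 * cu c u t ∈ O := by
    convert sub_mem
      (mul_mem he₀ (add_mem (mul_mem (hR 1) m₀) (mul_mem m2 (mul_mem (hR 2) m₁))))
      (mul_mem he₁ (add_mem (mul_mem (hR 1) m₁) (mul_mem m2 (mul_mem (hR 0) m₀)))) using 1
    simp only [xpc_PP] at ht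
    simp only [cu, xpc_dPP]
    linear_combination (-(β ^ 2 * ((algebraMap ℂ K (c 1 2) + 2 * algebraMap ℂ K (c 2 2) * u) *
      t ^ 2 + (algebraMap ℂ K (c 1 1) + 2 * algebraMap ℂ K (c 2 1) * u) * t +
      (algebraMap ℂ K (c 1 0) + 2 * algebraMap ℂ K (c 2 0) * u)))) * hz +
      (2 * β ^ 2 * z * e₁) * ht
  refine ⟨hS, hT, ?_⟩
  by_cases h1 : O.valuation (z ^ 2 * s) < 1
  swap
  · obtain ⟨h2, h3⟩ := xpc_inv h1
    exact ⟨-(z ^ 2 * s)⁻¹, neg_mem h3, 0, zero_mem _, by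
      rw [zero_mul, sub_zero, neg_mul, inv_mul_cancel₀ h2]⟩
  by_cases h2 : O.valuation (β ^ 2 * cu c u t) < 1
  swap
  · obtain ⟨h3, h4⟩ := xpc_inv h2
    exact ⟨0, zero_mem _, (β ^ 2 * cu c u t)⁻¹, h4, by
      rw [zero_mul, zero_sub, inv_mul_cancel₀ h3]⟩
  exfalso
  have hD : aeval u (Dsc c) = s ^ 2 := by
    rw [hst, Dsc]
    simp only [map_sub, map_mul, map_pow, map_ofNat]
    linear_combination (-4 * aeval u (PP c 2)) * ht
  by_cases h3 : O.valuation z < 1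
  · have h0 : (Dsc c).coeff 4 ≠ 0 := by
      rw [← hd]
      refine leadingCoeff_ne_zero.2 fun h0 => ?_
      rw [h0] at hd; simp at hd
    have h4 : algebraMap ℂ K ((Dsc c).coeff 4)⁻¹ * algebraMap ℂ K ((Dsc c).coeff 4) = 1 := by
      rw [← map_mul, inv_mul_cancel₀ h0, map_one]
    rw [aeval_eq_sum_range, hd] at hD
    simp only [Finset.sum_range_succ, Finset.sum_range_zero, Algebra.smul_def] at hD
    have h5 : (z * u) ^ 4 = algebraMap ℂ K ((Dsc c).coeff 4)⁻¹ * ((z ^ 2 * s) * (z ^ 2 * s) -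
        (algebraMap ℂ K ((Dsc c).coeff 0) * z ^ 3 + algebraMap ℂ K ((Dsc c).coeff 1) * z ^ 2 *
          (z * u) + algebraMap ℂ K ((Dsc c).coeff 2) * z * (z * u) ^ 2 +
          algebraMap ℂ K ((Dsc c).coeff 3) * (z * u) ^ 3) * z) := by
      linear_combination (algebraMap ℂ K ((Dsc c).coeff 4)⁻¹ * z ^ 4) * hD - (z * u) ^ 4 * h4
    have h6 : O.valuation ((z * u) ^ 4) < 1 := by
      rw [h5]
      refine xpc_mul (hC _) (O.valuation.map_sub_lt (xpc_mul hS h1) (xpc_mul ?_ h3))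
      exact add_mem (add_mem (add_mem (mul_mem (hC _) (pow_mem m₀ _))
        (mul_mem (mul_mem (hC _) (pow_mem m₀ _)) m₁))
        (mul_mem (mul_mem (hC _) m₀) (pow_mem m₁ _))) (mul_mem (hC _) (pow_mem m₁ _))
    rw [map_pow] at h6
    exact xpc_prim he₀ he₁ hz h3 ((pow_lt_one_iff four_ne_zero).1 h6)
  obtain ⟨h4, h5⟩ := xpc_inv h3
  have hu : u ∈ O := by
    convert mul_mem h5 m₁ using 1
    field_simp
  have hA := xpc_aeval hC hu
  have hs1 : O.valuation s < 1 := by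
    convert xpc_mul (pow_mem h5 2) h1 using 2
    field_simp
  have hs0 : s ∈ O := (O.valuation_le_one_iff s).1 hs1.le
  obtain ⟨e, f, hef⟩ := hs
  have h6 := congrArg (aeval u) hef
  rw [map_add, map_mul, map_mul, map_one, hD] at h6
  have h7 : aeval u (derivative (Dsc c)) =
      2 * aeval u (PP c 1) * aeval u (derivative (PP c 1)) -
      4 * aeval u (derivative (PP c 2)) * aeval u (PP c 0) -
      4 * aeval u (PP c 2) * aeval u (derivative (PP c 0)) := by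
    simp only [Dsc, derivative_mul, derivative_sq, derivative_ofNat, map_sub,
      map_add, map_mul, map_ofNat, map_zero]
    ring
  have h8 : ∀ x : K, x ∈ O → O.valuation (x ^ 2 * aeval u (derivative (Dsc c))) < 1 →
      O.valuation x < 1 := by
    intro x hx h
    refine xpc_sq ?_
    have := O.valuation.map_add_lt (xpc_mul (mul_mem (mul_mem (pow_mem hx 2) (hA e)) hs0) hs1)
      (xpc_mul (hA f) h)
    convert this using 2
    linear_combination (-x ^ 2) * h6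
  refine xpc_prim he₂ he₃ hβ (h8 _ m₂ ?_) (h8 _ m₃ ?_)
  · have := O.valuation.map_sub_lt
      (xpc_mul (mul_mem (mul_mem m2 m₂) (add_mem (mul_mem (hA (derivative (PP c 1))) m₂)
        (mul_mem m2 (mul_mem (hA (derivative (PP c 2))) m₃)))) hs1)
      (xpc_mul (mul_mem m4 (hA (PP c 2))) h2)
    convert this using 2
    rw [h7, hst, cu]
    linear_combination (-4 * β ^ 2 * aeval u (derivative (PP c 2))) * ht
  · have := O.valuation.map_sub_lt
      (xpc_mul (neg_mem (mul_mem (mul_mem m2 m₃) (add_mem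
        (mul_mem (hA (derivative (PP c 1))) m₃)
        (mul_mem m2 (mul_mem (hA (derivative (PP c 0))) m₂))))) hs1)
      (xpc_mul (mul_mem m4 (hA (PP c 0))) h2)
    convert this using 2
    rw [h7, hst, cu]
    linear_combination (4 * β ^ 2 * (aeval u (derivative (PP c 1)) * t +
      aeval u (derivative (PP c 0)))) * ht

theorem exists_rep {κ : Vec ℂ} (hκ : bq c ![-κ 1, 1] ![-κ 3, κ 2] ≠ 0)
    (hC : ∀ a : ℂ, algebraMap ℂ K a ∈ O)
    (ht : aeval u (PP c 2) * t ^ 2 + aeval u (PP c 1) * t + aeval u (PP c 0) = 0)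
    (hb : algebraMap ℂ K (κ 2) + t * algebraMap ℂ K (κ 3) ≠ 0) :
    ∃ z β : K, z * (1 + u * algebraMap ℂ K (κ 1)) +
        β * (algebraMap ℂ K (κ 2) + t * algebraMap ℂ K (κ 3)) = 1 ∧
      z ∈ O ∧ z * u ∈ O ∧ β ∈ O ∧ β * t ∈ O ∧ z ≠ 0 ∧ (u ∈ O → z⁻¹ ∈ O) ∧
      (u ∉ O → (z * u)⁻¹ ∈ O) ∧ ∃ e₂ ∈ O, ∃ e₃ ∈ O, β * e₂ + β * t * e₃ = 1 := by
  obtain ⟨z₀, hz0, hz1, hz2, hz3, hz4⟩ := xpc_scale O u
  obtain ⟨β₀, -, hβ1, hβ2, hβ3, hβ4⟩ := xpc_scale O t
  have hq : β₀ = 1 ∨ β₀ * t = 1 := (em (t ∈ O)).imp hβ3 hβ4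
  have t2 : (2 : K) ≠ 0 ∧ (2 : K)⁻¹ ∈ O := by
    have e : algebraMap ℂ K 2 = 2 := map_ofNat _ 2
    exact ⟨e ▸ (_root_.map_ne_zero _).2 two_ne_zero, by rw [← e, ← map_inv₀]; exact hC _⟩
  obtain ⟨x, y, h1, h2, h3, h4, h5, h6, h7⟩ := xpc_comb
    (add_mem hz1 (mul_mem hz2 (hC (κ 1))))
    (add_mem (mul_mem hβ1 (hC (κ 2))) (mul_mem hβ2 (hC (κ 3)))) t2
    (xpc_both hκ hC hz1 hz2 hβ1 hβ2 ((em (u ∈ O)).imp hz3 hz4) hq (by
      rw [← bq_affine] at ht
      simp only [bq, mon, Fin.sum_univ_three, Matrix.cons_val_zero, Matrix.cons_val_one,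
        Matrix.cons_val] at ht ⊢
      linear_combination (z₀ ^ 2 * β₀ ^ 2) * ht))
  refine ⟨x * z₀, y * β₀, by linear_combination h1, mul_mem h2 hz1,
    by rw [mul_assoc]; exact mul_mem h2 hz2, mul_mem h3 hβ1,
    by rw [mul_assoc]; exact mul_mem h3 hβ2, mul_ne_zero h4 hz0,
    fun h => by rwa [hz3 h, mul_one], fun h => by rwa [mul_assoc, hz4 h, mul_one], ?_⟩
  rcases hq with hq | hq
  · exact ⟨y⁻¹, h7, 0, zero_mem _, by rw [hq, mul_one, mul_zero, add_zero, mul_inv_cancel₀ h6]⟩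
  · exact ⟨0, zero_mem _, y⁻¹, h7, by
      rw [mul_zero, zero_add, mul_assoc y, hq, mul_one, mul_inv_cancel₀ h6]⟩

end Pool.Agent.MP_d920b6_mp.Cx

end

section

/-! The generic point of the cone over the curve. -/

namespace Pool.Agent.MP_d920b6_mp.Cx

open Polynomial Matrix

section small
variable {K : Type} [Field K] {O : ValuationSubring K}

theorem xECx_mem {x : K} (h : O.valuation x < 1) : x ∈ O :=
  (O.valuation_le_one_iff x).1 h.le

theorem xECx_add {x y : K} (hx : O.valuation x < 1) (hy : O.valuation y < 1) :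
    O.valuation (x + y) < 1 := Valuation.map_add_lt _ hx hy

theorem xECx_sub {x y : K} (hx : O.valuation x < 1) (hy : O.valuation y < 1) :
    O.valuation (x - y) < 1 := Valuation.map_sub_lt _ hx hy

theorem xECx_mul {x y : K} (hx : x ∈ O) (hy : O.valuation y < 1) :
    O.valuation (x * y) < 1 := by
  rw [map_mul]
  calc O.valuation x * O.valuation y ≤ 1 * O.valuation y := by
        gcongr; exact (O.valuation_le_one_iff x).2 hx
    _ < 1 := by rwa [one_mul]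

theorem xECx_unit {x : K} (h : O.valuation (x - 1) < 1) : x ≠ 0 ∧ x⁻¹ ∈ O := by
  have h1 : O.valuation x = 1 := by
    have := Valuation.map_one_add_of_lt O.valuation h
    simpa using this
  refine ⟨fun h0 => by simp [h0] at h1, ?_⟩
  rw [← O.valuation_le_one_iff, map_inv₀, h1, inv_one]

theorem xECx_unit' {x e : K} (he : e ≠ 0) (he' : e⁻¹ ∈ O) (h : O.valuation (x - e) < 1) :
    x ≠ 0 ∧ x⁻¹ ∈ O := by
  have h1 : O.valuation (e⁻¹ * x - 1) < 1 := by
    have : e⁻¹ * x - 1 = e⁻¹ * (x - e) := by field_simp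
    rw [this]; exact xECx_mul he' h
  obtain ⟨h2, h3⟩ := xECx_unit h1
  have hx : x ≠ 0 := fun h0 => h2 (by rw [h0, mul_zero])
  refine ⟨hx, ?_⟩
  have : x⁻¹ = (e⁻¹ * x)⁻¹ * e⁻¹ := by field_simp
  rw [this]; exact O.mul_mem _ _ h3 he'

theorem xECx_small_iff {x : K} : O.valuation x < 1 ↔ x = 0 ∨ x⁻¹ ∉ O := by
  rw [← ValuationSubring.mem_nonunits_iff, ValuationSubring.mem_nonunits_iff_or]

end small

section alg
variable {K : Type} [Field K] [Algebra ℂ K]

theorem xECx_PP (c : Fin 3 → Fin 3 → ℂ) (j : Fin 3) (u : K) :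
    aeval u (PP c j) = algebraMap ℂ K (c 0 j) + algebraMap ℂ K (c 1 j) * u +
      algebraMap ℂ K (c 2 j) * u ^ 2 := by
  simp [PP]

theorem xECx_dPP (c : Fin 3 → Fin 3 → ℂ) (j : Fin 3) (u : K) :
    aeval u (derivative (PP c j)) = algebraMap ℂ K (c 1 j) +
      2 * algebraMap ℂ K (c 2 j) * u := by
  simp only [PP, derivative_C, derivative_mul, derivative_X, derivative_X_pow,
    zero_mul, zero_add, mul_one, map_add, map_mul, aeval_C, aeval_X, map_pow, map_natCast]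
  push_cast
  ring

theorem xECx_aeval_small {O : ValuationSubring K} (hC : ∀ a : ℂ, algebraMap ℂ K a ∈ O)
    (c : Fin 3 → Fin 3 → ℂ) (j : Fin 3) {u : K} {u₀ : ℂ}
    (h : O.valuation (u - algebraMap ℂ K u₀) < 1) :
    O.valuation (aeval u (PP c j) - algebraMap ℂ K (aeval u₀ (PP c j))) < 1 := by
  have hu : u ∈ O := by
    have := O.add_mem _ _ (xECx_mem h) (hC u₀)
    simpa using this
  have : aeval u (PP c j) - algebraMap ℂ K (aeval u₀ (PP c j)) =
      (algebraMap ℂ K (c 1 j) + algebraMap ℂ K (c 2 j) * (u + algebraMap ℂ K u₀)) *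
        (u - algebraMap ℂ K u₀) := by
    rw [xECx_PP, xECx_PP]
    simp only [Algebra.algebraMap_self, RingHom.id_apply, map_add, map_mul, map_pow]
    ring
  rw [this]
  exact xECx_mul (O.add_mem _ _ (hC _) (O.mul_mem _ _ (hC _) (O.add_mem _ _ hu (hC _)))) h

/-- the moving point -/
noncomputable def xECx_y (κ : Vec ℂ) (z u t : K) : Vec K :=
  ![z, z * u,
    (1 - z * (1 + u * algebraMap ℂ K (κ 1))) / (algebraMap ℂ K (κ 2) + t * algebraMap ℂ K (κ 3)),
    (1 - z * (1 + u * algebraMap ℂ K (κ 1))) / (algebraMap ℂ K (κ 2) + t * algebraMap ℂ K (κ 3))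
      * t]

theorem xECx_Sm (κ : Vec ℂ) {z u t s : K} (E : Derivation ℂ K K) (hz : E z = 0) (hu : E u = s) :
    Sm (xECx_y κ z u t) (E ∘ xECx_y κ z u t) = z ^ 2 * s := by
  simp only [Sm, xECx_y, Function.comp, cons_val_zero, cons_val_one, Derivation.leibniz, hz, hu,
    smul_eq_mul]
  ring

theorem xECx_Sp (κ : Vec ℂ) {z u t w : K} (E : Derivation ℂ K K) (ht : E t = -w) :
    Sp (xECx_y κ z u t) (E ∘ xECx_y κ z u t) = (xECx_y κ z u t 2) ^ 2 * w := by
  have h3 : xECx_y κ z u t 3 = xECx_y κ z u t 2 * t := rfl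
  simp only [Sp, Function.comp, h3, Derivation.leibniz, ht, smul_eq_mul]
  ring

end alg

section tower
variable {K₀ K : Type} [Field K₀] [Algebra ℂ K₀] [Field K] [Algebra ℂ K] [Algebra K₀ K]
  [IsScalarTower ℂ K₀ K] {c : Fin 3 → Fin 3 → ℂ} {κ : Vec ℂ} {u s t : K₀} {z : K}

theorem xECx_map_aeval (p : ℂ[X]) (u : K₀) :
    aeval (algebraMap K₀ K u) p = algebraMap K₀ K (aeval u p) :=
  aeval_algebraMap_apply K u p

theorem xECx_map_C (a : ℂ) : algebraMap ℂ K a = algebraMap K₀ K (algebraMap ℂ K₀ a) :=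
  IsScalarTower.algebraMap_apply ℂ K₀ K a

theorem xECx_map_cu (c : Fin 3 → Fin 3 → ℂ) (u t : K₀) :
    cu c (algebraMap K₀ K u) (algebraMap K₀ K t) = algebraMap K₀ K (cu c u t) := by
  simp only [cu, xECx_map_aeval, map_add, map_mul, map_pow]

theorem xECx_beta (hb : algebraMap ℂ K₀ (κ 2) + t * algebraMap ℂ K₀ (κ 3) ≠ 0) {z₀ β₀ : K₀}
    (h : z₀ * (1 + u * algebraMap ℂ K₀ (κ 1)) +
      β₀ * (algebraMap ℂ K₀ (κ 2) + t * algebraMap ℂ K₀ (κ 3)) = 1) :
    xECx_y κ z (algebraMap K₀ K u) (algebraMap K₀ K t) 2 = algebraMap K₀ K β₀ +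
      algebraMap K₀ K (-((1 + u * algebraMap ℂ K₀ (κ 1)) /
        (algebraMap ℂ K₀ (κ 2) + t * algebraMap ℂ K₀ (κ 3)))) * (z - algebraMap K₀ K z₀) := by
  have hb' : algebraMap ℂ K (κ 2) + algebraMap K₀ K t * algebraMap ℂ K (κ 3) ≠ 0 := by
    have := (_root_.map_ne_zero (algebraMap K₀ K)).2 hb
    simpa only [map_add, map_mul, ← xECx_map_C] using this
  have h' := congrArg (algebraMap K₀ K) h
  simp only [map_add, map_mul, map_one, ← xECx_map_C] at h'
  change (1 - z * (1 + _ * _)) / _ = _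
  simp only [map_add, map_mul, map_one, map_neg, map_div₀, ← xECx_map_C]
  field_simp
  linear_combination -h'

theorem xECx_chart (hd : (Dsc c).natDegree = 4) (hs : IsCoprime (Dsc c) (derivative (Dsc c)))
    (ht : aeval u (PP c 2) * t ^ 2 + aeval u (PP c 1) * t + aeval u (PP c 0) = 0)
    (hst : s = 2 * aeval u (PP c 2) * t + aeval u (PP c 1))
    (hb : algebraMap ℂ K₀ (κ 2) + t * algebraMap ℂ K₀ (κ 3) ≠ 0)
    (E : Derivation ℂ K K) (Ez : E z = 0) (Eu : E (algebraMap K₀ K u) = algebraMap K₀ K s)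
    (Et : E (algebraMap K₀ K t) = -cu c (algebraMap K₀ K u) (algebraMap K₀ K t))
    {O₀ : ValuationSubring K₀} (hC : ∀ a : ℂ, algebraMap ℂ K₀ a ∈ O₀) {z₀ β₀ : K₀}
    (h : z₀ * (1 + u * algebraMap ℂ K₀ (κ 1)) +
      β₀ * (algebraMap ℂ K₀ (κ 2) + t * algebraMap ℂ K₀ (κ 3)) = 1)
    (m₀ : z₀ ∈ O₀) (m₁ : z₀ * u ∈ O₀) (m₂ : β₀ ∈ O₀) (m₃ : β₀ * t ∈ O₀)
    (hz : ∃ e₀ ∈ O₀, ∃ e₁ ∈ O₀, z₀ * e₀ + z₀ * u * e₁ = 1)
    (hβ : ∃ e₂ ∈ O₀, ∃ e₃ ∈ O₀, β₀ * e₂ + β₀ * t * e₃ = 1)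
    {O : ValuationSubring K} (hO : ∀ a : K₀, algebraMap K₀ K a ∈ O ↔ a ∈ O₀)
    (hsm : ∀ a : K₀, O.valuation (algebraMap K₀ K a * (z - algebraMap K₀ K z₀)) < 1) :
    Chart O (xECx_y κ z (algebraMap K₀ K u) (algebraMap K₀ K t))
      (E ∘ xECx_y κ z (algebraMap K₀ K u) (algebraMap K₀ K t)) := by
  have hC' : ∀ a : ℂ, algebraMap ℂ K a ∈ O := fun a => by
    rw [xECx_map_C (K₀ := K₀)]; exact (hO _).2 (hC a)
  have hβe := xECx_beta (K := K) (z := z) hb h
  set β := xECx_y κ z (algebraMap K₀ K u) (algebraMap K₀ K t) 2 with hβdef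
  set r := -((1 + u * algebraMap ℂ K₀ (κ 1)) /
    (algebraMap ℂ K₀ (κ 2) + t * algebraMap ℂ K₀ (κ 3))) with hr
  have n₀ : z ∈ O := by
    have := O.add_mem _ _ ((hO _).2 m₀) (xECx_mem (hsm 1))
    simpa using this
  have n₁ : z * algebraMap K₀ K u ∈ O := by
    have := O.add_mem _ _ ((hO _).2 m₁) (xECx_mem (hsm u))
    convert this using 1
    rw [map_mul]; ring
  have n₂ : β ∈ O := by
    rw [hβe]; exact O.add_mem _ _ ((hO _).2 m₂) (xECx_mem (hsm r))
  have n₃ : β * algebraMap K₀ K t ∈ O := by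
    have := O.add_mem _ _ ((hO _).2 m₃) (xECx_mem (hsm (r * t)))
    convert this using 1
    rw [hβe, map_mul, map_mul]; ring
  have nz : ∃ e₀ ∈ O, ∃ e₁ ∈ O, z * e₀ + z * algebraMap K₀ K u * e₁ = 1 := by
    obtain ⟨e₀, he₀, e₁, he₁, he⟩ := hz
    have he' := congrArg (algebraMap K₀ K) he
    simp only [map_add, map_mul, map_one] at he'
    have hw : O.valuation (z * algebraMap K₀ K e₀ +
        z * algebraMap K₀ K u * algebraMap K₀ K e₁ - 1) < 1 := by
      convert hsm (e₀ + u * e₁) using 2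
      rw [map_add, map_mul]; linear_combination he'
    obtain ⟨w0, w1⟩ := xECx_unit hw
    refine ⟨_, O.mul_mem _ _ ((hO _).2 he₀) w1, _, O.mul_mem _ _ ((hO _).2 he₁) w1, ?_⟩
    rw [← mul_assoc, ← mul_assoc, ← add_mul, mul_inv_cancel₀ w0]
  have nβ : ∃ e₂ ∈ O, ∃ e₃ ∈ O, β * e₂ + β * algebraMap K₀ K t * e₃ = 1 := by
    obtain ⟨e₀, he₀, e₁, he₁, he⟩ := hβ
    have he' := congrArg (algebraMap K₀ K) he
    simp only [map_add, map_mul, map_one] at he'
    have hw : O.valuation (β * algebraMap K₀ K e₀ +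
        β * algebraMap K₀ K t * algebraMap K₀ K e₁ - 1) < 1 := by
      convert hsm (r * (e₀ + t * e₁)) using 2
      rw [hβe, map_mul, map_add, map_mul]; linear_combination he'
    obtain ⟨w0, w1⟩ := xECx_unit hw
    refine ⟨_, O.mul_mem _ _ ((hO _).2 he₀) w1, _, O.mul_mem _ _ ((hO _).2 he₁) w1, ?_⟩
    rw [← mul_assoc, ← mul_assoc, ← add_mul, mul_inv_cancel₀ w0]
  have ht' : aeval (algebraMap K₀ K u) (PP c 2) * (algebraMap K₀ K t) ^ 2 +
      aeval (algebraMap K₀ K u) (PP c 1) * algebraMap K₀ K t +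
      aeval (algebraMap K₀ K u) (PP c 0) = 0 := by
    have := congrArg (algebraMap K₀ K) ht
    simpa only [xECx_map_aeval, map_add, map_mul, map_pow, map_zero] using this
  have hst' : algebraMap K₀ K s = 2 * aeval (algebraMap K₀ K u) (PP c 2) * algebraMap K₀ K t +
      aeval (algebraMap K₀ K u) (PP c 1) := by
    have := congrArg (algebraMap K₀ K) hst
    simpa only [xECx_map_aeval, map_add, map_mul, map_ofNat] using this
  obtain ⟨c1, c2, c3⟩ := chart_of hd hs hC' ht' hst' n₀ n₁ n₂ n₃ nz nβ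
  have e1 := xECx_Sm κ (t := algebraMap K₀ K t) E Ez Eu
  have e2 := xECx_Sp κ (z := z) (u := algebraMap K₀ K u) E Et
  refine ⟨hC', fun i => ?_, nz, nβ, e1 ▸ c1, e2 ▸ c2, ?_⟩
  · fin_cases i
    exacts [n₀, n₁, n₂, n₃]
  · rw [e1, e2]; exact c3

omit [IsScalarTower ℂ K₀ K] in
theorem xECx_lin (D E : Derivation ℂ K K) (E₀ : Derivation ℂ K₀ K₀)
    (hD : ∀ a : K₀, D (algebraMap K₀ K a) = 0) (Dz : D z = 1)
    (hE : ∀ a : K₀, E (algebraMap K₀ K a) = algebraMap K₀ K (E₀ a)) (Ez : E z = 0) {x : K}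
    (p q : K₀) (hx : x = algebraMap K₀ K p + algebraMap K₀ K q * z) :
    D x = algebraMap K₀ K q ∧ D (E x) = E (D x) := by
  have h1 : D x = algebraMap K₀ K q := by
    rw [hx]; simp [Derivation.leibniz, hD, Dz]
  refine ⟨h1, ?_⟩
  rw [h1, hx]
  simp [Derivation.leibniz, hD, Dz, hE, Ez]

theorem xECx_main {y : Vec ℂ} (h : CurveOK c κ y) (hF : IsFF (Dsc c) u s) (E₀ : Derivation ℂ K₀ K₀)
    (ht : aeval u (PP c 2) * t ^ 2 + aeval u (PP c 1) * t + aeval u (PP c 0) = 0)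
    (hst : s = 2 * aeval u (PP c 2) * t + aeval u (PP c 1))
    (hb : algebraMap ℂ K₀ (κ 2) + t * algebraMap ℂ K₀ (κ 3) ≠ 0)
    (E0u : E₀ u = s) (E0t : E₀ t = -cu c u t)
    {O₀ : ValuationSubring K₀} (hC : ∀ a : ℂ, algebraMap ℂ K₀ a ∈ O₀) {β₀ : K₀}
    (hβ₀ : algebraMap ℂ K₀ (y 0) * (1 + u * algebraMap ℂ K₀ (κ 1)) +
      β₀ * (algebraMap ℂ K₀ (κ 2) + t * algebraMap ℂ K₀ (κ 3)) = 1)
    (s₁ : O₀.valuation (algebraMap ℂ K₀ (y 0) * u - algebraMap ℂ K₀ (y 1)) < 1)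
    (s₂ : O₀.valuation (β₀ - algebraMap ℂ K₀ (y 2)) < 1)
    (s₃ : O₀.valuation (β₀ * t - algebraMap ℂ K₀ (y 3)) < 1)
    (D E : Derivation ℂ K K) (hD : ∀ a : K₀, D (algebraMap K₀ K a) = 0) (Dz : D z = 1)
    (hE : ∀ a : K₀, E (algebraMap K₀ K a) = algebraMap K₀ K (E₀ a)) (Ez : E z = 0)
    (hker : ∀ b, D b = 0 → ∃ a : K₀, b = algebraMap K₀ K a)
    (hpl : ∀ (O₀ : ValuationSubring K₀) (z₀ : K₀), ∃ O : ValuationSubring K,
      (∀ a : K₀, algebraMap K₀ K a ∈ O ↔ a ∈ O₀) ∧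
      ∀ a : K₀, O.valuation (algebraMap K₀ K a * (z - algebraMap K₀ K z₀)) < 1) :
    EC c κ y (xECx_y κ z (algebraMap K₀ K u) (algebraMap K₀ K t)) D E := by
  have hu0 : u ≠ 0 := fun h0 => X_ne_zero (hF.indep X 0 (by simp [h0])).1
  have hz0 : z ≠ 0 := fun h0 => by simp [h0] at Dz
  have Eu : E (algebraMap K₀ K u) = algebraMap K₀ K s := by rw [hE, E0u]
  have Et : E (algebraMap K₀ K t) = -cu c (algebraMap K₀ K u) (algebraMap K₀ K t) := by
    rw [hE, E0t, xECx_map_cu, map_neg]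
  have hβe := xECx_beta (K := K) (z := z) hb hβ₀
  have hchart := fun {O₀ : ValuationSubring K₀} hC {z₀ β₀ : K₀} =>
    xECx_chart (K := K) (z := z) (κ := κ) h.deg h.sqf ht hst hb E Ez Eu Et (O₀ := O₀) hC
      (z₀ := z₀) (β₀ := β₀)
  have e1 := xECx_Sm κ (t := algebraMap K₀ K t) E Ez Eu
  have e2 := xECx_Sp κ (z := z) (u := algebraMap K₀ K u) E Et
  have ht' : aeval (algebraMap K₀ K u) (PP c 2) * (algebraMap K₀ K t) ^ 2 +
      aeval (algebraMap K₀ K u) (PP c 1) * algebraMap K₀ K t +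
      aeval (algebraMap K₀ K u) (PP c 0) = 0 := by
    have := congrArg (algebraMap K₀ K) ht
    simpa only [xECx_map_aeval, map_add, map_mul, map_pow, map_zero] using this
  have hst' : algebraMap K₀ K s = 2 * aeval (algebraMap K₀ K u) (PP c 2) * algebraMap K₀ K t +
      aeval (algebraMap K₀ K u) (PP c 1) := by
    have := congrArg (algebraMap K₀ K) hst
    simpa only [xECx_map_aeval, map_add, map_mul, map_ofNat] using this
  have hb' : algebraMap ℂ K (κ 2) + algebraMap K₀ K t * algebraMap ℂ K (κ 3) ≠ 0 := by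
    have := (_root_.map_ne_zero (algebraMap K₀ K)).2 hb
    simpa only [map_add, map_mul, ← xECx_map_C] using this
  set U := algebraMap K₀ K u with hU
  set T := algebraMap K₀ K t with hT
  set y' := xECx_y κ z U T with hy'
  have q0 : y' 0 = z := rfl
  have q1 : y' 1 = z * U := rfl
  have q3 : y' 3 = y' 2 * T := rfl
  have hsum : z * (1 + U * algebraMap ℂ K (κ 1)) +
      y' 2 * (algebraMap ℂ K (κ 2) + T * algebraMap ℂ K (κ 3)) = 1 := by
    change _ + (1 - _) / _ * _ = 1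
    rw [div_mul_cancel₀ _ hb']; ring
  set r := -((1 + u * algebraMap ℂ K₀ (κ 1)) /
    (algebraMap ℂ K₀ (κ 2) + t * algebraMap ℂ K₀ (κ 3))) with hr
  have hrb : algebraMap K₀ K r * (algebraMap ℂ K (κ 2) + T * algebraMap ℂ K (κ 3)) =
      -(1 + U * algebraMap ℂ K (κ 1)) := by
    simp only [hr, map_neg, map_div₀, map_add, map_mul, map_one, ← xECx_map_C, ← hU, ← hT]
    field_simp
  have l0 := xECx_lin D E E₀ hD Dz hE Ez (x := y' 0) 0 1 (by simp [q0])
  have l1 := xECx_lin D E E₀ hD Dz hE Ez (x := y' 1) 0 u (by rw [q1, map_zero]; ring)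
  have l2 := xECx_lin D E E₀ hD Dz hE Ez (x := y' 2) (β₀ - r * algebraMap ℂ K₀ (y 0)) r
    (by rw [hβe, map_sub, map_mul]; ring)
  have l3 := xECx_lin D E E₀ hD Dz hE Ez (x := y' 3) ((β₀ - r * algebraMap ℂ K₀ (y 0)) * t)
    (r * t) (by rw [q3, hβe, map_mul, map_sub, map_mul, map_mul]; ring)
  have hβ0 : y' 2 ≠ 0 := fun h0 => by
    have h1 : algebraMap K₀ K r = 0 := by rw [← l2.1, h0, map_zero]
    rw [h1, zero_mul, eq_comm, neg_eq_zero] at hrb
    rw [h0, hrb] at hsum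
    simp at hsum
  rw [xECx_PP, xECx_PP, xECx_PP] at ht'
  rw [xECx_PP, xECx_PP] at hst'
  refine ⟨?_, ?_, hz0, mul_ne_zero hz0 ((_root_.map_ne_zero _).2 hu0), ?_, fun i => ?_, Ez, fun p => ?_,
    fun q => ?_, ?_, fun a ρ ha h₀ h₁ => ?_⟩
  · simp only [dotProduct, Fin.sum_univ_four, Function.comp, h.κ0, map_one, q0, q1, q3]
    linear_combination hsum
  · simp only [bq, Fin.sum_univ_three, mon, vlo, vhi, q0, q1, q3, cons_val_zero, cons_val_one,
      cons_val]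
    linear_combination (z ^ 2 * y' 2 ^ 2) * ht'
  · refine ⟨z⁻¹, algebraMap K₀ K r / y' 2, fun hd => ?_, ?_, ?_, ?_, ?_⟩
    · have h1 : y' 2 = algebraMap K₀ K r * z := by
        field_simp at hd; linear_combination hd
      rw [h1] at hsum
      have : (0 : K) = 1 := by linear_combination hsum - z * hrb
      exact zero_ne_one this
    · rw [l0.1, q0, map_one, inv_mul_cancel₀ hz0]
    · rw [l1.1, q1, ← mul_assoc, inv_mul_cancel₀ hz0, one_mul]
    · rw [l2.1, div_mul_cancel₀ _ hβ0]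
    · rw [l3.1, q3, ← mul_assoc, div_mul_cancel₀ _ hβ0, map_mul]
  · fin_cases i
    exacts [l0.2, l1.2, l2.2, l3.2]
  · rw [e2]
    simp only [bq, Fin.sum_univ_three, mon, vlo, vhi, q0, q1, q3, cons_val_zero, cons_val_one,
      cons_val, Pi.add_apply, Pi.sub_apply, cu, xECx_dPP]
    linear_combination (4 * z * p 0 * y' 2 ^ 2) * ht'
  · rw [e1, hst']
    simp only [bq, Fin.sum_univ_three, mon, vlo, vhi, q0, q1, q3, cons_val_zero, cons_val_one,
      cons_val, Pi.add_apply, Pi.sub_apply]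
    linear_combination (4 * y' 2 * q 0 * z ^ 2) * ht'
  · obtain ⟨O, hO, hsm⟩ := hpl O₀ (algebraMap ℂ K₀ (y 0))
    have mem : ∀ {x : K₀} {a : ℂ}, O₀.valuation (x - algebraMap ℂ K₀ a) < 1 → x ∈ O₀ :=
      fun {x a} hx => by simpa using O₀.add_mem _ _ (xECx_mem hx) (hC a)
    have tr : ∀ {x : K₀}, O₀.valuation x < 1 → O.valuation (algebraMap K₀ K x) < 1 :=
      fun {x} hx => by
        rw [xECx_small_iff] at hx ⊢
        rw [← map_inv₀, hO, map_eq_zero]; exact hx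
    have y2' : algebraMap ℂ K₀ (y 2) ≠ 0 := (_root_.map_ne_zero _).2 h.y2
    obtain ⟨b0, b1⟩ := xECx_unit' y2' (by rw [← map_inv₀]; exact hC _) s₂
    refine ⟨O, hchart hC hβ₀ (hC _) (mem s₁) (mem s₂) (mem s₃)
      ⟨_, hC (y 0)⁻¹, 0, O₀.zero_mem, ?_⟩ ⟨_, b1, 0, O₀.zero_mem, ?_⟩ hO hsm, fun i => ?_⟩
    · rw [← map_mul, mul_inv_cancel₀ h.y0, map_one, mul_zero, add_zero]
    · rw [mul_inv_cancel₀ b0, mul_zero, add_zero]
    · rw [xECx_map_C (K₀ := K₀)]
      fin_cases i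
      · simpa [q0] using hsm 1
      · convert xECx_add (hsm u) (tr s₁) using 2
        change z * U - algebraMap K₀ K (algebraMap ℂ K₀ (y 1)) = _
        rw [map_sub, map_mul]; ring
      · convert xECx_add (hsm r) (tr s₂) using 2
        change y' 2 - algebraMap K₀ K (algebraMap ℂ K₀ (y 2)) = _
        rw [hβe, map_sub]; ring
      · convert xECx_add (hsm (r * t)) (tr s₃) using 2
        change y' 2 * T - algebraMap K₀ K (algebraMap ℂ K₀ (y 3)) = _
        rw [hβe, map_sub, map_mul, map_mul]; ring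
  · obtain ⟨a₀, rfl⟩ := hker a ha
    have key : ∀ (O₀ : ValuationSubring K₀) (z₀ w : K₀) (O : ValuationSubring K), z₀ ≠ 0 →
        (z₀ * w)⁻¹ ∈ O₀ → (∀ a : K₀, algebraMap K₀ K a ∈ O ↔ a ∈ O₀) →
        (∀ a : K₀, O.valuation (algebraMap K₀ K a * (z - algebraMap K₀ K z₀)) < 1) →
        (z * algebraMap K₀ K w)⁻¹ ∈ O := fun O₀ z₀ w O hz₀ hw hO hsm => by
      have hz₀' : algebraMap K₀ K z₀ ≠ 0 := (_root_.map_ne_zero _).2 hz₀
      have h2 : O.valuation ((algebraMap K₀ K z₀)⁻¹ * z - 1) < 1 := by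
        convert hsm z₀⁻¹ using 2
        rw [map_inv₀]; field_simp
      have h3 := O.mul_mem _ _ (xECx_unit h2).2 ((hO _).2 hw)
      convert h3 using 1
      rw [map_inv₀, map_mul, ← mul_inv]
      congr 1
      field_simp
    have := hF.const h.deg h.sqf a₀ ρ (fun O₀ hC hu => ?_) (fun O₀ hC hu => ?_)
    · obtain ⟨h2, a₁, h3⟩ := this
      exact ⟨h2, a₁, by rw [h3, ← xECx_map_C]⟩
    · obtain ⟨z₀, β₁, g0, g1, g2, g3, g4, g5, g6, -, g8⟩ := exists_rep h.cκ hC ht hb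
      obtain ⟨O, hO, hsm⟩ := hpl O₀ z₀
      refine (hO _).1 (h₀ O (hchart hC g0 g1 g2 g3 g4 ⟨_, g6 hu, 0, O₀.zero_mem, ?_⟩ g8 hO hsm) ?_)
      · rw [mul_inv_cancel₀ g5, mul_zero, add_zero]
      · have := key O₀ z₀ 1 O g5 (by rw [mul_one]; exact g6 hu) hO hsm
        rwa [map_one, mul_one] at this
    · obtain ⟨z₀, β₁, g0, g1, g2, g3, g4, g5, -, g7, g8⟩ := exists_rep h.cκ hC ht hb
      obtain ⟨O, hO, hsm⟩ := hpl O₀ z₀
      have h2 := h₁ O (hchart hC g0 g1 g2 g3 g4 ⟨0, O₀.zero_mem, _, g7 hu, ?_⟩ g8 hO hsm)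
        (key O₀ z₀ u O g5 (g7 hu) hO hsm)
      · rw [← hO]
        convert h2 using 1
        have hU0 : U ≠ 0 := (_root_.map_ne_zero _).2 hu0
        rw [q1, Derivation.leibniz, Ez, Eu, map_sub, map_mul, map_div₀, ← xECx_map_C, ← hU]
        simp only [smul_eq_mul]
        field_simp
        ring
      · rw [mul_inv_cancel₀ (mul_ne_zero g5 hu0), mul_zero, zero_add]

end tower

theorem exists_EC {c : Fin 3 → Fin 3 → ℂ} {κ y : Vec ℂ} (h : CurveOK c κ y) :
    ∃ (K : Type) (_ : Field K) (_ : Algebra ℂ K) (y' : Vec K) (D E : Derivation ℂ K K),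
      EC c κ y y' D E := by
  obtain ⟨K₀, _, _, u, s, E₀, hF, E0u⟩ := exists_FF (Dsc c) h.deg h.sqf
  obtain ⟨D, E, hD, Dz, hE, Ez, hker⟩ := ratFunc_der E₀
  have y0 := h.y0
  have y2 := h.y2
  set u₀ := y 1 / y 0 with hu₀
  set t₀ := y 3 / y 2 with ht₀
  have hA₀ : aeval u₀ (PP c 2) ≠ 0 := fun h0 => h.cA (by
    rw [xECx_PP, hu₀] at h0
    simp only [Algebra.algebraMap_self, RingHom.id_apply] at h0
    simp only [bq, Fin.sum_univ_three, mon, vlo, cons_val_zero, cons_val_one, cons_val]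
    field_simp at h0
    linear_combination h0)
  have hcy : aeval u₀ (PP c 2) * t₀ ^ 2 + aeval u₀ (PP c 1) * t₀ + aeval u₀ (PP c 0) = 0 := by
    have h0 := h.cy
    simp only [bq, Fin.sum_univ_three, mon, vlo, vhi, cons_val_zero, cons_val_one, cons_val] at h0
    rw [xECx_PP, xECx_PP, xECx_PP, hu₀, ht₀]
    simp only [Algebra.algebraMap_self, RingHom.id_apply]
    field_simp
    linear_combination h0
  have hA : aeval u (PP c 2) ≠ 0 := fun h0 =>
    hA₀ (by rw [(hF.indep (PP c 2) 0 (by simp [h0])).1, map_zero])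
  have hs0 : s ≠ 0 := fun h0 => one_ne_zero (hF.indep 0 1 (by simp [h0])).2
  have h2 : (2 : K₀) ≠ 0 := by
    have := (_root_.map_ne_zero (algebraMap ℂ K₀)).2 (two_ne_zero (α := ℂ))
    rwa [map_ofNat] at this
  obtain ⟨t, htdef⟩ : ∃ t : K₀, t = (s - aeval u (PP c 1)) / (2 * aeval u (PP c 2)) := ⟨_, rfl⟩
  have hst : s = 2 * aeval u (PP c 2) * t + aeval u (PP c 1) := by
    rw [htdef]; field_simp; ring
  have ht : aeval u (PP c 2) * t ^ 2 + aeval u (PP c 1) * t + aeval u (PP c 0) = 0 := by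
    have h1 := hF.sq
    simp only [Dsc, map_sub, map_mul, map_pow, map_ofNat] at h1
    apply mul_left_cancel₀ (mul_ne_zero (mul_ne_zero h2 h2) hA)
    rw [hst] at h1
    linear_combination h1
  have E0t : E₀ t = -cu c u t := by
    have h1 := congrArg E₀ ht
    simp only [map_add, Derivation.leibniz, Derivation.leibniz_pow, Derivation.map_aeval, E0u,
      smul_eq_mul, map_zero, nsmul_eq_mul] at h1
    apply mul_left_cancel₀ hs0
    rw [cu]
    push_cast at h1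
    linear_combination h1 + E₀ t * hst
  obtain ⟨O₀, hC, su, ss⟩ := hF.point u₀ (2 * aeval u₀ (PP c 2) * t₀ + aeval u₀ (PP c 1)) (by
    rw [← coe_aeval_eq_eval]
    simp only [Dsc, map_sub, map_mul, map_pow, map_ofNat]
    linear_combination 4 * aeval u₀ (PP c 2) * hcy)
  have sA := xECx_aeval_small hC c 2 su
  have sB := xECx_aeval_small hC c 1 su
  have hCi : ∀ a : ℂ, (algebraMap ℂ K₀ a)⁻¹ ∈ O₀ := fun a => by rw [← map_inv₀]; exact hC _
  have h2O : (2 : K₀) ∈ O₀ := by simpa only [map_ofNat] using hC 2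
  have h2O' : (2 : K₀)⁻¹ ∈ O₀ := by simpa only [map_ofNat] using hCi 2
  have hAi := (xECx_unit' ((_root_.map_ne_zero _).2 hA₀) (hCi _) sA).2
  have st : O₀.valuation (t - algebraMap ℂ K₀ t₀) < 1 := by
    convert xECx_mul (O₀.mul_mem _ _ h2O' hAi)
      (xECx_sub (xECx_sub ss sB) (xECx_mul (O₀.mul_mem _ _ h2O (hC t₀)) sA)) using 2
    rw [hst]
    simp only [map_add, map_mul, map_ofNat]
    field_simp
    ring
  have sb : O₀.valuation (algebraMap ℂ K₀ (κ 2) + t * algebraMap ℂ K₀ (κ 3) -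
      algebraMap ℂ K₀ ((y 2 * κ 2 + y 3 * κ 3) / y 2)) < 1 := by
    convert xECx_mul (hC (κ 3)) st using 2
    have : (y 2 * κ 2 + y 3 * κ 3) / y 2 = κ 2 + t₀ * κ 3 := by rw [ht₀]; field_simp
    rw [this, map_add, map_mul]; ring
  obtain ⟨hb, hbi⟩ := xECx_unit' ((_root_.map_ne_zero _).2 (div_ne_zero h.yκ' y2)) (hCi _) sb
  have e1 : algebraMap ℂ K₀ (y 1) = algebraMap ℂ K₀ (y 0) * algebraMap ℂ K₀ u₀ := by
    rw [← map_mul, hu₀, mul_div_cancel₀ _ y0]
  have e3 : algebraMap ℂ K₀ (y 3) = algebraMap ℂ K₀ (y 2) * algebraMap ℂ K₀ t₀ := by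
    rw [← map_mul, ht₀, mul_div_cancel₀ _ y2]
  have e4 := congrArg (algebraMap ℂ K₀) h.yκ
  simp only [dotProduct, Fin.sum_univ_four, h.κ0, map_add, map_mul, map_one, e1, e3] at e4
  obtain ⟨β₀, hβdef⟩ : ∃ β₀ : K₀, β₀ = (1 - algebraMap ℂ K₀ (y 0) *
    (1 + u * algebraMap ℂ K₀ (κ 1))) / (algebraMap ℂ K₀ (κ 2) + t * algebraMap ℂ K₀ (κ 3)) :=
    ⟨_, rfl⟩
  have hβ₀ : algebraMap ℂ K₀ (y 0) * (1 + u * algebraMap ℂ K₀ (κ 1)) +
      β₀ * (algebraMap ℂ K₀ (κ 2) + t * algebraMap ℂ K₀ (κ 3)) = 1 := by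
    rw [hβdef, div_mul_cancel₀ _ hb]; ring
  have s₂ : O₀.valuation (β₀ - algebraMap ℂ K₀ (y 2)) < 1 := by
    convert xECx_mul hbi (xECx_add
      (xECx_mul (O₀.neg_mem _ (O₀.mul_mem _ _ (hC (y 0)) (hC (κ 1)))) su)
      (xECx_mul (O₀.neg_mem _ (O₀.mul_mem _ _ (hC (y 2)) (hC (κ 3)))) st)) using 2
    rw [eq_inv_mul_iff_mul_eq₀ hb]
    linear_combination hβ₀ - e4
  have ht_mem : t ∈ O₀ := by simpa using O₀.add_mem _ _ (xECx_mem st) (hC t₀)
  refine ⟨RatFunc K₀, inferInstance, inferInstance, _, D, E,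
    xECx_main h hF E₀ ht hst hb E0u E0t hC hβ₀ ?_ s₂ ?_ D E hD Dz hE Ez hker ratFunc_place⟩
  · convert xECx_mul (hC (y 0)) su using 2
    rw [e1]; ring
  · convert xECx_add (xECx_mul ht_mem s₂) (xECx_mul (hC (y 2)) st) using 2
    rw [e3]; ring

end Pool.Agent.MP_d920b6_mp.Cx

end

section

/-! No complete family in bi-involution exists. -/

namespace Pool.Agent.MP_d920b6_mp.Cx

open Matrix Polynomial

theorem no_fam (F : Fam) : False := by
  obtain ⟨ξ, v, κ, y, t, hB, hp⟩ := exists_base F.p F.p0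
  obtain ⟨K, _, _, y', D, E, hE⟩ := exists_EC hB.ok
  have : CharZero K := charZero_of_injective_algebraMap (algebraMap ℂ K).injective
  obtain ⟨u, hu⟩ := hB.exists_u hE
  obtain ⟨O₀, hO₀, hs⟩ := hE.base
  obtain ⟨m₀, hm₀', hm₀⟩ := hB.exists_m
  have hG := (hB.good hE hu hO₀).top
  obtain ⟨m, φ₁, φ₂, -, hm1, hm2, hsol, -, sφ⟩ := hB.chart_sol hE hu ξ hO₀
  obtain ⟨W, m', ψ₁, ψ₂, mW, hW, em', -, hm', hδ, hδ'⟩ := hB.twist hE hu hm₀ hO₀ 0 (.inl rfl)
    hE.y0 (inv_mem_of_val hO₀.hC hB.ok.y0 (hs 0))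
  have hY : InA (cst K κ) (YK v κ y y' u) := inA_YY hB.wκK hu.uκ
  have hS := step_eq (y := cst K y) hB.wκK hu.uκ hu.eq
  obtain ⟨s1, s2, s3, s4⟩ := der_YY (u := u) E (der_cst E v) (der_cst E κ) (der_cst E y) hB.wκK
    hE.yκ rfl
  obtain ⟨d1, d2, -, -⟩ := der_YY (u := u) D (der_cst D v) (der_cst D κ) (der_cst D y) hB.wκK
    hE.yκ rfl
  obtain ⟨hν, hEv⟩ := step_act E (der_cst E v) (der_cst E κ) hY hS rfl
  obtain ⟨hDY, hDv⟩ := step_act D (der_cst D v) (der_cst D κ) hY hS rfl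
  set v' := vK v κ y y' u with hv'
  set Y := YK v κ y y' u with hYdef
  have hθ : coad (th y' m) v' = 0 := coad_th hG.gw.yw hm1
  have hθν : th y' m ⬝ᵥ act (E ∘ Y) aV = 1 := by
    rw [th_act hE.yκ s2 s1, ← dotProduct_mulVec, hm2, neg_neg]
  obtain ⟨d₁, d₂, -, a0, a1, a2, a3⟩ := hE.Dy
  have hm3 : y' 2 * (wP v' *ᵥ m) 2 + y' 3 * (wP v' *ᵥ m) 3 = 0 := by
    have : y' ⬝ᵥ (wP v' *ᵥ m) = 0 := by rw [dotProduct_mulVec, hG.gw.yw, zero_dotProduct]
    rw [dotProduct, Fin.sum_univ_four] at this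
    linear_combination this - hm1
  obtain ⟨X, hX⟩ := hG.partner hθ hν (by rw [hθν]; exact one_ne_zero) hDY (by
    rw [th_act hE.yκ d2 d1, ← dotProduct_mulVec, dotProduct, Fin.sum_univ_four]
    simp only [Function.comp_apply, a0, a1, a2, a3]
    linear_combination -d₁ * hm1 - d₂ * hm3)
  have hX' : act X v' = D ∘ v' := hX.symm.trans hDv.symm
  have he : coad (th y' m) aV ⬝ᵥ (kbr X (E ∘ Y) - D ∘ E ∘ Y) = 0 := by
    refine th_drift D (der_cst D κ) hG.gw (ω := -((D ∘ y') ᵥ* wP v')) (e₁ := E d₁) (e₂ := E d₂)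
      hX' ?_ s2 s1 a0 a1 a2 a3 ?_ ?_ ?_ ?_ hm1 hm2
    · rw [← wP_comp, hDv, act_aV, wP_mkV, d2, d1, zero_smul, zero_sub, vecMulVec_neg]
    all_goals
      simp only [Function.comp_apply, hE.comm, a0, a1, a2, a3, Derivation.leibniz, smul_eq_mul]
      ring
  have hb : dl y' m' ⬝ᵥ (kbr X (E ∘ Y) - D ∘ E ∘ Y) = 0 :=
    dl_drift D (der_cst D κ) hE.yκ hX' s2 s3 s1 s4 hm' hE.E0
  -- the twisted solutions
  have hξ : ∀ (Δ : Derivation ℂ K K) (r : ℂ),
      Δ ∘ (cst K ξ + algebraMap ℂ K r • cst K (dl y m₀)) = 0 := fun Δ r => by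
    funext i; simp
  have hpK : ∀ r : ℂ,
      MvPolynomial.aeval (Sum.elim ξ v + t • aI + r • Sum.elim (dl y m₀) 0) F.p ≠ 0 →
      MvPolynomial.aeval (pt (cst K ξ + algebraMap ℂ K r • cst K (dl y m₀)) v'
        (φ₁ + algebraMap ℂ K r • ψ₁) + algebraMap ℂ K t • aI) F.p ≠ 0 := fun r hr => by
    refine aeval_ne_zero_of_val hO₀.hC (fun i => ?_) hr
    have ea : ∀ i, algebraMap ℂ K (aI i) = aI i := fun i => congrFun (comp_aI (algebraMap ℂ K)) i
    rw [pt, pt_twist hδ']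
    rcases i with i | i
    · have h1 := coad_val (sφ hs) (aV_mem (S := O₀.toSubring)) i
      have h2 := val_mul_lt (hB.twist_small hu hm₀' hO₀ hs mW hW i) (hO₀.hC r)
      rw [← em'] at h2
      convert O₀.valuation.map_add_lt h1 h2 using 2
      simp only [Pi.add_apply, Pi.smul_apply, Pi.sub_apply, Sum.elim_inl, smul_eq_mul, map_add,
        map_mul, ea, cst, Function.comp_apply]
      ring
    · convert act_val (hB.YK_small hu hO₀ hs) (aV_mem (S := O₀.toSubring)) i using 2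
      simp only [Pi.add_apply, Pi.smul_apply, Sum.elim_inr, smul_eq_mul, map_add,
        map_mul, ea, cst, Function.comp_apply, Pi.zero_apply, map_zero, hv', vK]
      ring
  have hP := fun (r : ℂ) hr i => F.exists_poly D (hξ D r) (der_cst D v) (der_cst D κ) hY hS rfl hG
    hθ hν hθν hX' he (hsol.add_smul hδ (algebraMap ℂ K r)) t (hpK r hr) i
  choose! P hP1 hP2 hP3 using hP
  have hP2' : ∀ r : ℂ,
      MvPolynomial.aeval (Sum.elim ξ v + t • aI + r • Sum.elim (dl y m₀) 0) F.p ≠ 0 → ∀ i n,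
      D ((P r i).coeff n) = ((cst K ξ + coad φ₁ aV) ⬝ᵥ (kbr X (E ∘ Y) - D ∘ E ∘ Y)) *
        ((n + 1) * (P r i).coeff (n + 1)) := fun r hr i n => by
    rw [hP2 r hr i n, pt_twist hδ', add_dotProduct, smul_dotProduct, hb, smul_zero, add_zero]
  have hA := fun O hO hi => hB.chart_taylor hE hu hm₀ ξ t (O := O) hO 0 (.inl rfl) hE.y0 hi
  have hC := fun O hO hi => hB.chart_taylor hE hu hm₀ ξ t (O := O) hO 1 (.inr rfl) hE.y1 hi
  -- a twist at which all restrictions are constant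
  obtain ⟨r, hr, hdeg⟩ : ∃ r : ℂ,
      MvPolynomial.aeval (Sum.elim ξ v + t • aI + r • Sum.elim (dl y m₀) 0) F.p ≠ 0 ∧
      ∀ i, (P r i).natDegree = 0 := by
    by_contra hcon
    push Not at hcon
    obtain ⟨r₁, hr₁, r₂, hr₂, hne⟩ :=
      (line_finite F.p _ (Sum.elim (dl y m₀) 0) hp).infinite_compl.nontrivial
    obtain ⟨i₁, h₁⟩ := hcon r₁ hr₁
    obtain ⟨i₂, h₂⟩ := hcon r₂ hr₂
    have := hE.two (P r₁ i₁) (P r₂ i₂) _ ((r₂ - r₁) * (y ⬝ᵥ tauP v)) (hP2' r₁ hr₁ i₁)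
      (hP2' r₂ hr₂ i₂) h₁ h₂ (fun O hO hi => ?_) fun O hO hi => ?_
    · exact hne (sub_eq_zero.1 ((mul_eq_zero.1 this).resolve_right hB.x0)).symm
    · obtain ⟨T, hT⟩ := hA O hO hi
      have e1 := hT r₁ _ _ (hP1 r₁ hr₁ i₁)
      have e2 := hT r₂ _ _ (hP1 r₂ hr₂ i₂)
      rw [hE.E0, zero_div, mul_zero, sub_zero] at e1 e2
      exact ⟨T, e1, e2⟩
    · obtain ⟨T, hT⟩ := hC O hO hi
      refine ⟨_, hT r₁ _ _ (hP1 r₁ hr₁ i₁), ?_⟩
      have e2 := hT r₂ _ _ (hP1 r₂ hr₂ i₂)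
      have e : T - algebraMap ℂ K (r₁ * (y ⬝ᵥ tauP v)) * (E (y' 1) / y' 1) -
          algebraMap ℂ K ((r₂ - r₁) * (y ⬝ᵥ tauP v)) * (E (y' 1) / y' 1) =
          T - algebraMap ℂ K (r₂ * (y ⬝ᵥ tauP v)) * (E (y' 1) / y' 1) := by
        simp only [map_mul, map_sub]; ring
      rw [e]
      exact e2
  have hconst : ∀ i, ∃ a : ℂ, P r i = C (algebraMap ℂ K a) := fun i => by
    obtain ⟨a, ha⟩ := hE.lead (P r i) _ (hP2' r hr i) fun O hO hi => by
      rcases hi with hi | hi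
      · obtain ⟨T, hT⟩ := hA O hO hi
        exact ⟨_, hT r _ _ (hP1 r hr i)⟩
      · obtain ⟨T, hT⟩ := hC O hO hi
        exact ⟨_, hT r _ _ (hP1 r hr i)⟩
    refine ⟨a, ?_⟩
    rw [← ha, leadingCoeff, hdeg i]
    exact eq_C_of_natDegree_eq_zero (hdeg i)
  obtain ⟨-, hζ⟩ := step E (hξ E r) (der_cst E v) (der_cst E κ) hY hS rfl
    (hsol.add_smul hδ (algebraMap ℂ K r))
  have := F.orth _ (hpK r hr) (ζ' := Sum.elim 0 (th y' m)) (fun i => by
    obtain ⟨a, ha⟩ := hconst i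
    have e1 := der_aeval E (F.f i) (pt (cst K ξ + algebraMap ℂ K r • cst K (dl y m₀))
        (cst K v + act Y aV) (φ₁ + algebraMap ℂ K r • ψ₁) + algebraMap ℂ K t • aI)
    rw [hP1 r hr i _ _ (hsol.add_smul hδ (algebraMap ℂ K r)), ha, eval_C,
      Derivation.map_algebraMap] at e1
    rw [hζ, e1]
    congr 1
    funext j
    have := congrFun (der_aI E) j
    simp only [Function.comp_apply, Pi.zero_apply] at this
    simp [this]) fun i => by
      obtain ⟨a, ha⟩ := hconst i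
      have e1 := hP3 r hr i
      rw [ha, derivative_C, eval_zero, dotI, kp_elim, vp_elim, zero_dotProduct, add_zero,
        coad_dot] at e1
      rw [PF_aI, kp_elim, vp_elim, act_zero_left, dotProduct_zero, sub_zero, e1]
  rw [hζ, dotI, kp_elim, vp_elim, dotProduct_zero, zero_add, vp_comp, vp_pt, hEv,
    dotProduct_comm, hθν] at this
  exact one_ne_zero this

end Pool.Agent.MP_d920b6_mp.Cx

end

section

/-! The Lie algebra `k ⋉ V*`. -/

namespace Pool.Agent.MP_d920b6_mp.Cx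

open Matrix Module

/-- the underlying space of the Lie algebra -/
def LL (K : Type) : Type := II → K

variable {K : Type} [Field K]

instance : AddCommGroup (LL K) := inferInstanceAs (AddCommGroup (II → K))
instance : Module K (LL K) := inferInstanceAs (Module K (II → K))

instance : LieRing (LL K) where
  bracket := lbr
  add_lie := lbr_add_left
  lie_add := lbr_add_right
  lie_self := lbr_self
  leibniz_lie := lbr_leibniz

instance : LieAlgebra K (LL K) where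
  lie_smul := lbr_smul_right

/-- the standard basis -/
noncomputable def bLL (K : Type) [Field K] : Basis II K (LL K) := Pi.basisFun K II

/-- the covector with given coordinates -/
noncomputable def cov (x : II → K) : Dual K (LL K) := (bLL K).constr K x

theorem cov_basis (x : II → K) (i : II) : cov x (bLL K i) = x i := by simp [cov]

theorem sum_bLL (c : II → K) : (∑ i, c i • bLL K i : LL K) = c := by
  have := (bLL K).equivFun_symm_apply c
  rw [← this]
  exact (Pi.basisFun K II).equivFun.symm_apply_eq.2 (by simp)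

theorem dual_apply (x : Dual K (LL K)) (Z : II → K) :
    x (show LL K from Z) = (fun j => x (bLL K j)) ⬝ᵥ Z := by
  conv_lhs => rw [← sum_bLL Z, map_sum]
  simp [dotProduct, mul_comm]

theorem dual_lie (x : Dual K (LL K)) (Z Z' : LL K) :
    x ⁅Z, Z'⁆ = PF (fun j => x (bLL K j)) Z Z' := by
  rw [PF_eq_lbr]
  exact dual_apply x (lbr Z Z')

theorem finrank_LL : finrank K (LL K) = 122 := by
  rw [finrank_eq_card_basis (bLL K), card_II]

end Pool.Agent.MP_d920b6_mp.Cx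

end
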